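import Pool.Agent.TRG.St

/-!
# TRG, module BAL : consequences of `Ker`
-/

set_option autoImplicit false

open Submodule
open Pool.Agent.SPT Pool.Agent.SPT.Rel

namespace Pool.Agent.TRG

private theorem BAL_mem_inn {X : Finset E} {M : Submodule (ZMod 2) E} {v : E} :
    v ∈ inn X M ↔ v ∈ X ∧ v ∈ M := by
  classical
  simp [inn]

private theorem BAL_mem_out {X : Finset E} {M : Submodule (ZMod 2) E} {v : E} :
    v ∈ out X M ↔ v ∈ X ∧ v ∉ M := by
  classical
  simp [out]

private theorem BAL_finrankE : Module.finrank (ZMod 2) E = 5 := by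
  simp [E]

private theorem BAL_two (x : E) : x + x = 0 := by
  funext i
  have h : ∀ c : ZMod 2, c + c = 0 := by decide
  exact h (x i)

/-- extension of an independent family by elements of `T` -/
private theorem BAL_ext (T : Finset E) (k : ℕ) (b : Fin k → E)
    (hb : LinearIndependent (ZMod 2) b) : ∀ n, k ≤ n → n ≤ Module.finrank (ZMod 2) (sp T) →
    ∃ b' : Fin n → E, LinearIndependent (ZMod 2) b' ∧
      (∀ (i : Fin k) (hi : (i : ℕ) < n), b' ⟨i, hi⟩ = b i) ∧
      ∀ i : Fin n, k ≤ (i : ℕ) → b' i ∈ T := by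
  intro n hn
  induction n, hn using Nat.le_induction with
  | base =>
    intro _
    exact ⟨b, hb, fun i hi => rfl, fun i hi => absurd i.2 (by omega)⟩
  | succ n hn ih =>
    intro h1
    obtain ⟨b', h2, h3, h4⟩ := ih (by omega)
    have h5 : ∃ x ∈ T, x ∉ span (ZMod 2) (Set.range b') := by
      by_contra hcon
      push Not at hcon
      have h6 : sp T ≤ span (ZMod 2) (Set.range b') := span_le.2 fun x hx => hcon x hx
      have h7 := Submodule.finrank_mono h6
      have h8 := finrank_span_eq_card h2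
      rw [Fintype.card_fin] at h8
      omega
    obtain ⟨x, hx, hx'⟩ := h5
    refine ⟨Fin.snoc b' x, (linearIndependent_finSnoc).2 ⟨h2, hx'⟩, ?_, ?_⟩
    · intro i hi
      have hi2 : (i : ℕ) < n := lt_of_lt_of_le i.2 hn
      have e1 : (⟨i, hi⟩ : Fin (n + 1)) = Fin.castSucc ⟨i, hi2⟩ := rfl
      rw [e1, Fin.snoc_castSucc, h3 i hi2]
    · intro i hi
      induction i using Fin.lastCases with
      | last => rw [Fin.snoc_last]; exact hx
      | cast j => rw [Fin.snoc_castSucc]; exact h4 j hi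

private theorem BAL_span_eq {b : Fin 5 → E} (hb : LinearIndependent (ZMod 2) b)
    (s : Finset (Fin 5)) (G : Submodule (ZMod 2) E) (hG : ∀ i ∈ s, b i ∈ G)
    (hc : Module.finrank (ZMod 2) G = s.card) :
    span (ZMod 2) (b '' (s : Set (Fin 5))) = G := by
  have h1 : span (ZMod 2) (b '' (s : Set (Fin 5))) ≤ G := by
    rw [span_le]
    rintro _ ⟨i, hi, rfl⟩
    exact hG i hi
  have h2 : LinearIndependent (ZMod 2) (fun i : s => b i) :=
    hb.comp (fun i : s => (i : Fin 5)) Subtype.val_injective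
  have h3 := finrank_span_eq_card h2
  have h4 : Set.range (fun i : s => b i) = b '' (s : Set (Fin 5)) := by
    ext y
    constructor
    · rintro ⟨i, rfl⟩
      exact ⟨i, i.2, rfl⟩
    · rintro ⟨i, hi, rfl⟩
      exact ⟨⟨i, hi⟩, rfl⟩
  rw [h4, Fintype.card_coe] at h3
  exact Submodule.eq_of_le_of_finrank_eq h1 (by rw [h3, hc])

private theorem BAL_basis (X : Finset E) (W : Submodule (ZMod 2) E) (hX : sp X = ⊤)
    (hW : Module.finrank (ZMod 2) W = 4) (hs : sp (inn X W) = W) (F : Finset E)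
    (hF : F ⊆ inn X W) : ∃ b : Fin 5 → E, Bas X b ∧ (∀ i, i ≠ 4 → b i ∈ W) ∧ b 4 ∉ W ∧
      ∀ i : Fin 5, (i : ℕ) < rk F → b i ∈ F := by
  have hFW : sp F ≤ W := span_le.2 fun x hx => (BAL_mem_inn.1 (hF hx)).2
  have hr : rk F ≤ 4 := by
    have := Submodule.finrank_mono hFW
    rw [hW] at this
    exact this
  obtain ⟨b1, h1, -, h1F⟩ := BAL_ext F 0 Fin.elim0 linearIndependent_empty_type (rk F)
    (Nat.zero_le _) le_rfl
  obtain ⟨b2, h2, h2b, h2W⟩ := BAL_ext (inn X W) (rk F) b1 h1 4 hr (by rw [hs, hW])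
  have h2m : ∀ i : Fin 4, b2 i ∈ inn X W := by
    intro i
    rcases lt_or_ge (i : ℕ) (rk F) with hi | hi
    · have := h2b ⟨i, hi⟩ i.2
      have e : b2 i = b1 ⟨i, hi⟩ := this
      rw [e]
      exact hF (h1F _ (Nat.zero_le _))
    · exact h2W i hi
  have h3 : ∃ x ∈ X, x ∉ W := by
    by_contra hcon
    push Not at hcon
    have h4 : sp X ≤ W := span_le.2 fun x hx => hcon x hx
    rw [hX, top_le_iff] at h4
    rw [h4, finrank_top, BAL_finrankE] at hW
    omega
  obtain ⟨x, hx, hxW⟩ := h3
  have h5 : span (ZMod 2) (Set.range b2) ≤ W := by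
    rw [span_le]
    rintro _ ⟨i, rfl⟩
    exact (BAL_mem_inn.1 (h2m i)).2
  refine ⟨Fin.snoc b2 x, ⟨?_, (linearIndependent_finSnoc).2 ⟨h2, fun h => hxW (h5 h)⟩⟩,
    ?_, ?_, ?_⟩
  · intro i
    induction i using Fin.lastCases with
    | last => rw [Fin.snoc_last]; exact hx
    | cast j => rw [Fin.snoc_castSucc]; exact (BAL_mem_inn.1 (h2m j)).1
  · intro i hi
    induction i using Fin.lastCases with
    | last => exact absurd rfl hi
    | cast j => rw [Fin.snoc_castSucc]; exact (BAL_mem_inn.1 (h2m j)).2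
  · have e : (4 : Fin 5) = Fin.last 4 := rfl
    rw [e, Fin.snoc_last]
    exact hxW
  · intro i hi
    induction i using Fin.lastCases with
    | last => simp only [Fin.val_last] at hi; omega
    | cast j =>
      rw [Fin.snoc_castSucc]
      have hi' : (j : ℕ) < rk F := hi
      have := h2b ⟨j, hi'⟩ j.2
      have e : b2 j = b1 ⟨j, hi'⟩ := this
      rw [e]
      exact h1F _ (Nat.zero_le _)

private theorem BAL_H4 {X : Finset E} {b : Fin 5 → E} (hb : Bas X b) (W : Submodule (ZMod 2) E)
    (hW : Module.finrank (ZMod 2) W = 4) (hbW : ∀ i, i ≠ 4 → b i ∈ W) :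
    span (ZMod 2) (b '' {j | j ≠ 4}) = W := by
  have h := BAL_span_eq hb.2 (Finset.univ.erase (4 : Fin 5)) W
    (fun i hi => hbW i (Finset.ne_of_mem_erase hi)) (by rw [hW]; decide)
  rw [← h]
  apply congrArg
  apply congrArg
  ext j
  simp

/-- the two cosets of a hyperplane -/
private theorem BAL_coset (W : Submodule (ZMod 2) E) (hW : Module.finrank (ZMod 2) W = 4)
    (v w : E) (hv : v ∉ W) : w ∉ W ↔ w + v ∈ W := by
  constructor
  · intro hw
    have h1 : W ⊔ span (ZMod 2) {v} = ⊤ := by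
      have hlt : W < W ⊔ span (ZMod 2) {v} := by
        refine lt_of_le_of_ne le_sup_left fun h => hv ?_
        rw [h]
        exact mem_sup_right (mem_span_singleton_self v)
      have h2 := Submodule.finrank_lt_finrank_of_lt hlt
      apply Submodule.eq_top_of_finrank_eq
      have h3 := Submodule.finrank_le (W ⊔ span (ZMod 2) {v})
      rw [BAL_finrankE] at h3 ⊢
      omega
    have h2 : w ∈ W ⊔ span (ZMod 2) {v} := by rw [h1]; trivial
    obtain ⟨a, ha, c, hc, hac⟩ := mem_sup.1 h2
    obtain ⟨t, ht⟩ := mem_span_singleton.1 hc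
    have h3 : ∀ t : ZMod 2, t = 0 ∨ t = 1 := by decide
    rcases h3 t with rfl | rfl
    · rw [zero_smul] at ht
      rw [← ht, add_zero] at hac
      exact absurd (hac ▸ ha) hw
    · rw [one_smul] at ht
      rw [← hac, ← ht, add_assoc, BAL_two, add_zero]
      exact ha
  · intro h hw
    exact hv ((Submodule.add_mem_iff_right W hw).1 h)

/-- the last column of the form vanishes, for every `D` between `out X W` and `X` -/
private theorem BAL_col (hCO2 : St_CO2) (X : Finset E) (u : E → ℤ) (L : E → Fin 5 → ℤ)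
    (hU : Uni X L) (W : Submodule (ZMod 2) E) (hW : Module.finrank (ZMod 2) W = 4)
    (hK : Ker X u L W) (b : Fin 5 → E) (hb : Bas X b) (hbW : ∀ i, i ≠ 4 → b i ∈ W)
    (hb4 : b 4 ∉ W) (D : Finset E) (hD : D ⊆ X) (hoD : out X W ⊆ D) (i : Fin 5) :
    Qf L b D u i 4 = 0 := by
  rw [← hK b hb hbW hb4 i]
  unfold Qf
  symm
  apply Finset.sum_subset hoD
  intro v hvD hv
  have hvW : v ∈ W := by
    by_contra h
    exact hv (BAL_mem_out.2 ⟨hD hvD, h⟩)
  have h1 : co L b v 4 = 0 := by
    rw [((hCO2 X L hU b hb).1 v (hD hvD) 4), BAL_H4 hb W hW hbW]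
    exact hvW
  rw [h1, mul_zero]

private theorem BAL_one (hQF : St_QF) (X : Finset E) (u : E → ℤ) (L : E → Fin 5 → ℤ)
    (hU : Uni X L) (hX : sp X = ⊤) (W : Submodule (ZMod 2) E)
    (hW : Module.finrank (ZMod 2) W = 4) (hs : sp (inn X W) = W) (hK : Ker X u L W) :
    ∀ v, v ∉ W → cs X u W v = 0 := by
  classical
  intro v hv
  obtain ⟨b, hb, hbW, hb4, -⟩ := BAL_basis X W hX hW hs ∅ (Finset.empty_subset _)
  have h1 := hK b hb hbW hb4 4
  have hsub : out X W ⊆ X := fun x hx => (BAL_mem_out.1 hx).1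
  rw [(hQF X L hU b hb).1 4 (out X W) u hsub, BAL_H4 hb W hW hbW] at h1
  have h2 : out (out X W) W = X.filter (fun w => w + v ∈ W) := by
    ext w
    rw [BAL_mem_out, BAL_mem_out, Finset.mem_filter, ← BAL_coset W hW v w hv]
    tauto
  rw [h2] at h1
  unfold cs
  exact h1

private theorem BAL_three (hQF : St_QF) (hCS : St_CS) (X : Finset E) (u : E → ℤ)
    (L : E → Fin 5 → ℤ) (hU : Uni X L) (hX : sp X = ⊤) (W : Submodule (ZMod 2) E)
    (hW : Module.finrank (ZMod 2) W = 4) (hs : sp (inn X W) = W) (hK : Ker X u L W)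
    (F : Finset E) (hF : F ⊆ inn X W) (hr : rk F = 3) :
    ∀ v, v ∉ W → cs X u (sp F) v = 0 := by
  classical
  obtain ⟨b, hb, hbW, hb4, hbF⟩ := BAL_basis X W hX hW hs F hF
  have hFW : sp F ≤ W := span_le.2 fun x hx => (BAL_mem_inn.1 (hF hx)).2
  have hG : span (ZMod 2) (b '' (({0, 1, 2} : Finset (Fin 5)) : Set (Fin 5))) = sp F := by
    apply BAL_span_eq hb.2
    · intro i hi
      apply subset_span
      apply hbF
      rw [hr]
      simp only [Finset.mem_insert, Finset.mem_singleton] at hi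
      rcases hi with rfl | rfl | rfl <;> decide
    · exact hr
  have hGH : ∀ s : Set (Fin 5), (∀ i ∈ (({0, 1, 2} : Finset (Fin 5)) : Set (Fin 5)), i ∈ s) →
      sp F ≤ span (ZMod 2) (b '' s) := by
    intro s h
    rw [← hG]
    exact span_mono (Set.image_mono h)
  have hG3 : sp F ≤ span (ZMod 2) (b '' {j | j ≠ 3}) := by
    apply hGH
    intro i hi
    simp only [Finset.coe_insert, Finset.coe_singleton, Set.mem_insert_iff,
      Set.mem_singleton_iff] at hi
    rcases hi with rfl | rfl | rfl <;> decide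
  have h43 : b 4 ∈ span (ZMod 2) (b '' {j | j ≠ 3}) :=
    subset_span ⟨4, by decide, rfl⟩
  have h33 : b 3 ∉ span (ZMod 2) (b '' {j | j ≠ 3}) := by
    apply hb.2.notMem_span_image
    intro h
    exact h rfl
  have h3G : b 3 ∉ sp F := fun h => h33 (hG3 h)
  have h3W : b 3 ∈ W := hbW 3 (by decide)
  have hsup : sp F ⊔ span (ZMod 2) {b 3} = W := by
    have hle : sp F ⊔ span (ZMod 2) {b 3} ≤ W :=
      sup_le hFW (span_le.2 (Set.singleton_subset_iff.2 h3W))
    have hlt : sp F < sp F ⊔ span (ZMod 2) {b 3} := by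
      refine lt_of_le_of_ne le_sup_left fun h => h3G ?_
      rw [h]
      exact mem_sup_right (mem_span_singleton_self _)
    have h2 := Submodule.finrank_lt_finrank_of_lt hlt
    have h3 := Submodule.finrank_mono hle
    have h4 : Module.finrank (ZMod 2) (sp F) = 3 := hr
    apply Submodule.eq_of_le_of_finrank_eq hle
    omega
  -- elements of `W` modulo `sp F`
  have hmod : ∀ w ∈ W, w ∈ sp F ∨ w + b 3 ∈ sp F := by
    intro w hw
    rw [← hsup] at hw
    obtain ⟨a, ha, c, hc, hac⟩ := mem_sup.1 hw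
    obtain ⟨t, ht⟩ := mem_span_singleton.1 hc
    have h3 : ∀ t : ZMod 2, t = 0 ∨ t = 1 := by decide
    rcases h3 t with rfl | rfl
    · left
      rw [zero_smul] at ht
      rw [← ht, add_zero] at hac
      exact hac ▸ ha
    · right
      rw [one_smul] at ht
      rw [← hac, ← ht, add_assoc, BAL_two, add_zero]
      exact ha
  have hcoset := BAL_coset W hW (b 4)
  have hsub : out X W ⊆ X := fun x hx => (BAL_mem_out.1 hx).1
  obtain ⟨σ, hσ, hq⟩ := (hQF X L hU b hb).2 3 4 (by decide)
  have h1 := hK b hb hbW hb4 3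
  rw [hq (out X W) u hsub, BAL_H4 hb W hW hbW] at h1
  have h2 : out (out (out X W) (span (ZMod 2) (b '' {k | k ≠ 3}))) W =
      X.filter (fun w => w + (b 4 + b 3) ∈ sp F) := by
    ext w
    rw [BAL_mem_out, BAL_mem_out, BAL_mem_out, Finset.mem_filter]
    constructor
    · rintro ⟨⟨⟨hwX, hwW⟩, hw3⟩, -⟩
      refine ⟨hwX, ?_⟩
      have h4 := (hcoset w hb4).1 hwW
      rcases hmod _ h4 with h5 | h5
      · exfalso
        apply hw3
        have h6 := (span (ZMod 2) (b '' {j | j ≠ 3})).add_mem (hG3 h5) h43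
        rw [add_assoc, BAL_two, add_zero] at h6
        exact h6
      · rw [← add_assoc]
        exact h5
    · rintro ⟨hwX, hw⟩
      have hwW : w ∉ W := by
        intro h
        have h4 := hFW hw
        rw [← add_assoc] at h4
        have h5 := (Submodule.add_mem_iff_left W h3W).1 h4
        exact hb4 ((Submodule.add_mem_iff_right W h).1 h5)
      refine ⟨⟨⟨hwX, hwW⟩, ?_⟩, hwW⟩
      intro h
      have h4 := hG3 hw
      have h5 := (Submodule.add_mem_iff_right _ h).1 h4
      exact h33 ((Submodule.add_mem_iff_right _ h43).1 h5)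
  rw [h2] at h1
  have h3 : cs X u (sp F) (b 4 + b 3) = 0 := by
    unfold cs
    rcases hσ with rfl | rfl
    · rw [one_mul] at h1
      exact h1
    · rw [neg_one_mul, neg_eq_zero] at h1
      exact h1
  have h4 := (hCS X u).2.1 (sp F) (b 4) (b 3) h3G
  rw [hsup, BAL_one hQF X u L hU hX W hW hs hK (b 4) hb4, h3, add_zero] at h4
  intro v hv
  have h5 : v + b 4 ∈ W := (hcoset v hb4).1 hv
  rcases hmod _ h5 with h6 | h6
  · rw [(hCS X u).1 (sp F) v (b 4) h6, ← h4]
  · rw [add_assoc] at h6
    rw [(hCS X u).1 (sp F) v (b 4 + b 3) h6, h3]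

/-- [BAL] consequences of `Ker` -/
theorem BAL_proof (hCO2 : St_CO2) (hQF : St_QF) (hTAU : St_TAU) (hCS : St_CS) : St_BAL := by
  classical
  intro X u L hU hX W hW hs hK
  refine ⟨BAL_one hQF X u L hU hX W hW hs hK,
    fun F hF hr => BAL_three hQF hCS X u L hU hX W hW hs hK F hF hr, ?_⟩
  intro D hD hoD F hF
  obtain ⟨b, hb, hbW, hb4, hbF⟩ := BAL_basis X W hX hW hs F hF
  have hcol := BAL_col hCO2 X u L hU W hW hK b hb hbW hb4 D hD hoD
  refine ⟨?_, ?_, ?_⟩
  · intro hr
    have hG : span (ZMod 2) (b '' (({0, 1} : Finset (Fin 5)) : Set (Fin 5))) = sp F := by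
      apply BAL_span_eq hb.2
      · intro i hi
        apply subset_span
        apply hbF
        rw [hr]
        simp only [Finset.mem_insert, Finset.mem_singleton] at hi
        rcases hi with rfl | rfl <;> decide
      · exact hr
    have hG' : sp F = span (ZMod 2) {b 0, b 1} := by
      rw [← hG]
      simp [Set.image_insert_eq, Set.image_singleton]
    rw [hG', (hTAU X L hU b hb D hD u).1]
    apply Matrix.det_eq_zero_of_column_eq_zero (2 : Fin 3)
    intro i
    exact hcol _
  · intro hr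
    have hG : span (ZMod 2) (b '' (({0} : Finset (Fin 5)) : Set (Fin 5))) = sp F := by
      apply BAL_span_eq hb.2
      · intro i hi
        apply subset_span
        apply hbF
        rw [hr]
        simp only [Finset.mem_singleton] at hi
        rcases hi with rfl
        decide
      · exact hr
    have hG' : sp F = span (ZMod 2) {b 0} := by
      rw [← hG]
      simp [Set.image_singleton]
    rw [hG', (hTAU X L hU b hb D hD u).2.1]
    apply Matrix.det_eq_zero_of_column_eq_zero (3 : Fin 4)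
    intro i
    exact hcol _
  · intro hr
    have hG' : sp F = ⊥ := Submodule.finrank_eq_zero.1 hr
    rw [hG', (hTAU X L hU b hb D hD u).2.2]
    apply Matrix.det_eq_zero_of_column_eq_zero (4 : Fin 5)
    intro i
    exact hcol _

end Pool.Agent.TRG
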