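import Pool.Agent.TRG.St

/-!
# TRG, module CO: the integral coordinates
-/

set_option autoImplicit false

open Submodule

namespace Pool.Agent.TRG

private theorem CO_upd (L : E → Fin 5 → ℤ) (b : Fin 5 → E) (i : Fin 5) (v : E) :
    (fun j k => L (Function.update b i v j) k : Matrix (Fin 5) (Fin 5) ℤ) =
      Matrix.updateRow (fun j k => L (b j) k) i (L v) := by
  ext j k
  by_cases h : j = i
  · subst h
    simp
  · rw [Matrix.updateRow_ne h, Function.update_of_ne h]

private theorem CO_cramer (M : Matrix (Fin 5) (Fin 5) ℤ) (w : Fin 5 → ℤ) (k : Fin 5) :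
    ∑ i, M i k * (M.updateRow i w).det = M.det * w k := by
  have h := congrFun (Matrix.mulVec_cramer M.transpose w) k
  rw [Matrix.det_transpose] at h
  simp only [Matrix.mulVec, dotProduct, Matrix.transpose_apply, Pi.smul_apply, smul_eq_mul,
    Matrix.cramer_transpose_apply] at h
  exact h

private theorem CO_det_one (i : Fin 5) (v : Fin 5 → ℤ) :
    ((1 : Matrix (Fin 5) (Fin 5) ℤ).updateRow i v).det = v i := by
  have h := CO_cramer (1 : Matrix (Fin 5) (Fin 5) ℤ) v i
  rw [Matrix.det_one, one_mul, Finset.sum_eq_single i] at h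
  · rwa [Matrix.one_apply_eq, one_mul] at h
  · intro l _ hl
    rw [Matrix.one_apply_ne hl, zero_mul]
  · intro h'
    exact absurd (Finset.mem_univ i) h'

private theorem CO_minor (i j : Fin 5) (hij : i ≠ j) (v w : Fin 5 → ℤ) :
    (((1 : Matrix (Fin 5) (Fin 5) ℤ).updateRow i v).updateRow j w).det =
      v i * w j - v j * w i := by
  have h := CO_cramer ((1 : Matrix (Fin 5) (Fin 5) ℤ).updateRow i v) w j
  rw [CO_det_one, ← Finset.sum_subset (Finset.subset_univ {i, j}), Finset.sum_pair hij] at h
  · rw [Matrix.updateRow_self, Matrix.updateRow_idem, CO_det_one, Matrix.updateRow_ne hij.symm,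
      Matrix.one_apply_eq, one_mul] at h
    linear_combination h
  · intro l _ hl
    rw [Finset.mem_insert, Finset.mem_singleton, not_or] at hl
    rw [Matrix.updateRow_ne hl.1, Matrix.one_apply_ne hl.2, zero_mul]

theorem CO_proof : St_CO := by
  intro X L hL b hb
  obtain ⟨M, hM⟩ : ∃ M : Matrix (Fin 5) (Fin 5) ℤ, M = fun j k => L (b j) k := ⟨_, rfl⟩
  -- the determinant of the basis
  have hbu : IsUnit (Matrix.det (fun j k => b j k : Matrix (Fin 5) (Fin 5) (ZMod 2))) := by
    rw [← Matrix.isUnit_iff_isUnit_det, ← Matrix.linearIndependent_rows_iff_isUnit]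
    exact hb.2
  have hred : ((M.det : ℤ) : ZMod 2) =
      Matrix.det (fun j k => b j k : Matrix (Fin 5) (Fin 5) (ZMod 2)) := by
    have h := (Int.castRingHom (ZMod 2)).map_det M
    have h2 : (Int.castRingHom (ZMod 2)).mapMatrix M =
        (fun j k => b j k : Matrix (Fin 5) (Fin 5) (ZMod 2)) := by
      ext j k
      rw [RingHom.mapMatrix_apply, Matrix.map_apply, hM]
      exact hL.red _ (hb.1 j) k
    rw [h2] at h
    exact h
  have hd : M.det = 1 ∨ M.det = -1 := by
    rcases hL.det b hb.1 with h | h | h
    · exfalso
      rw [← hM] at h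
      rw [h, Int.cast_zero] at hred
      rw [← hred] at hbu
      exact not_isUnit_zero hbu
    · rw [← hM] at h
      exact Or.inl h
    · rw [← hM] at h
      exact Or.inr h
  have hdd : M.det * M.det = 1 := by
    rcases hd with h | h <;> rw [h] <;> norm_num
  have hco : ∀ v i, co L b v i = M.det * (M.updateRow i (L v)).det := by
    intro v i
    unfold co
    rw [CO_upd, ← hM]
  -- (1)
  have h1 : ∀ i j, co L b (b i) j = if i = j then 1 else 0 := by
    intro i j
    rw [hco]
    by_cases h : i = j
    · subst h
      rw [if_pos rfl]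
      have h2 : M.updateRow i (L (b i)) = M := by
        have h3 : L (b i) = M i := by rw [hM]
        rw [h3, Matrix.updateRow_eq_self]
      rw [h2, hdd]
    · rw [if_neg h]
      have h2 : (M.updateRow j (L (b i))).det = 0 := by
        refine Matrix.det_zero_of_row_eq h ?_
        rw [Matrix.updateRow_ne h, Matrix.updateRow_self, hM]
      rw [h2, mul_zero]
  -- (7)
  have h7 : ∀ v k, L v k = ∑ i, co L b v i * L (b i) k := by
    intro v k
    have h2 := CO_cramer M (L v) k
    have h3 : ∑ i, co L b v i * L (b i) k =
        M.det * ∑ i, M i k * (M.updateRow i (L v)).det := by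
      rw [Finset.mul_sum]
      refine Finset.sum_congr rfl fun i _ => ?_
      rw [hco]
      have h4 : L (b i) k = M i k := by rw [hM]
      rw [h4]
      ring
    rw [h3, h2, ← mul_assoc, hdd, one_mul]
  -- (3)
  have h3 : ∀ v ∈ X, ∀ i, co L b v i = 0 ∨ co L b v i = 1 ∨ co L b v i = -1 := by
    intro v hv i
    have hm : ∀ j, Function.update b i v j ∈ X := by
      intro j
      by_cases h : j = i
      · subst h
        rw [Function.update_self]
        exact hv
      · rw [Function.update_of_ne h]
        exact hb.1 j
    have h2 := hL.det _ hm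
    rw [CO_upd, ← hM] at h2
    rw [hco]
    rcases h2 with h2 | h2 | h2 <;> rcases hd with h | h <;> rw [h2, h] <;> norm_num
  -- (5)
  have h5 : ∀ x : Fin 5 → E, (∀ i, x i ∈ X) →
      |Matrix.det (fun i j => co L b (x i) j)| ≤ 1 := by
    intro x hx
    obtain ⟨C, hC⟩ : ∃ C : Matrix (Fin 5) (Fin 5) ℤ, C = fun i j => co L b (x i) j := ⟨_, rfl⟩
    have h2 : (fun i j => L (x i) j : Matrix (Fin 5) (Fin 5) ℤ) = C * M := by
      ext i j
      rw [Matrix.mul_apply, h7 (x i) j]
      refine Finset.sum_congr rfl fun k _ => ?_
      rw [hM, hC]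
    have h3 := hL.det x hx
    rw [h2, Matrix.det_mul] at h3
    rw [← hC]
    have h4 : C.det = C.det * M.det * M.det := by
      rw [mul_assoc, hdd, mul_one]
    rw [h4]
    rcases h3 with h3 | h3 | h3 <;> rcases hd with h | h <;> rw [h3, h] <;> norm_num
  refine ⟨h1, ?_, h3, ?_, h5, h7⟩
  · intro v hv
    ext k
    rw [Finset.sum_apply, ← hL.red v hv k, h7 v k]
    push_cast
    refine Finset.sum_congr rfl fun i _ => ?_
    rw [Pi.smul_apply, smul_eq_mul, hL.red _ (hb.1 i) k]
  · intro v hv w hw i j hij
    have hm : ∀ a, Function.update (Function.update b i v) j w a ∈ X := by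
      intro a
      by_cases h : a = j
      · subst h
        rw [Function.update_self]
        exact hw
      · rw [Function.update_of_ne h]
        by_cases h' : a = i
        · subst h'
          rw [Function.update_self]
          exact hv
        · rw [Function.update_of_ne h']
          exact hb.1 a
    have h2 := h5 _ hm
    have h4 : (fun a c => co L b (Function.update (Function.update b i v) j w a) c :
        Matrix (Fin 5) (Fin 5) ℤ) =
        ((1 : Matrix (Fin 5) (Fin 5) ℤ).updateRow i (co L b v)).updateRow j (co L b w) := by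
      ext a c
      by_cases h : a = j
      · subst h
        rw [Function.update_self, Matrix.updateRow_self]
      · rw [Function.update_of_ne h, Matrix.updateRow_ne h]
        by_cases h' : a = i
        · subst h'
          rw [Function.update_self, Matrix.updateRow_self]
        · rw [Function.update_of_ne h', Matrix.updateRow_ne h', h1, Matrix.one_apply]
    rw [h4, CO_minor i j hij] at h2
    exact h2

end Pool.Agent.TRG
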