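import Pool.Agent.TRG.St

set_option autoImplicit false

open Submodule
open Pool.Agent.SPT Pool.Agent.SPT.Rel

namespace Pool.Agent.TRG

private theorem CO2_co (L : E → Fin 5 → ℤ) (b : Fin 5 → E) (v : E) (i : Fin 5) :
    co L b v i = Matrix.det (fun j k => L (b j) k) *
      Matrix.cramer (Matrix.transpose (fun j k => L (b j) k)) (L v) i := by
  unfold co
  rw [Matrix.cramer_transpose_apply]
  congr 2
  funext j k
  by_cases h : j = i
  · subst h
    simp
  · simp [Matrix.updateRow_ne h, Function.update_of_ne h]

private theorem CO2_lin (L : E → Fin 5 → ℤ) (b : Fin 5 → E) {ι : Type*} (D : Finset ι) (m : ι → ℤ)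
    (g : ι → Fin 5 → ℤ) (i : Fin 5) :
    ∑ v ∈ D, m v * (Matrix.det (fun j k => L (b j) k) *
      Matrix.cramer (Matrix.transpose (fun j k => L (b j) k)) (g v) i) =
      Matrix.det (fun j k => L (b j) k) *
      Matrix.cramer (Matrix.transpose (fun j k => L (b j) k)) (∑ v ∈ D, m v • g v) i := by
  rw [map_sum, Finset.sum_apply, Finset.mul_sum]
  refine Finset.sum_congr rfl fun v _ => ?_
  rw [map_smul, Pi.smul_apply, smul_eq_mul]
  ring

theorem CO2_proof (hCO : St_CO) : St_CO2 := by
  intro X L hU b hb
  obtain ⟨-, h2, h3, -, -, -⟩ := hCO X L hU b hb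
  refine ⟨fun v hv i => ?_, fun D m h i => ?_, fun π v i => ?_, fun b' hb' v j => ?_⟩
  · constructor
    · intro h
      rw [h2 v hv]
      refine Submodule.sum_mem _ fun j _ => ?_
      by_cases hj : j = i
      · subst hj
        rw [h]
        simp
      · exact Submodule.smul_mem _ _ (Submodule.subset_span ⟨j, hj, rfl⟩)
    · intro h
      have hz : ((co L b v i : ℤ) : ZMod 2) = 0 := by
        by_contra hne
        have h1 : ((co L b v i : ℤ) : ZMod 2) • b i ∈ span (ZMod 2) (b '' {j | j ≠ i}) := by
          have h4 : ((co L b v i : ℤ) : ZMod 2) • b i =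
              v - ∑ j ∈ Finset.univ.erase i, ((co L b v j : ℤ) : ZMod 2) • b j := by
            rw [eq_sub_iff_add_eq]
            exact (Finset.add_sum_erase Finset.univ
              (fun j => ((co L b v j : ℤ) : ZMod 2) • b j) (Finset.mem_univ i)).trans
                (h2 v hv).symm
          rw [h4]
          refine Submodule.sub_mem _ h (Submodule.sum_mem _ fun j hj => ?_)
          exact Submodule.smul_mem _ _
            (Submodule.subset_span ⟨j, (Finset.mem_erase.1 hj).1, rfl⟩)
        have h5 : b i ∈ span (ZMod 2) (b '' {j | j ≠ i}) := by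
          have h6 := Submodule.smul_mem _ (((co L b v i : ℤ) : ZMod 2)⁻¹) h1
          rwa [smul_smul, inv_mul_cancel₀ hne, one_smul] at h6
        exact hb.2.notMem_span_image (s := {j | j ≠ i}) (by simp) h5
      rcases h3 v hv i with h4 | h4 | h4
      · exact h4
      · rw [h4] at hz
        exact absurd hz (by decide)
      · rw [h4] at hz
        exact absurd hz (by decide)
  · have h4 : (∑ v ∈ D, m v • L v) = 0 := by
      funext k
      rw [Finset.sum_apply]
      simpa using h k
    have h5 := CO2_lin L b D m (fun v => L v) i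
    simp only [← CO2_co] at h5
    rw [h5, h4]
    simp
  · unfold co
    have e1 : Function.update (b ∘ π) i v = Function.update b (π i) v ∘ π := by
      funext j
      by_cases hj : j = i
      · subst hj
        simp
      · have : π j ≠ π i := fun h => hj (π.injective h)
        simp [Function.update_of_ne hj, Function.update_of_ne this]
    have e2 : ∀ N : Fin 5 → E, Matrix.det (fun j k => L ((N ∘ π) j) k) =
        ((Equiv.Perm.sign π : ℤˣ) : ℤ) * Matrix.det (fun j k => L (N j) k) := by
      intro N
      exact Matrix.det_permute π (fun j k => L (N j) k)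
    rw [e1, e2, e2]
    have e3 : ((Equiv.Perm.sign π : ℤˣ) : ℤ) * ((Equiv.Perm.sign π : ℤˣ) : ℤ) = 1 := by
      rw [← Units.val_mul, Int.units_mul_self]
      rfl
    linear_combination (Matrix.det (fun j k => L (b j) k) *
      Matrix.det (fun j k => L (Function.update b (π i) v j) k)) * e3
  · obtain ⟨-, -, -, -, -, h6⟩ := hCO X L hU b' hb'
    have h4 : L v = ∑ i, co L b' v i • L (b' i) := by
      funext k
      rw [Finset.sum_apply]
      simpa using h6 v k
    have h5 := CO2_lin L b Finset.univ (fun i => co L b' v i) (fun i => L (b' i)) j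
    rw [← h4] at h5
    simp only [← CO2_co] at h5
    exact h5.symm

end Pool.Agent.TRG
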