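import Pool.Agent.TRG.St

/-!
# TRG : module CS, sums over classes
-/

set_option autoImplicit false

open Submodule
open Pool.Agent.SPT Pool.Agent.SPT.Rel

namespace Pool.Agent.TRG

private theorem CS_two (x : E) : x + x = 0 := by
  funext i
  exact CharTwo.add_self_eq_zero (x i)

private theorem CS_sup (G : Submodule (ZMod 2) E) (w y : E) :
    y ∈ G ⊔ span (ZMod 2) {w} ↔ y ∈ G ∨ y + w ∈ G := by
  constructor
  · intro h
    obtain ⟨g, hg, z, hz, rfl⟩ := mem_sup.1 h
    obtain ⟨c, rfl⟩ := mem_span_singleton.1 hz
    have hall : ∀ c : ZMod 2, c = 0 ∨ c = 1 := by decide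
    have hc : c = 0 ∨ c = 1 := hall c
    rcases hc with rfl | rfl
    · left
      rw [zero_smul, add_zero]
      exact hg
    · right
      rw [one_smul, add_assoc, CS_two, add_zero]
      exact hg
  · rintro (h | h)
    · exact mem_sup_left h
    · have h1 : y = (y + w) + w := by rw [add_assoc, CS_two, add_zero]
      rw [h1]
      exact add_mem (mem_sup_left h) (mem_sup_right (mem_span_singleton_self w))

theorem CS_proof : St_CS := by
  classical
  intro X u
  refine ⟨?_, ?_, ?_, ?_, ?_, ?_⟩
  · intro G v w hvw
    have h : X.filter (fun x => x + v ∈ G) = X.filter (fun x => x + w ∈ G) := by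
      apply Finset.filter_congr
      intro x _
      constructor
      · intro hx
        have h1 : x + w = (x + v) + (v + w) := by
          rw [add_assoc, ← add_assoc v v w, CS_two, zero_add]
        rw [h1]
        exact add_mem hx hvw
      · intro hx
        have h1 : x + v = (x + w) + (v + w) := by
          rw [add_comm v w, add_assoc, ← add_assoc w w v, CS_two, zero_add]
        rw [h1]
        exact add_mem hx hvw
    unfold cs
    rw [h]
  · intro G v w hw
    unfold cs
    rw [← Finset.sum_union]
    · apply Finset.sum_congr _ (fun _ _ => rfl)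
      ext x
      simp only [Finset.mem_union, Finset.mem_filter]
      rw [CS_sup, add_assoc]
      tauto
    · rw [Finset.disjoint_left]
      intro x hx hx'
      rw [Finset.mem_filter] at hx hx'
      apply hw
      have h1 : w = (x + v) + (x + (v + w)) := by
        have : (x + v) + (x + (v + w)) = (x + x) + (v + v) + w := by abel
        rw [this, CS_two, CS_two, zero_add, zero_add]
      rw [h1]
      exact add_mem hx.2 hx'.2
  · intro G M v hGM hv
    unfold cs out
    apply Finset.sum_congr _ (fun _ _ => rfl)
    ext x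
    simp only [Finset.mem_filter]
    constructor
    · rintro ⟨⟨h1, _⟩, h2⟩
      exact ⟨h1, h2⟩
    · rintro ⟨h1, h2⟩
      refine ⟨⟨h1, fun h3 => hv ?_⟩, h2⟩
      have h4 : v = x + (x + v) := by rw [← add_assoc, CS_two, zero_add]
      rw [h4]
      exact add_mem h3 (hGM h2)
  · intro G v h
    unfold cs at h
    obtain ⟨w, hw, _⟩ := Finset.exists_ne_zero_of_sum_ne_zero h
    rw [Finset.mem_filter] at hw
    exact ⟨w, hw.1, hw.2⟩
  · intro G
    refine ⟨Finset.filter_subset _ _, ?_⟩
    intro v hv h
    have h1 : span (ZMod 2) ((inn X G : Finset E) : Set E) ≤ G := by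
      rw [span_le]
      intro x hx
      exact (Finset.mem_filter.1 (Finset.mem_coe.1 hx)).2
    exact Finset.mem_filter.2 ⟨hv, h1 h⟩
  · intro M G hGM
    have h0 : inn (inn X M) G = inn X G := by
      ext x
      unfold inn
      simp only [Finset.mem_filter]
      constructor
      · rintro ⟨⟨h1, _⟩, h2⟩
        exact ⟨h1, h2⟩
      · rintro ⟨h1, h2⟩
        exact ⟨⟨h1, hGM h2⟩, h2⟩
    refine ⟨h0, ?_⟩
    unfold fl
    rw [Finset.mem_filter, Finset.mem_powerset]
    have h1 : inn X G ⊆ inn X M := by
      intro x hx
      have h2 := Finset.mem_filter.1 hx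
      exact Finset.mem_filter.2 ⟨h2.1, hGM h2.2⟩
    refine ⟨h1, h1, ?_⟩
    intro v hv h
    have h2 : span (ZMod 2) ((inn X G : Finset E) : Set E) ≤ G := by
      rw [span_le]
      intro x hx
      exact (Finset.mem_filter.1 (Finset.mem_coe.1 hx)).2
    exact Finset.mem_filter.2 ⟨(Finset.mem_filter.1 hv).1, h2 h⟩

end Pool.Agent.TRG
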