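import Pool.Agent.TRG.St

/-! # DC: deletion and contraction (MP_42db45_gt; helper42) -/

set_option autoImplicit false

open Submodule

namespace Pool.Agent.TRG

private theorem DC_span (K : Submodule (ZMod 2) E) (e : E) (W : Finset E) :
    K ⊔ sp (insert e W) = (K ⊔ span (ZMod 2) {e}) ⊔ sp W := by
  have h : sp (insert e W) = span (ZMod 2) {e} ⊔ sp W := by
    show span (ZMod 2) ((insert e W : Finset E) : Set E) = _
    rw [Finset.coe_insert, Submodule.span_insert]
  rw [h, sup_assoc]

/-- [DC] -/
theorem DC_proof : St_DC := by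
  intro B K x e he
  unfold TT
  rw [Finset.sum_powerset_insert he, Finset.mul_sum]
  congr 1
  refine Finset.sum_congr rfl fun W hW => ?_
  have heW : e ∉ W := fun h => he (Finset.mem_powerset.1 hW h)
  rw [DC_span]
  split_ifs
  · rw [Finset.prod_insert heW]
  · rw [mul_zero]

end Pool.Agent.TRG
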