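import Pool.Agent.TRG.St

/-!
# TRG [E0] : signs
-/

set_option autoImplicit false

open Submodule Filter Topology
open Pool.Agent.SPT Pool.Agent.SPT.Rel

namespace Pool.Agent.TRG

private theorem E0_idx : ∀ i k : Fin 3, i ≠ k → ∃ l : Fin 3, ∀ j : Fin 3, j ≠ l ↔ (j = k ∨ j = i) := by
  decide

private theorem E0_self (v w : E) : v + (v + w) = w := by
  rw [← add_assoc, CharTwo.add_self_eq_zero, zero_add]

theorem E0_proof (hCS : St_CS) : St_E0 := by
  intro X u o W hR v hv k
  obtain ⟨h1, h2, -⟩ := hCS X u
  refine ⟨?_, ?_⟩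
  · intro i hik
    obtain ⟨l, hl⟩ := E0_idx i k hik
    have hs : {j : Fin 3 | j ≠ l} = {k, i} := Set.ext hl
    have h3 : o i ∉ span (ZMod 2) ({o k} : Set E) := by
      have h4 := hR.ind.notMem_span_image (s := {k}) (x := i) (by
        intro h5
        exact hik h5)
      rw [Set.image_singleton] at h4
      exact h4
    have h5 := h2 (span (ZMod 2) {o k}) v (o i) h3
    have h6 := hR.two v hv l
    rw [hs, Set.image_pair, Submodule.span_insert, h5] at h6
    linarith
  · refine h1 _ _ _ ?_
    have h3 : v + o k + v = o k := by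
      rw [add_comm (v + o k) v, E0_self]
    rw [h3]
    exact Submodule.mem_span_singleton_self _

end Pool.Agent.TRG
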