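import Pool.Agent.TRG.St

/-!
# TRG [E1] : one outer coset and the inner coset
-/

set_option autoImplicit false

open Submodule Filter Topology
open Pool.Agent.SPT Pool.Agent.SPT.Rel

namespace Pool.Agent.TRG

private theorem E1_self (v w : E) : v + (v + w) = w := by
  rw [← add_assoc, CharTwo.add_self_eq_zero, zero_add]

private theorem E1_top (V : Submodule (ZMod 2) E) (h : Module.finrank (ZMod 2) V ≤ 4) : V ≠ ⊤ := by
  intro h1
  rw [h1, finrank_top, Module.finrank_fin_fun] at h
  exact absurd h (by norm_num)

theorem E1_proof (hE2 : St_E2) (_hCS : St_CS) : St_E1 := by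
  intro X u L o W hC hR k
  have hcon := hC.con (o k) (hR.mem k)
  have hex : ∃ v ∈ X, v ∉ W ∧ cs X u (span (ZMod 2) {o k}) v ≠ 0 := by
    by_contra h1
    push Not at h1
    refine E1_top W hR.hyp.le ?_
    rw [eq_top_iff, ← hcon, Submodule.span_le]
    rintro w (hw | ⟨hw1, hw2⟩)
    · rw [Set.mem_singleton_iff.mp hw]
      exact hR.le k
    · by_contra h2
      exact hw2 (h1 w hw1 h2)
  refine ⟨hex, ?_⟩
  obtain ⟨v, hvX, hvW, hv⟩ := hex
  by_contra h1
  push Not at h1
  refine E1_top (span (ZMod 2) (Set.range o) ⊔ span (ZMod 2) {v}) ?_ ?_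
  · have h2 : Module.finrank (ZMod 2) (span (ZMod 2) (Set.range o)) = 3 := by
      rw [finrank_span_eq_card hR.ind, Fintype.card_fin]
    have h3 : Module.finrank (ZMod 2) (span (ZMod 2) ({v} : Set E)) ≤ 1 :=
      (finrank_span_le_card ({v} : Set E)).trans (by simp)
    have h4 := Submodule.finrank_add_le_finrank_add_finrank
      (span (ZMod 2) (Set.range o)) (span (ZMod 2) ({v} : Set E))
    omega
  · rw [eq_top_iff, ← hcon, Submodule.span_le]
    rintro w (hw | ⟨hw1, hw2⟩)
    · rw [Set.mem_singleton_iff.mp hw]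
      exact Submodule.mem_sup_left (Submodule.subset_span ⟨k, rfl⟩)
    · by_cases hw3 : w ∈ W
      · by_cases hw4 : w ∈ span (ZMod 2) (Set.range o)
        · exact Submodule.mem_sup_left hw4
        · exact absurd (h1 w hw1 hw3 hw4) hw2
      · have h5 : v + w ∈ span (ZMod 2) (Set.range o) := by
          by_contra h6
          exact hw2 (hE2 X u L o W hC hR k v w hvW hw3 h6 hv)
        have h7 := Submodule.add_mem _
          (Submodule.mem_sup_right (S := span (ZMod 2) (Set.range o))
            (Submodule.mem_span_singleton_self v))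
          (Submodule.mem_sup_left (T := span (ZMod 2) {v}) h5)
        rw [E1_self] at h7
        exact h7

end Pool.Agent.TRG
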