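import Pool.Agent.TRG.St

/-!
# TRG : [E2] Not both outer cosets
-/

set_option autoImplicit false

open Submodule

namespace Pool.Agent.TRG

private theorem E2_two (x : E) : x + x = 0 := by
  funext i
  exact CharTwo.add_self_eq_zero (x i)

private theorem E2_01 : ∀ a : ZMod 2, a = 0 ∨ a = 1 := by decide

private theorem E2_ix : ∀ k : Fin 3, ∃ i j : Fin 3, i ≠ k ∧ j ≠ k ∧ i ≠ j := by decide

/-- coordinates with respect to a permuted independent family -/
private theorem E2_ind (o : Fin 3 → E) (ho : LinearIndependent (ZMod 2) o) (i j k : Fin 3)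
    (hik : i ≠ k) (hjk : j ≠ k) (hij : i ≠ j) (a b c : ZMod 2)
    (h : a • o i + b • o j + c • o k = 0) : a = 0 ∧ b = 0 ∧ c = 0 := by
  have hinj : Function.Injective (![i, j, k] : Fin 3 → Fin 3) := by
    intro x y
    fin_cases x <;> fin_cases y <;> simp [hik, hjk, hij, hik.symm, hjk.symm, hij.symm]
  have h1 := Fintype.linearIndependent_iff.1 (ho.comp _ hinj) ![a, b, c] (by
    rw [Fin.sum_univ_three]
    exact h)
  exact ⟨h1 0, h1 1, h1 2⟩

/-- the basis -/
private theorem E2_bas (o : Fin 3 → E) (ho : LinearIndependent (ZMod 2) o) (i j k : Fin 3)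
    (hik : i ≠ k) (hjk : j ≠ k) (hij : i ≠ j) (d f : E)
    (hd : d ∉ span (ZMod 2) (Set.range o)) (hf : f ∉ span (ZMod 2) (Set.range o))
    (hdf : d + f ∉ span (ZMod 2) (Set.range o)) :
    LinearIndependent (ZMod 2) (![o i, o j, d, o k, f] : Fin 5 → E) := by
  set M := span (ZMod 2) (Set.range o) with hM
  have hoM : ∀ l, o l ∈ M := fun l => subset_span ⟨l, rfl⟩
  rw [Fintype.linearIndependent_iff]
  intro g hg
  rw [Fin.sum_univ_five] at hg
  change g 0 • o i + g 1 • o j + g 2 • d + g 3 • o k + g 4 • f = 0 at hg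
  have hm : g 0 • o i + g 1 • o j + g 3 • o k ∈ M :=
    M.add_mem (M.add_mem (M.smul_mem _ (hoM i)) (M.smul_mem _ (hoM j))) (M.smul_mem _ (hoM k))
  have hsum : g 0 • o i + g 1 • o j + g 3 • o k + (g 2 • d + g 4 • f) = 0 := by
    rw [← hg]
    abel
  have hdfM : g 2 • d + g 4 • f ∈ M := by
    have h1 : g 2 • d + g 4 • f = - (g 0 • o i + g 1 • o j + g 3 • o k) :=
      (neg_eq_of_add_eq_zero_right hsum).symm
    rw [h1]
    exact M.neg_mem hm
  have h24 : g 2 = 0 ∧ g 4 = 0 := by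
    rcases E2_01 (g 2) with h2 | h2 <;> rcases E2_01 (g 4) with h4 | h4
    · exact ⟨h2, h4⟩
    · rw [h2, h4, zero_smul, zero_add, one_smul] at hdfM
      exact absurd hdfM hf
    · rw [h2, h4, zero_smul, add_zero, one_smul] at hdfM
      exact absurd hdfM hd
    · rw [h2, h4, one_smul, one_smul] at hdfM
      exact absurd hdfM hdf
  rw [h24.1, h24.2, zero_smul, zero_smul, add_zero, add_zero] at hsum
  obtain ⟨h0, h1, h3⟩ := E2_ind o ho i j k hik hjk hij _ _ _ hsum
  intro l
  fin_cases l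
  · exact h0
  · exact h1
  · exact h24.1
  · exact h3
  · exact h24.2

/-- [E2] -/
theorem E2_proof (hE0 : St_E0) (hF7 : St_F7) (hCS : St_CS) : St_E2 := by
  intro X u L o W hC hR k v v' hv hv' hvv hne
  by_contra hne'
  obtain ⟨i, j, hik, hjk, hij⟩ := E2_ix k
  obtain ⟨-, -, -, hcs, -, -⟩ := hCS X u
  set M := span (ZMod 2) (Set.range o) with hM
  set S := span (ZMod 2) {o k} with hS
  have hSM : S ≤ M := span_mono (Set.singleton_subset_iff.2 ⟨k, rfl⟩)
  have hMW : M ≤ W := by
    rw [hM, span_le]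
    rintro _ ⟨l, rfl⟩
    exact hR.le l
  -- the shifted classes
  have hsh : ∀ w, w ∉ W → ∀ l, w + o l ∉ W := by
    intro w hw l h
    apply hw
    have h1 := W.sub_mem h (hR.le l)
    rwa [add_sub_cancel_right] at h1
  have hc : ∀ w, w ∉ W → cs X u S w ≠ 0 → ∀ l, l ≠ k → cs X u S (w + o l) ≠ 0 := by
    intro w hw hw0 l hl
    rw [(hE0 X u o W hR w hw k).1 l hl]
    exact neg_ne_zero.2 hw0
  obtain ⟨d, hdX, hd⟩ := hcs S v hne
  obtain ⟨x1, hx1X, hx1⟩ := hcs S (v + o i) (hc v hv hne i hik)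
  obtain ⟨x2, hx2X, hx2⟩ := hcs S (v + o j) (hc v hv hne j hjk)
  obtain ⟨x3, hx3X, hx3⟩ := hcs S (v + o i + o j)
    (hc (v + o i) (hsh v hv i) (hc v hv hne i hik) j hjk)
  obtain ⟨f, hfX, hf⟩ := hcs S v' hne'
  obtain ⟨y, hyX, hy⟩ := hcs S (v' + o i + o j)
    (hc (v' + o i) (hsh v' hv' i) (hc v' hv' hne' i hik) j hjk)
  have hdW : d ∉ W := by
    intro h
    apply hv
    have h1 := W.sub_mem (hMW (hSM hd)) h
    rwa [add_sub_cancel_left] at h1
  have hfW : f ∉ W := by
    intro h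
    apply hv'
    have h1 := W.sub_mem (hMW (hSM hf)) h
    rwa [add_sub_cancel_left] at h1
  have hdf : d + f ∉ M := by
    intro h
    apply hvv
    have h1 := M.sub_mem (M.add_mem (hSM hd) (hSM hf)) h
    have h2 : d + v + (f + v') - (d + f) = v + v' := by abel
    rwa [h2] at h1
  have hb : Bas X (![o i, o j, d, o k, f] : Fin 5 → E) := by
    refine ⟨?_, E2_bas o hR.ind i j k hik hjk hij d f (fun h => hdW (hMW h))
      (fun h => hfW (hMW h)) hdf⟩
    intro l
    fin_cases l
    · exact hR.mem i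
    · exact hR.mem j
    · exact hdX
    · exact hR.mem k
    · exact hfX
  have hSP : S ≤ span (ZMod 2) {o k, f} := span_mono (by
    intro z hz
    exact Or.inl hz)
  have hfP : f ∈ span (ZMod 2) {o k, f} := subset_span (Or.inr rfl)
  refine hF7 X L hC.uni _ hb ⟨y, hyX, x1, hx1X, x2, hx2X, x3, hx3X, ?_, ?_, ?_, ?_⟩
  · change y + (o i + o j) ∈ span (ZMod 2) {o k, f}
    have h1 := Submodule.add_mem _ (Submodule.add_mem _ (hSP hy) (hSP hf)) hfP
    have h2 : y + (v' + o i + o j) + (f + v') + f = y + (o i + o j) + (v' + v') + (f + f) := by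
      abel
    rw [h2, E2_two, E2_two, add_zero, add_zero] at h1
    exact h1
  · change x1 + (o i + d) ∈ span (ZMod 2) {o k, f}
    have h1 := Submodule.add_mem _ (hSP hx1) (hSP hd)
    have h2 : x1 + (v + o i) + (d + v) = x1 + (o i + d) + (v + v) := by abel
    rw [h2, E2_two, add_zero] at h1
    exact h1
  · change x2 + (o j + d) ∈ span (ZMod 2) {o k, f}
    have h1 := Submodule.add_mem _ (hSP hx2) (hSP hd)
    have h2 : x2 + (v + o j) + (d + v) = x2 + (o j + d) + (v + v) := by abel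
    rw [h2, E2_two, add_zero] at h1
    exact h1
  · change x3 + (o i + o j + d) ∈ span (ZMod 2) {o k, f}
    have h1 := Submodule.add_mem _ (hSP hx3) (hSP hd)
    have h2 : x3 + (v + o i + o j) + (d + v) = x3 + (o i + o j + d) + (v + v) := by abel
    rw [h2, E2_two, add_zero] at h1
    exact h1

end Pool.Agent.TRG
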