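import Pool.Agent.TRG.St

/-!
# TRG, E5: the outer coset is the same for all indices
-/

set_option autoImplicit false

open Submodule

namespace Pool.Agent.TRG

private theorem E5_two (v : E) : v + v = 0 := by
  funext i
  exact CharTwo.add_self_eq_zero (v i)

private theorem E5_zmod (c : ZMod 2) : c = 0 ∨ c = 1 := by
  revert c
  decide

/-- two elements of `B` which are not in `A`, `A` of codimension one in `B` -/
private theorem E5_cos (A B : Submodule (ZMod 2) E) (hAB : A ≤ B)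
    (hr : Module.finrank (ZMod 2) B = Module.finrank (ZMod 2) A + 1) (x y : E) (hx : x ∈ B)
    (hxA : x ∉ A) (hy : y ∈ B) (hyA : y ∉ A) : x + y ∈ A := by
  have h1 : A ⊔ span (ZMod 2) {x} ≤ B := sup_le hAB ((span_singleton_le_iff_mem x B).2 hx)
  have h2 : A < A ⊔ span (ZMod 2) {x} := by
    refine lt_of_le_of_ne le_sup_left fun h => hxA ?_
    rw [h]
    exact mem_sup_right (mem_span_singleton_self x)
  have h3 := Submodule.finrank_lt_finrank_of_lt h2
  have h4 : A ⊔ span (ZMod 2) {x} = B := Submodule.eq_of_le_of_finrank_le h1 (by omega)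
  rw [← h4] at hy
  obtain ⟨a, ha, z, hz, rfl⟩ := mem_sup.1 hy
  obtain ⟨c, rfl⟩ := mem_span_singleton.1 hz
  rcases E5_zmod c with rfl | rfl
  · rw [zero_smul, add_zero] at hyA
    exact absurd ha hyA
  · rw [one_smul, add_comm a x, ← add_assoc, E5_two, zero_add]
    exact ha

open Classical in
/-- the weight, zero outside of `X` -/
private noncomputable def E5_U (X : Finset E) (u : E → ℤ) (w : E) : ℤ := if w ∈ X then u w else 0

private theorem E5_cs (X : Finset E) (u : E → ℤ) (o v : E) (ho : o ≠ 0) :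
    cs X u (span (ZMod 2) {o}) v = E5_U X u v + E5_U X u (v + o) := by
  classical
  unfold cs E5_U
  have h1 : ∀ w : E, w + v ∈ span (ZMod 2) {o} ↔ w = v ∨ w = v + o := by
    intro w
    rw [mem_span_singleton]
    constructor
    · rintro ⟨c, hc⟩
      rcases E5_zmod c with rfl | rfl
      · left
        rw [zero_smul] at hc
        calc w = w + v + v := by rw [add_assoc, E5_two, add_zero]
          _ = v := by rw [← hc, zero_add]
      · right
        rw [one_smul] at hc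
        calc w = w + v + v := by rw [add_assoc, E5_two, add_zero]
          _ = v + o := by rw [← hc, add_comm]
    · rintro (rfl | rfl)
      · exact ⟨0, by rw [zero_smul, E5_two]⟩
      · exact ⟨1, by rw [one_smul, add_comm v o, add_assoc, E5_two, add_zero]⟩
  have h2 : v ≠ v + o := fun h => ho (by
    have : v + 0 = v + o := by rw [add_zero]; exact h
    exact (add_left_cancel this).symm)
  rw [Finset.sum_filter]
  have h3 : ∀ w ∈ X, (if w + v ∈ span (ZMod 2) {o} then u w else 0) =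
      (if w = v then u w else 0) + if w = v + o then u w else 0 := by
    intro w _
    by_cases ha : w = v
    · subst ha
      rw [if_pos ((h1 w).2 (Or.inl rfl)), if_pos rfl, if_neg h2, add_zero]
    · by_cases hb : w = v + o
      · rw [if_pos ((h1 w).2 (Or.inr hb)), if_neg ha, if_pos hb, zero_add]
      · rw [if_neg (fun h => ((h1 w).1 h).elim ha hb), if_neg ha, if_neg hb, add_zero]
  rw [Finset.sum_congr rfl h3, Finset.sum_add_distrib, Finset.sum_ite_eq', Finset.sum_ite_eq']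

/-- the sums on a whole outer coset -/
private theorem E5_all (hE0 : St_E0) (X : Finset E) (u : E → ℤ) (o : Fin 3 → E)
    (W : Submodule (ZMod 2) E) (hR : Rt X u o W) (hMW : span (ZMod 2) (Set.range o) ≤ W) (k : Fin 3)
    (m : E) (hm : m ∈ span (ZMod 2) (Set.range o)) :
    ∀ v, v ∉ W → cs X u (span (ZMod 2) {o k}) v ≠ 0 →
      cs X u (span (ZMod 2) {o k}) (v + m) ≠ 0 := by
  induction hm using Submodule.span_induction with
  | mem x hx =>
    obtain ⟨i, rfl⟩ := hx
    intro v hv h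
    obtain ⟨h1, h2⟩ := hE0 X u o W hR v hv k
    by_cases hi : i = k
    · rw [hi, h2]
      exact h
    · rw [h1 i hi]
      exact neg_ne_zero.2 h
  | zero =>
    intro v _ h
    rw [add_zero]
    exact h
  | add x y hx hy ihx ihy =>
    intro v hv h
    rw [← add_assoc]
    refine ihy (v + x) (fun hc => hv ?_) (ihx v hv h)
    have := W.sub_mem hc (hMW hx)
    rwa [add_sub_cancel_right] at this
  | smul c x hx ih =>
    intro v hv h
    rcases E5_zmod c with rfl | rfl
    · rw [zero_smul, add_zero]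
      exact h
    · rw [one_smul]
      exact ih v hv h

/-- independence of the basis for F7s -/
private theorem E5_bas (X : Finset E) (u : E → ℤ) (o : Fin 3 → E) (W : Submodule (ZMod 2) E)
    (hR : Rt X u o W) (σ : Fin 3 → Fin 3)
    (hσ : Function.Injective σ) (g e : E) (hg : g ∈ X) (hgW : g ∉ W) (he : e ∈ X) (heW : e ∈ W)
    (heM : e ∉ span (ZMod 2) (Set.range o)) : Bas X ![o (σ 0), o (σ 1), o (σ 2), g, e] := by
  constructor
  · intro i
    fin_cases i
    · exact hR.mem _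
    · exact hR.mem _
    · exact hR.mem _
    · exact hg
    · exact he
  · rw [Fintype.linearIndependent_iff]
    intro c hc
    have h0 : c 0 • o (σ 0) + (c 1 • o (σ 1) + (c 2 • o (σ 2) + (c 3 • g + c 4 • e))) = 0 := by
      rw [← hc]
      simp [Fin.sum_univ_succ]
    have hM : ∀ i, o i ∈ span (ZMod 2) (Set.range o) := fun i => subset_span ⟨i, rfl⟩
    have h3 : c 3 = 0 := by
      rcases E5_zmod (c 3) with h | h
      · exact h
      · exfalso
        apply hgW
        rw [h, one_smul] at h0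
        have : g = -(c 0 • o (σ 0) + (c 1 • o (σ 1) + (c 2 • o (σ 2) + c 4 • e))) := by
          rw [eq_neg_iff_add_eq_zero, ← h0]
          abel
        rw [this]
        exact W.neg_mem (W.add_mem (W.smul_mem _ (hR.le _)) (W.add_mem (W.smul_mem _ (hR.le _))
          (W.add_mem (W.smul_mem _ (hR.le _)) (W.smul_mem _ heW))))
    rw [h3, zero_smul, zero_add] at h0
    have h4 : c 4 = 0 := by
      rcases E5_zmod (c 4) with h | h
      · exact h
      · exfalso
        apply heM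
        rw [h, one_smul] at h0
        have : e = -(c 0 • o (σ 0) + (c 1 • o (σ 1) + c 2 • o (σ 2))) := by
          rw [eq_neg_iff_add_eq_zero, ← h0]
          abel
        rw [this]
        exact neg_mem (add_mem (smul_mem _ _ (hM _)) (add_mem (smul_mem _ _ (hM _))
          (smul_mem _ _ (hM _))))
    rw [h4, zero_smul, add_zero] at h0
    have h5 := Fintype.linearIndependent_iff.1 (hR.ind.comp σ hσ) ![c 0, c 1, c 2] (by
      rw [← h0]
      simp [Fin.sum_univ_succ])
    intro i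
    fin_cases i
    · exact h5 0
    · exact h5 1
    · exact h5 2
    · exact h3
    · exact h4

/-- the main case -/
private theorem E5_main (hE0 : St_E0) (hE1 : St_E1) (hE2 : St_E2) (hF7s : St_F7s) (hCS : St_CS)
    (X : Finset E) (u : E → ℤ) (L : E → Fin 5 → ℤ) (o : Fin 3 → E) (W : Submodule (ZMod 2) E)
    (hC : Cx X u L) (hR : Rt X u o W) (hMW : span (ZMod 2) (Set.range o) ≤ W)
    (hrM : Module.finrank (ZMod 2) (span (ZMod 2) (Set.range o)) = 3) (σ : Fin 3 → Fin 3)
    (hσ : Function.Injective σ) (v₁ v₂ v₃ : E) (h₁ : v₁ ∉ W) (h₂ : v₂ ∉ W) (h₃ : v₃ ∉ W)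
    (c₁ : cs X u (span (ZMod 2) {o (σ 0)}) v₁ ≠ 0) (c₂ : cs X u (span (ZMod 2) {o (σ 1)}) v₂ ≠ 0)
    (c₃ : cs X u (span (ZMod 2) {o (σ 2)}) v₃ ≠ 0)
    (h32 : v₃ + v₂ ∈ span (ZMod 2) (Set.range o)) (h12 : v₁ + v₂ ∉ span (ZMod 2) (Set.range o)) :
    False := by
  obtain ⟨M, hM⟩ : ∃ M, M = span (ZMod 2) (Set.range o) := ⟨_, rfl⟩
  rw [← hM] at hMW hrM h32 h12
  have hoM : ∀ i, o i ∈ M := fun i => by
    rw [hM]
    exact subset_span ⟨i, rfl⟩
  have ho0 : ∀ i, o i ≠ 0 := fun i => hR.ind.ne_zero i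
  have hW5 : Module.finrank (ZMod 2) (⊤ : Submodule (ZMod 2) E) =
      Module.finrank (ZMod 2) W + 1 := by
    rw [hR.hyp, finrank_top, Module.finrank_fin_fun]
  have outW : ∀ x y : E, x ∉ W → y ∉ W → x + y ∈ W := fun x y hx hy =>
    E5_cos W ⊤ le_top hW5 x y mem_top hx mem_top hy
  have hWM : Module.finrank (ZMod 2) W = Module.finrank (ZMod 2) M + 1 := by
    rw [hR.hyp, hrM]
  have inM : ∀ x y : E, x ∈ W → x ∉ M → y ∈ W → y ∉ M → x + y ∈ M := fun x y hx hxM hy hyM =>
    E5_cos M W hMW hWM x y hx hxM hy hyM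
  have addW : ∀ w m : E, w ∉ W → m ∈ W → w + m ∉ W := fun w m hw hm hc => hw (by
    have := W.sub_mem hc hm
    rwa [add_sub_cancel_right] at this)
  -- the weights on `C₂`
  have z2 : ∀ w, w ∉ W → w + v₁ ∈ M → cs X u (span (ZMod 2) {o (σ 1)}) w = 0 := by
    intro w hw hwv
    refine hE2 X u L o W hC hR (σ 1) v₂ w h₂ hw ?_ c₂
    rw [← hM]
    intro hc
    apply h12
    have := M.add_mem hwv hc
    rwa [show w + v₁ + (v₂ + w) = v₁ + v₂ + (w + w) by abel, E5_two, add_zero] at this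
  have z3 : ∀ w, w ∉ W → w + v₁ ∈ M → cs X u (span (ZMod 2) {o (σ 2)}) w = 0 := by
    intro w hw hwv
    refine hE2 X u L o W hC hR (σ 2) v₃ w h₃ hw ?_ c₃
    rw [← hM]
    intro hc
    apply h12
    have := M.add_mem (M.add_mem hwv hc) h32
    rwa [show w + v₁ + (v₃ + w) + (v₃ + v₂) = v₁ + v₂ + (w + w) + (v₃ + v₃) by abel, E5_two,
      E5_two, add_zero, add_zero] at this
  have inv : ∀ j : Fin 3, (∀ w, w ∉ W → w + v₁ ∈ M → cs X u (span (ZMod 2) {o j}) w = 0) →
      ∀ w ∈ X, w ∉ W → w + v₁ ∈ M → w + o j ∈ X := by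
    intro j hj w hwX hw hwv
    have h := hj w hw hwv
    rw [E5_cs X u (o j) w (ho0 j)] at h
    by_contra hc
    unfold E5_U at h
    rw [if_pos hwX, if_neg hc, add_zero] at h
    exact hC.nz w hwX h
  -- the weights on `C₁`
  have n2 : ∀ w, w ∉ W → w + v₂ ∈ M → cs X u (span (ZMod 2) {o (σ 1)}) w ≠ 0 := by
    intro w _ hwv
    have := E5_all hE0 X u o W hR (hM ▸ hMW) (σ 1) (w + v₂) (hM ▸ hwv) v₂ h₂ c₂
    rwa [show v₂ + (w + v₂) = w + (v₂ + v₂) by abel, E5_two, add_zero] at this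
  have n3 : ∀ w, w ∉ W → w + v₂ ∈ M → cs X u (span (ZMod 2) {o (σ 2)}) w ≠ 0 := by
    intro w _ hwv
    have := E5_all hE0 X u o W hR (hM ▸ hMW) (σ 2) (w + v₂ + (v₃ + v₂)) (hM ▸ M.add_mem hwv h32)
      v₃ h₃ c₃
    rwa [show v₃ + (w + v₂ + (v₃ + v₂)) = w + (v₂ + v₂) + (v₃ + v₃) by abel, E5_two, E5_two,
      add_zero, add_zero] at this
  have alt : ∀ j : Fin 3, (∀ w, w ∉ W → w + v₂ ∈ M → cs X u (span (ZMod 2) {o j}) w ≠ 0) →
      ∀ w, w ∉ W → w + v₂ ∈ M → w ∉ X → w + o j ∈ X := by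
    intro j hj w hw hwv hwX
    by_contra hc
    apply hj w hw hwv
    rw [E5_cs X u (o j) w (ho0 j)]
    unfold E5_U
    rw [if_neg hwX, if_neg hc, add_zero]
  -- the elements
  obtain ⟨f, hfX, hf⟩ := (hCS X u).2.2.2.1 _ v₁ c₁
  have hfM : f + v₁ ∈ M := by
    rw [hM]
    exact span_mono (Set.singleton_subset_iff.2 (Set.mem_range_self (σ 0))) hf
  have hfW : f ∉ W := by
    intro hc
    apply h₁
    have := W.add_mem hc (hMW hfM)
    rwa [← add_assoc, E5_two, zero_add] at this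
  obtain ⟨-, e, heX, heW, heM, -⟩ := hE1 X u L o W hC hR 0
  have i2 := inv (σ 1) z2
  have i3 := inv (σ 2) z3
  have a2 := alt (σ 1) n2
  have a3 := alt (σ 2) n3
  have hf2 : f + o (σ 1) ∈ X := i2 f hfX hfW hfM
  have hf3 : f + o (σ 2) ∈ X := i3 f hfX hfW hfM
  have hf2W : f + o (σ 1) ∉ W := addW _ _ hfW (hR.le _)
  have hf23 : f + o (σ 1) + o (σ 2) ∈ X := by
    refine i3 _ hf2 hf2W ?_
    rw [show f + o (σ 1) + v₁ = f + v₁ + o (σ 1) by abel]
    exact M.add_mem hfM (hoM _)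
  -- `z`
  obtain ⟨z, hz⟩ : ∃ z, z = f + e + o (σ 0) := ⟨_, rfl⟩
  have hzW : z ∉ W := by
    rw [hz]
    exact addW _ _ (addW _ _ hfW heW) (hR.le _)
  have hzM : z + v₂ ∈ M := by
    have h1 : f + v₂ ∈ W := outW _ _ hfW h₂
    have h2 : f + v₂ ∉ M := by
      intro hc
      apply h12
      have := M.add_mem hfM hc
      rwa [show f + v₁ + (f + v₂) = v₁ + v₂ + (f + f) by abel, E5_two, add_zero] at this
    have h3 := inM _ _ h1 h2 heW (hM ▸ heM)
    rw [hz, show f + e + o (σ 0) + v₂ = f + v₂ + e + o (σ 0) by abel]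
    exact M.add_mem h3 (hoM _)
  have hadd : ∀ j : Fin 3, z + o j ∉ W ∧ z + o j + v₂ ∈ M := fun j => ⟨addW _ _ hzW (hR.le j), by
    rw [show z + o j + v₂ = z + v₂ + o j by abel]
    exact M.add_mem hzM (hoM _)⟩
  have hdich : (z ∈ X ∧ z + o (σ 1) + o (σ 2) ∈ X) ∨ (z + o (σ 1) ∈ X ∧ z + o (σ 2) ∈ X) := by
    by_cases hz1 : z ∈ X
    · by_cases hz2 : z + o (σ 1) + o (σ 2) ∈ X
      · exact Or.inl ⟨hz1, hz2⟩
      · right
        have hW : z + o (σ 1) + o (σ 2) ∉ W := addW _ _ (hadd (σ 1)).1 (hR.le _)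
        have hMv : z + o (σ 1) + o (σ 2) + v₂ ∈ M := by
          rw [show z + o (σ 1) + o (σ 2) + v₂ = z + o (σ 1) + v₂ + o (σ 2) by abel]
          exact M.add_mem (hadd (σ 1)).2 (hoM _)
        have h1 := a2 _ hW hMv hz2
        have h2 := a3 _ hW hMv hz2
        rw [show z + o (σ 1) + o (σ 2) + o (σ 1) = z + o (σ 2) + (o (σ 1) + o (σ 1)) by abel,
          E5_two, add_zero] at h1
        rw [show z + o (σ 1) + o (σ 2) + o (σ 2) = z + o (σ 1) + (o (σ 2) + o (σ 2)) by abel,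
          E5_two, add_zero] at h2
        exact ⟨h2, h1⟩
    · exact Or.inr ⟨a2 z hzW hzM hz1, a3 z hzW hzM hz1⟩
  rcases hdich with ⟨hz1, hz2⟩ | ⟨hz1, hz2⟩
  · have hb := E5_bas X u o W hR σ hσ (f + o (σ 1)) e hf2 hf2W heX heW heM
    refine hF7s X L hC.uni _ hb ⟨z, hz1, z + o (σ 1) + o (σ 2), hz2, f + o (σ 2), hf3, ?_, ?_, ?_⟩
    · show z + (f + o (σ 1) + o (σ 0) + o (σ 1)) ∈ span (ZMod 2) {e}
      rw [hz, show f + e + o (σ 0) + (f + o (σ 1) + o (σ 0) + o (σ 1)) = e + (f + f) +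
        (o (σ 0) + o (σ 0)) + (o (σ 1) + o (σ 1)) by abel, E5_two, E5_two, E5_two, add_zero,
        add_zero, add_zero]
      exact mem_span_singleton_self e
    · show z + o (σ 1) + o (σ 2) + (f + o (σ 1) + o (σ 0) + o (σ 2)) ∈ span (ZMod 2) {e}
      rw [hz, show f + e + o (σ 0) + o (σ 1) + o (σ 2) + (f + o (σ 1) + o (σ 0) + o (σ 2)) =
        e + (f + f) + (o (σ 0) + o (σ 0)) + (o (σ 1) + o (σ 1)) + (o (σ 2) + o (σ 2)) by abel,
        E5_two, E5_two, E5_two, E5_two, add_zero, add_zero, add_zero, add_zero]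
      exact mem_span_singleton_self e
    · show f + o (σ 2) + (f + o (σ 1) + o (σ 1) + o (σ 2)) ∈ span (ZMod 2) {e}
      rw [show f + o (σ 2) + (f + o (σ 1) + o (σ 1) + o (σ 2)) = (f + f) +
        (o (σ 1) + o (σ 1)) + (o (σ 2) + o (σ 2)) by abel, E5_two f, E5_two (o (σ 1)),
        E5_two (o (σ 2)), add_zero, add_zero]
      exact zero_mem _
  · have hb := E5_bas X u o W hR σ hσ f e hfX hfW heX heW heM
    refine hF7s X L hC.uni _ hb ⟨z + o (σ 1), hz1, z + o (σ 2), hz2, f + o (σ 1) + o (σ 2), hf23,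
      ?_, ?_, ?_⟩
    · show z + o (σ 1) + (f + o (σ 0) + o (σ 1)) ∈ span (ZMod 2) {e}
      rw [hz, show f + e + o (σ 0) + o (σ 1) + (f + o (σ 0) + o (σ 1)) =
        e + (f + f) + (o (σ 0) + o (σ 0)) + (o (σ 1) + o (σ 1)) by abel,
        E5_two, E5_two, E5_two, add_zero, add_zero, add_zero]
      exact mem_span_singleton_self e
    · show z + o (σ 2) + (f + o (σ 0) + o (σ 2)) ∈ span (ZMod 2) {e}
      rw [hz, show f + e + o (σ 0) + o (σ 2) + (f + o (σ 0) + o (σ 2)) =
        e + (f + f) + (o (σ 0) + o (σ 0)) + (o (σ 2) + o (σ 2)) by abel,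
        E5_two, E5_two, E5_two, add_zero, add_zero, add_zero]
      exact mem_span_singleton_self e
    · show f + o (σ 1) + o (σ 2) + (f + o (σ 1) + o (σ 2)) ∈ span (ZMod 2) {e}
      rw [E5_two]
      exact zero_mem _

private theorem E5_third : ∀ k k' : Fin 3, k ≠ k' → ∃ l : Fin 3, l ≠ k ∧ l ≠ k' := by
  decide

private theorem E5_inj : ∀ a b c : Fin 3, a ≠ b → c ≠ a → c ≠ b →
    Function.Injective ![a, b, c] := by
  decide

/-- [E5] -/
theorem E5_proof (hE0 : St_E0) (hE1 : St_E1) (hE2 : St_E2) (hF7s : St_F7s) (hCS : St_CS) :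
    St_E5 := by
  intro X u L o W hC hR k k' v v' hv hv' hk hk'
  have hMW : span (ZMod 2) (Set.range o) ≤ W := by
    rw [span_le]
    rintro _ ⟨i, rfl⟩
    exact hR.le i
  have hrM : Module.finrank (ZMod 2) (span (ZMod 2) (Set.range o)) = 3 := by
    rw [finrank_span_eq_card hR.ind, Fintype.card_fin]
  by_contra h
  have hne : k ≠ k' := by
    rintro rfl
    exact hk' (hE2 X u L o W hC hR k v v' hv hv' h hk)
  obtain ⟨l, hlk, hlk'⟩ := E5_third k k' hne
  obtain ⟨⟨v'', -, hv'', hl⟩, -⟩ := hE1 X u L o W hC hR l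
  by_cases hc : v'' + v' ∈ span (ZMod 2) (Set.range o)
  · exact E5_main hE0 hE1 hE2 hF7s hCS X u L o W hC hR hMW hrM ![k, k', l]
      (E5_inj k k' l hne hlk hlk') v v' v'' hv hv' hv'' hk hk' hl hc h
  · refine E5_main hE0 hE1 hE2 hF7s hCS X u L o W hC hR hMW hrM ![k', k, l]
      (E5_inj k' k l hne.symm hlk' hlk) v' v v'' hv' hv hv'' hk' hk hl ?_ ?_
    · have hW5 : Module.finrank (ZMod 2) (⊤ : Submodule (ZMod 2) E) =
          Module.finrank (ZMod 2) W + 1 := by
        rw [hR.hyp, finrank_top, Module.finrank_fin_fun]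
      have hWM : Module.finrank (ZMod 2) W =
          Module.finrank (ZMod 2) (span (ZMod 2) (Set.range o)) + 1 := by
        rw [hR.hyp, hrM]
      have h1 := E5_cos W ⊤ le_top hW5 v v' mem_top hv mem_top hv'
      have h2 := E5_cos W ⊤ le_top hW5 v'' v' mem_top hv'' mem_top hv'
      have h3 := E5_cos _ W hMW hWM _ _ h2 hc h1 h
      rwa [show v'' + v' + (v + v') = v'' + v + (v' + v') by abel, E5_two, add_zero] at h3
    · rwa [add_comm v' v]

end Pool.Agent.TRG
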