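import Pool.Agent.TRG.St

/-!
# TRG, module E6 (helper52): the final structure
-/

set_option autoImplicit false

open Submodule Filter Topology
open Pool.Agent.SPT Pool.Agent.SPT.Rel

namespace Pool.Agent.TRG

private theorem E6_self (x : E) : x + x = 0 := by
  funext i
  exact CharTwo.add_self_eq_zero (x i)

private theorem E6_two (x y : E) : x + (x + y) = y := by
  rw [← add_assoc, E6_self, zero_add]

private theorem E6_01 : ∀ c : ZMod 2, c = 0 ∨ c = 1 := by decide

private theorem E6_core {o : Fin 3 → E} (ho : LinearIndependent (ZMod 2) o)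
    {W : Submodule (ZMod 2) E} (hW : ∀ k, o k ∈ W) {w d : E} (hw : w ∈ W)
    (hwM : w ∉ span (ZMod 2) (Set.range o)) (hd : d ∉ W) {a₀ a₁ a₂ c e : ZMod 2}
    (h : a₀ • o 0 + a₁ • o 1 + a₂ • o 2 + c • d + e • w = 0) :
    a₀ = 0 ∧ a₁ = 0 ∧ a₂ = 0 ∧ c = 0 ∧ e = 0 := by
  have hc : c = 0 := by
    rcases E6_01 c with hc | hc
    · exact hc
    · exfalso
      apply hd
      have h1 : d = -(a₀ • o 0 + a₁ • o 1 + a₂ • o 2 + e • w) := by
        rw [hc, one_smul] at h
        apply eq_neg_of_add_eq_zero_right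
        rw [← h]
        abel
      rw [h1]
      exact W.neg_mem (W.add_mem (W.add_mem (W.add_mem (W.smul_mem _ (hW 0))
        (W.smul_mem _ (hW 1))) (W.smul_mem _ (hW 2))) (W.smul_mem _ hw))
  have hmem : a₀ • o 0 + a₁ • o 1 + a₂ • o 2 ∈ span (ZMod 2) (Set.range o) :=
    add_mem (add_mem (smul_mem _ _ (subset_span ⟨0, rfl⟩)) (smul_mem _ _ (subset_span ⟨1, rfl⟩)))
      (smul_mem _ _ (subset_span ⟨2, rfl⟩))
  have he : e = 0 := by
    rcases E6_01 e with he | he
    · exact he
    · exfalso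
      apply hwM
      have h1 : w = -(a₀ • o 0 + a₁ • o 1 + a₂ • o 2) := by
        rw [hc, he, one_smul, zero_smul, add_zero] at h
        exact eq_neg_of_add_eq_zero_right h
      rw [h1]
      exact neg_mem hmem
  have h2 : ∑ i, (![a₀, a₁, a₂] : Fin 3 → ZMod 2) i • o i = 0 := by
    rw [hc, he, zero_smul, zero_smul, add_zero, add_zero] at h
    rw [Fin.sum_univ_three]
    exact h
  have h3 := Fintype.linearIndependent_iff.1 ho _ h2
  exact ⟨h3 0, h3 1, h3 2, hc, he⟩

private theorem E6_ind1 {o : Fin 3 → E} (ho : LinearIndependent (ZMod 2) o)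
    {W : Submodule (ZMod 2) E} (hW : ∀ k, o k ∈ W) {w d : E} (hw : w ∈ W)
    (hwM : w ∉ span (ZMod 2) (Set.range o)) (hd : d ∉ W) :
    LinearIndependent (ZMod 2) ![o 0, o 1, d, o 2, w] := by
  rw [Fintype.linearIndependent_iff]
  intro g hg
  rw [Fin.sum_univ_five] at hg
  have h : g 0 • o 0 + g 1 • o 1 + g 3 • o 2 + g 2 • d + g 4 • w = 0 := by
    rw [← hg]
    show _ = g 0 • o 0 + g 1 • o 1 + g 2 • d + g 3 • o 2 + g 4 • w
    abel
  obtain ⟨h0, h1, h3, h2, h4⟩ := E6_core ho hW hw hwM hd h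
  intro i
  fin_cases i
  · exact h0
  · exact h1
  · exact h2
  · exact h3
  · exact h4

private theorem E6_ind2 {o : Fin 3 → E} (ho : LinearIndependent (ZMod 2) o)
    {W : Submodule (ZMod 2) E} (hW : ∀ k, o k ∈ W) {w d : E} (hw : w ∈ W)
    (hwM : w ∉ span (ZMod 2) (Set.range o)) (hd : d ∉ W) :
    LinearIndependent (ZMod 2) ![o 0, o 1, o 2, d, w] := by
  rw [Fintype.linearIndependent_iff]
  intro g hg
  rw [Fin.sum_univ_five] at hg
  have h : g 0 • o 0 + g 1 • o 1 + g 2 • o 2 + g 3 • d + g 4 • w = 0 := hg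
  obtain ⟨h0, h1, h2, h3, h4⟩ := E6_core ho hW hw hwM hd h
  intro i
  fin_cases i
  · exact h0
  · exact h1
  · exact h2
  · exact h3
  · exact h4

/-- two elements of `W` outside of `M` -/
private theorem E6_W2 {o : Fin 3 → E} (ho : LinearIndependent (ZMod 2) o)
    {W : Submodule (ZMod 2) E} (hd : Module.finrank (ZMod 2) W = 4) (hW : ∀ k, o k ∈ W) {w w' : E}
    (hw : w ∈ W) (hw' : w' ∈ W) (hwM : w ∉ span (ZMod 2) (Set.range o))
    (hwM' : w' ∉ span (ZMod 2) (Set.range o)) : w + w' ∈ span (ZMod 2) (Set.range o) := by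
  by_contra hcon
  have hli : LinearIndependent (ZMod 2) ![o 0, o 1, o 2, w, w'] := by
    rw [Fintype.linearIndependent_iff]
    intro g hg
    rw [Fin.sum_univ_five] at hg
    have h : g 0 • o 0 + g 1 • o 1 + g 2 • o 2 + (g 3 • w + g 4 • w') = 0 := by
      rw [← add_assoc]
      exact hg
    have hmem : g 0 • o 0 + g 1 • o 1 + g 2 • o 2 ∈ span (ZMod 2) (Set.range o) :=
      add_mem (add_mem (smul_mem _ _ (subset_span ⟨0, rfl⟩))
        (smul_mem _ _ (subset_span ⟨1, rfl⟩))) (smul_mem _ _ (subset_span ⟨2, rfl⟩))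
    have h5 : g 3 • w + g 4 • w' ∈ span (ZMod 2) (Set.range o) := by
      rw [eq_neg_of_add_eq_zero_right h]
      exact neg_mem hmem
    have h34 : g 3 = 0 ∧ g 4 = 0 := by
      rcases E6_01 (g 3) with h3 | h3 <;> rcases E6_01 (g 4) with h4 | h4
      · exact ⟨h3, h4⟩
      · rw [h3, h4, zero_smul, one_smul, zero_add] at h5
        exact absurd h5 hwM'
      · rw [h3, h4, zero_smul, one_smul, add_zero] at h5
        exact absurd h5 hwM
      · rw [h3, h4, one_smul, one_smul] at h5
        exact absurd h5 hcon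
    have h2 : ∑ i, (![g 0, g 1, g 2] : Fin 3 → ZMod 2) i • o i = 0 := by
      rw [h34.1, h34.2, zero_smul, zero_smul, add_zero, add_zero] at h
      rw [Fin.sum_univ_three]
      exact h
    have h3 := Fintype.linearIndependent_iff.1 ho _ h2
    intro i
    fin_cases i
    · exact h3 0
    · exact h3 1
    · exact h3 2
    · exact h34.1
    · exact h34.2
  have hle : span (ZMod 2) (Set.range ![o 0, o 1, o 2, w, w']) ≤ W := by
    rw [span_le]
    rintro _ ⟨i, rfl⟩
    fin_cases i
    · exact hW 0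
    · exact hW 1
    · exact hW 2
    · exact hw
    · exact hw'
  have h1 := Submodule.finrank_mono hle
  rw [finrank_span_eq_card hli, hd, Fintype.card_fin] at h1
  omega

/-- the sum over a class of two elements -/
private theorem E6_pair (X : Finset E) (u : E → ℤ) (a v : E) (ha : a ≠ 0) :
    cs X u (span (ZMod 2) {a}) v =
      (if v ∈ X then u v else 0) + (if v + a ∈ X then u (v + a) else 0) := by
  classical
  unfold cs
  have h1 : ∀ w : E, w + v ∈ span (ZMod 2) {a} ↔ w = v ∨ w = v + a := by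
    intro w
    rw [mem_span_singleton]
    constructor
    · rintro ⟨c, hc⟩
      rcases E6_01 c with h | h
      · left
        rw [h, zero_smul] at hc
        have := E6_two v w
        rw [add_comm v w, ← hc, add_zero] at this
        exact this.symm
      · right
        rw [h, one_smul] at hc
        rw [hc, add_comm w v, E6_two]
    · rintro (h | h)
      · exact ⟨0, by rw [h, E6_self, zero_smul]⟩
      · exact ⟨1, by rw [h, one_smul, add_comm (v + a) v, E6_two]⟩
  have hne : v ≠ v + a := by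
    intro h
    apply ha
    have := E6_two v a
    rw [← h, E6_self] at this
    exact this.symm
  have h2 : X.filter (fun w => w + v ∈ span (ZMod 2) {a}) =
      (({v, v + a} : Finset E).filter fun w => w ∈ X) := by
    ext w
    rw [Finset.mem_filter, Finset.mem_filter, Finset.mem_insert, Finset.mem_singleton, h1]
    exact and_comm
  rw [h2, Finset.sum_filter, Finset.sum_pair hne]

private theorem E6_dec1 : ∀ a : Fin 3 → ZMod 2, a ≠ 0 → (∀ k, a ≠ Pi.single k 1) →
    ∃ i j k : Fin 3, i ≠ j ∧ i ≠ k ∧ j ≠ k ∧ a i = 1 ∧ a j = 1 := by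
  decide

private theorem E6_dec2 : ∀ i j k : Fin 3, i ≠ j → i ≠ k → j ≠ k →
    Function.Injective ![i, j, k] := by
  decide

private theorem E6_dec3 : ∀ i j k : Fin 3, i ≠ j → i ≠ k → j ≠ k →
    ∀ l, l = i ∨ l = j ∨ l = k := by
  decide

private theorem E6_dec4 : ∀ k l m : Fin 3, k ≠ l →
    (Pi.single k 1 + Pi.single l 1 + Pi.single m 1 : Fin 3 → ZMod 2) ≠ 0 := by
  decide

private theorem E6_sum (o : Fin 3 → E) (i j k : Fin 3) (hij : i ≠ j) (hik : i ≠ k) (hjk : j ≠ k)
    (a : Fin 3 → ZMod 2) : ∑ l, a l • o l = a i • o i + a j • o j + a k • o k := by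
  have h := (Equiv.ofBijective ![i, j, k]
    (Finite.injective_iff_bijective.1 (E6_dec2 i j k hij hik hjk))).sum_comp
      (fun l => a l • o l)
  rw [← h, Fin.sum_univ_three]
  rfl

/-- **Module E6** -/
theorem E6_proof (hE0 : St_E0) (hE1 : St_E1) (hE3 : St_E3) (hE5 : St_E5) (hF7 : St_F7)
    (hF7s : St_F7s) (hCS : St_CS) : St_E6 := by
  intro X u L o W hC hR
  have _ := hE3
  obtain ⟨M, hM⟩ : ∃ M, M = span (ZMod 2) (Set.range o) := ⟨_, rfl⟩
  rw [← hM]
  have hoM : ∀ k, o k ∈ M := fun k => by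
    rw [hM]
    exact subset_span ⟨k, rfl⟩
  have hMW : M ≤ W := by
    rw [hM, span_le]
    rintro _ ⟨k, rfl⟩
    exact hR.le k
  have ho := hR.ind
  have ho0 : ∀ k, o k ≠ 0 := fun k => ho.ne_zero k
  -- shift by an element of `M`
  have hout : ∀ v m, v ∉ W → m ∈ W → v + m ∉ W := by
    intro v m hv hm h
    apply hv
    have h1 := W.add_mem h hm
    rwa [add_assoc, E6_self, add_zero] at h1
  have hstep : ∀ k i v, v ∉ W → cs X u (span (ZMod 2) {o k}) v ≠ 0 →
      cs X u (span (ZMod 2) {o k}) (v + o i) ≠ 0 := by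
    intro k i v hv h
    have h1 := hE0 X u o W hR v hv k
    by_cases hik : i = k
    · rw [hik, h1.2]
      exact h
    · rw [h1.1 i hik]
      exact neg_ne_zero.2 h
  have hmem : ∀ m ∈ M, ∃ a : Fin 3 → ZMod 2, m = a 0 • o 0 + a 1 • o 1 + a 2 • o 2 := by
    intro m hm
    rw [hM, mem_span_range_iff_exists_fun] at hm
    obtain ⟨a, ha⟩ := hm
    rw [Fin.sum_univ_three] at ha
    exact ⟨a, ha.symm⟩
  have hshift : ∀ (P : E → Prop), (∀ v i, P v → P (v + o i)) →
      ∀ v m, m ∈ M → P v → P (v + m) := by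
    intro P hP v m hm hv
    obtain ⟨a, ha⟩ := hmem m hm
    have hP' : ∀ v i (c : ZMod 2), P v → P (v + c • o i) := by
      intro v i c hv
      rcases E6_01 c with h | h
      · rw [h, zero_smul, add_zero]
        exact hv
      · rw [h, one_smul]
        exact hP v i hv
    rw [ha, ← add_assoc, ← add_assoc]
    exact hP' _ 2 _ (hP' _ 1 _ (hP' _ 0 _ hv))
  have hnz : ∀ k v m, m ∈ M → v ∉ W → cs X u (span (ZMod 2) {o k}) v ≠ 0 →
      cs X u (span (ZMod 2) {o k}) (v + m) ≠ 0 := by
    intro k v m hm hv h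
    exact (hshift (fun v => v ∉ W ∧ cs X u (span (ZMod 2) {o k}) v ≠ 0)
      (fun v i hv => ⟨hout v _ hv.1 (hR.le i), hstep k i v hv.1 hv.2⟩) v m hm ⟨hv, h⟩).2
  -- the element `d`
  obtain ⟨⟨d, hdX, hdW, hd0⟩, e, heX, heW, heM, -⟩ := hE1 X u L o W hC hR 0
  rw [← hM] at heM
  have hdk : ∀ k, cs X u (span (ZMod 2) {o k}) d ≠ 0 := by
    intro k
    obtain ⟨v, hvX, hvW, hv⟩ := (hE1 X u L o W hC hR k).1
    have h1 := hE5 X u L o W hC hR 0 k d v hdW hvW hd0 hv
    rw [← hM, add_comm] at h1
    have h2 := hnz k v (v + d) h1 hvW hv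
    rwa [E6_two] at h2
  -- the other outer coset
  have hother : ∀ v ∈ X, v ∉ W → v + d ∈ M := by
    intro v hvX hvW
    by_contra hcon
    have hall : ∀ k m, m ∈ M → cs X u (span (ZMod 2) {o k}) (v + m) = 0 := by
      intro k m hm
      by_contra h
      apply hcon
      have h1 := hE5 X u L o W hC hR k k (v + m) d (hout v m hvW (hMW hm)) hdW h (hdk k)
      rw [← hM] at h1
      have h2 := M.add_mem h1 hm
      have h3 : v + m + d + m = v + d + (m + m) := by abel
      rwa [h3, E6_self, add_zero] at h2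
    have hX : ∀ m ∈ M, v + m ∈ X := by
      intro m hm
      refine (hshift (fun w => w ∈ X ∧ w + v ∈ M) ?_ v m hm ⟨hvX, ?_⟩).1
      · rintro w i ⟨hw, hwv⟩
        have h1 := hall i (w + v) hwv
        rw [add_comm w v, E6_two, E6_pair X u (o i) w (ho0 i), if_pos hw] at h1
        refine ⟨?_, ?_⟩
        · by_contra hwi
          rw [if_neg hwi, add_zero] at h1
          exact hC.nz w hw h1
        · have h2 : w + o i + v = w + v + o i := by abel
          rw [h2]
          exact M.add_mem hwv (hoM i)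
      · rw [E6_self]
        exact M.zero_mem
    have heM' : e ∉ span (ZMod 2) (Set.range o) := by
      rw [← hM]
      exact heM
    refine hF7s X L hC.uni ![o 0, o 1, o 2, v, e]
      ⟨?_, E6_ind2 ho hR.le heW heM' hvW⟩ ⟨v + (o 0 + o 1), hX _ (M.add_mem (hoM 0) (hoM 1)),
        v + (o 0 + o 2), hX _ (M.add_mem (hoM 0) (hoM 2)),
        v + (o 1 + o 2), hX _ (M.add_mem (hoM 1) (hoM 2)), ?_, ?_, ?_⟩
    · intro i
      fin_cases i
      · exact hR.mem 0
      · exact hR.mem 1
      · exact hR.mem 2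
      · exact hvX
      · exact heX
    · show v + (o 0 + o 1) + (v + o 0 + o 1) ∈ span (ZMod 2) {e}
      rw [add_assoc v (o 0) (o 1), E6_self]
      exact zero_mem _
    · show v + (o 0 + o 2) + (v + o 0 + o 2) ∈ span (ZMod 2) {e}
      rw [add_assoc v (o 0) (o 2), E6_self]
      exact zero_mem _
    · show v + (o 1 + o 2) + (v + o 1 + o 2) ∈ span (ZMod 2) {e}
      rw [add_assoc v (o 1) (o 2), E6_self]
      exact zero_mem _
  -- two elements of the inner coset
  have htwo : ∀ w ∈ X, ∀ w' ∈ X, w ∈ W → w' ∈ W → w ∉ M → w' ∉ M → w ≠ w' →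
      ∃ k, w' = w + o k := by
    intro w hwX w' hwX' hw hw' hwM hwM' hne
    have hwMs : w ∉ span (ZMod 2) (Set.range o) := by
      rw [← hM]
      exact hwM
    have hwMs' : w' ∉ span (ZMod 2) (Set.range o) := by
      rw [← hM]
      exact hwM'
    have h1 := E6_W2 ho hR.hyp hR.le hw hw' hwMs hwMs'
    rw [mem_span_range_iff_exists_fun] at h1
    obtain ⟨a, ha⟩ := h1
    have hw'e : w' = w + ∑ l, a l • o l := by
      rw [ha, E6_two]
    by_contra hcon
    have ha0 : a ≠ 0 := by
      intro h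
      apply hne
      rw [hw'e, h]
      simp
    have hak : ∀ k, a ≠ Pi.single k 1 := by
      intro k h
      apply hcon
      refine ⟨k, ?_⟩
      rw [hw'e, h]
      congr 1
      rw [Finset.sum_eq_single k]
      · rw [Pi.single_eq_same, one_smul]
      · intro l _ hl
        rw [Pi.single_eq_of_ne hl, zero_smul]
      · intro h
        exact absurd (Finset.mem_univ k) h
    obtain ⟨i, j, k, hij, hik, hjk, hi, hj⟩ := E6_dec1 a ha0 hak
    have hinj := E6_dec2 i j k hij hik hjk
    have ho' : LinearIndependent (ZMod 2) (o ∘ ![i, j, k]) := ho.comp _ hinj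
    have hsp : span (ZMod 2) (Set.range (o ∘ ![i, j, k])) = span (ZMod 2) (Set.range o) := by
      congr 1
      exact (Finite.injective_iff_surjective.1 hinj).range_comp o
    have hli := E6_ind1 ho' (W := W) (fun l => hR.le _) hw (by rw [hsp]; exact hwMs) hdW
    have hcl : ∀ m ∈ M, ∃ y ∈ X, y + (m + d) ∈ span (ZMod 2) {o k, w} := by
      intro m hm
      obtain ⟨y, hyX, hy⟩ := (hCS X u).2.2.2.1 (span (ZMod 2) {o k}) (d + m)
        (hnz k d m hm hdW (hdk k))
      refine ⟨y, hyX, ?_⟩
      rw [add_comm m d]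
      exact span_mono (Set.singleton_subset_iff.2 (Set.mem_insert _ _)) hy
    obtain ⟨y, hyX, hy⟩ := hcl (o i) (hoM i)
    obtain ⟨z, hzX, hz⟩ := hcl (o j) (hoM j)
    obtain ⟨t, htX, ht⟩ := hcl (o i + o j) (M.add_mem (hoM i) (hoM j))
    refine hF7 X L hC.uni ![o i, o j, d, o k, w] ⟨?_, hli⟩
      ⟨w', hwX', y, hyX, z, hzX, t, htX, ?_, hy, hz, ht⟩
    · intro l
      fin_cases l
      · exact hR.mem i
      · exact hR.mem j
      · exact hdX
      · exact hR.mem k
      · exact hwX
    · show w' + (o i + o j) ∈ span (ZMod 2) {o k, w}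
      have h2 : w' + (o i + o j) = w + a k • o k := by
        rw [hw'e, E6_sum o i j k hij hik hjk, hi, hj, one_smul, one_smul]
        have h3 : w + (o i + o j + a k • o k) + (o i + o j) =
            w + a k • o k + ((o i + o j) + (o i + o j)) := by abel
        rw [h3, E6_self, add_zero]
      rw [h2]
      exact add_mem (subset_span (Set.mem_insert_of_mem _ rfl))
        (smul_mem _ _ (subset_span (Set.mem_insert _ _)))
  -- there is a second element
  have hsec : ∃ w ∈ X, w ∈ W ∧ w ∉ M ∧ w ≠ e := by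
    by_contra hcon
    push Not at hcon
    have hle : sp (X.erase e) ≤ M ⊔ span (ZMod 2) {d} := by
      rw [sp, span_le]
      intro x hx
      rw [Finset.mem_coe, Finset.mem_erase] at hx
      by_cases hxW : x ∈ W
      · by_cases hxM : x ∈ M
        · exact mem_sup_left hxM
        · exact absurd (hcon x hx.2 hxW hxM) hx.1
      · have h1 := hother x hx.2 hxW
        have h2 : x = (x + d) + d := by
          rw [add_assoc, E6_self, add_zero]
        rw [h2]
        exact add_mem (mem_sup_left h1) (mem_sup_right (mem_span_singleton_self d))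
    rw [hC.col e heX] at hle
    have h1 : e ∈ M ⊔ span (ZMod 2) {d} := hle mem_top
    obtain ⟨m, hm, z, hz, hmz⟩ := mem_sup.1 h1
    obtain ⟨c, hc⟩ := mem_span_singleton.1 hz
    rcases E6_01 c with h | h
    · rw [h, zero_smul] at hc
      rw [← hc, add_zero] at hmz
      exact heM (hmz ▸ hm)
    · rw [h, one_smul] at hc
      apply hdW
      have h2 : d = m + e := by
        rw [← hmz, E6_two, hc]
      rw [h2]
      exact W.add_mem (hMW hm) heW
  obtain ⟨e', heX', heW', heM', hne⟩ := hsec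
  obtain ⟨k, hk⟩ := htwo e heX e' heX' heW heW' heM heM' (Ne.symm hne)
  have honly : ∀ w ∈ X, w ∈ W → w ∉ M → w = e ∨ w = e + o k := by
    intro w hwX hwW hwM
    by_contra hcon
    push Not at hcon
    obtain ⟨l, hl⟩ := htwo e heX w hwX heW hwW heM hwM (Ne.symm hcon.1)
    obtain ⟨m, hm⟩ := htwo e' heX' w hwX heW' hwW heM' hwM (by
      rw [hk]
      exact Ne.symm hcon.2)
    have hkl : k ≠ l := by
      intro h
      apply hcon.2
      rw [hl, h]
    have h1 : o k + o l + o m = 0 := by
      rw [hl, hk, add_assoc] at hm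
      have h2 := add_left_cancel hm
      rw [h2]
      have h3 : o k + (o k + o m) + o m = (o k + o k) + (o m + o m) := by abel
      rw [h3, E6_self, E6_self, add_zero]
    have h2 : ∑ i, (Pi.single k 1 + Pi.single l 1 + Pi.single m 1 : Fin 3 → ZMod 2) i • o i
        = 0 := by
      have h3 : ∀ r : Fin 3, ∑ i, (Pi.single r 1 : Fin 3 → ZMod 2) i • o i = o r := by
        intro r
        rw [Finset.sum_eq_single r]
        · rw [Pi.single_eq_same, one_smul]
        · intro l _ hl
          rw [Pi.single_eq_of_ne hl, zero_smul]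
        · intro h
          exact absurd (Finset.mem_univ r) h
      simp only [Pi.add_apply, add_smul, Finset.sum_add_distrib]
      rw [h3, h3, h3]
      exact h1
    exact E6_dec4 k l m hkl (funext (Fintype.linearIndependent_iff.1 ho _ h2))
  have hek : e + o k ∈ X := by
    rw [← hk]
    exact heX'
  refine ⟨d, hdX, hdW, hdk, hother, e, heX, k, heW, heM, hek, honly, ?_⟩
  obtain ⟨-, f, hfX, hfW, hfM, hf⟩ := hE1 X u L o W hC hR k
  rw [← hM] at hfM
  have hfe : cs X u (span (ZMod 2) {o k}) f = cs X u (span (ZMod 2) {o k}) e := by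
    refine (hCS X u).1 _ _ _ ?_
    rcases honly f hfX hfW hfM with h | h
    · rw [h, E6_self]
      exact zero_mem _
    · have h1 : f + e = o k := by
        rw [h, add_comm, E6_two]
      rw [h1]
      exact mem_span_singleton_self _
  rw [hfe, E6_pair X u (o k) e (ho0 k), if_pos heX, if_pos hek] at hf
  exact hf

end Pool.Agent.TRG
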