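import Pool.Agent.TRG.St

/-!
# TRG, F7: there is no contraction to the plane with seven points
-/

set_option autoImplicit false

open Submodule

namespace Pool.Agent.TRG

/-- coordinates modulo `span {b 3, b 4}` -/
private theorem F7_par (b : Fin 5 → E) (hb : LinearIndependent (ZMod 2) b) (v : E)
    (c e : Fin 5 → ZMod 2) (hv : v = ∑ i, c i • b i)
    (h : v + ∑ i, e i • b i ∈ span (ZMod 2) {b 3, b 4}) :
    c 0 = e 0 ∧ c 1 = e 1 ∧ c 2 = e 2 := by
  obtain ⟨s, t, hst⟩ := mem_span_pair.1 h
  have h1 : ∑ i, (c i + e i - ((if i = 3 then s else 0) + if i = 4 then t else 0)) • b i = 0 := by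
    have h2 : ∑ i, ((if i = (3 : Fin 5) then s else 0) + if i = 4 then t else 0) • b i =
        s • b 3 + t • b 4 := by
      simp only [add_smul, Finset.sum_add_distrib, ite_smul, zero_smul, Finset.sum_ite_eq',
        Finset.mem_univ, if_true]
    simp only [sub_smul, Finset.sum_sub_distrib]
    rw [h2, hst, hv]
    simp only [add_smul, Finset.sum_add_distrib]
    abel
  have h3 := Fintype.linearIndependent_iff.1 hb _ h1
  have key : ∀ a d : ZMod 2, a + d = 0 → a = d := by decide
  refine ⟨key _ _ ?_, key _ _ ?_, key _ _ ?_⟩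
  · have := h3 0
    simpa using this
  · have := h3 1
    simpa using this
  · have := h3 2
    simpa using this

/-- an odd coordinate is `1` or `-1` -/
private theorem F7_odd (c : ℤ) (h : c = 0 ∨ c = 1 ∨ c = -1) (h1 : ((c : ℤ) : ZMod 2) = 1) :
    c * c = 1 := by
  rcases h with h | h | h
  · rw [h] at h1
    exact absurd h1 (by decide)
  · rw [h]
    norm_num
  · rw [h]
    norm_num

/-- an even coordinate is `0` -/
private theorem F7_even (c : ℤ) (h : c = 0 ∨ c = 1 ∨ c = -1) (h1 : ((c : ℤ) : ZMod 2) = 0) :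
    c = 0 := by
  rcases h with h | h | h
  · exact h
  · rw [h] at h1
    exact absurd h1 (by decide)
  · rw [h] at h1
    exact absurd h1 (by decide)

/-- two products of signs which differ by at most one are equal -/
private theorem F7_eq (a b c d : ℤ) (ha : a * a = 1) (hb : b * b = 1) (hc : c * c = 1)
    (hd : d * d = 1) (h : |a * b - c * d| ≤ 1) : a * b = c * d := by
  have key : ∀ m : ℤ, m * m = 1 → m = 1 ∨ m = -1 := fun m hm => by
    have : (m - 1) * (m + 1) = 0 := by linear_combination hm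
    rcases mul_eq_zero.1 this with h | h
    · left; omega
    · right; omega
  rw [abs_le] at h
  rcases key a ha with rfl | rfl <;> rcases key b hb with rfl | rfl <;>
    rcases key c hc with rfl | rfl <;> rcases key d hd with rfl | rfl <;> first | rfl | omega

/-- [F7] -/
theorem F7_proof (hCO : St_CO) (hCO2 : St_CO2) : St_F7 := by
  intro X L hL b hb
  rintro ⟨x, hx, y, hy, z, hz, t, ht, hx1, hy1, hz1, ht1⟩
  have _ := hCO2
  obtain ⟨h1, h2, h3, h4, h5, -⟩ := hCO X L hL b hb
  have px := F7_par b hb.2 x (fun i => ((co L b x i : ℤ) : ZMod 2)) ![1, 1, 0, 0, 0] (h2 x hx) (by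
    rw [show ∑ i, (![1, 1, 0, 0, 0] : Fin 5 → ZMod 2) i • b i = b 0 + b 1 by
      simp [Fin.sum_univ_succ]]
    exact hx1)
  have py := F7_par b hb.2 y (fun i => ((co L b y i : ℤ) : ZMod 2)) ![1, 0, 1, 0, 0] (h2 y hy) (by
    rw [show ∑ i, (![1, 0, 1, 0, 0] : Fin 5 → ZMod 2) i • b i = b 0 + b 2 by
      simp [Fin.sum_univ_succ]]
    exact hy1)
  have pz := F7_par b hb.2 z (fun i => ((co L b z i : ℤ) : ZMod 2)) ![0, 1, 1, 0, 0] (h2 z hz) (by
    rw [show ∑ i, (![0, 1, 1, 0, 0] : Fin 5 → ZMod 2) i • b i = b 1 + b 2 by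
      simp [Fin.sum_univ_succ]]
    exact hz1)
  have pt := F7_par b hb.2 t (fun i => ((co L b t i : ℤ) : ZMod 2)) ![1, 1, 1, 0, 0] (h2 t ht) (by
    rw [show ∑ i, (![1, 1, 1, 0, 0] : Fin 5 → ZMod 2) i • b i = b 0 + b 1 + b 2 by
      simp [Fin.sum_univ_succ, add_assoc]]
    exact ht1)
  have α := F7_odd _ (h3 x hx 0) px.1
  have β := F7_odd _ (h3 x hx 1) px.2.1
  have x2 := F7_even _ (h3 x hx 2) px.2.2
  have γ := F7_odd _ (h3 y hy 0) py.1
  have y1 := F7_even _ (h3 y hy 1) py.2.1
  have δ := F7_odd _ (h3 y hy 2) py.2.2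
  have z0 := F7_even _ (h3 z hz 0) pz.1
  have ε := F7_odd _ (h3 z hz 1) pz.2.1
  have ζ := F7_odd _ (h3 z hz 2) pz.2.2
  have lam := F7_odd _ (h3 t ht 0) pt.1
  have μ := F7_odd _ (h3 t ht 1) pt.2.1
  have ν := F7_odd _ (h3 t ht 2) pt.2.2
  have e1 := F7_eq _ _ _ _ α μ β lam (h4 x hx t ht 0 1 (by decide))
  have e2 := F7_eq _ _ _ _ γ ν δ lam (h4 y hy t ht 0 2 (by decide))
  have e3 := F7_eq _ _ _ _ ε ν ζ μ (h4 z hz t ht 1 2 (by decide))
  have hdet := h5 ![x, y, z, b 3, b 4] (by
    intro i
    fin_cases i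
    · exact hx
    · exact hy
    · exact hz
    · exact hb.1 3
    · exact hb.1 4)
  have hM : (fun i j => co L b ((![x, y, z, b 3, b 4] : Fin 5 → E) i) j) =
      !![co L b x 0, co L b x 1, 0, co L b x 3, co L b x 4;
        co L b y 0, 0, co L b y 2, co L b y 3, co L b y 4;
        0, co L b z 1, co L b z 2, co L b z 3, co L b z 4;
        0, 0, 0, 1, 0; 0, 0, 0, 0, 1] := by
    ext i j
    fin_cases i
    · fin_cases j <;> first | exact x2 | rfl
    · fin_cases j <;> first | exact y1 | rfl
    · fin_cases j <;> first | exact z0 | rfl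
    · fin_cases j <;> exact h1 3 _
    · fin_cases j <;> exact h1 4 _
  rw [show Matrix.det (fun i j => co L b ((![x, y, z, b 3, b 4] : Fin 5 → E) i) j) =
      -(co L b x 0 * co L b y 2 * co L b z 1 + co L b x 1 * co L b y 0 * co L b z 2) by
    rw [hM]
    simp [Matrix.det_succ_row_zero, Fin.sum_univ_succ, Fin.succAbove]
    ring] at hdet
  generalize co L b x 0 = a at *
  generalize co L b x 1 = a1 at *
  generalize co L b y 0 = c at *
  generalize co L b y 2 = d at *
  generalize co L b z 1 = e at *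
  generalize co L b z 2 = f at *
  generalize co L b t 0 = l at *
  generalize co L b t 1 = m at *
  generalize co L b t 2 = n at *
  have g1 : a = a1 * l * m := by linear_combination m * e1 - a * μ
  have g2 : d = c * n * l := by linear_combination (-l) * e2 - d * lam
  have g3 : e = f * m * n := by linear_combination n * e3 - e * ν
  have g4 : a * d * e = a1 * c * f := by
    rw [g1, g2, g3]
    linear_combination a1 * c * f * (l * l) * (m * m) * ν + a1 * c * f * (l * l) * μ +
      a1 * c * f * lam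
  have g5 : a1 * c * f * (a1 * c * f) = 1 := by
    linear_combination c * c * (f * f) * β + f * f * γ + ζ
  rw [g4, abs_le] at hdet
  generalize a1 * c * f = k at *
  have g6 : (k - 1) * (k + 1) = 0 := by linear_combination g5
  rcases mul_eq_zero.1 g6 with h | h <;> omega

end Pool.Agent.TRG
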