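import Pool.Agent.TRG.St

/-!
# TRG : [F7s] There is no contraction to the dual of the plane with seven points.

MP_42db45_gt, MP_79b4ff_gt (captain: helper62).
-/

set_option autoImplicit false

open Submodule
open Pool.Agent.SPT Pool.Agent.SPT.Rel

namespace Pool.Agent.TRG

/-- two products of signs with difference at most one are equal -/
private lemma F7s_eq {p q r s : ℤ} (hp : p = 1 ∨ p = -1) (hq : q = 1 ∨ q = -1)
    (hr : r = 1 ∨ r = -1) (hs : s = 1 ∨ s = -1) (h : |p * q - r * s| ≤ 1) : p * q = r * s := by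
  rcases hp with rfl | rfl <;> rcases hq with rfl | rfl <;> rcases hr with rfl | rfl <;>
    rcases hs with rfl | rfl <;> first | rfl | (norm_num at h)

private lemma F7s_sq {p : ℤ} (hp : p = 1 ∨ p = -1) : p * p = 1 := by
  rcases hp with rfl | rfl <;> rfl

/-- the residues of the coordinates are the coefficients -/
private lemma F7s_co {X : Finset E} {L : E → Fin 5 → ℤ} (h : St_CO) (hU : Uni X L)
    {b : Fin 5 → E} (hb : Bas X b) {v : E} (hv : v ∈ X) (t : Fin 5 → ZMod 2)
    (ht : v = ∑ i, t i • b i) (i : Fin 5) : ((co L b v i : ℤ) : ZMod 2) = t i := by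
  have h2 := (h X L hU b hb).2.1 v hv
  have h0 : ∑ i, (((co L b v i : ℤ) : ZMod 2) - t i) • b i = 0 := by
    simp only [sub_smul, Finset.sum_sub_distrib]
    rw [← h2, ← ht, sub_self]
  exact sub_eq_zero.mp (Fintype.linearIndependent_iff.mp hb.2 _ h0 i)

private lemma F7s_one {c : ℤ} (hc : c = 0 ∨ c = 1 ∨ c = -1) (h : (c : ZMod 2) = 1) :
    c = 1 ∨ c = -1 := by
  rcases hc with rfl | hc
  · exact absurd h (by decide)
  · exact hc

private lemma F7s_zero {c : ℤ} (hc : c = 0 ∨ c = 1 ∨ c = -1) (h : (c : ZMod 2) = 0) :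
    c = 0 := by
  rcases hc with rfl | rfl | rfl
  · rfl
  · exact absurd h (by decide)
  · exact absurd h (by decide)

/-- the coefficients of an element with a known class modulo `b 4` -/
private lemma F7s_mem {b : Fin 5 → E} {v w : E} (h : v + w ∈ span (ZMod 2) {b 4}) :
    ∃ c : ZMod 2, v = w + c • b 4 := by
  obtain ⟨c, hc⟩ := mem_span_singleton.mp h
  refine ⟨c, ?_⟩
  have h2 : w + w = 0 := by
    funext k
    exact CharTwo.add_self_eq_zero (w k)
  rw [hc, add_left_comm, h2, add_zero]

/-- [F7s] There is no contraction to the dual of the plane with seven points. -/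
theorem F7s_proof (hCO : St_CO) (hCO2 : St_CO2) : St_F7s := by
  intro X L hU b hb
  rintro ⟨x, hx, y, hy, z, hz, hx', hy', hz'⟩
  have _ := hCO2
  obtain ⟨h1, -, h3, h4, h5, -⟩ := hCO X L hU b hb
  obtain ⟨p, hp⟩ := F7s_mem hx'
  obtain ⟨q, hq⟩ := F7s_mem hy'
  obtain ⟨r, hr⟩ := F7s_mem hz'
  have cx := F7s_co hCO hU hb hx ![1, 1, 0, 1, p] (by
    rw [hp]; simp [Fin.sum_univ_succ]; abel)
  have cy := F7s_co hCO hU hb hy ![1, 0, 1, 1, q] (by
    rw [hq]; simp [Fin.sum_univ_succ]; abel)
  have cz := F7s_co hCO hU hb hz ![0, 1, 1, 1, r] (by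
    rw [hr]; simp [Fin.sum_univ_succ]; abel)
  have x0 := F7s_one (h3 x hx 0) (cx 0)
  have x1 := F7s_one (h3 x hx 1) (cx 1)
  have x2 := F7s_zero (h3 x hx 2) (cx 2)
  have x3 := F7s_one (h3 x hx 3) (cx 3)
  have y0 := F7s_one (h3 y hy 0) (cy 0)
  have y1 := F7s_zero (h3 y hy 1) (cy 1)
  have y2 := F7s_one (h3 y hy 2) (cy 2)
  have y3 := F7s_one (h3 y hy 3) (cy 3)
  have z0 := F7s_zero (h3 z hz 0) (cz 0)
  have z1 := F7s_one (h3 z hz 1) (cz 1)
  have z2 := F7s_one (h3 z hz 2) (cz 2)
  have z3 := F7s_one (h3 z hz 3) (cz 3)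
  have e1 := F7s_eq x0 y3 x3 y0 (h4 x hx y hy 0 3 (by decide))
  have e2 := F7s_eq x1 z3 x3 z1 (h4 x hx z hz 1 3 (by decide))
  have e3 := F7s_eq y2 z3 y3 z2 (h4 y hy z hz 2 3 (by decide))
  have h := h5 ![x, y, z, b 3, b 4] (by
    intro i
    fin_cases i
    · exact hx
    · exact hy
    · exact hz
    · exact hb.1 3
    · exact hb.1 4)
  have hd : Matrix.det (fun i j => co L b ((![x, y, z, b 3, b 4] : Fin 5 → E) i) j) =
      -(co L b x 0 * co L b y 2 * co L b z 1 + co L b x 1 * co L b y 0 * co L b z 2) := by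
    have hm : (fun i j => co L b ((![x, y, z, b 3, b 4] : Fin 5 → E) i) j) =
        !![co L b x 0, co L b x 1, 0, co L b x 3, co L b x 4;
          co L b y 0, 0, co L b y 2, co L b y 3, co L b y 4;
          0, co L b z 1, co L b z 2, co L b z 3, co L b z 4;
          0, 0, 0, 1, 0;
          0, 0, 0, 0, 1] := by
      funext i j
      fin_cases i <;> fin_cases j <;> simp [x2, y1, z0, h1]
    rw [hm]
    simp [Matrix.det_succ_row_zero, Fin.sum_univ_succ, Fin.succAbove]
    ring
  rw [hd, abs_neg] at h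
  have hs : co L b x 0 * co L b y 2 * co L b z 1 = co L b x 1 * co L b y 0 * co L b z 2 := by
    have k1 := F7s_sq x3
    have k2 := F7s_sq y3
    have k3 := F7s_sq z3
    have hmul : co L b x 0 * co L b y 2 * co L b z 1 *
        (co L b x 3 * co L b y 3 * co L b z 3) = co L b x 1 * co L b y 0 * co L b z 2 *
        (co L b x 3 * co L b y 3 * co L b z 3) := by
      calc co L b x 0 * co L b y 2 * co L b z 1 * (co L b x 3 * co L b y 3 * co L b z 3)
          = (co L b x 0 * co L b y 3) * (co L b y 2 * co L b z 3) *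
            (co L b x 3 * co L b z 1) := by ring
        _ = (co L b x 3 * co L b y 0) * (co L b y 3 * co L b z 2) *
            (co L b x 1 * co L b z 3) := by rw [e1, e3, e2]
        _ = _ := by ring
    have hne : co L b x 3 * co L b y 3 * co L b z 3 ≠ 0 := by
      intro h0
      have : (co L b x 3 * co L b y 3 * co L b z 3) *
          (co L b x 3 * co L b y 3 * co L b z 3) = 1 := by
        calc (co L b x 3 * co L b y 3 * co L b z 3) * (co L b x 3 * co L b y 3 * co L b z 3)
            = (co L b x 3 * co L b x 3) * (co L b y 3 * co L b y 3) *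
              (co L b z 3 * co L b z 3) := by ring
          _ = 1 := by rw [k1, k2, k3]; rfl
      rw [h0] at this
      exact absurd this (by decide)
    exact mul_right_cancel₀ hne hmul
  rw [← hs] at h
  rcases x0 with x0 | x0 <;> rcases y2 with y2 | y2 <;> rcases z1 with z1 | z1 <;>
    rw [x0, y2, z1] at h <;> norm_num at h

end Pool.Agent.TRG
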