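import Pool.Agent.TRG.St

/-!
# TRG, module QF : the entries of the form (from CO, CO2)
-/

set_option autoImplicit false

open Submodule

namespace Pool.Agent.TRG

private lemma QF_pm {a b c d : ℤ} (ha : a = 0 ∨ a = 1 ∨ a = -1) (hb : b = 0 ∨ b = 1 ∨ b = -1)
    (hc : c = 0 ∨ c = 1 ∨ c = -1) (hd : d = 0 ∨ d = 1 ∨ d = -1)
    (ha0 : a ≠ 0) (hb0 : b ≠ 0) (hc0 : c ≠ 0) (hd0 : d ≠ 0) (h : |a * d - b * c| ≤ 1) :
    a * b = c * d := by
  rw [abs_le] at h
  obtain ⟨h1, h2⟩ := h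
  rcases ha with rfl | rfl | rfl <;> rcases hb with rfl | rfl | rfl <;>
    rcases hc with rfl | rfl | rfl <;> rcases hd with rfl | rfl | rfl <;> simp_all

private lemma QF_sq {a : ℤ} (ha : a = 0 ∨ a = 1 ∨ a = -1) (ha0 : a ≠ 0) : a * a = 1 := by
  rcases ha with rfl | rfl | rfl <;> simp_all

private lemma QF_prod {a b : ℤ} (ha : a = 0 ∨ a = 1 ∨ a = -1) (hb : b = 0 ∨ b = 1 ∨ b = -1)
    (ha0 : a ≠ 0) (hb0 : b ≠ 0) : a * b = 1 ∨ a * b = -1 := by
  rcases ha with rfl | rfl | rfl <;> rcases hb with rfl | rfl | rfl <;> simp_all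

theorem QF_proof (hCO : St_CO) (hCO2 : St_CO2) : St_QF := by
  classical
  intro X L hU b hb
  obtain ⟨_, _, h3, h4, _, _⟩ := hCO X L hU b hb
  obtain ⟨h0, _, _, _⟩ := hCO2 X L hU b hb
  refine ⟨?_, ?_⟩
  · intro i D u hD
    unfold Qf out
    rw [Finset.sum_filter]
    refine Finset.sum_congr rfl ?_
    intro v hv
    have hvX := hD hv
    by_cases hc : co L b v i = 0
    · rw [if_neg (not_not_intro ((h0 v hvX i).1 hc)), hc]
      ring
    · rw [if_pos (fun hm => hc ((h0 v hvX i).2 hm)), mul_assoc, QF_sq (h3 v hvX i) hc, mul_one]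
  · intro i j hij
    obtain ⟨σ, hσ, hall⟩ : ∃ σ : ℤ, (σ = 1 ∨ σ = -1) ∧ ∀ v ∈ X, co L b v i ≠ 0 → co L b v j ≠ 0 →
        co L b v i * co L b v j = σ := by
      by_cases hex : ∃ w ∈ X, co L b w i ≠ 0 ∧ co L b w j ≠ 0
      · obtain ⟨w, hw, hwi, hwj⟩ := hex
        refine ⟨co L b w i * co L b w j, QF_prod (h3 w hw i) (h3 w hw j) hwi hwj, ?_⟩
        intro v hv hvi hvj
        exact QF_pm (h3 v hv i) (h3 v hv j) (h3 w hw i) (h3 w hw j) hvi hvj hwi hwj
          (h4 v hv w hw i j hij)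
      · refine ⟨1, Or.inl rfl, ?_⟩
        intro v hv hvi hvj
        exact absurd ⟨v, hv, hvi, hvj⟩ hex
    refine ⟨σ, hσ, ?_⟩
    intro D u hD
    unfold Qf out
    rw [Finset.filter_filter, Finset.sum_filter, Finset.mul_sum]
    refine Finset.sum_congr rfl ?_
    intro v hv
    have hvX := hD hv
    by_cases hci : co L b v i = 0
    · rw [if_neg (fun h => h.1 ((h0 v hvX i).1 hci)), hci]
      ring
    · by_cases hcj : co L b v j = 0
      · rw [if_neg (fun h => h.2 ((h0 v hvX j).1 hcj)), hcj]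
        ring
      · rw [if_pos ⟨fun hm => hci ((h0 v hvX i).2 hm), fun hm => hcj ((h0 v hvX j).2 hm)⟩, mul_assoc,
          hall v hvX hci hcj, mul_comm]

end Pool.Agent.TRG
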