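import Pool.Agent.TRG.St
import Pool.Agent.TRG.CO
import Pool.Agent.TRG.CO2
import Pool.Agent.TRG.QF

/-!
# TRG, module FIN: the last case
-/

set_option autoImplicit false

open Submodule Filter Topology
open Pool.Agent.SPT Pool.Agent.SPT.Rel

namespace Pool.Agent.TRG

variable {X : Finset E} {u : E → ℤ} {L : E → Fin 5 → ℤ} {o : Fin 3 → E}
  {W : Submodule (ZMod 2) E}

private theorem FIN_two (x : E) : x + x = 0 := by
  funext i
  exact CharTwo.add_self_eq_zero (x i)

private theorem FIN_cancel (x y : E) : x + (x + y) = y := by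
  rw [← add_assoc, FIN_two, zero_add]

private theorem FIN_sup (G : Submodule (ZMod 2) E) (w y : E)
    (h : y ∈ G ⊔ span (ZMod 2) {w}) : y ∈ G ∨ y + w ∈ G := by
  obtain ⟨g, hg, z, hz, rfl⟩ := mem_sup.1 h
  obtain ⟨c, rfl⟩ := mem_span_singleton.1 hz
  have hall : ∀ c : ZMod 2, c = 0 ∨ c = 1 := by decide
  rcases hall c with rfl | rfl
  · left
    rw [zero_smul, add_zero]
    exact hg
  · right
    rw [one_smul, add_assoc, FIN_two, add_zero]
    exact hg

private theorem FIN_R (h : Rt X u o W) :
    Module.finrank (ZMod 2) (span (ZMod 2) (Set.range o)) = 3 := by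
  rw [finrank_span_eq_card h.ind]
  rfl

private theorem FIN_RW (h : Rt X u o W) : span (ZMod 2) (Set.range o) ≤ W := by
  rw [span_le]
  rintro _ ⟨k, rfl⟩
  exact h.le k

private theorem FIN_M {n : ℕ} (h : Rt X u o W) (hO : ∀ k, o k ∈ Od X u n)
    (hrk : rk (Od X u n) = 3) : sp (Od X u n) = span (ZMod 2) (Set.range o) := by
  symm
  apply Submodule.eq_of_le_of_finrank_eq
  · rw [span_le]
    rintro _ ⟨k, rfl⟩
    exact subset_span (by exact_mod_cast hO k)
  · rw [FIN_R h]
    exact hrk.symm

private theorem FIN_W (h : Rt X u o W) {e : E} (he : e ∈ W)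
    (heR : e ∉ span (ZMod 2) (Set.range o)) :
    span (ZMod 2) (Set.range o) ⊔ span (ZMod 2) {e} = W := by
  apply Submodule.eq_of_le_of_finrank_le
  · exact sup_le (FIN_RW h) ((span_singleton_le_iff_mem _ _).2 he)
  · rw [h.hyp]
    have h1 : span (ZMod 2) (Set.range o) <
        span (ZMod 2) (Set.range o) ⊔ span (ZMod 2) {e} := by
      refine lt_of_le_of_ne le_sup_left fun hc => heR ?_
      rw [hc]
      exact mem_sup_right (mem_span_singleton_self e)
    have h2 := finrank_lt_finrank_of_lt h1
    rw [FIN_R h] at h2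
    omega

private theorem FIN_top (h : Rt X u o W) {d : E} (hd : d ∉ W) :
    W ⊔ span (ZMod 2) {d} = ⊤ := by
  have h1 : W < W ⊔ span (ZMod 2) {d} := by
    refine lt_of_le_of_ne le_sup_left fun hc => hd ?_
    rw [hc]
    exact mem_sup_right (mem_span_singleton_self d)
  have h2 := finrank_lt_finrank_of_lt h1
  rw [h.hyp] at h2
  have h3 : Module.finrank (ZMod 2) E = 5 := by simp [E]
  have h4 := Submodule.finrank_le (W ⊔ span (ZMod 2) {d})
  apply Submodule.eq_top_of_finrank_eq
  omega

private theorem FIN_G (k : Fin 3) :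
    span (ZMod 2) (o '' {i | i ≠ k}) ⊔ span (ZMod 2) {o k} = span (ZMod 2) (Set.range o) := by
  rw [← span_union]
  congr 1
  ext x
  constructor
  · rintro (⟨i, _, rfl⟩ | hx)
    · exact ⟨i, rfl⟩
    · rw [Set.mem_singleton_iff] at hx
      exact ⟨k, hx.symm⟩
  · rintro ⟨i, rfl⟩
    by_cases hi : i = k
    · right
      rw [hi]
      exact Set.mem_singleton _
    · left
      exact ⟨i, hi, rfl⟩

private theorem FIN_GR (k : Fin 3) :
    span (ZMod 2) (o '' {i | i ≠ k}) ≤ span (ZMod 2) (Set.range o) :=
  span_mono (Set.image_subset_range _ _)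

/-! ### the kernel -/

private theorem FIN_bas (h : Rt X u o W) {d e : E} (hd : d ∈ X) (hdW : d ∉ W) (he : e ∈ X)
    (heW : e ∈ W) (heR : e ∉ span (ZMod 2) (Set.range o)) : Bas X ![o 0, o 1, o 2, e, d] := by
  have hb : (![o 0, o 1, o 2, e, d] : Fin 5 → E) =
      (Fin.snoc (Fin.snoc o e : Fin 4 → E) d : Fin 5 → E) := by
    funext i
    fin_cases i <;> rfl
  constructor
  · intro i
    fin_cases i
    · exact h.mem 0
    · exact h.mem 1
    · exact h.mem 2
    · exact he
    · exact hd
  · rw [hb, linearIndependent_finSnoc, linearIndependent_finSnoc]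
    refine ⟨⟨h.ind, heR⟩, fun hc => hdW ?_⟩
    have h1 : span (ZMod 2) (Set.range (Fin.snoc o e : Fin 4 → E)) ≤ W := by
      rw [span_le]
      rintro _ ⟨i, rfl⟩
      refine Fin.lastCases ?_ (fun j => ?_) i
      · rw [Fin.snoc_last]
        exact heW
      · rw [Fin.snoc_castSucc]
        exact h.le j
    exact h1 hc

private theorem FIN_b (o : Fin 3 → E) (e d : E) (k : Fin 3) :
    (![o 0, o 1, o 2, e, d] : Fin 5 → E) k.castSucc.castSucc = o k := by
  fin_cases k <;> rfl

private theorem FIN_H4 (h : Rt X u o W) {d e : E} (heW : e ∈ W) :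
    span (ZMod 2) ((![o 0, o 1, o 2, e, d] : Fin 5 → E) '' {j | j ≠ 4}) ≤ W := by
  rw [span_le]
  rintro _ ⟨i, hi, rfl⟩
  fin_cases i
  · exact h.le 0
  · exact h.le 1
  · exact h.le 2
  · exact heW
  · exact absurd rfl hi

private theorem FIN_Qf (hQF : St_QF) (hU : Uni X L) (h : Rt X u o W) {d e : E} (hd : d ∈ X)
    (hdW : d ∉ W) (hC : ∀ v ∈ X, v ∉ W → v + d ∈ span (ZMod 2) (Set.range o)) (he : e ∈ X)
    (heW : e ∈ W) (heR : e ∉ span (ZMod 2) (Set.range o)) (i : Fin 5) :
    Qf L ![o 0, o 1, o 2, e, d] (out X W) u i 4 = 0 := by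
  classical
  have hbas := FIN_bas h hd hdW he heW heR
  obtain ⟨q1, q2⟩ := hQF X L hU ![o 0, o 1, o 2, e, d] hbas
  have hH4 := FIN_H4 (d := d) h heW
  have hsub : out X W ⊆ X := Finset.filter_subset _ _
  have hmo : ∀ v, v ∈ out X W ↔ v ∈ X ∧ v ∉ W := fun v => Finset.mem_filter
  have hRW := FIN_RW h
  by_cases hi4 : i = 4
  · subst hi4
    rw [q1 4 (out X W) u hsub]
    have h1 := h.tot d hdW
    rw [← h1]
    unfold cs
    refine Finset.sum_congr ?_ fun _ _ => rfl
    ext v
    unfold out
    rw [Finset.mem_filter, Finset.mem_filter, Finset.mem_filter]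
    constructor
    · rintro ⟨⟨hv, hvW⟩, _⟩
      exact ⟨hv, hC v hv hvW⟩
    · rintro ⟨hv, hvd⟩
      have hvW : v ∉ W := by
        intro hc
        refine hdW ?_
        rw [← FIN_cancel v d]
        exact W.add_mem hc (hRW hvd)
      exact ⟨⟨hv, hvW⟩, fun hc => hvW (hH4 hc)⟩
  · obtain ⟨σ, -, hσ⟩ := q2 i 4 hi4
    rw [hσ (out X W) u hsub]
    have key : ∑ v ∈ out (out (out X W) (span (ZMod 2)
        ((![o 0, o 1, o 2, e, d] : Fin 5 → E) '' {k | k ≠ i})))
        (span (ZMod 2) ((![o 0, o 1, o 2, e, d] : Fin 5 → E) '' {k | k ≠ 4})), u v = 0 := by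
      have hdH : d ∈ span (ZMod 2) ((![o 0, o 1, o 2, e, d] : Fin 5 → E) '' {k | k ≠ i}) :=
        subset_span ⟨4, fun hc => hi4 hc.symm, rfl⟩
      by_cases hi3 : i = 3
      · subst hi3
        have hRH : span (ZMod 2) (Set.range o) ≤
            span (ZMod 2) ((![o 0, o 1, o 2, e, d] : Fin 5 → E) '' {k | k ≠ 3}) := by
          rw [span_le]
          rintro _ ⟨k, rfl⟩
          refine subset_span ⟨k.castSucc.castSucc, ?_, FIN_b o e d k⟩
          fin_cases k <;> decide
        have hemp : out (out (out X W) (span (ZMod 2)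
            ((![o 0, o 1, o 2, e, d] : Fin 5 → E) '' {k | k ≠ 3})))
            (span (ZMod 2) ((![o 0, o 1, o 2, e, d] : Fin 5 → E) '' {k | k ≠ 4})) = ∅ := by
          rw [Finset.eq_empty_iff_forall_notMem]
          intro v hv
          unfold out at hv
          rw [Finset.mem_filter, Finset.mem_filter, Finset.mem_filter] at hv
          obtain ⟨⟨⟨hv, hvW⟩, hv3⟩, _⟩ := hv
          refine hv3 ?_
          rw [← FIN_cancel d v, add_comm d v]
          exact Submodule.add_mem _ hdH (hRH (hC v hv hvW))
        rw [hemp, Finset.sum_empty]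
      · obtain ⟨k, rfl⟩ : ∃ k : Fin 3, i = k.castSucc.castSucc := by
          refine ⟨⟨(i : ℕ), ?_⟩, rfl⟩
          have h1 := i.2
          have h2 : (i : ℕ) ≠ 4 := fun hc => hi4 (Fin.ext hc)
          have h3 : (i : ℕ) ≠ 3 := fun hc => hi3 (Fin.ext hc)
          omega
        have hoH : o k ∉ span (ZMod 2)
            ((![o 0, o 1, o 2, e, d] : Fin 5 → E) '' {j | j ≠ k.castSucc.castSucc}) := by
          have h1 := hbas.2.notMem_span_image (s := {j | j ≠ k.castSucc.castSucc})
            (x := k.castSucc.castSucc) (fun hc => hc rfl)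
          rw [FIN_b] at h1
          exact h1
        have hGH : span (ZMod 2) (o '' {j | j ≠ k}) ≤ span (ZMod 2)
            ((![o 0, o 1, o 2, e, d] : Fin 5 → E) '' {j | j ≠ k.castSucc.castSucc}) := by
          rw [span_le]
          rintro _ ⟨j, hj, rfl⟩
          refine subset_span ⟨j.castSucc.castSucc, fun hc => hj ?_, FIN_b o e d j⟩
          exact Fin.castSucc_injective _ (Fin.castSucc_injective _ hc)
        have hdk : d + o k ∉ W := by
          intro hc
          refine hdW ?_
          have h1 := W.add_mem hc (h.le k)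
          rwa [add_assoc, FIN_two, add_zero] at h1
        have h1 := h.two (d + o k) hdk k
        rw [← h1]
        unfold cs
        refine Finset.sum_congr ?_ fun _ _ => rfl
        ext v
        unfold out
        rw [Finset.mem_filter, Finset.mem_filter, Finset.mem_filter, Finset.mem_filter]
        constructor
        · rintro ⟨⟨⟨hv, hvW⟩, hvH⟩, _⟩
          refine ⟨hv, ?_⟩
          have h2 := hC v hv hvW
          rw [← FIN_G k] at h2
          rcases FIN_sup _ _ _ h2 with h3 | h3
          · exfalso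
            refine hvH ?_
            rw [← FIN_cancel d v, add_comm d v]
            exact Submodule.add_mem _ hdH (hGH h3)
          · rw [← add_assoc]
            exact h3
        · rintro ⟨hv, hvG⟩
          have hvW : v ∉ W := by
            intro hc
            refine hdk ?_
            rw [← FIN_cancel v (d + o k)]
            exact W.add_mem hc (hRW (FIN_GR k hvG))
          refine ⟨⟨⟨hv, hvW⟩, fun hc => hoH ?_⟩, fun hc => hvW (hH4 hc)⟩
          have h2 : o k = (v + d) + (v + (d + o k)) := by
            rw [← add_assoc v d (o k), FIN_cancel]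
          rw [h2]
          exact Submodule.add_mem _ (Submodule.add_mem _ hc hdH) (hGH hvG)
    rw [key, mul_zero]

/-! ### flats of `{o 0, o 1, o 2}` -/

private theorem FIN_card (h : Rt X u o W) {F : Finset E} (hF : ∀ v ∈ F, ∃ k, v = o k) :
    rk F = F.card := by
  unfold rk sp
  refine finrank_span_finset_eq_card (h.ind.linearIndepOn_id.mono ?_)
  intro v hv
  obtain ⟨k, rfl⟩ := hF v (by exact_mod_cast hv)
  exact ⟨k, rfl⟩

private theorem FIN_le3 {F : Finset E} (hF : ∀ v ∈ F, ∃ k, v = o k) : F.card ≤ 3 := by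
  classical
  have h1 : F ⊆ Finset.univ.image o := by
    intro v hv
    obtain ⟨k, rfl⟩ := hF v hv
    exact Finset.mem_image_of_mem _ (Finset.mem_univ _)
  exact (Finset.card_le_card h1).trans (Finset.card_image_le.trans (by simp))

private theorem FIN_c3 {F : Finset E} (hF : ∀ v ∈ F, ∃ k, v = o k) (hc : F.card = 3) :
    sp F = span (ZMod 2) (Set.range o) := by
  classical
  have h1 : F ⊆ Finset.univ.image o := by
    intro v hv
    obtain ⟨k, rfl⟩ := hF v hv
    exact Finset.mem_image_of_mem _ (Finset.mem_univ _)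
  have h2 : F = Finset.univ.image o := by
    refine Finset.eq_of_subset_of_card_le h1 ?_
    rw [hc]
    exact Finset.card_image_le.trans (by simp)
  unfold sp
  rw [h2, Finset.coe_image, Finset.coe_univ, Set.image_univ]

private theorem FIN_c2 (h : Rt X u o W) {F : Finset E} (hF : ∀ v ∈ F, ∃ k, v = o k) (hc : F.card = 2) :
    ∃ k, sp F = span (ZMod 2) (o '' {i | i ≠ k}) := by
  classical
  have h0 : ∃ k, F ⊆ (Finset.univ.erase k).image o := by
    by_contra hcon
    push Not at hcon
    have h1 : ∀ k, o k ∈ F := by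
      intro k
      by_contra hk
      refine hcon k ?_
      intro v hv
      obtain ⟨j, rfl⟩ := hF v hv
      refine Finset.mem_image_of_mem _ (Finset.mem_erase.2 ⟨?_, Finset.mem_univ _⟩)
      rintro rfl
      exact hk hv
    have h2 : (Finset.univ.image o) ⊆ F := by
      intro v hv
      obtain ⟨k, _, rfl⟩ := Finset.mem_image.1 hv
      exact h1 k
    have h3 := Finset.card_le_card h2
    rw [Finset.card_image_of_injective _ h.ind.injective, hc] at h3
    simp at h3
  obtain ⟨k, hk⟩ := h0
  refine ⟨k, ?_⟩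
  have h2 : F = (Finset.univ.erase k).image o := by
    refine Finset.eq_of_subset_of_card_le hk ?_
    rw [hc]
    refine Finset.card_image_le.trans ?_
    rw [Finset.card_erase_of_mem (Finset.mem_univ _)]
    simp
  unfold sp
  rw [h2, Finset.coe_image]
  congr 2
  ext j
  simp

/-! ### the main statement -/

private theorem FIN_lim0 {B : Finset E} {K : Submodule (ZMod 2) E} {N : ℕ} {c : ℝ} (hc : c = 0)
    (hz : ∀ x : ℝ, TT B K (ex u x) = 0) :
    Tendsto (fun x : ℝ => TT B K (ex u x) / (x : ℂ) ^ N) (𝓝[>] 0) (𝓝 ((c : ℝ) : ℂ)) := by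
  have h1 : (fun x : ℝ => TT B K (ex u x) / (x : ℂ) ^ N) = fun _ => ((0 : ℝ) : ℂ) := by
    funext x
    rw [hz x, zero_div, Complex.ofReal_zero]
  rw [h1, hc]
  exact tendsto_const_nhds

private theorem FIN_aux (hMAS : St_MAS) (hLIM : St_LIM) (hT2 : St_T2) (hT3 : St_T3)
    (hCS : St_CS) (hE3 : St_E3) (hE6 : St_E6) (hFT : St_FT) (hKER : St_KER) (hBAL : St_BAL)
    (hQF : St_QF) : St_FIN := by
  classical
  intro X u L n hcx hlev hrk o W hO hRt
  obtain ⟨d, hd, hdW, hcs, hC, e, he, l, heW, heR, heo, hW, ha⟩ := hE6 X u L o W hcx hRt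
  obtain ⟨-, -, c3, -, c5, c6⟩ := hCS X u
  have hM := FIN_M hRt hO hrk
  have hRW := FIN_RW hRt
  have hfR := FIN_R hRt
  -- the elements of `inn X M`
  have hA : ∀ v, v ∈ inn X (sp (Od X u n)) → ∃ k, v = o k := by
    intro v hv
    rw [hM] at hv
    obtain ⟨h1, h2⟩ := Finset.mem_filter.1 hv
    exact hE3 X u L o W hcx hRt v h1 h2
  have hFA : ∀ F ∈ fl (inn X (sp (Od X u n))), ∀ v ∈ F, ∃ k, v = o k := by
    intro F hF v hv
    exact hA v ((Finset.mem_powerset.1 (Finset.mem_filter.1 hF).1) hv)
  have hW1 := FIN_W hRt heW heR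
  have hW2 := FIN_top hRt hdW
  have hedW : e + d ∉ W := by
    intro hc
    refine hdW ?_
    rw [← FIN_cancel e d]
    exact W.add_mem heW hc
  have hnR : ∀ v, v ∉ W → v ∉ span (ZMod 2) (Set.range o) := fun v hv hc => hv (hRW hc)
  -- the limits
  have hlim : ∀ F ∈ fl (inn X (sp (Od X u n))), Tendsto (fun x : ℝ =>
      TT (out X (sp (Od X u n))) (sp F) (ex u x) / (x : ℂ) ^ 5) (𝓝[>] 0)
      (𝓝 (((if rk F = 1 then -((u e + u (e + o l) : ℤ) : ℝ) *
        ((cs X u (sp F) d : ℤ) : ℝ) ^ 4 else 0 : ℝ)) : ℂ)) := by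
    intro F hF
    have hFo := hFA F hF
    have hr := FIN_card hRt hFo
    have hle := FIN_le3 hFo
    rw [hM]
    by_cases h1 : F.card = 1
    · obtain ⟨v, rfl⟩ := Finset.card_eq_one.1 h1
      obtain ⟨k, rfl⟩ := hFo v (Finset.mem_singleton_self v)
      have h2 := hFT X u o W hRt d hd hdW hC e he l heW heR heo hW k
      rw [if_pos (hr.trans h1)]
      have h3 : sp ({o k} : Finset E) = span (ZMod 2) {o k} := by
        unfold sp
        rw [Finset.coe_singleton]
      rw [h3]
      exact h2
    · have hr1 : ¬ rk F = 1 := by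
        rw [hr]
        exact h1
      rw [if_neg hr1]
      by_cases h3 : F.card = 3
      · refine FIN_lim0 rfl fun x => ?_
        rw [FIN_c3 hFo h3]
        rw [hT2 (out X (span (ZMod 2) (Set.range o))) u (span (ZMod 2) (Set.range o)) hfR
          (fun v hv => (Finset.mem_filter.1 hv).2) e d ?_ x]
        · rw [c3 _ _ d le_rfl (hnR d hdW), c3 _ _ (e + d) le_rfl (hnR _ hedW), hRt.tot d hdW,
            hRt.tot _ hedW]
          unfold F2
          simp
          ring
        · rw [span_insert, ← sup_assoc, hW1, hW2]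
      · by_cases h2 : F.card = 2
        · refine FIN_lim0 rfl fun x => ?_
          obtain ⟨k, hk⟩ := FIN_c2 hRt hFo h2
          have hG2 : Module.finrank (ZMod 2) (span (ZMod 2) (o '' {i | i ≠ k})) = 2 := by
            rw [← hk]
            exact hr.trans h2
          have hdoW : d + o k ∉ W := by
            intro hc
            refine hdW ?_
            have h1 := W.add_mem hc (hRt.le k)
            rwa [add_assoc, FIN_two, add_zero] at h1
          have hedoW : e + d + o k ∉ W := by
            intro hc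
            refine hedW ?_
            have h1 := W.add_mem hc (hRt.le k)
            rwa [add_assoc, FIN_two, add_zero] at h1
          rw [hk]
          rw [hT3 (out X (span (ZMod 2) (Set.range o))) u (span (ZMod 2) (o '' {i | i ≠ k})) hG2
            (o k) e d ?_ ?_ x]
          · rw [c3 _ _ d (FIN_GR k) (hnR d hdW), c3 _ _ (d + o k) (FIN_GR k) (hnR _ hdoW),
              c3 _ _ (e + d) (FIN_GR k) (hnR _ hedW),
              c3 _ _ (e + d + o k) (FIN_GR k) (hnR _ hedoW), hRt.two d hdW k,
              hRt.two _ hdoW k, hRt.two _ hedW k, hRt.two _ hedoW k]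
            unfold F3
            simp
            ring
          · rw [span_insert, span_insert, ← sup_assoc, FIN_G k, ← sup_assoc, hW1, hW2]
          · intro v hv
            have hvR := (Finset.mem_filter.1 hv).2
            refine ⟨fun hc => hvR (FIN_GR k hc), fun hc => hvR ?_⟩
            have h4 := Submodule.add_mem _ (FIN_GR k hc)
              (subset_span ⟨k, rfl⟩ : o k ∈ span (ZMod 2) (Set.range o))
            rwa [add_assoc, FIN_two, add_zero] at h4
        · have h0 : F.card = 0 := by omega
          have hFe := Finset.card_eq_zero.1 h0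
          subst hFe
          have h4 : Module.finrank (ZMod 2) (sp (∅ : Finset E)) + 5 = 5 := by
            have : rk (∅ : Finset E) = 0 := hr
            unfold rk at this
            omega
          have h5 := (hLIM (out X (span (ZMod 2) (Set.range o))) (sp (∅ : Finset E)) u 5 h4).1
          -- the kernel
          have hker : Ker X u L W := hKER X u L hcx.uni W ![o 0, o 1, o 2, e, d]
            (FIN_bas hRt hd hdW he heW heR)
            (fun i hi => (FIN_H4 (d := d) hRt heW) (subset_span ⟨i, hi, rfl⟩)) hdW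
            (FIN_Qf hQF hcx.uni hRt hd hdW hC he heW heR)
          have hsW : sp (inn X W) = W := by
            apply le_antisymm
            · unfold sp
              rw [span_le]
              intro v hv
              exact (Finset.mem_filter.1 (Finset.mem_coe.1 hv)).2
            · rw [← hW1]
              refine sup_le ?_ ((span_singleton_le_iff_mem _ _).2 ?_)
              · rw [span_le]
                rintro _ ⟨k, rfl⟩
                refine subset_span (Finset.mem_coe.2 (Finset.mem_filter.2 ⟨hRt.mem k, ?_⟩))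
                rw [hW1]
                exact hRt.le k
              · refine subset_span (Finset.mem_coe.2 (Finset.mem_filter.2 ⟨he, ?_⟩))
                rw [hW1]
                exact heW
          have h6 := (hBAL X u L hcx.uni hcx.spn W hRt.hyp hsW hker).2.2
            (out X (span (ZMod 2) (Set.range o))) (Finset.filter_subset _ _) ?_ ∅
            (Finset.empty_subset _)
          · have h7 := h6.2.2 hr
            rw [h7, Int.cast_zero] at h5
            rw [Complex.ofReal_zero]
            exact h5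
          · intro v hv
            obtain ⟨h8, h9⟩ := Finset.mem_filter.1 hv
            exact Finset.mem_filter.2 ⟨h8, hnR v h9⟩
  -- coherence
  have ha' : ((u e + u (e + o l) : ℤ) : ℝ) ≠ 0 := by exact_mod_cast ha
  have hcoh : Coh (inn X (sp (Od X u n))) (Od X u n) (fun F => if rk F = 1 then
      -((u e + u (e + o l) : ℤ) : ℝ) * ((cs X u (sp F) d : ℤ) : ℝ) ^ 4 else 0) := by
    rcases lt_or_gt_of_ne ha' with h | h
    · refine ⟨-1, Or.inr rfl, fun F _ _ => ?_⟩
      by_cases h1 : rk F = 1
      · simp only [if_pos h1]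
        rw [h1]
        have h2 : 0 ≤ ((cs X u (sp F) d : ℤ) : ℝ) ^ 4 := by positivity
        nlinarith
      · simp only [if_neg h1, mul_zero, le_refl]
    · refine ⟨1, Or.inl rfl, fun F _ _ => ?_⟩
      by_cases h1 : rk F = 1
      · simp only [if_pos h1]
        rw [h1]
        have h2 : 0 ≤ ((cs X u (sp F) d : ℤ) : ℝ) ^ 4 := by positivity
        nlinarith
      · simp only [if_neg h1, mul_zero, le_refl]
  -- the flat `{o 0}`
  have hF0 : ({o 0} : Finset E) ∈ fl (inn X (sp (Od X u n))) := by
    unfold fl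
    rw [Finset.mem_filter, Finset.mem_powerset]
    have h1 : ({o 0} : Finset E) ⊆ inn X (sp (Od X u n)) := by
      intro v hv
      rw [Finset.mem_singleton] at hv
      subst hv
      exact Finset.mem_filter.2 ⟨hRt.mem 0, subset_span (by exact_mod_cast hO 0)⟩
    refine ⟨h1, h1, fun v hv hvs => ?_⟩
    obtain ⟨k, rfl⟩ := hA v hv
    rw [Finset.mem_singleton]
    by_contra hne
    have hk : k ≠ 0 := fun hc => hne (by rw [hc])
    have h2 := hRt.ind.notMem_span_image (s := {0}) (x := k) (by simpa using hk)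
    rw [Set.image_singleton] at h2
    rw [Finset.coe_singleton] at hvs
    exact h2 hvs
  have hs0 : sp (({o 0} : Finset E) ∩ Od X u n) = sp ({o 0} : Finset E) := by
    rw [Finset.inter_eq_left.2 (Finset.singleton_subset_iff.2 (hO 0))]
  have h1 := hMAS X u L n hcx hlev 5 _ hlim hcoh {o 0} hF0 hs0
  have h2 : rk ({o 0} : Finset E) = 1 := by
    rw [FIN_card hRt (hFA _ hF0), Finset.card_singleton]
  simp only [if_pos h2] at h1
  have h3 : sp ({o 0} : Finset E) = span (ZMod 2) {o 0} := by
    unfold sp
    rw [Finset.coe_singleton]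
  rw [h3] at h1
  rcases mul_eq_zero.1 h1 with h4 | h4
  · exact ha' (neg_eq_zero.1 h4)
  · have h5 := pow_eq_zero_iff (n := 4) (by norm_num) |>.1 h4
    exact hcs 0 (by exact_mod_cast h5)

set_option linter.unusedVariables false in
theorem FIN_proof (hMAS : St_MAS) (hLIM : St_LIM) (hT2 : St_T2) (hT3 : St_T3) (hLF2 : St_LF2)
    (hLF3 : St_LF3) (hCS : St_CS) (hE3 : St_E3) (hE6 : St_E6) (hFT : St_FT) (hKER : St_KER)
    (hBAL : St_BAL) : St_FIN :=
  FIN_aux hMAS hLIM hT2 hT3 hCS hE3 hE6 hFT hKER hBAL (QF_proof CO_proof (CO2_proof CO_proof))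

end Pool.Agent.TRG
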