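import Pool.Agent.TRG.St

/-!
# TRG FT : the limit of order five
-/

set_option autoImplicit false

open Submodule Filter Topology
open Pool.Agent.SPT Pool.Agent.SPT.Rel

namespace Pool.Agent.TRG

private theorem FT_self (v : E) : v + v = 0 := by
  ext i
  exact CharTwo.add_self_eq_zero _

private theorem FT_mem1 (w x : E) : x ∈ span (ZMod 2) {w} ↔ x = 0 ∨ x = w := by
  rw [mem_span_singleton]
  constructor
  · rintro ⟨a, rfl⟩
    have ha : a = 0 ∨ a = 1 := by
      revert a
      decide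
    rcases ha with rfl | rfl
    · left
      rw [zero_smul]
    · right
      rw [one_smul]
  · rintro (rfl | rfl)
    · exact ⟨0, zero_smul _ _⟩
    · exact ⟨1, one_smul _ _⟩

/-- the sum of two vectors with a third one -/
private theorem FT_tri (a b c : E) : a + b = (a + c) + (b + c) := by
  have h : (a + c) + (b + c) = a + b + (c + c) := by abel
  rw [h, FT_self, add_zero]

private theorem FT_cancel (a b : E) : (a + b) + b = a := by
  rw [add_assoc, FT_self, add_zero]

private theorem FT_inter (M K : Submodule (ZMod 2) E) (hK : K ≤ M) (e : E) (he : e ∉ M) (v : E)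
    (hv : v ∈ M) : v ∈ K ⊔ span (ZMod 2) {e} ↔ v ∈ K := by
  constructor
  · intro h
    rw [Submodule.mem_sup] at h
    obtain ⟨a, ha, b, hb, rfl⟩ := h
    rw [FT_mem1] at hb
    rcases hb with rfl | rfl
    · rwa [add_zero]
    · exact absurd ((Submodule.add_mem_iff_right M (hK ha)).1 hv) he
  · exact fun h => mem_sup_left h

private theorem FT_fin (K : Submodule (ZMod 2) E) (e : E) (he : e ∉ K) :
    Module.finrank (ZMod 2) (K ⊔ span (ZMod 2) {e} : Submodule (ZMod 2) E) =
      Module.finrank (ZMod 2) K + 1 := by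
  have h1 := Submodule.finrank_sup_add_finrank_inf_eq K (span (ZMod 2) {e})
  have h2 : K ⊓ span (ZMod 2) {e} = ⊥ := by
    rw [eq_bot_iff]
    intro x hx
    obtain ⟨hx1, hx2⟩ := mem_inf.1 hx
    rw [FT_mem1] at hx2
    rcases hx2 with rfl | rfl
    · exact Submodule.zero_mem _
    · exact absurd hx1 he
  have h3 : e ≠ 0 := by
    rintro rfl
    exact he K.zero_mem
  rw [h2, finrank_bot, finrank_span_singleton h3] at h1
  omega

/-- the data of the statement for one element `k` -/
private structure FT_dat (X : Finset E) (o : Fin 3 → E) (W M : Submodule (ZMod 2) E) (d : E) :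
    Prop where
  le : M ≤ W
  dw : d ∉ W
  cos : ∀ v ∈ X, v ∉ W → v + d ∈ M

open Classical in
private theorem FT_cs (X : Finset E) (u : E → ℤ) (o : Fin 3 → E) (W M : Submodule (ZMod 2) E)
    (d : E) (H : FT_dat X o W M d) (K : Submodule (ZMod 2) E) (hK : K ≤ M) (e : E) (he : e ∉ M)
    (v : E) (hv : v + d ∈ M) :
    cs (X.filter (fun w => w ∉ W)) u (K ⊔ span (ZMod 2) {e}) v = cs X u K v := by
  unfold cs
  refine Finset.sum_congr ?_ (fun _ _ => rfl)
  ext w
  simp only [Finset.mem_filter]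
  have hvW : v ∉ W := by
    intro h
    exact H.dw ((Submodule.add_mem_iff_right W h).1 (H.le hv))
  constructor
  · rintro ⟨⟨h1, h2⟩, h3⟩
    refine ⟨h1, ?_⟩
    have h4 : w + v ∈ M := by
      rw [FT_tri w v d]
      exact M.add_mem (H.cos w h1 h2) hv
    exact (FT_inter M K hK e he _ h4).1 h3
  · rintro ⟨h1, h2⟩
    refine ⟨⟨h1, ?_⟩, mem_sup_left h2⟩
    intro h3
    exact hvW ((Submodule.add_mem_iff_right W h3).1 (H.le (hK h2)))

open Classical in
private theorem FT_cs0 (X : Finset E) (u : E → ℤ) (W G : Submodule (ZMod 2) E) (hG : G ≤ W)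
    (v : E) (hv : v ∈ W) :
    cs (X.filter (fun w => w ∉ W)) u G v = 0 := by
  unfold cs
  refine Finset.sum_eq_zero (fun w hw => ?_)
  simp only [Finset.mem_filter] at hw
  exact absurd ((Submodule.add_mem_iff_left W hv).1 (hG hw.2)) hw.1.2

private theorem FT_img (o : Fin 3 → E) (i j k : Fin 3) (hij : i ≠ j) (hkj : k ≠ j)
    (hall : ∀ m : Fin 3, m = i ∨ m = j ∨ m = k) :
    span (ZMod 2) (o '' {m | m ≠ j}) = span (ZMod 2) {o k} ⊔ span (ZMod 2) {o i} := by
  have h : o '' {m | m ≠ j} = {o k} ∪ {o i} := by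
    ext x
    simp only [Set.mem_image, Set.mem_ofPred_eq, Set.mem_union, Set.mem_singleton_iff]
    constructor
    · rintro ⟨m, hm, rfl⟩
      rcases hall m with rfl | rfl | rfl
      · exact Or.inr rfl
      · exact absurd rfl hm
      · exact Or.inl rfl
    · rintro (rfl | rfl)
      · exact ⟨k, hkj, rfl⟩
      · exact ⟨i, hij, rfl⟩
  rw [h, span_union]

/-- the change of the sign -/
private theorem FT_neg (hCS : St_CS) (X : Finset E) (u : E → ℤ) (o : Fin 3 → E)
    (W : Submodule (ZMod 2) E) (hR : Rt X u o W) (i j k : Fin 3) (hij : i ≠ j) (hkj : k ≠ j)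
    (hik : i ≠ k) (hall : ∀ m : Fin 3, m = i ∨ m = j ∨ m = k) (v : E) (hv : v ∉ W) :
    cs X u (span (ZMod 2) {o k}) (v + o i) = - cs X u (span (ZMod 2) {o k}) v := by
  have h1 : o i ∉ span (ZMod 2) {o k} := by
    rw [FT_mem1]
    rintro (h | h)
    · exact hR.ind.ne_zero i h
    · exact hik (hR.ind.injective h)
  have h2 := (hCS X u).2.1 (span (ZMod 2) {o k}) v (o i) h1
  rw [← FT_img o i j k hij hkj hall, hR.two v hv j] at h2
  linarith

/-- the span of the three and of two others is everything -/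
private theorem FT_top (o : Fin 3 → E) (ho : LinearIndependent (ZMod 2) o)
    (W : Submodule (ZMod 2) E) (hle : span (ZMod 2) (Set.range o) ≤ W) (d e : E) (hd : d ∉ W)
    (he : e ∈ W) (heM : e ∉ span (ZMod 2) (Set.range o)) :
    span (ZMod 2) (Set.range o) ⊔ span (ZMod 2) {e} ⊔ span (ZMod 2) {d} = ⊤ := by
  apply Submodule.eq_top_of_finrank_eq
  have h1 : span (ZMod 2) (Set.range o) ⊔ span (ZMod 2) {e} ≤ W :=
    sup_le hle ((span_singleton_le_iff_mem _ _).2 he)
  rw [FT_fin _ d (fun h => hd (h1 h)), FT_fin _ e heM, finrank_span_eq_card ho]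
  simp

/-- the value for one element -/
private theorem FT_S (hT3 : St_T3) (hCS : St_CS) (X : Finset E) (u : E → ℤ) (o : Fin 3 → E)
    (W : Submodule (ZMod 2) E) (hR : Rt X u o W) (d : E)
    (H : FT_dat X o W (span (ZMod 2) (Set.range o)) d) (e : E) (he : e ∈ W)
    (heM : e ∉ span (ZMod 2) (Set.range o)) (i j k : Fin 3) (hij : i ≠ j) (hkj : k ≠ j)
    (hik : i ≠ k) (hall : ∀ m : Fin 3, m = i ∨ m = j ∨ m = k) (D : Finset E)
    (hD : ∀ v, v ∈ D ↔ v ∈ X ∧ v ∉ W) (x : ℝ) :
    TT D (span (ZMod 2) {o k} ⊔ span (ZMod 2) {e}) (ex u x) =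
      F3 0 0 ((x : ℂ) * (cs X u (span (ZMod 2) {o k}) d : ℂ))
        ((x : ℂ) * (-(cs X u (span (ZMod 2) {o k}) d : ℂ)))
        ((x : ℂ) * (-(cs X u (span (ZMod 2) {o k}) d : ℂ)))
        ((x : ℂ) * (cs X u (span (ZMod 2) {o k}) d : ℂ)) := by
  classical
  have hDD : D = X.filter (fun w => w ∉ W) := by
    ext w
    rw [hD, Finset.mem_filter]
  subst hDD
  have hoM : ∀ m, o m ∈ span (ZMod 2) (Set.range o) := fun m => subset_span ⟨m, rfl⟩
  have hK : span (ZMod 2) {o k} ≤ span (ZMod 2) (Set.range o) :=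
    (span_singleton_le_iff_mem _ _).2 (hoM k)
  have hGW : span (ZMod 2) {o k} ⊔ span (ZMod 2) {e} ≤ W :=
    sup_le (hK.trans H.le) ((span_singleton_le_iff_mem _ _).2 he)
  have hfin : Module.finrank (ZMod 2) (span (ZMod 2) {o k} ⊔ span (ZMod 2) {e} :
      Submodule (ZMod 2) E) = 2 := by
    rw [FT_fin _ e (fun h => heM (hK h)), finrank_span_singleton (hR.ind.ne_zero k)]
  have htop : (span (ZMod 2) {o k} ⊔ span (ZMod 2) {e}) ⊔ span (ZMod 2) {o i, o j, d} = ⊤ := by
    rw [eq_top_iff, ← FT_top o hR.ind W H.le d e H.dw he heM]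
    have h1 : span (ZMod 2) (Set.range o) ≤
        (span (ZMod 2) {o k} ⊔ span (ZMod 2) {e}) ⊔ span (ZMod 2) {o i, o j, d} := by
      rw [span_le]
      rintro _ ⟨m, rfl⟩
      rcases hall m with rfl | rfl | rfl
      · exact mem_sup_right (subset_span (by simp))
      · exact mem_sup_right (subset_span (by simp))
      · exact mem_sup_left (mem_sup_left (mem_span_singleton_self _))
    refine sup_le (sup_le h1 ?_) ?_
    · exact le_sup_right.trans le_sup_left
    · exact (span_singleton_le_iff_mem _ _).2 (mem_sup_right (subset_span (by simp)))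
  have hcond : ∀ v ∈ X.filter (fun w => w ∉ W),
      v ∉ span (ZMod 2) {o k} ⊔ span (ZMod 2) {e} ∧
      v + o i ∉ span (ZMod 2) {o k} ⊔ span (ZMod 2) {e} := by
    intro v hv
    have hvW : v ∉ W := (Finset.mem_filter.1 hv).2
    refine ⟨fun h => hvW (hGW h), fun h => hvW ?_⟩
    exact (Submodule.add_mem_iff_left W (H.le (hoM i))).1 (hGW h)
  rw [hT3 _ u _ hfin (o i) (o j) d htop hcond x]
  have hdd : d + d ∈ span (ZMod 2) (Set.range o) := by
    rw [FT_self]
    exact Submodule.zero_mem _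
  have e1 := FT_cs0 X u W _ hGW (o j) (H.le (hoM j))
  have e2 := FT_cs0 X u W _ hGW (o j + o i) (W.add_mem (H.le (hoM j)) (H.le (hoM i)))
  have e3 := FT_cs X u o W _ d H _ hK e heM d hdd
  have e4 := FT_cs X u o W _ d H _ hK e heM (d + o i) (by
    rw [add_right_comm]
    exact Submodule.add_mem _ hdd (hoM i))
  have e5 := FT_cs X u o W _ d H _ hK e heM (o j + d) (by
    rw [FT_cancel]
    exact hoM j)
  have e6 := FT_cs X u o W _ d H _ hK e heM (o j + d + o i) (by
    rw [add_right_comm, FT_cancel]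
    exact Submodule.add_mem _ (hoM j) (hoM i))
  have f4 := FT_neg hCS X u o W hR i j k hij hkj hik hall d H.dw
  have f5 := FT_neg hCS X u o W hR j i k hij.symm hik.symm hkj.symm
    (fun m => by rcases hall m with h | h | h <;> simp [h]) d H.dw
  have hjW : o j + d ∉ W := fun h =>
    H.dw ((Submodule.add_mem_iff_right W (H.le (hoM j))).1 h)
  have f6 := FT_neg hCS X u o W hR i j k hij hkj hik hall (o j + d) hjW
  rw [add_comm d (o j)] at f5
  rw [e1, e2, e3, e4, e5, e6, f6, f5, f4]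
  push_cast
  simp only [mul_zero, neg_neg]

private theorem FT_idx : ∀ k l : Fin 3, ∃ i j : Fin 3, i ≠ j ∧ k ≠ j ∧ i ≠ k ∧
    (∀ m : Fin 3, m = i ∨ m = j ∨ m = k) ∧ (l ≠ k → i = l) := by
  decide

private theorem FT_fac (k : ℤ) :
    Tendsto (fun x : ℝ => (Complex.exp ((x : ℂ) * (k : ℂ)) - 1) / (x : ℂ)) (𝓝[>] 0)
      (𝓝 (k : ℂ)) := by
  have h : HasDerivAt (fun x : ℝ => Complex.exp ((x : ℂ) * (k : ℂ))) (k : ℂ) 0 := by
    have h1 : HasDerivAt (fun z : ℂ => Complex.exp (z * (k : ℂ))) (k : ℂ) ((0 : ℝ) : ℂ) := by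
      have := ((hasDerivAt_id ((0 : ℝ) : ℂ)).mul_const (k : ℂ)).cexp
      simpa using this
    exact h1.comp_ofReal
  have h2 := h.tendsto_slope_zero_right
  refine h2.congr (fun x => ?_)
  rw [zero_add, Complex.ofReal_zero, zero_mul, Complex.exp_zero, Complex.real_smul,
    Complex.ofReal_inv, div_eq_inv_mul]

/-- the value for the two elements `e`, `e + o i` -/
private theorem FT_Z (hT2 : St_T2) (X : Finset E) (u : E → ℤ) (o : Fin 3 → E)
    (W : Submodule (ZMod 2) E) (hR : Rt X u o W) (d : E)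
    (H : FT_dat X o W (span (ZMod 2) (Set.range o)) d) (e : E) (he : e ∈ W)
    (heM : e ∉ span (ZMod 2) (Set.range o)) (i j k : Fin 3) (hij : i ≠ j) (hkj : k ≠ j)
    (hik : i ≠ k) (hall : ∀ m : Fin 3, m = i ∨ m = j ∨ m = k) (D : Finset E)
    (hD : ∀ v, v ∈ D ↔ v ∈ X ∧ v ∉ W) (x : ℝ) :
    TT D (span (ZMod 2) {o k} ⊔ span (ZMod 2) {e} ⊔ span (ZMod 2) {e + o i}) (ex u x) = 0 := by
  classical
  have hDD : D = X.filter (fun w => w ∉ W) := by
    ext w
    rw [hD, Finset.mem_filter]
  subst hDD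
  have hoM : ∀ m, o m ∈ span (ZMod 2) (Set.range o) := fun m => subset_span ⟨m, rfl⟩
  have hE : span (ZMod 2) {o k} ⊔ span (ZMod 2) {e} ⊔ span (ZMod 2) {e + o i} =
      (span (ZMod 2) {o k} ⊔ span (ZMod 2) {o i}) ⊔ span (ZMod 2) {e} := by
    apply le_antisymm
    · refine sup_le (sup_le (le_sup_left.trans le_sup_left) le_sup_right) ?_
      rw [span_singleton_le_iff_mem]
      exact Submodule.add_mem _ (mem_sup_right (mem_span_singleton_self _))
        (mem_sup_left (mem_sup_right (mem_span_singleton_self _)))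
    · refine sup_le (sup_le (le_sup_left.trans le_sup_left) ?_)
        (le_sup_right.trans le_sup_left)
      rw [span_singleton_le_iff_mem]
      have h : e + (e + o i) ∈ span (ZMod 2) {o k} ⊔ span (ZMod 2) {e} ⊔
          span (ZMod 2) {e + o i} :=
        Submodule.add_mem _ (mem_sup_left (mem_sup_right (mem_span_singleton_self _)))
          (mem_sup_right (mem_span_singleton_self _))
      rwa [← add_assoc, FT_self, zero_add] at h
  have hK : span (ZMod 2) {o k} ⊔ span (ZMod 2) {o i} ≤ span (ZMod 2) (Set.range o) :=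
    sup_le ((span_singleton_le_iff_mem _ _).2 (hoM k)) ((span_singleton_le_iff_mem _ _).2 (hoM i))
  have hGW : (span (ZMod 2) {o k} ⊔ span (ZMod 2) {o i}) ⊔ span (ZMod 2) {e} ≤ W :=
    sup_le (hK.trans H.le) ((span_singleton_le_iff_mem _ _).2 he)
  have h1 : o i ∉ span (ZMod 2) {o k} := by
    rw [FT_mem1]
    rintro (h | h)
    · exact hR.ind.ne_zero i h
    · exact hik (hR.ind.injective h)
  have hfin : Module.finrank (ZMod 2) ((span (ZMod 2) {o k} ⊔ span (ZMod 2) {o i}) ⊔
      span (ZMod 2) {e} : Submodule (ZMod 2) E) = 3 := by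
    rw [FT_fin _ e (fun h => heM (hK h)), FT_fin _ _ h1, finrank_span_singleton (hR.ind.ne_zero k)]
  have htop : ((span (ZMod 2) {o k} ⊔ span (ZMod 2) {o i}) ⊔ span (ZMod 2) {e}) ⊔
      span (ZMod 2) {o j, d} = ⊤ := by
    rw [eq_top_iff, ← FT_top o hR.ind W H.le d e H.dw he heM]
    have h1 : span (ZMod 2) (Set.range o) ≤
        ((span (ZMod 2) {o k} ⊔ span (ZMod 2) {o i}) ⊔ span (ZMod 2) {e}) ⊔
          span (ZMod 2) {o j, d} := by
      rw [span_le]
      rintro _ ⟨m, rfl⟩
      rcases hall m with rfl | rfl | rfl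
      · exact mem_sup_left (mem_sup_left (mem_sup_right (mem_span_singleton_self _)))
      · exact mem_sup_right (subset_span (by simp))
      · exact mem_sup_left (mem_sup_left (mem_sup_left (mem_span_singleton_self _)))
    refine sup_le (sup_le h1 ?_) ?_
    · exact le_sup_right.trans le_sup_left
    · exact (span_singleton_le_iff_mem _ _).2 (mem_sup_right (subset_span (by simp)))
  have hcond : ∀ v ∈ X.filter (fun w => w ∉ W),
      v ∉ (span (ZMod 2) {o k} ⊔ span (ZMod 2) {o i}) ⊔ span (ZMod 2) {e} := by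
    intro v hv
    have hvW : v ∉ W := (Finset.mem_filter.1 hv).2
    exact fun h => hvW (hGW h)
  rw [hE, hT2 _ u _ hfin hcond (o j) d htop x]
  have hdd : d + d ∈ span (ZMod 2) (Set.range o) := by
    rw [FT_self]
    exact Submodule.zero_mem _
  have e1 := FT_cs0 X u W _ hGW (o j) (H.le (hoM j))
  have e3 := FT_cs X u o W _ d H _ hK e heM d hdd
  have e5 := FT_cs X u o W _ d H _ hK e heM (o j + d) (by
    rw [FT_cancel]
    exact hoM j)
  have hjW : o j + d ∉ W := fun h =>
    H.dw ((Submodule.add_mem_iff_right W (H.le (hoM j))).1 h)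
  have g := FT_img o i j k hij hkj hall
  have t3 := hR.two d H.dw j
  have t5 := hR.two (o j + d) hjW j
  rw [g] at t3 t5
  rw [e1, e3, e5, t3, t5]
  unfold F2
  simp only [Int.cast_zero, mul_zero, add_zero, Complex.exp_zero]
  norm_num

/-- [FT] -/
theorem FT_proof (hDC : St_DC) (hT2 : St_T2) (hT3 : St_T3) (hLF3 : St_LF3) (hCS : St_CS) :
    St_FT := by
  classical
  intro X u o W hR d hdX hdW hcos e heX l heW heM helX hall2 k
  have hoM : ∀ m, o m ∈ span (ZMod 2) (Set.range o) := fun m => subset_span ⟨m, rfl⟩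
  have hMW : span (ZMod 2) (Set.range o) ≤ W := by
    rw [span_le]
    rintro _ ⟨m, rfl⟩
    exact hR.le m
  have H : FT_dat X o W (span (ZMod 2) (Set.range o)) d := ⟨hMW, hdW, hcos⟩
  have hol : o l ≠ 0 := hR.ind.ne_zero l
  have he'W : e + o l ∈ W := W.add_mem heW (hR.le l)
  have he'M : e + o l ∉ span (ZMod 2) (Set.range o) := fun h =>
    heM ((Submodule.add_mem_iff_left _ (hoM l)).1 h)
  have hee' : e ≠ e + o l := by
    intro h
    exact hol (left_eq_add.1 h)
  obtain ⟨D, hD⟩ : ∃ D : Finset E, ∀ v, v ∈ D ↔ v ∈ X ∧ v ∉ W :=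
    ⟨X.filter (fun w => w ∉ W), fun v => Finset.mem_filter⟩
  have hout : out X (span (ZMod 2) (Set.range o)) = insert e (insert (e + o l) D) := by
    ext w
    unfold out
    rw [Finset.mem_filter, Finset.mem_insert, Finset.mem_insert, hD]
    constructor
    · rintro ⟨h1, h2⟩
      by_cases hw : w ∈ W
      · rcases hall2 w h1 hw h2 with h | h
        · exact Or.inl h
        · exact Or.inr (Or.inl h)
      · exact Or.inr (Or.inr ⟨h1, hw⟩)
    · rintro (rfl | rfl | ⟨h1, h2⟩)
      · exact ⟨heX, heM⟩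
      · exact ⟨helX, he'M⟩
      · exact ⟨h1, fun h => h2 (hMW h)⟩
  have hn1 : e ∉ insert (e + o l) D := by
    rw [Finset.mem_insert, hD]
    rintro (h | h)
    · exact hee' h
    · exact h.2 heW
  have hn2 : e + o l ∉ D := by
    rw [hD]
    exact fun h => h.2 he'W
  have hK : span (ZMod 2) {o k} ≤ span (ZMod 2) (Set.range o) :=
    (span_singleton_le_iff_mem _ _).2 (hoM k)
  -- the first term is zero
  have hz : ∀ x : E → ℂ, TT D (span (ZMod 2) {o k}) x = 0 := by
    intro x
    unfold TT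
    refine Finset.sum_eq_zero (fun V hV => if_neg ?_)
    intro htop
    have hle : span (ZMod 2) {o k} ⊔ sp V ≤
        span (ZMod 2) (Set.range o) ⊔ span (ZMod 2) {d} := by
      refine sup_le (hK.trans le_sup_left) ?_
      rw [span_le]
      intro v hv
      have hvD := (hD v).1 (Finset.mem_powerset.1 hV hv)
      have h1 := hcos v hvD.1 hvD.2
      have h2 : v = (v + d) + d := (FT_cancel v d).symm
      rw [h2]
      exact Submodule.add_mem _ (mem_sup_left h1) (mem_sup_right (mem_span_singleton_self _))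
    rw [htop, top_le_iff] at hle
    have h3 := FT_fin (span (ZMod 2) (Set.range o)) d (fun h => hdW (hMW h))
    rw [hle, finrank_top, finrank_span_eq_card hR.ind] at h3
    simp at h3
  obtain ⟨i, j, hij, hkj, hik, hall, hil⟩ := FT_idx k l
  set s : ℝ := ((cs X u (span (ZMod 2) {o k}) d : ℤ) : ℝ) with hs
  have hsC : ((cs X u (span (ZMod 2) {o k}) d : ℤ) : ℂ) = (s : ℂ) := by
    rw [hs]
    push_cast
    rfl
  have S1 := FT_S hT3 hCS X u o W hR d H e heW heM i j k hij hkj hik hall D hD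
  have S2 := FT_S hT3 hCS X u o W hR d H (e + o l) he'W he'M i j k hij hkj hik hall D hD
  have LF := (hLF3 0 0 s 0 0 0).1
  have key : ∀ x : ℝ, TT (out X (span (ZMod 2) (Set.range o))) (span (ZMod 2) {o k}) (ex u x) =
      TT D (span (ZMod 2) {o k} ⊔ span (ZMod 2) {e}) (ex u x) *
        ((ex u x e - 1) + (ex u x (e + o l) - 1)) + (ex u x e - 1) * (ex u x (e + o l) - 1) *
        TT D (span (ZMod 2) {o k} ⊔ span (ZMod 2) {e} ⊔ span (ZMod 2) {e + o l}) (ex u x) := by
    intro x
    rw [hout, hDC _ _ _ e hn1, hDC D _ _ (e + o l) hn2, hDC D _ _ (e + o l) hn2, hz, S2, S1]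
    ring
  have lim1 : Tendsto (fun x : ℝ => TT D (span (ZMod 2) {o k} ⊔ span (ZMod 2) {e}) (ex u x) /
      (x : ℂ) ^ 4) (𝓝[>] 0) (𝓝 ((-s ^ 4 : ℝ) : ℂ)) := by
    refine LF.congr (fun x => ?_)
    rw [S1, hsC, Complex.ofReal_zero, mul_zero]
  have lim2 : Tendsto (fun x : ℝ => ((ex u x e - 1) + (ex u x (e + o l) - 1)) / (x : ℂ))
      (𝓝[>] 0) (𝓝 ((u e : ℂ) + (u (e + o l) : ℂ))) := by
    refine ((FT_fac (u e)).add (FT_fac (u (e + o l)))).congr (fun x => ?_)
    rw [← add_div]
    rfl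
  have goal : ∀ A : ℝ → ℂ, Tendsto (fun x : ℝ => A x / (x : ℂ)) (𝓝[>] 0)
      (𝓝 ((u e : ℂ) + (u (e + o l) : ℂ))) →
      (∀ x : ℝ, TT (out X (span (ZMod 2) (Set.range o))) (span (ZMod 2) {o k}) (ex u x) =
        TT D (span (ZMod 2) {o k} ⊔ span (ZMod 2) {e}) (ex u x) * A x) →
      Tendsto (fun x : ℝ => TT (out X (span (ZMod 2) (Set.range o))) (span (ZMod 2) {o k})
        (ex u x) / (x : ℂ) ^ 5) (𝓝[>] 0) (𝓝 ((-((u e + u (e + o l) : ℤ) : ℝ) *
        s ^ 4 : ℝ) : ℂ)) := by
    intro A hA hT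
    have h1 := lim1.mul hA
    have h2 : ((-s ^ 4 : ℝ) : ℂ) * ((u e : ℂ) + (u (e + o l) : ℂ)) =
        ((-((u e + u (e + o l) : ℤ) : ℝ) * s ^ 4 : ℝ) : ℂ) := by
      push_cast
      ring
    rw [h2] at h1
    refine h1.congr (fun x => ?_)
    rw [hT x, div_mul_div_comm, ← pow_succ]
  by_cases hlk : l = k
  · refine goal (fun x => ex u x e * ex u x (e + o l) - 1) ?_ (fun x => ?_)
    · have h1 := FT_fac (u e + u (e + o l))
      push_cast at h1
      refine h1.congr (fun x => ?_)
      unfold ex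
      rw [← Complex.exp_add, mul_add]
    · rw [key x]
      have h1 : span (ZMod 2) {o k} ⊔ span (ZMod 2) {e} ⊔ span (ZMod 2) {e + o l} =
          span (ZMod 2) {o k} ⊔ span (ZMod 2) {e} := by
        rw [sup_eq_left, span_singleton_le_iff_mem, hlk]
        exact Submodule.add_mem _ (mem_sup_right (mem_span_singleton_self _))
          (mem_sup_left (mem_span_singleton_self _))
      rw [h1]
      ring
  · refine goal (fun x => (ex u x e - 1) + (ex u x (e + o l) - 1)) lim2 (fun x => ?_)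
    have hi := hil hlk
    subst hi
    rw [key x, FT_Z hT2 X u o W hR d H e heW heM i j k hij hkj hik hall D hD x, mul_zero, add_zero]

end Pool.Agent.TRG
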