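import Pool.Agent.TRG.St

/-!
# TRG, module KER (helper17): one basis is enough
-/

set_option autoImplicit false

open Submodule Filter Topology
open Pool.Agent.SPT Pool.Agent.SPT.Rel

namespace Pool.Agent.TRG

private theorem KER_aux (hCO : St_CO) (X : Finset E) (L : E → Fin 5 → ℤ) (hU : Uni X L)
    (W : Submodule (ZMod 2) E) (b : Fin 5 → E) (hb : Bas X b) (hW : ∀ i, i ≠ 4 → b i ∈ W)
    (h4 : b 4 ∉ W) (v : E) (hv : v ∈ X) : co L b v 4 = 0 ↔ v ∈ W := by
  obtain ⟨-, c2, c3, -, -, -⟩ := hCO X L hU b hb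
  have hsum := c2 v hv
  rw [← Finset.add_sum_erase _ _ (Finset.mem_univ (4 : Fin 5))] at hsum
  have hrest : ∑ i ∈ Finset.univ.erase (4 : Fin 5), ((co L b v i : ℤ) : ZMod 2) • b i ∈ W :=
    Submodule.sum_mem _ fun i hi => W.smul_mem _ (hW i (Finset.ne_of_mem_erase hi))
  constructor
  · intro h
    rw [h, Int.cast_zero, zero_smul, zero_add] at hsum
    rw [hsum]
    exact hrest
  · intro h
    have h1 : ((co L b v 4 : ℤ) : ZMod 2) • b 4 ∈ W := by
      have h2 : ((co L b v 4 : ℤ) : ZMod 2) • b 4 =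
          v - ∑ i ∈ Finset.univ.erase (4 : Fin 5), ((co L b v i : ℤ) : ZMod 2) • b i :=
        eq_sub_of_add_eq hsum.symm
      rw [h2]
      exact W.sub_mem h hrest
    rcases c3 v hv 4 with h0 | h0 | h0
    · exact h0
    · rw [h0, Int.cast_one, one_smul] at h1
      exact absurd h1 h4
    · rw [h0, Int.cast_neg, Int.cast_one, neg_smul, one_smul, W.neg_mem_iff] at h1
      exact absurd h1 h4

theorem KER_proof (hCO : St_CO) (hCO2 : St_CO2) : St_KER := by
  intro X u L hU W b hb hW h4 hQ b' hb' hW' h4' i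
  obtain ⟨-, -, c3, -, -, c6⟩ := hCO X L hU b hb
  obtain ⟨-, -, -, d4⟩ := hCO2 X L hU b hb
  obtain ⟨-, e2, -, -⟩ := hCO2 X L hU b' hb'
  have hs : co L b (b' 4) 4 * co L b (b' 4) 4 = 1 := by
    have h0 : co L b (b' 4) 4 ≠ 0 := fun h =>
      h4' ((KER_aux hCO X L hU W b hb hW h4 (b' 4) (hb'.1 4)).1 h)
    rcases c3 (b' 4) (hb'.1 4) 4 with h | h | h
    · exact absurd h h0
    · rw [h]; norm_num
    · rw [h]; norm_num
  have hco : ∀ v, co L b' v 4 = co L b (b' 4) 4 * co L b v 4 := by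
    intro v
    rw [d4 b' hb' v 4, Finset.sum_eq_single (4 : Fin 5)]
    · linear_combination (-(co L b' v 4)) * hs
    · intro j _ hj
      rw [(KER_aux hCO X L hU W b hb hW h4 (b' j) (hb'.1 j)).2 (hW' j hj), mul_zero]
    · intro h
      exact absurd (Finset.mem_univ _) h
  have hk : ∀ k, ∑ v ∈ out X W, u v * co L b v 4 * L v k = 0 := by
    intro k
    have h1 : ∀ v ∈ out X W, u v * co L b v 4 * L v k =
        ∑ j, u v * co L b v j * co L b v 4 * L (b j) k := by
      intro v _
      rw [c6 v k, Finset.mul_sum]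
      exact Finset.sum_congr rfl fun j _ => by ring
    rw [Finset.sum_congr rfl h1, Finset.sum_comm]
    refine Finset.sum_eq_zero fun j _ => ?_
    rw [← Finset.sum_mul]
    have h2 := hQ j
    unfold Qf at h2
    rw [h2, zero_mul]
  have hk' : ∀ k, ∑ v ∈ out X W, (u v * co L b' v 4) * L v k = 0 := by
    intro k
    have h1 : ∀ v ∈ out X W, (u v * co L b' v 4) * L v k =
        co L b (b' 4) 4 * (u v * co L b v 4 * L v k) := by
      intro v _
      rw [hco v]
      ring
    rw [Finset.sum_congr rfl h1, ← Finset.mul_sum, hk k, mul_zero]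
  have hfin := e2 (out X W) (fun v => u v * co L b' v 4) hk' i
  unfold Qf
  rw [← hfin]
  exact Finset.sum_congr rfl fun v _ => by ring

end Pool.Agent.TRG
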