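import Pool.Agent.TRG.St

/-!
# TRG / LF2 : the limits of `F2` (helper77)
-/

set_option autoImplicit false

open Submodule Filter Topology
open Pool.Agent.SPT Pool.Agent.SPT.Rel

namespace Pool.Agent.TRG

/-- the remainder of order three of the exponential function -/
private noncomputable def LF2_g (s : ℂ) (x : ℝ) : ℂ :=
  Complex.exp ((x : ℂ) * s) -
    (1 + (x : ℂ) * s + ((x : ℂ) * s) ^ 2 / 2 + ((x : ℂ) * s) ^ 3 / 6)

private theorem LF2_lim (s : ℂ) :
    Tendsto (fun x : ℝ => LF2_g s x / (x : ℂ) ^ 3) (𝓝[>] 0) (𝓝 0) := by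
  have h0 : Tendsto (fun x : ℝ => (x : ℂ) * s) (𝓝[>] 0) (𝓝 0) := by
    have hc : Continuous (fun x : ℝ => (x : ℂ) * s) := by fun_prop
    have h := hc.tendsto 0
    simp only [Complex.ofReal_zero, zero_mul] at h
    exact h.mono_left nhdsWithin_le_nhds
  have h1 := (Complex.exp_sub_sum_range_succ_isLittleO_pow 3).comp_tendsto h0
  have h2 : (fun x : ℝ => LF2_g s x) =o[𝓝[>] 0] (fun x : ℝ => (x : ℂ) ^ 3) := by
    have h3 : (fun x : ℝ => LF2_g s x) =o[𝓝[>] 0] (fun x : ℝ => ((x : ℂ) * s) ^ 3) := by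
      refine h1.congr_left ?_
      intro x
      simp only [LF2_g, Function.comp_apply, Finset.sum_range_succ, Finset.sum_range_zero,
        Nat.factorial]
      push_cast
      ring
    refine h3.trans_isBigO ?_
    have h4 : (fun x : ℝ => ((x : ℂ) * s) ^ 3) = fun x : ℝ => s ^ 3 * (x : ℂ) ^ 3 := by
      funext x; ring
    rw [h4]
    exact Asymptotics.isBigO_const_mul_self _ _ _
  exact h2.tendsto_div_nhds_zero

private theorem LF2_id (a b c : ℂ) (x : ℝ) :
    F2 ((x : ℂ) * a) ((x : ℂ) * b) ((x : ℂ) * c) =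
      (LF2_g (a + b + c) x - LF2_g a x - LF2_g b x - LF2_g c x) +
        (x : ℂ) ^ 2 * (a * b + b * c + c * a) +
        (x : ℂ) ^ 3 * (((a + b + c) * (a * b + b * c + c * a) - a * b * c) / 2) := by
  have h : (x : ℂ) * a + (x : ℂ) * b + (x : ℂ) * c = (x : ℂ) * (a + b + c) := by ring
  simp only [F2, LF2_g, h]
  ring

private theorem LF2_sum (a b c : ℂ) :
    Tendsto (fun x : ℝ => (LF2_g (a + b + c) x - LF2_g a x - LF2_g b x - LF2_g c x) /
      (x : ℂ) ^ 3) (𝓝[>] 0) (𝓝 0) := by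
  have h := (((LF2_lim (a + b + c)).sub (LF2_lim a)).sub (LF2_lim b)).sub (LF2_lim c)
  simp only [sub_zero] at h
  refine h.congr ?_
  intro x
  ring

private theorem LF2_ne : ∀ᶠ x : ℝ in 𝓝[>] 0, (x : ℂ) ≠ 0 := by
  filter_upwards [self_mem_nhdsWithin] with x hx
  have hx' : (0 : ℝ) < x := hx
  exact_mod_cast hx'.ne'

private theorem LF2_x : Tendsto (fun x : ℝ => (x : ℂ)) (𝓝[>] 0) (𝓝 0) := by
  have h := Complex.continuous_ofReal.tendsto 0
  rw [Complex.ofReal_zero] at h
  exact h.mono_left nhdsWithin_le_nhds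

/-- [LF2] The limits of `F2`. -/
theorem LF2_proof : St_LF2 := by
  intro a b c
  refine ⟨?_, ?_, ?_, ?_, ?_⟩
  · have h1 := ((LF2_sum a b c).mul LF2_x).add
      ((tendsto_const_nhds (x := ((a : ℂ) * b + b * c + c * a)) (f := 𝓝[>] (0 : ℝ))).add
        (LF2_x.mul (tendsto_const_nhds (f := 𝓝[>] (0 : ℝ))
          (x := (((a : ℂ) + b + c) * (a * b + b * c + c * a) - a * b * c) / 2))))
    have e : (0 : ℂ) * 0 + (((a : ℂ) * b + b * c + c * a) +
        0 * ((((a : ℂ) + b + c) * (a * b + b * c + c * a) - a * b * c) / 2)) =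
        ((a * b + b * c + c * a : ℝ) : ℂ) := by
      push_cast; ring
    rw [e] at h1
    refine h1.congr' ?_
    filter_upwards [LF2_ne] with x hx
    rw [LF2_id]
    field_simp
    ring
  · intro h0
    have h1 := (LF2_sum a b c).add (tendsto_const_nhds (f := 𝓝[>] (0 : ℝ))
      (x := ((-(a * b * c) / 2 : ℝ) : ℂ)))
    rw [zero_add] at h1
    refine h1.congr' ?_
    filter_upwards [LF2_ne] with x hx
    have h0' : (a : ℂ) * b + b * c + c * a = 0 := by exact_mod_cast h0
    rw [LF2_id, h0']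
    push_cast
    field_simp
    ring
  · simp [F2]
    ring
  · simp [F2]
    ring
  · simp [F2]
    ring

end Pool.Agent.TRG
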