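import Pool.Agent.TRG.St

/-!
# TRG, module LF3: limits of `F3`
-/

set_option autoImplicit false

open Filter
open scoped Topology

namespace Pool.Agent.TRG

private theorem LF3_lim (r : ℝ) :
    Tendsto (fun x : ℝ => (Complex.exp ((x : ℂ) * (r : ℂ)) - 1) / (x : ℂ)) (𝓝[>] 0) (𝓝 (r : ℂ)) := by
  have h1 : HasDerivAt (fun x : ℝ => Complex.exp ((x : ℂ) * (r : ℂ))) (r : ℂ) 0 := by
    have h2 : HasDerivAt (fun x : ℝ => (x : ℂ) * (r : ℂ)) (1 * (r : ℂ)) 0 :=
      (Complex.ofRealCLM.hasDerivAt).mul_const (r : ℂ)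
    have h3 := h2.cexp
    simpa using h3
  have h4 := h1.tendsto_slope_zero_right
  refine h4.congr' ?_
  filter_upwards [self_mem_nhdsWithin] with x hx
  have hx0 : (x : ℂ) ≠ 0 := by
    have : (x : ℝ) ≠ 0 := ne_of_gt hx
    exact_mod_cast this
  rw [zero_add, Complex.real_smul, Complex.ofReal_inv, Complex.ofReal_zero, zero_mul,
    Complex.exp_zero, div_eq_inv_mul]

private theorem LF3_inv (z : ℂ) : Complex.exp z * Complex.exp (-z) = 1 := by
  rw [← Complex.exp_add, add_neg_cancel, Complex.exp_zero]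

private theorem LF3_id1 (a s : ℂ) : F3 a 0 s (-s) (-s) s =
    -((Complex.exp s - 1) * (Complex.exp (-s) - 1)) ^ 2 := by
  unfold F3
  have h := LF3_inv s
  have e1 : a + 0 + s + -s + -s + s = a := by ring
  have e2 : a + 0 = a := by ring
  have e3 : s + -s = 0 := by ring
  have e4 : -s + s = 0 := by ring
  have e5 : a + s + -s = a := by ring
  have e6 : (0 : ℂ) + -s + -s = -s + -s := by ring
  have e7 : a + -s + s = a := by ring
  have e8 : (0 : ℂ) + s + s = s + s := by ring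
  rw [e1, e2, e3, e4, e5, e6, e7, e8, Complex.exp_add, Complex.exp_add, Complex.exp_zero]
  linear_combination (5 - 2 * Complex.exp s - 2 * Complex.exp (-s) +
    Complex.exp s * Complex.exp (-s)) * h

private theorem LF3_id2 (a s : ℂ) : F3 0 a s (-s) s (-s) =
    -((Complex.exp s - 1) * (Complex.exp (-s) - 1)) ^ 2 := by
  rw [← LF3_id1 a s]
  unfold F3
  ring_nf

private theorem LF3_alg (A A' B B' : ℂ) (ha : A * A' = 1) (hb : B * B' = 1) :
    1 - (1 + 1 + 1 + A * B + A' * B' + A * B' + A' * B) + 2 * (1 + A + A' + B + B' + 1 + 1) - 8 =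
      -((A - 1) * (A' - 1) * ((B - 1) * (B' - 1))) := by
  linear_combination (-(B * B' - B - B' + 1)) * ha * (-1) + (2 - A - A') * hb

private theorem LF3_id3 (a b c : ℂ) (h : a = 0 ∨ b = 0 ∨ c = 0) : F3 a (-a) b (-b) c (-c) =
    -((Complex.exp a - 1) * (Complex.exp (-a) - 1) * ((Complex.exp b - 1) * (Complex.exp (-b) - 1)) +
      (Complex.exp b - 1) * (Complex.exp (-b) - 1) * ((Complex.exp c - 1) * (Complex.exp (-c) - 1)) +
      (Complex.exp c - 1) * (Complex.exp (-c) - 1) * ((Complex.exp a - 1) * (Complex.exp (-a) - 1))) := by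
  have ha := LF3_inv a
  have hb := LF3_inv b
  have hc := LF3_inv c
  unfold F3
  have e1 : a + -a + b + -b + c + -c = 0 := by ring
  rw [e1, add_neg_cancel, add_neg_cancel, add_neg_cancel]
  simp only [Complex.exp_add, Complex.exp_zero]
  rcases h with rfl | rfl | rfl
  · rw [neg_zero, Complex.exp_zero]
    have := LF3_alg _ _ _ _ hb hc
    linear_combination this
  · rw [neg_zero, Complex.exp_zero]
    have := LF3_alg _ _ _ _ ha hc
    linear_combination this
  · rw [neg_zero, Complex.exp_zero]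
    have := LF3_alg _ _ _ _ ha hb
    linear_combination this

theorem LF3_proof : St_LF3 := by
  intro a a' s α β γ
  have hs := LF3_lim s
  have hs' := LF3_lim (-s)
  have hne : ∀ᶠ x : ℝ in 𝓝[>] 0, (x : ℂ) ≠ 0 := by
    filter_upwards [self_mem_nhdsWithin] with x hx
    have : (x : ℝ) ≠ 0 := ne_of_gt hx
    exact_mod_cast this
  have hlim : Tendsto (fun x : ℝ => -(((Complex.exp ((x : ℂ) * (s : ℂ)) - 1) / (x : ℂ)) *
      ((Complex.exp ((x : ℂ) * ((-s : ℝ) : ℂ)) - 1) / (x : ℂ))) ^ 2) (𝓝[>] 0)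
      (𝓝 ((-s ^ 4 : ℝ) : ℂ)) := by
    have h := ((hs.mul hs').pow 2).neg
    have e : -((s : ℂ) * ((-s : ℝ) : ℂ)) ^ 2 = ((-s ^ 4 : ℝ) : ℂ) := by
      push_cast
      ring
    rw [e] at h
    exact h
  refine ⟨?_, ?_, ?_, ?_⟩
  · refine hlim.congr' ?_
    filter_upwards [hne] with x hx
    have e : (x : ℂ) * -(s : ℂ) = -((x : ℂ) * (s : ℂ)) := by ring
    rw [Complex.ofReal_neg, e, LF3_id1]
    field_simp
  · refine hlim.congr' ?_
    filter_upwards [hne] with x hx
    have e : (x : ℂ) * -(s : ℂ) = -((x : ℂ) * (s : ℂ)) := by ring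
    rw [Complex.ofReal_neg, e, LF3_id2]
    field_simp
  · unfold F3
    simp only [add_zero, Complex.exp_zero]
    ring
  · intro h0
    have hz : ∀ x : ℝ, (x : ℂ) * (α : ℂ) = 0 ∨ (x : ℂ) * (β : ℂ) = 0 ∨ (x : ℂ) * (γ : ℂ) = 0 := by
      intro x
      rcases mul_eq_zero.1 h0 with h1 | h1
      · rcases mul_eq_zero.1 h1 with h2 | h2
        · left
          rw [h2, Complex.ofReal_zero, mul_zero]
        · right
          left
          rw [h2, Complex.ofReal_zero, mul_zero]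
      · right
        right
        rw [h1, Complex.ofReal_zero, mul_zero]
    have hα := (LF3_lim α).mul (LF3_lim (-α))
    have hβ := (LF3_lim β).mul (LF3_lim (-β))
    have hγ := (LF3_lim γ).mul (LF3_lim (-γ))
    have h := (((hα.mul hβ).add (hβ.mul hγ)).add (hγ.mul hα)).neg
    have e : -((α : ℂ) * ((-α : ℝ) : ℂ) * ((β : ℂ) * ((-β : ℝ) : ℂ)) +
        (β : ℂ) * ((-β : ℝ) : ℂ) * ((γ : ℂ) * ((-γ : ℝ) : ℂ)) +
        (γ : ℂ) * ((-γ : ℝ) : ℂ) * ((α : ℂ) * ((-α : ℝ) : ℂ))) =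
        ((-(α ^ 2 * β ^ 2 + β ^ 2 * γ ^ 2 + γ ^ 2 * α ^ 2) : ℝ) : ℂ) := by
      push_cast
      ring
    rw [e] at h
    refine h.congr' ?_
    filter_upwards [hne] with x hx
    have e1 : ∀ r : ℝ, (x : ℂ) * -(r : ℂ) = -((x : ℂ) * (r : ℂ)) := fun r => by ring
    simp only [Complex.ofReal_neg, e1]
    rw [LF3_id3 _ _ _ (hz x)]
    field_simp

end Pool.Agent.TRG
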