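import Pool.Agent.TRG.St

/-!
# TRG LIM : the lowest order of the sum over spanning subsets
-/

set_option autoImplicit false

open Submodule Filter Topology
open Pool.Agent.SPT Pool.Agent.SPT.Rel

namespace Pool.Agent.TRG

/-- one factor -/
private theorem LIM_fac (k : ℤ) :
    Tendsto (fun x : ℝ => (Complex.exp ((x : ℂ) * (k : ℂ)) - 1) / (x : ℂ)) (𝓝[>] 0)
      (𝓝 (k : ℂ)) := by
  have h : HasDerivAt (fun x : ℝ => Complex.exp ((x : ℂ) * (k : ℂ))) (k : ℂ) 0 := by
    have h1 : HasDerivAt (fun z : ℂ => Complex.exp (z * (k : ℂ))) (k : ℂ) ((0 : ℝ) : ℂ) := by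
      have := ((hasDerivAt_id ((0 : ℝ) : ℂ)).mul_const (k : ℂ)).cexp
      simpa using this
    exact h1.comp_ofReal
  have h2 := h.tendsto_slope_zero_right
  refine h2.congr (fun x => ?_)
  rw [zero_add, Complex.ofReal_zero, zero_mul, Complex.exp_zero, Complex.real_smul,
    Complex.ofReal_inv, div_eq_inv_mul]

/-- a product -/
private theorem LIM_prod (u : E → ℤ) (W : Finset E) (c : ℕ) (hc : c ≤ W.card) :
    Tendsto (fun x : ℝ => (∏ v ∈ W, (ex u x v - 1)) / (x : ℂ) ^ c) (𝓝[>] 0)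
      (𝓝 (if W.card = c then ∏ v ∈ W, (u v : ℂ) else 0)) := by
  have h1 : Tendsto (fun x : ℝ => ∏ v ∈ W, ((ex u x v - 1) / (x : ℂ))) (𝓝[>] 0)
      (𝓝 (∏ v ∈ W, (u v : ℂ))) := tendsto_finsetProd _ (fun v _ => LIM_fac (u v))
  have h2 : Tendsto (fun x : ℝ => (x : ℂ)) (𝓝[>] 0) (𝓝 0) := by
    have : Tendsto (fun x : ℝ => (x : ℂ)) (𝓝 0) (𝓝 ((0 : ℝ) : ℂ)) :=
      Complex.continuous_ofReal.tendsto 0
    rw [Complex.ofReal_zero] at this
    exact this.mono_left nhdsWithin_le_nhds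
  have h3 := h1.mul (h2.pow (W.card - c))
  have h4 : (∏ v ∈ W, (u v : ℂ)) * (0 : ℂ) ^ (W.card - c) =
      if W.card = c then ∏ v ∈ W, (u v : ℂ) else 0 := by
    split_ifs with h
    · rw [h, Nat.sub_self, pow_zero, mul_one]
    · rw [zero_pow (by omega), mul_zero]
  rw [h4] at h3
  refine h3.congr' ?_
  filter_upwards [self_mem_nhdsWithin] with x hx
  have hx0 : (x : ℂ) ≠ 0 := Complex.ofReal_ne_zero.2 (ne_of_gt hx)
  rw [Finset.prod_div_distrib, Finset.prod_const]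
  have h5 : (x : ℂ) ^ W.card = (x : ℂ) ^ c * (x : ℂ) ^ (W.card - c) := by
    rw [← pow_add]
    congr 1
    omega
  rw [h5]
  have h6 : (x : ℂ) ^ (W.card - c) ≠ 0 := pow_ne_zero _ hx0
  have h7 : (x : ℂ) ^ c ≠ 0 := pow_ne_zero _ hx0
  field_simp

/-- a set which spans everything together with `K` has at least `c` elements -/
private theorem LIM_card (K : Submodule (ZMod 2) E) (c : ℕ)
    (hc : Module.finrank (ZMod 2) K + c = 5) (W : Finset E) (hW : K ⊔ sp W = ⊤) :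
    c ≤ W.card := by
  have h1 : Module.finrank (ZMod 2) (K ⊔ sp W : Submodule (ZMod 2) E) = 5 := by
    rw [hW, finrank_top]
    simp
  have h2 : Module.finrank (ZMod 2) (K ⊔ sp W : Submodule (ZMod 2) E) ≤
      Module.finrank (ZMod 2) K + Module.finrank (ZMod 2) (sp W) :=
    Submodule.finrank_add_le_finrank_add_finrank K (sp W)
  have h3 : Module.finrank (ZMod 2) (sp W) ≤ W.card := finrank_span_finset_le_card W
  omega

/-- [LIM] -/
theorem LIM_proof : St_LIM := by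
  classical
  intro B K u c hc
  have main : Tendsto (fun x : ℝ => TT B K (ex u x) / (x : ℂ) ^ c) (𝓝[>] 0)
      (𝓝 ((tau B K u c : ℤ) : ℂ)) := by
    have h1 : ∀ W ∈ B.powerset, Tendsto (fun x : ℝ =>
        (if K ⊔ sp W = ⊤ then ∏ v ∈ W, (ex u x v - 1) else 0) / (x : ℂ) ^ c) (𝓝[>] 0)
        (𝓝 (if W.card = c then (if K ⊔ sp W = ⊤ then ∏ v ∈ W, (u v : ℂ) else 0) else 0)) := by
      intro W _
      by_cases hW : K ⊔ sp W = ⊤
      · simp only [if_pos hW]
        exact LIM_prod u W c (LIM_card K c hc W hW)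
      · simp only [if_neg hW, zero_div, ite_self]
        exact tendsto_const_nhds
    have h2 := tendsto_finsetSum _ h1
    have h3 : (∑ W ∈ B.powerset, (if W.card = c then (if K ⊔ sp W = ⊤ then ∏ v ∈ W, (u v : ℂ)
        else 0) else 0)) = ((tau B K u c : ℤ) : ℂ) := by
      unfold tau
      rw [Finset.powersetCard_eq_filter, Finset.sum_filter]
      push_cast
      refine Finset.sum_congr rfl (fun W _ => ?_)
      split_ifs <;> rfl
    rw [h3] at h2
    refine h2.congr (fun x => ?_)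
    unfold TT
    rw [Finset.sum_div]
  refine ⟨main, fun n hn => ?_⟩
  have h2 : Tendsto (fun x : ℝ => (x : ℂ) ^ (c - n)) (𝓝[>] 0) (𝓝 0) := by
    have : Tendsto (fun x : ℝ => (x : ℂ)) (𝓝 0) (𝓝 ((0 : ℝ) : ℂ)) :=
      Complex.continuous_ofReal.tendsto 0
    rw [Complex.ofReal_zero] at this
    have h4 := (this.mono_left (nhdsWithin_le_nhds (s := Set.Ioi 0))).pow (c - n)
    rwa [zero_pow (by omega)] at h4
  have h3 := main.mul h2
  rw [mul_zero] at h3
  refine h3.congr' ?_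
  filter_upwards [self_mem_nhdsWithin] with x hx
  have hx0 : (x : ℂ) ≠ 0 := Complex.ofReal_ne_zero.2 (ne_of_gt hx)
  have h5 : (x : ℂ) ^ c = (x : ℂ) ^ n * (x : ℂ) ^ (c - n) := by
    rw [← pow_add]
    congr 1
    omega
  rw [h5]
  have h6 : (x : ℂ) ^ (c - n) ≠ 0 := pow_ne_zero _ hx0
  have h7 : (x : ℂ) ^ n ≠ 0 := pow_ne_zero _ hx0
  field_simp

end Pool.Agent.TRG
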