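import Pool.Agent.TRG.St

/-!
# TRG : module M1, rank five
-/

set_option autoImplicit false

open Submodule Filter Topology
open Pool.Agent.SPT Pool.Agent.SPT.Rel

namespace Pool.Agent.TRG

private theorem M1_out (X : Finset E) : out X ⊤ = ∅ := by
  classical
  rw [Finset.eq_empty_iff_forall_notMem]
  intro v hv
  exact (Finset.mem_filter.1 hv).2 mem_top

private theorem M1_inn (X : Finset E) : inn X ⊤ = X := by
  classical
  ext v
  exact ⟨fun hv => (Finset.mem_filter.1 hv).1, fun hv => Finset.mem_filter.2 ⟨hv, mem_top⟩⟩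

private theorem M1_TT (K : Submodule (ZMod 2) E) (x : E → ℂ) [Decidable (K = ⊤)] :
    TT ∅ K x = if K = ⊤ then 1 else 0 := by
  classical
  unfold TT
  rw [Finset.powerset_empty, Finset.sum_singleton, Finset.prod_empty]
  have h : sp (∅ : Finset E) = ⊥ := by
    show span (ZMod 2) (((∅ : Finset E) : Set E)) = ⊥
    rw [Finset.coe_empty, span_empty]
  rw [h, sup_bot_eq]
  by_cases hK : K = ⊤
  · rw [if_pos hK, if_pos hK]
  · rw [if_neg hK, if_neg hK]

theorem M1_proof (hMAS : St_MAS) : St_M1 := by
  classical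
  intro X u L n hC hL h5
  have hO : sp (Od X u n) = ⊤ := by
    apply Submodule.eq_top_of_finrank_eq
    rw [Module.finrank_fin_fun]
    exact h5
  have hMAS' := hMAS X u L n hC hL 0 (fun F => if sp F = ⊤ then 1 else 0)
  rw [hO, M1_out, M1_inn] at hMAS'
  have hX := hMAS' ?_ ?_ X ?_ ?_
  · rw [if_pos hC.spn] at hX
    exact one_ne_zero hX
  · intro F _
    have h : (fun x : ℝ => TT ∅ (sp F) (ex u x) / (x : ℂ) ^ 0) =
        fun _ => (((if sp F = ⊤ then 1 else 0 : ℝ) : ℝ) : ℂ) := by
      funext x
      rw [M1_TT, pow_zero, div_one]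
      by_cases hF : sp F = ⊤
      · rw [if_pos hF, if_pos hF, Complex.ofReal_one]
      · rw [if_neg hF, if_neg hF, Complex.ofReal_zero]
    rw [h]
    exact tendsto_const_nhds
  · refine ⟨-1, Or.inr rfl, ?_⟩
    intro F _ _
    by_cases hF : sp F = ⊤
    · have hr : rk F = 5 := by
        unfold rk
        rw [hF, finrank_top, Module.finrank_fin_fun]
      simp only [if_pos hF]
      rw [hr]
      norm_num
    · simp only [if_neg hF]
      norm_num
  · unfold fl
    rw [Finset.mem_filter, Finset.mem_powerset]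
    exact ⟨subset_rfl, subset_rfl, fun v hv _ => hv⟩
  · have h1 : X ∩ Od X u n = Od X u n := by
      rw [Finset.inter_eq_right]
      exact Finset.filter_subset _ _
    rw [h1, hO, hC.spn]

end Pool.Agent.TRG
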