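import Pool.Agent.TRG.St

/-!
# TRG [M2] : rank four is impossible
-/

set_option autoImplicit false

open Submodule
open Pool.Agent.SPT Pool.Agent.SPT.Rel

namespace Pool.Agent.TRG

/-- a basis of the span of a finite set of rank four, consisting of elements of this set -/
private lemma M2_exists_basis (O : Finset E) (h : rk O = 4) :
    ∃ b : Fin 4 → E, (∀ i, b i ∈ O) ∧ span (ZMod 2) (Set.range b) = sp O ∧
      LinearIndependent (ZMod 2) b := by
  obtain ⟨f, h1, h2, h3⟩ := exists_fun_fin_finrank_span_eq (K := ZMod 2) (O : Set E)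
  have h4 : Module.finrank (ZMod 2) (span (ZMod 2) (O : Set E)) = 4 := h
  have key : ∀ (m : ℕ) (hm : m = 4) (f : Fin m → E), (∀ i, f i ∈ (O : Set E)) →
      span (ZMod 2) (Set.range f) = span (ZMod 2) (O : Set E) → LinearIndependent (ZMod 2) f →
      ∃ b : Fin 4 → E, (∀ i, b i ∈ O) ∧ span (ZMod 2) (Set.range b) = sp O ∧
        LinearIndependent (ZMod 2) b := by
    intro m hm f h1 h2 h3
    subst hm
    exact ⟨f, fun i => h1 i, h2, h3⟩
  exact key _ h4 f h1 h2 h3

theorem M2_proof (hM2c : St_M2c) (hF7s : St_F7s) (hCS : St_CS) : St_M2 := by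
  classical
  intro X u L n hC hL hrk
  obtain ⟨c1, c2, -, c4, -, c6⟩ := hCS X u
  have hc := hM2c X u L n hC hL hrk
  obtain ⟨b, hbO, hbs, hbi⟩ := M2_exists_basis (Od X u n) hrk
  set M := sp (Od X u n) with hM
  have hbX : ∀ i, b i ∈ X := fun i => (Finset.mem_filter.1 (hbO i)).1
  have hbM : ∀ i, b i ∈ M := fun i => by
    rw [← hbs]; exact subset_span ⟨i, rfl⟩
  have hMtop : M ≠ ⊤ := by
    intro h
    have h1 : Module.finrank (ZMod 2) M = 4 := hrk
    rw [h, finrank_top] at h1
    simp [E] at h1
  -- the sums over the classes modulo two elements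
  have hpair : ∀ i : Fin 4, i ≠ 0 → ∀ v, v ∉ M →
      cs X u (span (ZMod 2) {b 0} ⊔ span (ZMod 2) {b i}) v = 0 := by
    intro i hi v hv
    set G := span (ZMod 2) {b 0} ⊔ span (ZMod 2) {b i} with hG
    have hGM : G ≤ M := by
      rw [hG, sup_le_iff, span_le, span_le]
      simp [hbM]
    have hb0 : b 0 ∈ G := le_sup_left (a := span (ZMod 2) {b 0}) (mem_span_singleton_self (b 0))
    have hbi' : b i ∈ G := le_sup_right (a := span (ZMod 2) {b 0}) (mem_span_singleton_self (b i))
    have hF := (c6 M G hGM).2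
    have hle : G ≤ sp (inn X G ∩ Od X u n) := by
      rw [hG, sup_le_iff, span_le, span_le]
      simp only [Set.singleton_subset_iff]
      constructor
      · refine subset_span ?_
        rw [Finset.mem_coe, Finset.mem_inter]
        exact ⟨by unfold inn; exact Finset.mem_filter.2 ⟨hbX 0, hb0⟩, hbO 0⟩
      · refine subset_span ?_
        rw [Finset.mem_coe, Finset.mem_inter]
        exact ⟨by unfold inn; exact Finset.mem_filter.2 ⟨hbX i, hbi'⟩, hbO i⟩
    have hle2 : sp (inn X G ∩ Od X u n) ≤ sp (inn X G) := span_mono (by simp)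
    have hle3 : sp (inn X G) ≤ G := by
      rw [sp, span_le]
      intro x hx
      have hx' : x ∈ inn X G := hx
      unfold inn at hx'
      exact (Finset.mem_filter.1 hx').2
    have e1 : sp (inn X G) = G := le_antisymm hle3 (hle.trans hle2)
    have e2 : sp (inn X G ∩ Od X u n) = sp (inn X G) :=
      le_antisymm hle2 (hle3.trans hle)
    have hrk2 : rk (inn X G) = 2 := by
      rw [rk, e1, hG, ← span_union]
      have h1 : ({b 0} ∪ {b i} : Set E) = Set.range ![b 0, b i] := by
        simp [Matrix.range_cons]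
      rw [h1, finrank_span_eq_card]
      · simp
      · have h2 : ![b 0, b i] = b ∘ ![0, i] := by
          funext j; fin_cases j <;> rfl
        rw [h2]
        refine hbi.comp _ ?_
        intro x y hxy
        fin_cases x <;> fin_cases y <;> simp_all
    have h3 := hc (inn X G) hF hrk2 e2 v hv
    rw [e1] at h3
    exact h3
  set δ : E → ℤ := fun v => cs X u (span (ZMod 2) {b 0}) v with hδ
  have hadd : ∀ i : Fin 4, i ≠ 0 → ∀ v, v ∉ M → δ (v + b i) = - δ v := by
    intro i hi v hv
    have h1 := hpair i hi v hv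
    have h2 : b i ∉ span (ZMod 2) {b 0} := by
      have h3 := hbi.notMem_span_image (s := {0}) (x := i) (by simpa using hi)
      simpa using h3
    rw [c2 _ v (b i) h2] at h1
    show cs X u (span (ZMod 2) {b 0}) (v + b i) = - cs X u (span (ZMod 2) {b 0}) v
    omega
  have hout : ∀ v, v ∉ M → ∀ i, v + b i ∉ M := by
    intro v hv i h
    apply hv
    have := M.sub_mem h (hbM i)
    rwa [add_sub_cancel_right] at this
  have h0 : ∀ v, v ∉ M → δ v = 0 := by
    intro v hv
    by_contra hne
    obtain ⟨d, hdX, hdv⟩ := c4 _ v hne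
    have hdM : d ∉ M := by
      intro h
      apply hv
      have h1 : d + v ∈ M := by
        have h2 : span (ZMod 2) {b 0} ≤ M := by
          rw [span_le]; simp [hbM]
        exact h2 hdv
      have := M.sub_mem h1 h
      rwa [add_sub_cancel_left] at this
    have hδd : δ d ≠ 0 := by
      have h1 : δ d = δ v := c1 _ d v hdv
      rw [h1]; exact hne
    have hex : ∀ i j : Fin 4, i ≠ 0 → j ≠ 0 → ∃ w ∈ X, w + (d + b i + b j) ∈
        span (ZMod 2) {b 0} := by
      intro i j hi hj
      apply c4
      have h1 := hadd j hj (d + b i) (hout d hdM i)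
      have h2 := hadd i hi d hdM
      have h3 : δ (d + b i + b j) = δ d := by rw [h1, h2, neg_neg]
      have h4 : δ (d + b i + b j) ≠ 0 := by rw [h3]; exact hδd
      exact h4
    obtain ⟨x, hxX, hx⟩ := hex 1 2 (by decide) (by decide)
    obtain ⟨y, hyX, hy⟩ := hex 1 3 (by decide) (by decide)
    obtain ⟨z, hzX, hz⟩ := hex 2 3 (by decide) (by decide)
    have hli : LinearIndependent (ZMod 2) (Fin.cons d b : Fin 5 → E) := by
      rw [linearIndependent_finCons]
      refine ⟨hbi, ?_⟩
      rw [hbs]
      exact hdM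
    set c : Fin 5 → E := (Fin.cons d b : Fin 5 → E) ∘ ![2, 3, 4, 0, 1] with hcdef
    have hB : Bas X c := by
      refine ⟨?_, ?_⟩
      · intro i
        fin_cases i
        · exact hbX 1
        · exact hbX 2
        · exact hbX 3
        · exact hdX
        · exact hbX 0
      · exact hli.comp _ (by decide)
    refine hF7s X L hC.uni c hB ⟨x, hxX, y, hyX, z, hzX, ?_, ?_, ?_⟩
    · exact hx
    · exact hy
    · exact hz
  -- the contraction of the first element
  apply hMtop
  have h1 := hC.con (b 0) (hbX 0)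
  rw [eq_top_iff, ← h1, span_le]
  rintro w (hw | ⟨hwX, hw⟩)
  · rw [Set.mem_singleton_iff] at hw
    rw [hw]; exact hbM 0
  · by_contra hwM
    exact hw (h0 w hwM)

end Pool.Agent.TRG
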