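import Pool.Agent.TRG.St

/-!
# TRG, module M2a: rank four, orders one and two
-/

set_option autoImplicit false

open Submodule Filter Topology
open Pool.Agent.SPT Pool.Agent.SPT.Rel

namespace Pool.Agent.TRG

private theorem M2a_dim : Module.finrank (ZMod 2) E = 5 := by simp [E]

/-- a subspace and a vector outside of it: the dimension grows -/
private theorem M2a_sup_le {G M : Submodule (ZMod 2) E} {v : E} (hv : v ∉ G) (hle : G ≤ M)
    (hvM : v ∈ M) (hd : Module.finrank (ZMod 2) M = Module.finrank (ZMod 2) G + 1) :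
    G ⊔ span (ZMod 2) {v} = M := by
  have h1 : G < G ⊔ span (ZMod 2) {v} := by
    refine lt_of_le_of_ne le_sup_left fun h => hv ?_
    rw [h]
    exact mem_sup_right (mem_span_singleton_self v)
  have h2 := finrank_lt_finrank_of_lt h1
  apply eq_of_le_of_finrank_le
  · refine sup_le hle ?_
    rw [span_singleton_le_iff_mem]
    exact hvM
  · omega

private theorem M2a_top {M : Submodule (ZMod 2) E} (hM : Module.finrank (ZMod 2) M = 4) {v : E}
    (hv : v ∉ M) : M ⊔ span (ZMod 2) {v} = ⊤ :=
  M2a_sup_le hv le_top mem_top (by rw [finrank_top, M2a_dim, hM])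

private theorem M2a_add {M : Submodule (ZMod 2) E} (hM : Module.finrank (ZMod 2) M = 4) {v w : E}
    (hv : v ∉ M) (hw : w ∉ M) : w + v ∈ M := by
  have h : w ∈ M ⊔ span (ZMod 2) {v} := by
    rw [M2a_top hM hv]
    exact mem_top
  rcases Pool.Agent.SPT.Odd.mem_sup_one M v w h with h | h
  · exact absurd h hw
  · exact h

private theorem M2a_add' {M : Submodule (ZMod 2) E} {v w : E}
    (hv : v ∉ M) (hw : w + v ∈ M) : w ∉ M := by
  intro h
  apply hv
  have h2 := M.sub_mem hw h
  rwa [add_sub_cancel_left] at h2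

/-- the sum over the class is the sum over all elements outside of the hyperplane -/
private theorem M2a_cs (X : Finset E) (u : E → ℤ) {M : Submodule (ZMod 2) E}
    (hM : Module.finrank (ZMod 2) M = 4) {v : E} (hv : v ∉ M) :
    cs X u M v = ∑ w ∈ out X M, u w := by
  classical
  unfold cs out
  congr 1
  ext w
  rw [Finset.mem_filter, Finset.mem_filter]
  exact and_congr_right fun _ => ⟨fun h => M2a_add' hv h, fun h => M2a_add hM hv h⟩

private theorem M2a_out_mem {X : Finset E} {M : Submodule (ZMod 2) E} {v : E} (h : v ∈ out X M) :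
    v ∉ M := by
  classical
  unfold out at h
  exact (Finset.mem_filter.1 h).2

/-- the basic facts on the flats -/
private theorem M2a_fl {X : Finset E} {M : Submodule (ZMod 2) E} {F : Finset E}
    (hF : F ∈ fl (inn X M)) : sp F ≤ M := by
  classical
  unfold fl at hF
  rw [Finset.mem_filter, Finset.mem_powerset] at hF
  apply span_le.2
  intro v hv
  have h1 := hF.1 (Finset.mem_coe.1 hv)
  unfold inn at h1
  exact (Finset.mem_filter.1 h1).2

private theorem M2a_self (A : Finset E) : A ∈ fl A := by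
  classical
  unfold fl
  rw [Finset.mem_filter, Finset.mem_powerset]
  exact ⟨subset_rfl, subset_rfl, fun v hv _ => hv⟩

/-- low rank: the limit is zero -/
private theorem M2a_low (hLIM : St_LIM) (D F : Finset E) (u : E → ℤ) (N : ℕ)
    (h : rk F + N < 5) :
    Tendsto (fun x : ℝ => TT D (sp F) (ex u x) / (x : ℂ) ^ N) (𝓝[>] 0) (𝓝 0) := by
  have h1 : Module.finrank (ZMod 2) (sp F) + (5 - rk F) = 5 := by
    unfold rk
    unfold rk at h
    omega
  exact (hLIM D (sp F) u (5 - rk F) h1).2 N (by omega)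

/-- corank one, order one -/
private theorem M2a_tau (D : Finset E) (M : Submodule (ZMod 2) E) (u : E → ℤ)
    (hM : Module.finrank (ZMod 2) M = 4) (hD : ∀ v ∈ D, v ∉ M) :
    tau D M u 1 = ∑ v ∈ D, u v := by
  classical
  unfold tau
  rw [Finset.powersetCard_one, Finset.sum_map]
  refine Finset.sum_congr rfl fun v hv => ?_
  have h1 : M ⊔ sp ({v} : Finset E) = ⊤ := by
    unfold sp
    rw [Finset.coe_singleton]
    exact M2a_top hM (hD v hv)
  show (if M ⊔ sp ({v} : Finset E) = ⊤ then ∏ w ∈ ({v} : Finset E), u w else 0) = u v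
  rw [if_pos h1, Finset.prod_singleton]

theorem M2a_proof (hMAS : St_MAS) (hLIM : St_LIM) (hT1 : St_T1) (hT2 : St_T2) (hLF2 : St_LF2)
    (hCS : St_CS) : St_M2a := by
  classical
  intro X u L n hCx hLev hrk
  obtain ⟨O, hO⟩ : ∃ O, O = Od X u n := ⟨_, rfl⟩
  obtain ⟨M, hMd⟩ : ∃ M, M = sp (Od X u n) := ⟨_, rfl⟩
  have hMAS' := hMAS X u L n hCx hLev
  rw [← hMd] at hMAS' ⊢
  have hM : Module.finrank (ZMod 2) M = 4 := by
    rw [hMd]
    exact hrk
  have hDM : ∀ v ∈ out X M, v ∉ M := fun v hv => M2a_out_mem hv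
  have hFle : ∀ F ∈ fl (inn X M), sp F ≤ M := fun F hF => M2a_fl hF
  have hrk4 : ∀ F ∈ fl (inn X M), rk F ≤ 4 := by
    intro F hF
    rw [← hM]
    exact finrank_mono (hFle F hF)
  have hrkM : ∀ F ∈ fl (inn X M), rk F = 4 → sp F = M := by
    intro F hF h
    apply eq_of_le_of_finrank_le (hFle F hF)
    rw [hM]
    exact h.ge
  -- the sum of the elements outside of `M` is zero
  have hsum : ∑ v ∈ out X M, u v = 0 := by
    obtain ⟨s, hs⟩ : ∃ s : ℤ, s = ∑ v ∈ out X M, u v := ⟨_, rfl⟩
    rw [← hs]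
    have hlim : ∀ F ∈ fl (inn X M), Tendsto (fun x : ℝ =>
        TT (out X M) (sp F) (ex u x) / (x : ℂ) ^ 1) (𝓝[>] 0)
        (𝓝 (((if rk F = 4 then (s : ℝ) else 0 : ℝ)) : ℂ)) := by
      intro F hF
      by_cases h : rk F = 4
      · rw [if_pos h, hrkM F hF h]
        have h1 := (hLIM (out X M) M u 1 (by rw [hM])).1
        rw [M2a_tau (out X M) M u hM hDM, ← hs] at h1
        rw [Complex.ofReal_intCast]
        exact h1
      · rw [if_neg h, Complex.ofReal_zero]
        have := hrk4 F hF
        exact M2a_low hLIM _ _ _ _ (by omega)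
    have hcoh : Coh (inn X M) (Od X u n) (fun F => if rk F = 4 then (s : ℝ) else 0) := by
      rcases le_total 0 (s : ℝ) with h | h
      · refine ⟨1, Or.inl rfl, fun F _ _ => ?_⟩
        show 0 ≤ (1 : ℝ) * (-1) ^ rk F * (if rk F = 4 then (s : ℝ) else 0)
        by_cases h4 : rk F = 4
        · rw [if_pos h4, h4]
          linarith
        · rw [if_neg h4, mul_zero]
      · refine ⟨-1, Or.inr rfl, fun F _ _ => ?_⟩
        show 0 ≤ (-1 : ℝ) * (-1) ^ rk F * (if rk F = 4 then (s : ℝ) else 0)
        by_cases h4 : rk F = 4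
        · rw [if_pos h4, h4]
          linarith
        · rw [if_neg h4, mul_zero]
    have hOA : Od X u n ⊆ inn X M := by
      intro v hv
      unfold inn
      rw [Finset.mem_filter]
      refine ⟨(Finset.mem_filter.1 hv).1, ?_⟩
      rw [hMd]
      exact subset_span (Finset.mem_coe.2 hv)
    have hspA : sp (inn X M) = M := by
      apply le_antisymm (M2a_fl (M2a_self _))
      conv_lhs => rw [hMd]
      exact span_mono (Finset.coe_subset.2 hOA)
    have h1 := hMAS' 1 (fun F => if rk F = 4 then (s : ℝ) else 0) hlim hcoh (inn X M)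
      (M2a_self _) (by rw [Finset.inter_eq_right.2 hOA, hspA, ← hMd])
    have h2 : rk (inn X M) = 4 := by
      unfold rk
      rw [hspA, hM]
    have h3 : (if rk (inn X M) = 4 then (s : ℝ) else 0) = 0 := h1
    rw [if_pos h2] at h3
    exact_mod_cast h3
  have hcsM : ∀ v, v ∉ M → cs X u M v = 0 := fun v hv => by
    rw [M2a_cs X u hM hv, hsum]
  refine ⟨hcsM, ?_⟩
  intro F₀ hF₀ hrF₀ hspF₀ v hv
  obtain ⟨-, hCS2, hCS3, -, -, -⟩ := hCS X u
  have hlim : ∀ F ∈ fl (inn X M), Tendsto (fun x : ℝ =>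
      TT (out X M) (sp F) (ex u x) / (x : ℂ) ^ 2) (𝓝[>] 0)
      (𝓝 (((if rk F = 3 then -((cs X u (sp F) v : ℤ) : ℝ) ^ 2 else 0 : ℝ)) : ℂ)) := by
    intro F hF
    have h4 := hrk4 F hF
    by_cases h : rk F = 4
    · rw [if_neg (by omega), Complex.ofReal_zero, hrkM F hF h]
      have h1 : ∀ x : ℝ, TT (out X M) M (ex u x) / (x : ℂ) ^ 2 = 0 := by
        intro x
        rw [hT1 (out X M) u M hM hDM x, hsum, Int.cast_zero, mul_zero, Complex.exp_zero, sub_self,
          zero_div]
      simp only [h1]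
      exact tendsto_const_nhds
    · by_cases h3 : rk F = 3
      · rw [if_pos h3]
        have hfr : Module.finrank (ZMod 2) (sp F) = 3 := h3
        have hFM := hFle F hF
        obtain ⟨d₁, hd₁M, hd₁⟩ : ∃ d₁ ∈ M, d₁ ∉ sp F := by
          by_contra hc
          push Not at hc
          have h5 : M ≤ sp F := fun y hy => hc y hy
          have h6 := finrank_mono h5
          omega
        have hMsup : sp F ⊔ span (ZMod 2) {d₁} = M := M2a_sup_le hd₁ hFM hd₁M (by omega)
        have htop : sp F ⊔ span (ZMod 2) {d₁, v} = ⊤ := by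
          rw [span_insert, ← sup_assoc, hMsup]
          exact M2a_top hM hv
        have hDF : ∀ w ∈ out X M, w ∉ sp F := fun w hw h5 => hDM w hw (hFM h5)
        have e1 : cs (out X M) u (sp F) d₁ = 0 := by
          unfold cs
          apply Finset.sum_eq_zero
          intro w hw
          rw [Finset.mem_filter] at hw
          exfalso
          apply hDM w hw.1
          have h5 := M.sub_mem (hFM hw.2) hd₁M
          rwa [add_sub_cancel_right] at h5
        have hvd : v + d₁ ∉ M := by
          intro h5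
          apply hv
          have h6 := M.sub_mem h5 hd₁M
          rwa [add_sub_cancel_right] at h6
        have e2 : cs (out X M) u (sp F) v = cs X u (sp F) v := hCS3 _ _ _ hFM hv
        have e3 : cs (out X M) u (sp F) (d₁ + v) = - cs X u (sp F) v := by
          rw [add_comm d₁ v, hCS3 _ _ _ hFM hvd]
          have h5 := hCS2 (sp F) v d₁ hd₁
          rw [hMsup, hcsM v hv] at h5
          linarith
        have h5 := (hLF2 0 ((cs X u (sp F) v : ℤ) : ℝ) (-((cs X u (sp F) v : ℤ) : ℝ))).1
        have e4 : ((0 : ℝ) * ((cs X u (sp F) v : ℤ) : ℝ) + ((cs X u (sp F) v : ℤ) : ℝ) *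
            (-((cs X u (sp F) v : ℤ) : ℝ)) + (-((cs X u (sp F) v : ℤ) : ℝ)) * 0) =
            -((cs X u (sp F) v : ℤ) : ℝ) ^ 2 := by ring
        rw [e4] at h5
        refine h5.congr fun x => ?_
        rw [hT2 (out X M) u (sp F) hfr hDF d₁ v htop x, e1, e2, e3]
        push_cast
        rfl
      · rw [if_neg h3, Complex.ofReal_zero]
        exact M2a_low hLIM _ _ _ _ (by omega)
  have hcoh : Coh (inn X M) (Od X u n)
      (fun F => if rk F = 3 then -((cs X u (sp F) v : ℤ) : ℝ) ^ 2 else 0) := by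
    refine ⟨1, Or.inl rfl, fun F _ _ => ?_⟩
    show 0 ≤ (1 : ℝ) * (-1) ^ rk F * (if rk F = 3 then -((cs X u (sp F) v : ℤ) : ℝ) ^ 2 else 0)
    by_cases h3 : rk F = 3
    · rw [if_pos h3, h3]
      have := sq_nonneg ((cs X u (sp F) v : ℤ) : ℝ)
      linarith
    · rw [if_neg h3, mul_zero]
  have h1 := hMAS' 2 _ hlim hcoh F₀ hF₀ hspF₀
  have h2 : (if rk F₀ = 3 then -((cs X u (sp F₀) v : ℤ) : ℝ) ^ 2 else 0) = 0 := h1
  rw [if_pos hrF₀, neg_eq_zero] at h2
  have h3 := pow_eq_zero_iff (two_ne_zero) |>.1 h2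
  exact_mod_cast h3

end Pool.Agent.TRG
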