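import Pool.Agent.TRG.St

/-!
# TRG, module M2b (helper89): rank four, the kernel
-/

set_option autoImplicit false

open Submodule Filter Topology
open Pool.Agent.SPT Pool.Agent.SPT.Rel

namespace Pool.Agent.TRG

private theorem M2b_z2 (x : ZMod 2) : x ≠ 0 ↔ x + 1 = 0 := by
  revert x; decide

private theorem M2b_z2' (x : ZMod 2) : x ≠ 0 ↔ x = 1 := by
  revert x; decide

private theorem M2b_card : ∀ i : Fin 5, i ≠ 4 →
    Fintype.card {j : Fin 5 // j ≠ i ∧ j ≠ 4} = 3 := by decide

/-- membership in the span of a part of a basis -/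
private theorem M2b_mem (B : Module.Basis (Fin 5) (ZMod 2) E) (s : Set (Fin 5)) (v : E) :
    v ∈ span (ZMod 2) (B '' s) ↔ ∀ j, j ∉ s → B.repr v j = 0 := by
  rw [Module.Basis.mem_span_image]
  constructor
  · intro h j hj
    by_contra h0
    exact hj (h (Finsupp.mem_support_iff.2 h0))
  · intro h j hj
    by_contra h0
    exact Finsupp.mem_support_iff.1 hj (h j h0)

theorem M2b_proof (hM2a : St_M2a) (hQF : St_QF) (hKER : St_KER) (hCS : St_CS) : St_M2b := by
  classical
  intro X u L n hCx hLev hrk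
  obtain ⟨hA1, hA2⟩ := hM2a X u L n hCx hLev hrk
  obtain ⟨M, hM⟩ : ∃ M, M = sp (Od X u n) := ⟨_, rfl⟩
  have hrk' : Module.finrank (ZMod 2) M = 4 := by rw [hM]; exact hrk
  have hOX : Od X u n ⊆ X := Finset.filter_subset _ _
  -- four independent elements of `O`
  obtain ⟨b', hb'O, hb's, hb'i⟩ : ∃ b' : Fin 4 → E, (∀ i, b' i ∈ Od X u n) ∧
      span (ZMod 2) (Set.range b') = M ∧ LinearIndependent (ZMod 2) b' := by
    obtain ⟨f, hf1, hf2, hf3⟩ := exists_fun_fin_finrank_span_eq (ZMod 2) ((Od X u n : Finset E) : Set E)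
    have h4 : Module.finrank (ZMod 2) (span (ZMod 2) ((Od X u n : Finset E) : Set E)) = 4 := hrk
    refine ⟨f ∘ Fin.cast h4.symm, fun i => hf1 _, ?_, hf3.comp _ (Fin.cast_injective _)⟩
    have hr : Set.range (f ∘ Fin.cast h4.symm) = Set.range f := by
      ext y
      constructor
      · rintro ⟨i, rfl⟩
        exact ⟨_, rfl⟩
      · rintro ⟨i, rfl⟩
        exact ⟨Fin.cast h4 i, rfl⟩
    rw [hM, hr]
    exact hf2
  -- an element outside
  obtain ⟨x, hxX, hxM⟩ : ∃ x ∈ X, x ∉ M := by
    by_contra hno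
    push Not at hno
    have h1 : sp X ≤ M := span_le.2 fun v hv => hno v hv
    rw [hCx.spn, top_le_iff] at h1
    rw [h1, finrank_top, Module.finrank_fin_fun] at hrk'
    omega
  obtain ⟨b, hb⟩ : ∃ b : Fin 5 → E, b = Fin.snoc b' x := ⟨_, rfl⟩
  have hb4 : b 4 = x := by
    rw [hb]
    exact Fin.snoc_last (α := fun _ => E) x b'
  have hbc : ∀ i : Fin 4, b i.castSucc = b' i := by
    intro i
    rw [hb]
    exact Fin.snoc_castSucc (α := fun _ => E) x b' i
  have hbi : LinearIndependent (ZMod 2) b := by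
    rw [hb]
    exact linearIndependent_finSnoc.2 ⟨hb'i, by rw [hb's]; exact hxM⟩
  have hlt : ∀ i : Fin 5, i ≠ 4 → ∃ k : Fin 4, k.castSucc = i := by decide
  have hbO : ∀ i, i ≠ 4 → b i ∈ Od X u n := by
    intro i hi
    obtain ⟨k, rfl⟩ := hlt i hi
    rw [hbc]
    exact hb'O k
  have hbM : ∀ i, i ≠ 4 → b i ∈ M := by
    intro i hi
    rw [hM]
    exact subset_span (hbO i hi)
  have hb4M : b 4 ∉ M := by rw [hb4]; exact hxM
  have hbas : Bas X b := by
    refine ⟨fun i => ?_, hbi⟩
    by_cases hi : i = 4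
    · rw [hi, hb4]; exact hxX
    · exact hOX (hbO i hi)
  have hcard : Fintype.card (Fin 5) = Module.finrank (ZMod 2) E := by
    rw [Module.finrank_fin_fun, Fintype.card_fin]
  obtain ⟨B, hB⟩ : ∃ B : Module.Basis (Fin 5) (ZMod 2) E, ⇑B = b :=
    ⟨basisOfLinearIndependentOfCardEqFinrank hbi hcard,
      coe_basisOfLinearIndependentOfCardEqFinrank hbi hcard⟩
  have hself : ∀ i j, B.repr (b i) j = if i = j then 1 else 0 := by
    intro i j
    rw [← hB, Module.Basis.repr_self, Finsupp.single_apply]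
  have hMW : span (ZMod 2) (b '' {j | j ≠ 4}) = M := by
    rw [← hb's]
    congr 1
    ext y
    constructor
    · rintro ⟨i, hi, rfl⟩
      obtain ⟨k, rfl⟩ := hlt i hi
      exact ⟨k, (hbc k).symm⟩
    · rintro ⟨k, rfl⟩
      exact ⟨k.castSucc, (Fin.castSucc_lt_last k).ne, hbc k⟩
  have hmem : ∀ (s : Set (Fin 5)) (v : E),
      v ∈ span (ZMod 2) (b '' s) ↔ ∀ j, j ∉ s → B.repr v j = 0 := by
    intro s v
    rw [← hB]
    exact M2b_mem B s v
  have hmemM : ∀ v, v ∈ M ↔ B.repr v 4 = 0 := by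
    intro v
    rw [← hMW, hmem]
    constructor
    · intro h
      exact h 4 (by simp)
    · intro h j hj
      have : j = 4 := by simpa using hj
      rw [this]
      exact h
  have hmemH : ∀ i v, v ∈ span (ZMod 2) (b '' {k | k ≠ i}) ↔ B.repr v i = 0 := by
    intro i v
    rw [hmem]
    constructor
    · intro h
      exact h i (by simp)
    · intro h j hj
      have : j = i := by simpa using hj
      rw [this]
      exact h
  rw [← hM]
  refine hKER X u L hCx.uni M b hbas hbM hb4M ?_
  obtain ⟨q1, q2⟩ := hQF X L hCx.uni b hbas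
  have hDX : out X M ⊆ X := Finset.filter_subset _ _
  intro i
  by_cases hi : i = 4
  · subst hi
    rw [q1 4 (out X M) u hDX]
    have h1 := hA1 (b 4) (by rw [← hM]; exact hb4M)
    rw [← hM] at h1
    rw [← h1]
    unfold cs out
    refine Finset.sum_congr ?_ fun _ _ => rfl
    ext v
    simp only [Finset.mem_filter]
    rw [hmemH, hmemM, hmemM, map_add, Finsupp.add_apply, hself, if_pos rfl, ← M2b_z2]
    tauto
  · obtain ⟨σ, -, hσ⟩ := q2 i 4 hi
    rw [hσ (out X M) u hDX]
    obtain ⟨G, hG⟩ : ∃ G, G = span (ZMod 2) (b '' {j | j ≠ i ∧ j ≠ 4}) := ⟨_, rfl⟩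
    have hmemG : ∀ v, v ∈ G ↔ B.repr v i = 0 ∧ B.repr v 4 = 0 := by
      intro v
      rw [hG, hmem]
      constructor
      · intro h
        exact ⟨h i (by simp), h 4 (by simp)⟩
      · rintro ⟨h1, h2⟩ j hj
        have : j = i ∨ j = 4 := by
          by_contra h0
          push Not at h0
          exact hj h0
        rcases this with h | h
        · rw [h]; exact h1
        · rw [h]; exact h2
    have hGM : G ≤ M := by
      intro v hv
      rw [hmemM]
      exact ((hmemG v).1 hv).2
    have hGr : Module.finrank (ZMod 2) G = 3 := by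
      have h1 : b '' {j | j ≠ i ∧ j ≠ 4} =
          Set.range (b ∘ (Subtype.val : {j : Fin 5 // j ≠ i ∧ j ≠ 4} → Fin 5)) := by
        ext y
        constructor
        · rintro ⟨j, hj, rfl⟩
          exact ⟨⟨j, hj⟩, rfl⟩
        · rintro ⟨j, rfl⟩
          exact ⟨j, j.2, rfl⟩
      rw [hG, h1, finrank_span_eq_card (hbi.comp _ Subtype.val_injective), M2b_card i hi]
    have hbG : ∀ j, j ≠ i → j ≠ 4 → b j ∈ inn X G ∩ Od X u n := by
      intro j hj1 hj2
      rw [Finset.mem_inter]
      refine ⟨?_, hbO j hj2⟩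
      unfold inn
      rw [Finset.mem_filter]
      refine ⟨hbas.1 j, ?_⟩
      rw [hG]
      exact subset_span ⟨j, ⟨hj1, hj2⟩, rfl⟩
    have hGle : G ≤ sp (inn X G ∩ Od X u n) := by
      conv_lhs => rw [hG]
      rw [span_le]
      rintro y ⟨j, ⟨hj1, hj2⟩, rfl⟩
      exact subset_span (hbG j hj1 hj2)
    have hmono : sp (inn X G ∩ Od X u n) ≤ sp (inn X G) :=
      span_mono (by exact_mod_cast Finset.inter_subset_left)
    have hinG : sp (inn X G) ≤ G := by
      rw [span_le]
      intro v hv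
      have hv' : v ∈ inn X G := hv
      unfold inn at hv'
      exact (Finset.mem_filter.1 hv').2
    have hspG : sp (inn X G) = G := le_antisymm hinG (hGle.trans hmono)
    have hspG' : sp (inn X G ∩ Od X u n) = sp (inn X G) :=
      le_antisymm hmono (hspG.le.trans hGle)
    obtain ⟨-, -, -, -, -, hc6⟩ := hCS X u
    have hfl := (hc6 M G hGM).2
    rw [hM] at hfl
    have hne : b i + b 4 ∉ sp (Od X u n) := by
      rw [← hM, hmemM, map_add, Finsupp.add_apply, hself, hself, if_neg hi, if_pos rfl]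
      decide
    have h1 := hA2 (inn X G) hfl (by unfold rk; rw [hspG]; exact hGr) hspG' (b i + b 4) hne
    rw [hspG] at h1
    have h2 : (∑ v ∈ out (out (out X M) (span (ZMod 2) (b '' {k | k ≠ i})))
        (span (ZMod 2) (b '' {k | k ≠ 4})), u v) = cs X u G (b i + b 4) := by
      unfold cs out
      refine Finset.sum_congr ?_ fun _ _ => rfl
      ext v
      simp only [Finset.mem_filter]
      rw [hmemH, hmemH, hmemM, hmemG, map_add, map_add, Finsupp.add_apply, Finsupp.add_apply,
        Finsupp.add_apply, Finsupp.add_apply, hself, hself, hself, hself, if_pos rfl, if_pos rfl,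
        if_neg hi, if_neg (Ne.symm hi), add_zero, zero_add, ← M2b_z2, ← M2b_z2]
      tauto
    rw [h2, h1, mul_zero]

end Pool.Agent.TRG
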