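import Pool.Agent.TRG.St

/-!
# TRG, module M2c: rank four, order four
-/

set_option autoImplicit false

open Submodule Filter Topology
open Pool.Agent.SPT Pool.Agent.SPT.Rel

namespace Pool.Agent.TRG

private theorem M2c_E : Module.finrank (ZMod 2) E = 5 := by simp [E]

private theorem M2c_top {K : Submodule (ZMod 2) E} (h : Module.finrank (ZMod 2) K = 5) : K = ⊤ :=
  Submodule.eq_top_of_finrank_eq (by rw [h, M2c_E])

private theorem M2c_coset {M : Submodule (ZMod 2) E} (hM : Module.finrank (ZMod 2) M = 4)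
    {d : E} (hd : d ∉ M) (w : E) : w + d ∈ M ↔ w ∉ M := by
  constructor
  · intro h hw
    apply hd
    have h1 := M.sub_mem h hw
    simpa using h1
  · intro hw
    have h1 := Pool.Agent.SPT.Odd.finrank_sup_one M d hd
    have h2 : M ⊔ span (ZMod 2) {d} = ⊤ := M2c_top (by rw [h1, hM])
    rcases Pool.Agent.SPT.Odd.mem_sup_one M d w (by rw [h2]; trivial) with h | h
    · exact absurd h hw
    · exact h

private theorem M2c_pick {A : Finset E} {G M : Submodule (ZMod 2) E} (hA : sp A = M)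
    (hG : Module.finrank (ZMod 2) G < Module.finrank (ZMod 2) M) : ∃ p ∈ A, p ∉ G := by
  by_contra h
  push Not at h
  have h1 : M ≤ G := by
    rw [← hA]
    exact span_le.2 fun v hv => h v (by simpa using hv)
  have h2 := Submodule.finrank_mono h1
  omega

private theorem M2c_ins (F : Finset E) (p : E) :
    sp (insert p F) = sp F ⊔ span (ZMod 2) {p} := by
  unfold sp
  rw [Finset.coe_insert, span_insert, sup_comm]

private theorem M2c_zero (X : Finset E) (u : E → ℤ) {G M : Submodule (ZMod 2) E} (hG : G ≤ M)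
    {q : E} (hq : q ∈ M) : cs (out X M) u G q = 0 := by
  classical
  unfold cs
  refine Finset.sum_eq_zero fun w hw => ?_
  exfalso
  rw [Finset.mem_filter] at hw
  have h1 : w ∉ M := by
    have h2 := hw.1
    unfold out at h2
    exact (Finset.mem_filter.1 h2).2
  apply h1
  have h3 := M.sub_mem (hG hw.2) hq
  simpa using h3

private theorem M2c_tot (X : Finset E) (u : E → ℤ) {M : Submodule (ZMod 2) E}
    (hM : Module.finrank (ZMod 2) M = 4) {d : E} (hd : d ∉ M) :
    ∑ v ∈ out X M, u v = cs X u M d := by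
  classical
  unfold cs out
  refine Finset.sum_congr ?_ fun _ _ => rfl
  ext w
  simp only [Finset.mem_filter, M2c_coset hM hd]

private theorem M2c_out {X : Finset E} {M : Submodule (ZMod 2) E} {w : E} (hw : w ∈ out X M) :
    w ∉ M := by
  classical
  unfold out at hw
  exact (Finset.mem_filter.1 hw).2

private theorem M2c_outX (X : Finset E) (M : Submodule (ZMod 2) E) : out X M ⊆ X := by
  classical
  unfold out
  exact Finset.filter_subset _ _

/-- rank two -/
private theorem M2c_two (hT3 : St_T3) (hLF3 : St_LF3) (hCS : St_CS) (X : Finset E) (u : E → ℤ)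
    (M : Submodule (ZMod 2) E) (hM : Module.finrank (ZMod 2) M = 4) (hsp : sp (inn X M) = M)
    (B2 : ∀ F ⊆ inn X M, rk F = 3 → ∀ v, v ∉ M → cs X u (sp F) v = 0)
    (d : E) (hd : d ∉ M) (F : Finset E) (hF : F ⊆ inn X M) (hr : rk F = 2) :
    Tendsto (fun x : ℝ => TT (out X M) (sp F) (ex u x) / (x : ℂ) ^ 4) (𝓝[>] 0)
      (𝓝 (((-((cs X u (sp F) d : ℤ) : ℝ) ^ 4 : ℝ)) : ℂ)) := by
  classical
  obtain ⟨CS1, CS2, CS3, CS4, CS5, CS6⟩ := hCS X u
  have hFM : sp F ≤ M := by
    rw [← hsp]
    exact span_mono (by exact_mod_cast hF)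
  have hr' : Module.finrank (ZMod 2) (sp F) = 2 := hr
  obtain ⟨p, hp, hpG⟩ := M2c_pick (G := sp F) hsp (by rw [hr', hM]; norm_num)
  have hdp := Pool.Agent.SPT.Odd.finrank_sup_one (sp F) p hpG
  rw [hr'] at hdp
  obtain ⟨d₁, hd₁, hd₁G⟩ := M2c_pick (G := sp F ⊔ span (ZMod 2) {p}) hsp
    (by rw [hdp, hM]; norm_num)
  have hpM : p ∈ M := by
    rw [← hsp]
    exact subset_span (by exact_mod_cast hp)
  have hd₁M : d₁ ∈ M := by
    rw [← hsp]
    exact subset_span (by exact_mod_cast hd₁)
  have hd₁F : d₁ ∉ sp F := fun h => hd₁G (mem_sup_left h)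
  have hdp1 := Pool.Agent.SPT.Odd.finrank_sup_one (sp F) d₁ hd₁F
  rw [hr'] at hdp1
  have hdd := Pool.Agent.SPT.Odd.finrank_sup_one (sp F ⊔ span (ZMod 2) {p}) d₁ hd₁G
  rw [hdp] at hdd
  have hdd1 : sp F ⊔ span (ZMod 2) {p} ⊔ span (ZMod 2) {d₁} ≤ M := by
    refine sup_le (sup_le hFM ?_) ?_
    · rw [span_singleton_le_iff_mem]; exact hpM
    · rw [span_singleton_le_iff_mem]; exact hd₁M
  have hddd := Pool.Agent.SPT.Odd.finrank_sup_one
    (sp F ⊔ span (ZMod 2) {p} ⊔ span (ZMod 2) {d₁}) d (fun h => hd (hdd1 h))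
  rw [hdd] at hddd
  have htop : sp F ⊔ span (ZMod 2) {p, d₁, d} = ⊤ := by
    refine M2c_top ?_
    have h1 : sp F ⊔ span (ZMod 2) {p, d₁, d} =
        sp F ⊔ span (ZMod 2) {p} ⊔ span (ZMod 2) {d₁} ⊔ span (ZMod 2) {d} := by
      rw [span_insert, span_insert]
      simp only [sup_assoc]
    rw [h1, hddd]
  set s : ℤ := cs X u (sp F) d with hs
  -- sums of the classes
  have hadd : ∀ q, q ∈ M → ∀ w, w ∉ M → w + q ∉ M := by
    intro q hq w hw h
    apply hw
    have h1 := M.sub_mem h hq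
    simpa using h1
  have hrow : ∀ q ∈ inn X M, q ∉ sp F → ∀ w, w ∉ M →
      cs X u (sp F) (w + q) = - cs X u (sp F) w := by
    intro q hq hqF w hw
    have h1 := Pool.Agent.SPT.Odd.finrank_sup_one (sp F) q hqF
    rw [hr'] at h1
    have h2 := B2 (insert q F) (Finset.insert_subset hq hF) (by
      unfold rk
      rw [M2c_ins, h1]) w hw
    rw [M2c_ins, CS2 (sp F) w q hqF] at h2
    linarith
  have e1 : cs X u (sp F) (d + p) = -s := hrow p hp hpG d hd
  have e2 : cs X u (sp F) (d₁ + d) = -s := by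
    rw [add_comm]
    exact hrow d₁ hd₁ hd₁F d hd
  have e3 : cs X u (sp F) (d₁ + d + p) = s := by
    have h1 : d₁ + d + p = (d + p) + d₁ := by abel
    rw [h1, hrow d₁ hd₁ hd₁F (d + p) (hadd p hpM d hd), e1, neg_neg]
  have hT := hT3 (out X M) u (sp F) hr' p d₁ d htop (by
    intro w hw
    have hwM := M2c_out hw
    refine ⟨fun h => hwM (hFM h), fun h => ?_⟩
    exact hadd p hpM w hwM (hFM h))
  have c0 : cs (out X M) u (sp F) d₁ = 0 := M2c_zero X u hFM hd₁M
  have c1 : cs (out X M) u (sp F) (d₁ + p) = 0 := M2c_zero X u hFM (M.add_mem hd₁M hpM)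
  have c2 : cs (out X M) u (sp F) d = s := CS3 (sp F) M d hFM hd
  have c3 : cs (out X M) u (sp F) (d + p) = -s := by
    rw [CS3 (sp F) M (d + p) hFM (hadd p hpM d hd), e1]
  have c4 : cs (out X M) u (sp F) (d₁ + d) = -s := by
    rw [CS3 (sp F) M (d₁ + d) hFM (by rw [add_comm]; exact hadd d₁ hd₁M d hd), e2]
  have c5 : cs (out X M) u (sp F) (d₁ + d + p) = s := by
    rw [CS3 (sp F) M (d₁ + d + p) hFM ?_, e3]
    refine hadd p hpM (d₁ + d) ?_
    rw [add_comm]
    exact hadd d₁ hd₁M d hd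
  have hlim := (hLF3 0 0 (s : ℝ) 0 0 0).1
  refine hlim.congr fun x => ?_
  rw [hT x, c0, c1, c2, c3, c4, c5]
  push_cast
  simp only [mul_zero]

/-- rank three -/
private theorem M2c_three (hT2 : St_T2) (hCS : St_CS) (X : Finset E) (u : E → ℤ)
    (M : Submodule (ZMod 2) E) (hM : Module.finrank (ZMod 2) M = 4) (hsp : sp (inn X M) = M)
    (B2 : ∀ F ⊆ inn X M, rk F = 3 → ∀ v, v ∉ M → cs X u (sp F) v = 0)
    (d : E) (hd : d ∉ M) (F : Finset E) (hF : F ⊆ inn X M) (hr : rk F = 3) (x : ℝ) :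
    TT (out X M) (sp F) (ex u x) = 0 := by
  classical
  obtain ⟨CS1, CS2, CS3, CS4, CS5, CS6⟩ := hCS X u
  have hFM : sp F ≤ M := by
    rw [← hsp]
    exact span_mono (by exact_mod_cast hF)
  have hr' : Module.finrank (ZMod 2) (sp F) = 3 := hr
  obtain ⟨p, hp, hpG⟩ := M2c_pick (G := sp F) hsp (by rw [hr', hM]; norm_num)
  have hpM : p ∈ M := by
    rw [← hsp]
    exact subset_span (by exact_mod_cast hp)
  have hdp := Pool.Agent.SPT.Odd.finrank_sup_one (sp F) p hpG
  rw [hr'] at hdp
  have hle : sp F ⊔ span (ZMod 2) {p} ≤ M := by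
    refine sup_le hFM ?_
    rw [span_singleton_le_iff_mem]
    exact hpM
  have hdd := Pool.Agent.SPT.Odd.finrank_sup_one (sp F ⊔ span (ZMod 2) {p}) d
    (fun h => hd (hle h))
  rw [hdp] at hdd
  have htop : sp F ⊔ span (ZMod 2) {p, d} = ⊤ := by
    refine M2c_top ?_
    have h1 : sp F ⊔ span (ZMod 2) {p, d} =
        sp F ⊔ span (ZMod 2) {p} ⊔ span (ZMod 2) {d} := by
      rw [span_insert]
      simp only [sup_assoc]
    rw [h1, hdd]
  have hT := hT2 (out X M) u (sp F) hr' (fun w hw h => M2c_out hw (hFM h)) p d htop x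
  have hpd : p + d ∉ M := by
    intro h
    apply hd
    have h1 := M.sub_mem h hpM
    simpa using h1
  have c0 : cs (out X M) u (sp F) p = 0 := M2c_zero X u hFM hpM
  have c1 : cs (out X M) u (sp F) d = 0 := by
    rw [CS3 (sp F) M d hFM hd, B2 F hF hr d hd]
  have c2 : cs (out X M) u (sp F) (p + d) = 0 := by
    rw [CS3 (sp F) M (p + d) hFM hpd, B2 F hF hr (p + d) hpd]
  rw [hT, c0, c1, c2]
  unfold F2
  simp
  norm_num

theorem M2c_proof (hMAS : St_MAS) (hBAL : St_BAL) (hT1 : St_T1) (hT2 : St_T2) (hT3 : St_T3)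
    (hLF2 : St_LF2) (hLF3 : St_LF3) (hLIM : St_LIM) (hCS : St_CS) (hM2b : St_M2b) : St_M2c := by
  intro X u L n hCx hLev hrk F0 hF0 hr0 hO0 v hv
  classical
  have _ := hLF2
  have hKer := hM2b X u L n hCx hLev hrk
  have hM : Module.finrank (ZMod 2) (sp (Od X u n)) = 4 := hrk
  have hOA : Od X u n ⊆ inn X (sp (Od X u n)) := by
    intro w hw
    unfold inn
    rw [Finset.mem_filter]
    refine ⟨?_, subset_span (by exact_mod_cast hw)⟩
    unfold Od at hw
    exact (Finset.mem_filter.1 hw).1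
  have hsp : sp (inn X (sp (Od X u n))) = sp (Od X u n) := by
    refine le_antisymm ?_ (span_mono (by exact_mod_cast hOA))
    refine span_le.2 fun w hw => ?_
    have h1 : w ∈ inn X (sp (Od X u n)) := by exact_mod_cast hw
    unfold inn at h1
    exact (Finset.mem_filter.1 h1).2
  obtain ⟨B1, B2, B3⟩ := hBAL X u L hCx.uni hCx.spn (sp (Od X u n)) hM hsp hKer
  obtain ⟨t, ht⟩ : ∃ t : Finset E → ℝ, t = fun F =>
    if rk F = 2 then -((cs X u (sp F) v : ℤ) : ℝ) ^ 4 else 0 := ⟨_, rfl⟩
  have key := hMAS X u L n hCx hLev 4 t (by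
    intro F hF
    have hFA : F ⊆ inn X (sp (Od X u n)) := by
      unfold fl at hF
      exact Finset.mem_powerset.1 (Finset.mem_filter.1 hF).1
    have hFM : sp F ≤ sp (Od X u n) := by
      rw [← hsp]
      exact span_mono (by exact_mod_cast hFA)
    have hle : rk F ≤ 4 := by
      rw [← hM]
      exact Submodule.finrank_mono hFM
    have hcases : rk F = 0 ∨ rk F = 1 ∨ rk F = 2 ∨ rk F = 3 ∨ rk F = 4 := by omega
    rcases hcases with h | h | h | h | h
    · have h1 := (hLIM (out X (sp (Od X u n))) (sp F) u 5 (by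
        have h2 : Module.finrank (ZMod 2) (sp F) = 0 := h
        rw [h2])).2 4 (by norm_num)
      have h2 : t F = 0 := by
        rw [ht]
        simp only
        rw [if_neg (by omega)]
      rw [h2, Complex.ofReal_zero]
      exact h1
    · have h1 := (hLIM (out X (sp (Od X u n))) (sp F) u 4 (by
        have h2 : Module.finrank (ZMod 2) (sp F) = 1 := h
        rw [h2])).1
      have h2 : t F = 0 := by
        rw [ht]
        simp only
        rw [if_neg (by omega)]
      have h3 := (B3 (out X (sp (Od X u n))) (M2c_outX X _) (Finset.Subset.refl _) F hFA).2.1 h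
      rw [h3, Int.cast_zero] at h1
      rw [h2, Complex.ofReal_zero]
      exact h1
    · have h2 : t F = -((cs X u (sp F) v : ℤ) : ℝ) ^ 4 := by
        rw [ht]
        simp only
        rw [if_pos h]
      rw [h2]
      exact M2c_two hT3 hLF3 hCS X u _ hM hsp B2 v hv F hFA h
    · have h2 : t F = 0 := by
        rw [ht]
        simp only
        rw [if_neg (by omega)]
      rw [h2, Complex.ofReal_zero]
      refine Tendsto.congr (fun x => ?_) tendsto_const_nhds
      rw [M2c_three hT2 hCS X u _ hM hsp B2 v hv F hFA h x, zero_div]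
    · have h2 : t F = 0 := by
        rw [ht]
        simp only
        rw [if_neg (by omega)]
      rw [h2, Complex.ofReal_zero]
      refine Tendsto.congr (fun x => ?_) tendsto_const_nhds
      have h3 : sp F = sp (Od X u n) := by
        refine Submodule.eq_of_le_of_finrank_eq hFM ?_
        rw [hM]
        exact h
      rw [h3, hT1 (out X (sp (Od X u n))) u _ hM (fun w hw => M2c_out hw) x,
        M2c_tot X u hM hv, B1 v hv]
      simp) (by
    refine ⟨-1, Or.inr rfl, fun F _ _ => ?_⟩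
    by_cases h : rk F = 2
    · have h2 : t F = -((cs X u (sp F) v : ℤ) : ℝ) ^ 4 := by
        rw [ht]
        simp only
        rw [if_pos h]
      rw [h2, h]
      have h3 : 0 ≤ ((cs X u (sp F) v : ℤ) : ℝ) ^ 4 := by positivity
      nlinarith
    · have h2 : t F = 0 := by
        rw [ht]
        simp only
        rw [if_neg h]
      rw [h2, mul_zero]) F0 hF0 hO0
  rw [ht] at key
  simp only at key
  rw [if_pos hr0, neg_eq_zero] at key
  have h4 := pow_eq_zero_iff (n := 4) (by norm_num) |>.1 key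
  exact_mod_cast h4

end Pool.Agent.TRG
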