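import Pool.Agent.TRG.St

/-!
# TRG, module M3 : rank three is impossible
-/

set_option autoImplicit false

open Submodule Filter Topology
open Pool.Agent.SPT Pool.Agent.SPT.Rel

namespace Pool.Agent.TRG

private theorem M3_self (x : E) : x + x = 0 := by
  funext i
  exact CharTwo.add_self_eq_zero (x i)

private theorem M3_le (M : Submodule (ZMod 2) E) (w : E) :
    Module.finrank (ZMod 2) ↥(M ⊔ span (ZMod 2) {w}) ≤ Module.finrank (ZMod 2) M + 1 := by
  refine (Submodule.finrank_add_le_finrank_add_finrank M (span (ZMod 2) {w})).trans ?_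
  have : Module.finrank (ZMod 2) ↥(span (ZMod 2) ({w} : Set E)) ≤ 1 := by
    have h := finrank_span_le_card (R := ZMod 2) ({w} : Set E)
    simpa using h
  omega

private theorem M3_ne (M : Submodule (ZMod 2) E) (h : Module.finrank (ZMod 2) M < 5) : M ≠ ⊤ := by
  intro hM
  rw [hM, finrank_top, Module.finrank_fin_fun] at h
  omega

private theorem M3_lt (M : Submodule (ZMod 2) E) (w : E) (hw : w ∉ M) :
    Module.finrank (ZMod 2) M < Module.finrank (ZMod 2) ↥(M ⊔ span (ZMod 2) {w}) := by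
  apply Submodule.finrank_lt_finrank_of_lt
  refine lt_of_le_of_ne le_sup_left fun h => hw ?_
  rw [h]
  exact mem_sup_right (mem_span_singleton_self w)

private theorem M3_ex (M : Submodule (ZMod 2) E) (h : Module.finrank (ZMod 2) M = 3) :
    ∃ d₁ d₂ : E, M ⊔ span (ZMod 2) {d₁, d₂} = ⊤ ∧ d₁ ∉ M ∧ d₂ ∉ M ∧ d₁ + d₂ ∉ M := by
  obtain ⟨d₁, h1⟩ : ∃ d, d ∉ M := by
    by_contra hcon
    push Not at hcon
    exact M3_ne M (by omega) (eq_top_iff.2 fun x _ => hcon x)
  have h2 := M3_le M d₁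
  have h3 := M3_lt M d₁ h1
  obtain ⟨d₂, h4⟩ : ∃ d, d ∉ M ⊔ span (ZMod 2) {d₁} := by
    by_contra hcon
    push Not at hcon
    exact M3_ne (M ⊔ span (ZMod 2) {d₁}) (by omega) (eq_top_iff.2 fun x _ => hcon x)
  have h5 := M3_lt _ d₂ h4
  refine ⟨d₁, d₂, ?_, h1, fun h => h4 (mem_sup_left h), fun h => h4 ?_⟩
  · have e : M ⊔ span (ZMod 2) {d₁, d₂} = M ⊔ span (ZMod 2) {d₁} ⊔ span (ZMod 2) {d₂} := by
      rw [sup_assoc, ← span_union]
      rfl
    rw [e]
    apply Submodule.eq_top_of_finrank_eq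
    have h6 := Submodule.finrank_le (M ⊔ span (ZMod 2) {d₁} ⊔ span (ZMod 2) {d₂})
    rw [Module.finrank_fin_fun] at h6 ⊢
    omega
  · have e : d₂ = (d₁ + d₂) + d₁ := by
      rw [add_comm d₁ d₂, add_assoc, M3_self, add_zero]
    rw [e]
    exact add_mem (mem_sup_left h) (mem_sup_right (mem_span_singleton_self d₁))

private theorem M3_cl (M : Submodule (ZMod 2) E) (d₁ d₂ : E)
    (h : M ⊔ span (ZMod 2) {d₁, d₂} = ⊤) (v : E) (hv : v ∉ M) :
    v + d₁ ∈ M ∨ v + d₂ ∈ M ∨ v + (d₁ + d₂) ∈ M := by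
  have h1 : v ∈ M ⊔ span (ZMod 2) {d₁, d₂} := by
    rw [h]
    trivial
  obtain ⟨m, hm, w, hw, rfl⟩ := mem_sup.1 h1
  obtain ⟨α, β, rfl⟩ := mem_span_pair.1 hw
  have hz : ∀ x : ZMod 2, x = 0 ∨ x = 1 := by decide
  rcases hz α with rfl | rfl <;> rcases hz β with rfl | rfl
  · exfalso
    apply hv
    rw [zero_smul, zero_smul, add_zero, add_zero]
    exact hm
  · right
    left
    rw [zero_smul, one_smul, zero_add, add_assoc, M3_self, add_zero]
    exact hm
  · left
    rw [zero_smul, one_smul, add_zero, add_assoc, M3_self, add_zero]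
    exact hm
  · right
    right
    rw [one_smul, one_smul, add_assoc, M3_self, add_zero]
    exact hm

private theorem M3_alg (a b c : ℤ) (h : a * b + b * c + c * a = 0) (h' : a * b * c = 0) :
    (a = 0 ∧ b = 0) ∨ (b = 0 ∧ c = 0) ∨ (a = 0 ∧ c = 0) := by
  rcases mul_eq_zero.1 h' with h1 | h1
  · rcases mul_eq_zero.1 h1 with h2 | h2
    · subst h2
      rw [zero_mul, zero_add, mul_zero, add_zero] at h
      rcases mul_eq_zero.1 h with h3 | h3
      · exact Or.inl ⟨rfl, h3⟩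
      · exact Or.inr (Or.inr ⟨rfl, h3⟩)
    · subst h2
      rw [mul_zero, zero_mul, zero_add, zero_add] at h
      rcases mul_eq_zero.1 h with h3 | h3
      · exact Or.inr (Or.inl ⟨rfl, h3⟩)
      · exact Or.inl ⟨h3, rfl⟩
  · subst h1
    rw [mul_zero, zero_mul, add_zero, add_zero] at h
    rcases mul_eq_zero.1 h with h3 | h3
    · exact Or.inr (Or.inr ⟨h3, rfl⟩)
    · exact Or.inr (Or.inl ⟨h3, rfl⟩)

theorem M3_proof (hM3a : St_M3a) (hM3b : St_M3b) (hM3e : St_M3e) (hM3C : St_M3C)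
    (hFIN : St_FIN) (hCS : St_CS) : St_M3 := by
  intro X u L n hC hL hr
  have hcs := (hCS X u).1 (sp (Od X u n))
  obtain ⟨d₁, d₂, hd, h1, h2, h3⟩ := M3_ex (sp (Od X u n)) hr
  have ha := hM3a X u L n hC hL hr d₁ d₂ hd
  have hb := hM3b X u L n hC hL hr d₁ d₂ hd
  have hcl := M3_cl (sp (Od X u n)) d₁ d₂ hd
  -- one nonzero sum is impossible
  have fin : ∀ e : E, e ∉ sp (Od X u n) → (∀ v, v ∉ sp (Od X u n) → v + e ∉ sp (Od X u n) →
      cs X u (sp (Od X u n)) v = 0) → False := by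
    intro e he hv
    by_cases h0 : cs X u (sp (Od X u n)) e = 0
    · refine hM3C X u L n hC hL hr fun v hv1 => ?_
      by_cases hve : v + e ∈ sp (Od X u n)
      · rw [hcs v e hve, h0]
      · exact hv v hv1 hve
    · obtain ⟨o, ho, hR⟩ := hM3e X u L n hC hL hr e h0 he fun v hv1 => by
        refine hv v (fun h => hv1 (mem_sup_left h)) fun h => hv1 ?_
        have e1 : v = (v + e) + e := by rw [add_assoc, M3_self, add_zero]
        rw [e1]
        exact add_mem (mem_sup_left h) (mem_sup_right (mem_span_singleton_self e))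
      exact hFIN X u L n hC hL hr o _ ho hR
  rcases M3_alg _ _ _ ha hb with ⟨ea, eb⟩ | ⟨eb, ec⟩ | ⟨ea, ec⟩
  · refine fin (d₁ + d₂) h3 fun v hv hv2 => ?_
    rcases hcl v hv with h | h | h
    · rw [hcs v d₁ h, ea]
    · rw [hcs v d₂ h, eb]
    · exact absurd h hv2
  · refine fin d₁ h1 fun v hv hv2 => ?_
    rcases hcl v hv with h | h | h
    · exact absurd h hv2
    · rw [hcs v d₂ h, eb]
    · rw [hcs v (d₁ + d₂) h, ec]
  · refine fin d₂ h2 fun v hv hv2 => ?_
    rcases hcl v hv with h | h | h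
    · rw [hcs v d₁ h, ea]
    · exact absurd h hv2
    · rw [hcs v (d₁ + d₂) h, ec]

end Pool.Agent.TRG
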