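import Pool.Agent.TRG.St

/-!
# TRG, module M3C: all three sums zero is impossible (helper34)
-/

set_option autoImplicit false

open Submodule
open Pool.Agent.SPT Pool.Agent.SPT.Rel

namespace Pool.Agent.TRG

private theorem M3C_self (v : E) : v + v = 0 := by
  funext i
  exact CharTwo.add_self_eq_zero (v i)

theorem M3C_proof (hM3g : St_M3g) (hE6 : St_E6) : St_M3C := by
  classical
  intro X u L n hCx hLev hrk htot
  obtain ⟨o, W, ho, hRt⟩ := hM3g X u L n hCx hLev hrk htot
  have hsp : span (ZMod 2) (Set.range o) = sp (Od X u n) := by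
    refine Submodule.eq_of_le_of_finrank_eq ?_ ?_
    · rw [Submodule.span_le]
      rintro _ ⟨k, rfl⟩
      exact Submodule.subset_span (ho k)
    · have h1 : Module.finrank (ZMod 2) (sp (Od X u n)) = 3 := hrk
      rw [h1, finrank_span_eq_card hRt.ind, Fintype.card_fin]
  obtain ⟨d, -, -, -, -, e, he, k, heW, heM, hek, hall, hne⟩ := hE6 X u L o W hCx hRt
  have hMW : span (ZMod 2) (Set.range o) ≤ W := by
    rw [Submodule.span_le]
    rintro _ ⟨j, rfl⟩
    exact hRt.le j
  have hk0 : o k ≠ 0 := hRt.ind.ne_zero k
  have hokM : o k ∈ span (ZMod 2) (Set.range o) := Submodule.subset_span ⟨k, rfl⟩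
  have hcs : cs X u (span (ZMod 2) (Set.range o)) e = u e + u (e + o k) := by
    have h2 : X.filter (fun w => w + e ∈ span (ZMod 2) (Set.range o)) = {e, e + o k} := by
      ext w
      rw [Finset.mem_filter, Finset.mem_insert, Finset.mem_singleton]
      constructor
      · rintro ⟨hw, hwe⟩
        have h3 : w = (w + e) + e := by rw [add_assoc, M3C_self, add_zero]
        have h4 : w ∈ W := by
          rw [h3]
          exact W.add_mem (hMW hwe) heW
        refine hall w hw h4 fun h5 => heM ?_
        have h6 : e = w + (w + e) := by rw [← add_assoc, M3C_self, zero_add]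
        rw [h6]
        exact Submodule.add_mem _ h5 hwe
      · rintro (rfl | rfl)
        · refine ⟨he, ?_⟩
          rw [M3C_self]
          exact Submodule.zero_mem _
        · refine ⟨hek, ?_⟩
          have h7 : e + o k + e = o k := by
            rw [add_comm e (o k), add_assoc, M3C_self, add_zero]
          rw [h7]
          exact hokM
    unfold cs
    rw [h2, Finset.sum_pair]
    intro h8
    exact hk0 (left_eq_add.1 h8)
  rw [hsp] at hcs heM
  exact hne (hcs.symm.trans (htot e heM))

end Pool.Agent.TRG
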