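import Pool.Agent.TRG.St

/-!
# TRG, module M3a: the expansion of order two
-/

set_option autoImplicit false

open Submodule Filter Topology
open Pool.Agent.SPT Pool.Agent.SPT.Rel

namespace Pool.Agent.TRG

private theorem M3a_inn (X : Finset E) (M : Submodule (ZMod 2) E) (v : E) :
    v ∈ inn X M ↔ v ∈ X ∧ v ∈ M := by
  unfold inn
  simp only [Finset.mem_filter]

private theorem M3a_out (X : Finset E) (M : Submodule (ZMod 2) E) (v : E) :
    v ∈ out X M ↔ v ∈ X ∧ v ∉ M := by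
  unfold out
  simp only [Finset.mem_filter]

private theorem M3a_fl (A F : Finset E) : F ∈ fl A ↔ F ⊆ A ∧ Flat A F := by
  unfold fl
  simp only [Finset.mem_filter, Finset.mem_powerset]

private theorem M3a_Od (X : Finset E) (u : E → ℤ) (n : ℕ) (v : E) (hv : v ∈ Od X u n) :
    v ∈ X := (Finset.mem_filter.1 hv).1

private theorem M3a_le (X : Finset E) (M : Submodule (ZMod 2) E) (F : Finset E)
    (hF : F ⊆ inn X M) : sp F ≤ M := by
  rw [span_le]
  intro v hv
  exact ((M3a_inn X M v).1 (hF hv)).2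

private theorem M3a_four (M : Submodule (ZMod 2) E) (hM : Module.finrank (ZMod 2) M = 3) (w : E) :
    M ⊔ span (ZMod 2) {w} ≠ ⊤ := by
  intro h
  have h1 := Submodule.finrank_add_le_finrank_add_finrank M (span (ZMod 2) {w})
  rw [h, finrank_top, hM, Module.finrank_fin_fun] at h1
  have h2 : Module.finrank (ZMod 2) (span (ZMod 2) {w}) ≤ 1 := by
    have h3 := finrank_span_le_card (R := ZMod 2) ({w} : Set E)
    simpa using h3
  omega

private theorem M3a_one (M : Submodule (ZMod 2) E) (hM : Module.finrank (ZMod 2) M = 3)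
    (d₁ d₂ w : E) (hd : M ⊔ span (ZMod 2) {d₁, d₂} = ⊤) (h1 : d₁ ∈ M ⊔ span (ZMod 2) {w})
    (h2 : d₂ ∈ M ⊔ span (ZMod 2) {w}) : False := by
  refine M3a_four M hM w (top_le_iff.1 ?_)
  rw [← hd]
  refine sup_le le_sup_left ?_
  rw [span_le]
  rintro v (rfl | hv)
  · exact h1
  · rw [Set.mem_singleton_iff.1 hv]
    exact h2

private theorem M3a_not (M : Submodule (ZMod 2) E) (hM : Module.finrank (ZMod 2) M = 3)
    (d₁ d₂ : E) (hd : M ⊔ span (ZMod 2) {d₁, d₂} = ⊤) : d₁ ∉ M ∧ d₂ ∉ M ∧ d₁ + d₂ ∉ M := by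
  refine ⟨fun h => ?_, fun h => ?_, fun h => ?_⟩
  · exact M3a_one M hM d₁ d₂ d₂ hd (mem_sup_left h) (mem_sup_right (mem_span_singleton_self _))
  · exact M3a_one M hM d₁ d₂ d₁ hd (mem_sup_right (mem_span_singleton_self _)) (mem_sup_left h)
  · refine M3a_one M hM d₁ d₂ d₁ hd (mem_sup_right (mem_span_singleton_self _)) ?_
    have h3 : d₂ = (d₁ + d₂) - d₁ := by abel
    rw [h3]
    exact sub_mem (mem_sup_left h) (mem_sup_right (mem_span_singleton_self _))

theorem M3a_proof (hMAS : St_MAS) (hLIM : St_LIM) (hT2 : St_T2) (hLF2 : St_LF2)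
    (hCS : St_CS) : St_M3a := by
  intro X u L n hC hLev hrk d₁ d₂ hd
  have hmas := hMAS X u L n hC hLev 2
  have hOd : ∀ v ∈ Od X u n, v ∈ sp (Od X u n) := fun v hv => subset_span hv
  have hrk' : Module.finrank (ZMod 2) (sp (Od X u n)) = 3 := hrk
  obtain ⟨M, hM⟩ : ∃ M : Submodule (ZMod 2) E, M = sp (Od X u n) := ⟨_, rfl⟩
  rw [← hM] at hd hmas hrk' ⊢
  obtain ⟨h1, h2, h3⟩ := M3a_not M hrk' d₁ d₂ hd
  obtain ⟨_, _, hCS3, _, _, hCS6⟩ := hCS X u
  obtain ⟨a, ha⟩ : ∃ a : ℤ, a = cs X u M d₁ := ⟨_, rfl⟩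
  obtain ⟨b, hb⟩ : ∃ b : ℤ, b = cs X u M d₂ := ⟨_, rfl⟩
  obtain ⟨c, hc⟩ : ∃ c : ℤ, c = cs X u M (d₁ + d₂) := ⟨_, rfl⟩
  rw [← ha, ← hb, ← hc]
  -- the flats of rank three
  have h3F : ∀ F ∈ fl (inn X M), rk F = 3 → sp F = M := by
    intro F hF hr
    refine Submodule.eq_of_le_of_finrank_eq
      (M3a_le X M F ((M3a_fl _ _).1 hF).1) ?_
    rw [hrk']
    exact hr
  have hle3 : ∀ F ∈ fl (inn X M), rk F ≤ 3 := by
    intro F hF
    rw [← hrk']
    exact Submodule.finrank_mono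
      (M3a_le X M F ((M3a_fl _ _).1 hF).1)
  obtain ⟨s, hs⟩ : ∃ s : ℤ, s = a * b + b * c + c * a := ⟨_, rfl⟩
  rw [← hs]
  have key := hmas (fun F => if rk F = 3 then ((s : ℤ) : ℝ) else 0) ?_ ?_ (inn X M)
    (hCS6 M M le_rfl).2 ?_
  · have hspM : sp (inn X M) = M := by
      refine le_antisymm (M3a_le X M _ (Finset.Subset.refl _)) ?_
      rw [hM]
      refine span_mono ?_
      intro v hv
      exact Finset.mem_coe.2 ((M3a_inn _ _ _).2
        ⟨M3a_Od X u n v (Finset.mem_coe.1 hv), hOd v (Finset.mem_coe.1 hv)⟩)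
    have hrM : rk (inn X M) = 3 := by
      unfold rk
      rw [hspM]
      exact hrk'
    simp only [hrM, if_true] at key
    exact_mod_cast key
  · intro F hF
    by_cases hr : rk F = 3
    · have hFM := h3F F hF hr
      simp only [hr, if_true]
      rw [hFM]
      have hl := (hLF2 (a : ℝ) (b : ℝ) (c : ℝ)).1
      have hfun : (fun x : ℝ => TT (out X M) M (ex u x) / (x : ℂ) ^ 2) =
          fun x : ℝ => F2 ((x : ℂ) * ((a : ℝ) : ℂ)) ((x : ℂ) * ((b : ℝ) : ℂ))
            ((x : ℂ) * ((c : ℝ) : ℂ)) / (x : ℂ) ^ 2 := by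
        funext x
        rw [hT2 (out X M) u M hrk' (fun v hv => ((M3a_out X M v).1 hv).2) d₁ d₂ hd x,
          hCS3 M M d₁ le_rfl h1, hCS3 M M d₂ le_rfl h2, hCS3 M M (d₁ + d₂) le_rfl h3, ← ha, ← hb,
          ← hc, Complex.ofReal_intCast, Complex.ofReal_intCast, Complex.ofReal_intCast]
      rw [hfun]
      have hsr : ((s : ℤ) : ℝ) = (a : ℝ) * b + b * c + c * a := by
        rw [hs]
        push_cast
        ring
      rw [hsr]
      exact hl
    · simp only [hr, if_false]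
      have hlt : 2 < 5 - rk F := by
        have := hle3 F hF
        omega
      have h5 : Module.finrank (ZMod 2) (sp F) + (5 - rk F) = 5 := by
        have h6 := hle3 F hF
        have h7 : rk F = Module.finrank (ZMod 2) (sp F) := rfl
        omega
      rw [Complex.ofReal_zero]
      exact (hLIM (out X M) (sp F) u (5 - rk F) h5).2 2 hlt
  · by_cases hs0 : 0 ≤ s
    · refine ⟨-1, Or.inr rfl, fun F _ _ => ?_⟩
      by_cases hr : rk F = 3
      · simp only [hr, if_true]
        have : (0 : ℝ) ≤ (s : ℝ) := by exact_mod_cast hs0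
        linarith
      · simp only [hr, if_false, mul_zero, le_refl]
    · refine ⟨1, Or.inl rfl, fun F _ _ => ?_⟩
      by_cases hr : rk F = 3
      · simp only [hr, if_true]
        have : (s : ℝ) ≤ 0 := by exact_mod_cast (not_le.1 hs0).le
        linarith
      · simp only [hr, if_false, mul_zero, le_refl]
  · have : inn X M ∩ Od X u n = Od X u n := by
      refine Finset.inter_eq_right.2 ?_
      intro v hv
      exact (M3a_inn _ _ _).2 ⟨M3a_Od X u n v hv, by rw [hM]; exact hOd v hv⟩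
    rw [this, ← hM]
    refine le_antisymm ?_ (M3a_le X M _ (Finset.Subset.refl _))
    rw [hM]
    refine span_mono ?_
    intro v hv
    exact Finset.mem_coe.2 ((M3a_inn _ _ _).2
      ⟨M3a_Od X u n v (Finset.mem_coe.1 hv), hOd v (Finset.mem_coe.1 hv)⟩)

end Pool.Agent.TRG
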