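import Pool.Agent.TRG.St

/-!
# TRG M3b : rank three, order three: one of the three sums is zero
-/

set_option autoImplicit false

open Submodule Filter Topology
open Pool.Agent.SPT Pool.Agent.SPT.Rel

namespace Pool.Agent.TRG

private theorem M3b_sup (M : Submodule (ZMod 2) E) (d x : E) :
    x ∈ M ⊔ span (ZMod 2) {d} ↔ x ∈ M ∨ x + d ∈ M := by
  rw [Submodule.mem_sup]
  constructor
  · rintro ⟨y, hy, z, hz, rfl⟩
    rw [Submodule.mem_span_singleton] at hz
    obtain ⟨c, rfl⟩ := hz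
    have hc : ∀ c : ZMod 2, c = 0 ∨ c = 1 := by decide
    rcases hc c with rfl | rfl
    · left
      rw [zero_smul, add_zero]
      exact hy
    · right
      rw [one_smul, add_assoc, ZModModule.add_self, add_zero]
      exact hy
  · rintro (h | h)
    · exact ⟨x, h, 0, zero_mem _, add_zero _⟩
    · exact ⟨x + d, h, d, mem_span_singleton_self d, by
        rw [add_assoc, ZModModule.add_self, add_zero]⟩

private theorem M3b_pair (d₁ d₂ : E) (M : Submodule (ZMod 2) E) :
    M ⊔ span (ZMod 2) {d₁, d₂} = (M ⊔ span (ZMod 2) {d₁}) ⊔ span (ZMod 2) {d₂} := by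
  rw [sup_assoc, ← Submodule.span_union]
  rfl

private theorem M3b_cong (M : Submodule (ZMod 2) E) {x y z : E} (h : y + z ∈ M) :
    x + y ∈ M ↔ x + z ∈ M := by
  have e1 : x + z = (x + y) + (y + z) := by
    rw [add_assoc, ← add_assoc y y z, ZModModule.add_self, zero_add]
  have e2 : x + y = (x + z) + (y + z) := by
    rw [add_comm y z, add_assoc, ← add_assoc z z y, ZModModule.add_self, zero_add]
  constructor
  · intro h1
    rw [e1]
    exact add_mem h1 h
  · intro h1
    rw [e2]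
    exact add_mem h1 h

private theorem M3b_lt (M : Submodule (ZMod 2) E) (hM : Module.finrank (ZMod 2) M = 3) (d : E) :
    M ⊔ span (ZMod 2) {d} ≠ ⊤ := by
  intro h
  have h2 := Submodule.finrank_add_le_finrank_add_finrank M (span (ZMod 2) {d})
  rw [h, hM, finrank_top] at h2
  have h3 : Module.finrank (ZMod 2) (span (ZMod 2) ({d} : Set E)) ≤ 1 := by
    have h4 := finrank_span_le_card (R := ZMod 2) ({d} : Set E)
    rw [Set.toFinset_card, Set.card_singleton] at h4
    exact h4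
  have h5 : Module.finrank (ZMod 2) E = 5 := by
    rw [Module.finrank_fin_fun]
  omega

private theorem M3b_ind (M : Submodule (ZMod 2) E) (hM : Module.finrank (ZMod 2) M = 3)
    (d₁ d₂ : E) (hd : M ⊔ span (ZMod 2) {d₁, d₂} = ⊤) : d₁ ∉ M ∧ d₂ ∉ M ∧ d₁ + d₂ ∉ M := by
  rw [M3b_pair] at hd
  refine ⟨?_, ?_, ?_⟩
  · intro h
    have h1 : M ⊔ span (ZMod 2) {d₁} = M := sup_eq_left.2 ((span_singleton_le_iff_mem _ _).2 h)
    rw [h1] at hd
    exact M3b_lt M hM d₂ hd
  · intro h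
    have h1 : (M ⊔ span (ZMod 2) {d₁}) ⊔ span (ZMod 2) {d₂} = M ⊔ span (ZMod 2) {d₁} :=
      sup_eq_left.2 ((span_singleton_le_iff_mem _ _).2 (mem_sup_left h))
    rw [h1] at hd
    exact M3b_lt M hM d₁ hd
  · intro h
    have h1 : (M ⊔ span (ZMod 2) {d₁}) ⊔ span (ZMod 2) {d₂} = M ⊔ span (ZMod 2) {d₁} := by
      refine sup_eq_left.2 ((span_singleton_le_iff_mem _ _).2 ?_)
      rw [M3b_sup]
      right
      rw [add_comm]
      exact h
    rw [h1] at hd
    exact M3b_lt M hM d₁ hd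

/-- the four classes -/
private theorem M3b_cls (M : Submodule (ZMod 2) E) (d₁ d₂ : E)
    (hd : M ⊔ span (ZMod 2) {d₁, d₂} = ⊤) (v : E) :
    v ∈ M ∨ v + d₁ ∈ M ∨ v + d₂ ∈ M ∨ v + (d₁ + d₂) ∈ M := by
  rw [M3b_pair] at hd
  have h : v ∈ (M ⊔ span (ZMod 2) {d₁}) ⊔ span (ZMod 2) {d₂} := by
    rw [hd]
    trivial
  rw [M3b_sup, M3b_sup, M3b_sup] at h
  rcases h with (h | h) | (h | h)
  · exact Or.inl h
  · exact Or.inr (Or.inl h)
  · exact Or.inr (Or.inr (Or.inl h))
  · refine Or.inr (Or.inr (Or.inr ?_))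
    rw [add_comm d₁ d₂, ← add_assoc]
    exact h

/-- if `v + y` and `v + z` are in `M`, then `y + z` is -/
private theorem M3b_two (M : Submodule (ZMod 2) E) {v y z : E} (h : v + y ∈ M) (h' : v + z ∈ M) :
    y + z ∈ M := by
  have e1 : y + z = (v + y) + (v + z) := by
    rw [add_comm v y, add_assoc, ← add_assoc v v z, ZModModule.add_self, zero_add]
  rw [e1]
  exact add_mem h h'

/-- a basis -/
private theorem M3b_bas (X F : Finset E) (M : Submodule (ZMod 2) E)
    (hM : Module.finrank (ZMod 2) M = 3) (hAM : sp (inn X M) = M) (hF : F ⊆ inn X M)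
    (hr : rk F = 2) (d₁ d₂ w₁ w₂ : E) (hd : M ⊔ span (ZMod 2) {d₁, d₂} = ⊤) (h1 : w₁ ∈ X)
    (h2 : w₂ ∈ X) (h1' : w₁ + d₁ ∈ M) (h2' : w₂ + d₂ ∈ M) :
    ∃ b : Fin 5 → E, Bas X b ∧ span (ZMod 2) {b 0, b 1} = sp F ∧
      span (ZMod 2) {b 0, b 1, b 2} = M ∧ b 3 = w₁ ∧ b 4 = w₂ := by
  obtain ⟨f, hf, hfs, -⟩ := Submodule.exists_fun_fin_finrank_span_eq (K := ZMod 2)
    (s := (F : Set E))
  have hr' : Module.finrank (ZMod 2) (span (ZMod 2) (F : Set E)) = 2 := hr
  obtain ⟨g, hg, hgs⟩ : ∃ g : Fin 2 → E, (∀ i, g i ∈ F) ∧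
      span (ZMod 2) (Set.range g) = sp F := by
    refine ⟨fun i => f (Fin.cast hr'.symm i), fun i => hf _, ?_⟩
    refine Eq.trans ?_ hfs
    congr 1
    ext x
    constructor
    · rintro ⟨i, rfl⟩
      exact ⟨_, rfl⟩
    · rintro ⟨i, rfl⟩
      exact ⟨Fin.cast hr' i, rfl⟩
  have hrg : Set.range g = {g 0, g 1} := by
    ext x
    constructor
    · rintro ⟨i, rfl⟩
      fin_cases i
      · exact Or.inl rfl
      · exact Or.inr rfl
    · rintro (rfl | rfl)
      · exact ⟨0, rfl⟩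
      · exact ⟨1, rfl⟩
  rw [hrg] at hgs
  -- the third element
  obtain ⟨e, heA, heF⟩ : ∃ e ∈ inn X M, e ∉ sp F := by
    by_contra hc
    push Not at hc
    have h3 : M ≤ sp F := by
      rw [← hAM]
      exact span_le.2 fun x hx => hc x hx
    have h4 := Submodule.finrank_mono h3
    have h5 : Module.finrank (ZMod 2) (sp F) = 2 := hr
    omega
  have hMem : ∀ v, v ∈ inn X M ↔ v ∈ X ∧ v ∈ M := fun v => by
    classical
    simp only [inn, Finset.mem_filter]
  have hFM : sp F ≤ M := span_le.2 fun x hx => ((hMem x).1 (hF hx)).2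
  have heM : e ∈ M := ((hMem e).1 heA).2
  have hSM : sp F ⊔ span (ZMod 2) {e} = M := by
    apply Submodule.eq_of_le_of_finrank_le
    · exact sup_le hFM ((span_singleton_le_iff_mem _ _).2 heM)
    · have h6 : sp F < sp F ⊔ span (ZMod 2) {e} := by
        refine lt_of_le_of_ne le_sup_left fun h7 => heF ?_
        rw [h7]
        exact mem_sup_right (mem_span_singleton_self e)
      have h8 := Submodule.finrank_lt_finrank_of_lt h6
      have h5 : Module.finrank (ZMod 2) (sp F) = 2 := hr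
      omega
  have hS3 : span (ZMod 2) {g 0, g 1, e} = M := by
    rw [← hSM, ← hgs, ← Submodule.span_union]
    congr 1
    ext x
    simp only [Set.mem_insert_iff, Set.mem_singleton_iff, Set.mem_union, or_assoc]
  refine ⟨![g 0, g 1, e, w₁, w₂], ⟨?_, ?_⟩, hgs, hS3, rfl, rfl⟩
  · intro i
    fin_cases i
    · exact ((hMem _).1 (hF (hg 0))).1
    · exact ((hMem _).1 (hF (hg 1))).1
    · exact ((hMem _).1 heA).1
    · exact h1
    · exact h2
  · apply linearIndependent_of_top_le_span_of_card_eq_finrank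
    · have h9 : Set.range ![g 0, g 1, e, w₁, w₂] = {g 0, g 1, e} ∪ ({w₁} ∪ {w₂}) := by
        ext x
        constructor
        · rintro ⟨i, rfl⟩
          fin_cases i
          · exact Or.inl (Or.inl rfl)
          · exact Or.inl (Or.inr (Or.inl rfl))
          · exact Or.inl (Or.inr (Or.inr rfl))
          · exact Or.inr (Or.inl rfl)
          · exact Or.inr (Or.inr rfl)
        · rintro ((rfl | rfl | rfl) | (rfl | rfl))
          · exact ⟨0, rfl⟩
          · exact ⟨1, rfl⟩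
          · exact ⟨2, rfl⟩
          · exact ⟨3, rfl⟩
          · exact ⟨4, rfl⟩
      rw [h9, Submodule.span_union, Submodule.span_union, hS3, ← sup_assoc]
      intro x _
      have hx := M3b_cls M d₁ d₂ hd x
      rw [M3b_sup, M3b_sup, M3b_sup]
      rcases hx with hx | hx | hx | hx
      · exact Or.inl (Or.inl hx)
      · refine Or.inl (Or.inr ?_)
        rw [add_comm w₁ d₁] at h1'
        exact (M3b_cong M h1').1 hx
      · refine Or.inr (Or.inl ?_)
        rw [add_comm w₂ d₂] at h2'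
        exact (M3b_cong M h2').1 hx
      · refine Or.inr (Or.inr ?_)
        have h10 : (d₁ + d₂) + (w₂ + w₁) ∈ M := by
          have e1 : (d₁ + d₂) + (w₂ + w₁) = (w₁ + d₁) + (w₂ + d₂) := by abel
          rw [e1]
          exact add_mem h1' h2'
        have h11 := (M3b_cong M h10).1 hx
        rw [add_assoc]
        exact h11
    · rw [Module.finrank_fin_fun, Fintype.card_fin]

/-- the real number in the master statement -/
private theorem M3b_det (q33 q44 q34 q23 q24 q22 a b c σ : ℤ) (hσ : σ = 1 ∨ σ = -1)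
    (h33 : q33 = a + c) (h44 : q44 = b + c) (h34 : q34 = σ * c) (h0 : a * b + b * c + c * a = 0) :
    0 ≤ a * b * c * (q22 * (q33 * q44 - q34 * q34) - q23 * (q23 * q44 - q34 * q24) +
      q24 * (q23 * q34 - q33 * q24)) := by
  have h1 : q33 * q44 = q34 * q34 := by
    rw [h33, h44, h34]
    have h2 : σ * c * (σ * c) = c * c := by
      rcases hσ with h | h <;> rw [h] <;> ring
    rw [h2]
    linear_combination h0
  have h3 : a * b * c = -(q33 * b ^ 2) := by
    rw [h33]
    linear_combination b * h0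
  have h4 : q33 * (q22 * (q33 * q44 - q34 * q34) - q23 * (q23 * q44 - q34 * q24) +
      q24 * (q23 * q34 - q33 * q24)) = -(q34 * q23 - q33 * q24) ^ 2 := by
    linear_combination (q22 * q33 - q23 ^ 2) * h1
  have h5 : a * b * c * (q22 * (q33 * q44 - q34 * q34) - q23 * (q23 * q44 - q34 * q24) +
      q24 * (q23 * q34 - q33 * q24)) = b ^ 2 * (q34 * q23 - q33 * q24) ^ 2 := by
    rw [h3]
    linear_combination -(b ^ 2) * h4
  rw [h5]
  positivity


private theorem M3b_sym (L : E → Fin 5 → ℤ) (b : Fin 5 → E) (D : Finset E) (u : E → ℤ)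
    (i j : Fin 5) : Qf L b D u i j = Qf L b D u j i := by
  unfold Qf
  refine Finset.sum_congr rfl fun v _ => ?_
  ring

/-- the entries of the form -/
private theorem M3b_ent (X : Finset E) (u : E → ℤ) (M : Submodule (ZMod 2) E)
    (hM : Module.finrank (ZMod 2) M = 3) (d₁ d₂ : E) (hd : M ⊔ span (ZMod 2) {d₁, d₂} = ⊤)
    (H₃ H₄ : Submodule (ZMod 2) E) (hH₃ : ∀ v, v ∈ H₃ ↔ v ∈ M ∨ v + d₂ ∈ M)
    (hH₄ : ∀ v, v ∈ H₄ ↔ v ∈ M ∨ v + d₁ ∈ M) :
    (∑ v ∈ out (out X M) H₃, u v = cs X u M d₁ + cs X u M (d₁ + d₂)) ∧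
    (∑ v ∈ out (out X M) H₄, u v = cs X u M d₂ + cs X u M (d₁ + d₂)) ∧
    (∑ v ∈ out (out (out X M) H₃) H₄, u v = cs X u M (d₁ + d₂)) := by
  classical
  obtain ⟨i1, i2, i3⟩ := M3b_ind M hM d₁ d₂ hd
  have hcls := M3b_cls M d₁ d₂ hd
  -- exclusivity
  have x01 : ∀ v, v ∈ M → ¬ v + d₁ ∈ M := fun v h h' => i1 (by
    have := M3b_two M (v := v) (y := 0) (z := d₁) (by rwa [add_zero]) h'
    rwa [zero_add] at this)
  have x02 : ∀ v, v ∈ M → ¬ v + d₂ ∈ M := fun v h h' => i2 (by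
    have := M3b_two M (v := v) (y := 0) (z := d₂) (by rwa [add_zero]) h'
    rwa [zero_add] at this)
  have x03 : ∀ v, v ∈ M → ¬ v + (d₁ + d₂) ∈ M := fun v h h' => i3 (by
    have := M3b_two M (v := v) (y := 0) (z := d₁ + d₂) (by rwa [add_zero]) h'
    rwa [zero_add] at this)
  have x12 : ∀ v, v + d₁ ∈ M → ¬ v + d₂ ∈ M := fun v h h' => i3 (M3b_two M h h')
  have x13 : ∀ v, v + d₁ ∈ M → ¬ v + (d₁ + d₂) ∈ M := fun v h h' => i2 (by
    have := M3b_two M h h'
    rwa [← add_assoc, ZModModule.add_self, zero_add] at this)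
  have x23 : ∀ v, v + d₂ ∈ M → ¬ v + (d₁ + d₂) ∈ M := fun v h h' => i1 (by
    have := M3b_two M h h'
    rwa [add_comm d₁ d₂, ← add_assoc, ZModModule.add_self, zero_add] at this)
  refine ⟨?_, ?_, ?_⟩
  · simp only [out, cs, Finset.filter_filter]
    rw [Finset.sum_filter, Finset.sum_filter, Finset.sum_filter, ← Finset.sum_add_distrib]
    refine Finset.sum_congr rfl fun v _ => ?_
    rcases hcls v with h | h | h | h
    · have h1 := x01 v h
      have h3 := x03 v h
      simp [h, h1, h3]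
    · have h0 : v ∉ M := fun h0 => x01 v h0 h
      have h2 := x12 v h
      have h3 := x13 v h
      simp [h, h0, h2, h3, hH₃]
    · have h0 : v ∉ M := fun h0 => x02 v h0 h
      have h1 : v + d₁ ∉ M := fun h1 => x12 v h1 h
      have h3 := x23 v h
      simp [h, h0, h1, h3, hH₃]
    · have h0 : v ∉ M := fun h0 => x03 v h0 h
      have h1 : v + d₁ ∉ M := fun h1 => x13 v h1 h
      have h2 : v + d₂ ∉ M := fun h2 => x23 v h2 h
      simp [h, h0, h1, h2, hH₃]
  · simp only [out, cs, Finset.filter_filter]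
    rw [Finset.sum_filter, Finset.sum_filter, Finset.sum_filter, ← Finset.sum_add_distrib]
    refine Finset.sum_congr rfl fun v _ => ?_
    rcases hcls v with h | h | h | h
    · have h1 := x02 v h
      have h3 := x03 v h
      simp [h, h1, h3]
    · have h0 : v ∉ M := fun h0 => x01 v h0 h
      have h2 := x12 v h
      have h3 := x13 v h
      simp [h, h0, h2, h3, hH₄]
    · have h0 : v ∉ M := fun h0 => x02 v h0 h
      have h1 : v + d₁ ∉ M := fun h1 => x12 v h1 h
      have h3 := x23 v h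
      simp [h, h0, h1, h3, hH₄]
    · have h0 : v ∉ M := fun h0 => x03 v h0 h
      have h1 : v + d₁ ∉ M := fun h1 => x13 v h1 h
      have h2 : v + d₂ ∉ M := fun h2 => x23 v h2 h
      simp [h, h0, h1, h2, hH₄]
  · simp only [out, cs, Finset.filter_filter]
    rw [Finset.sum_filter, Finset.sum_filter]
    refine Finset.sum_congr rfl fun v _ => ?_
    rcases hcls v with h | h | h | h
    · have h3 := x03 v h
      simp [h, h3]
    · have h3 := x13 v h
      simp [h, h3, hH₄]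
    · have h3 := x23 v h
      simp [h, h3, hH₃]
    · have h0 : v ∉ M := fun h0 => x03 v h0 h
      have h1 : v + d₁ ∉ M := fun h1 => x13 v h1 h
      have h2 : v + d₂ ∉ M := fun h2 => x23 v h2 h
      simp [h, h0, h1, h2, hH₃, hH₄]

/-- the sign in rank two -/
private theorem M3b_sign (hQF : St_QF) (hTAU : St_TAU) (X F : Finset E) (u : E → ℤ)
    (L : E → Fin 5 → ℤ) (hL : Uni X L) (M : Submodule (ZMod 2) E)
    (hM : Module.finrank (ZMod 2) M = 3) (hAM : sp (inn X M) = M) (hF : F ⊆ inn X M)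
    (hr : rk F = 2) (d₁ d₂ w₁ w₂ : E) (hd : M ⊔ span (ZMod 2) {d₁, d₂} = ⊤) (h1 : w₁ ∈ X)
    (h2 : w₂ ∈ X) (h1' : w₁ + d₁ ∈ M) (h2' : w₂ + d₂ ∈ M)
    (h0 : cs X u M d₁ * cs X u M d₂ + cs X u M d₂ * cs X u M (d₁ + d₂) +
      cs X u M (d₁ + d₂) * cs X u M d₁ = 0) :
    0 ≤ cs X u M d₁ * cs X u M d₂ * cs X u M (d₁ + d₂) * tau (out X M) (sp F) u 3 := by
  classical
  obtain ⟨b, hb, hbF, hbM, hb3, hb4⟩ := M3b_bas X F M hM hAM hF hr d₁ d₂ w₁ w₂ hd h1 h2 h1' h2'
  have hD : out X M ⊆ X := by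
    unfold out
    exact Finset.filter_subset _ _
  have e3 : b '' {j | j ≠ 3} = {b 0, b 1, b 2} ∪ {b 4} := by
    have : ({j | j ≠ 3} : Set (Fin 5)) = {0, 1, 2} ∪ {4} := by
      ext j
      fin_cases j <;> simp
    rw [this, Set.image_union, Set.image_insert_eq, Set.image_insert_eq, Set.image_singleton,
      Set.image_singleton]
  have e4 : b '' {j | j ≠ 4} = {b 0, b 1, b 2} ∪ {b 3} := by
    have : ({j | j ≠ 4} : Set (Fin 5)) = {0, 1, 2} ∪ {3} := by
      ext j
      fin_cases j <;> simp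
    rw [this, Set.image_union, Set.image_insert_eq, Set.image_insert_eq, Set.image_singleton,
      Set.image_singleton]
  have hH₃ : ∀ v, v ∈ span (ZMod 2) (b '' {j | j ≠ 3}) ↔ v ∈ M ∨ v + d₂ ∈ M := by
    intro v
    rw [e3, Submodule.span_union, hbM, M3b_sup, hb4, M3b_cong M h2']
  have hH₄ : ∀ v, v ∈ span (ZMod 2) (b '' {j | j ≠ 4}) ↔ v ∈ M ∨ v + d₁ ∈ M := by
    intro v
    rw [e4, Submodule.span_union, hbM, M3b_sup, hb3, M3b_cong M h1']
  obtain ⟨s1, s2, s3⟩ := M3b_ent X u M hM d₁ d₂ hd _ _ hH₃ hH₄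
  obtain ⟨hq, hq'⟩ := hQF X L hL b hb
  obtain ⟨σ, hσ, hσ'⟩ := hq' 3 4 (by decide)
  have hT := (hTAU X L hL b hb (out X M) hD u).1
  rw [hbF] at hT
  rw [hT, Matrix.det_fin_three]
  have h33 := (hq 3 (out X M) u hD).trans s1
  have h44 := (hq 4 (out X M) u hD).trans s2
  have h34 := (hσ' (out X M) u hD).trans (by rw [s3])
  have key := M3b_det (Qf L b (out X M) u 3 3) (Qf L b (out X M) u 4 4) (Qf L b (out X M) u 3 4)
    (Qf L b (out X M) u 2 3) (Qf L b (out X M) u 2 4) (Qf L b (out X M) u 2 2) _ _ _ σ hσ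
    h33 h44 h34 h0
  refine le_trans key (le_of_eq ?_)
  show _ = _ * (Qf L b (out X M) u 2 2 * Qf L b (out X M) u 3 3 * Qf L b (out X M) u 4 4 -
    Qf L b (out X M) u 2 2 * Qf L b (out X M) u 3 4 * Qf L b (out X M) u 4 3 -
    Qf L b (out X M) u 2 3 * Qf L b (out X M) u 3 2 * Qf L b (out X M) u 4 4 +
    Qf L b (out X M) u 2 3 * Qf L b (out X M) u 3 4 * Qf L b (out X M) u 4 2 +
    Qf L b (out X M) u 2 4 * Qf L b (out X M) u 3 2 * Qf L b (out X M) u 4 3 -
    Qf L b (out X M) u 2 4 * Qf L b (out X M) u 3 3 * Qf L b (out X M) u 4 2)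
  rw [M3b_sym L b _ u 4 3, M3b_sym L b _ u 3 2, M3b_sym L b _ u 4 2]
  ring

theorem M3b_proof (hM3a : St_M3a) (hMAS : St_MAS) (hLIM : St_LIM) (hT2 : St_T2) (hLF2 : St_LF2)
    (hCS : St_CS) (hQF : St_QF) (hTAU : St_TAU) : St_M3b := by
  classical
  intro X u L n hC hLev hr d₁ d₂ hd
  by_contra hne
  have h0 := hM3a X u L n hC hLev hr d₁ d₂ hd
  obtain ⟨M, hMdef⟩ : ∃ M, M = sp (Od X u n) := ⟨_, rfl⟩
  rw [← hMdef] at h0 hne hd
  have hM : Module.finrank (ZMod 2) M = 3 := by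
    rw [hMdef]
    exact hr
  obtain ⟨c1, c2, c3, c4, c5, c6⟩ := hCS X u
  have hOX : Od X u n ⊆ X := Finset.filter_subset _ _
  have hMem : ∀ v, v ∈ inn X M ↔ v ∈ X ∧ v ∈ M := fun v => by
    simp only [inn, Finset.mem_filter]
  have hOA : Od X u n ⊆ inn X M := fun v hv => (hMem v).2 ⟨hOX hv, by
    rw [hMdef]
    exact subset_span hv⟩
  have hAM : sp (inn X M) = M := by
    apply le_antisymm
    · exact span_le.2 fun v hv => ((hMem v).1 hv).2
    · rw [hMdef]
      exact span_mono (by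
        rw [← hMdef]
        exact_mod_cast hOA)
  have hne1 : cs X u M d₁ ≠ 0 := fun h => hne (by rw [h]; ring)
  have hne2 : cs X u M d₂ ≠ 0 := fun h => hne (by rw [h]; ring)
  obtain ⟨w₁, hw1, hw1'⟩ := c4 M d₁ hne1
  obtain ⟨w₂, hw2, hw2'⟩ := c4 M d₂ hne2
  obtain ⟨i1, i2, i3⟩ := M3b_ind M hM d₁ d₂ hd
  have hsub : ∀ F ⊆ inn X M, sp F ≤ M := fun F hF => span_le.2 fun v hv => ((hMem v).1 (hF hv)).2
  obtain ⟨a, ha⟩ : ∃ a, a = cs X u M d₁ := ⟨_, rfl⟩
  obtain ⟨b, hb⟩ : ∃ b, b = cs X u M d₂ := ⟨_, rfl⟩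
  obtain ⟨c, hc⟩ : ∃ c, c = cs X u M (d₁ + d₂) := ⟨_, rfl⟩
  obtain ⟨t, ht⟩ : ∃ t : Finset E → ℝ, t = fun F => if rk F = 3 then (-((a : ℝ) * b * c) / 2 : ℝ)
      else if rk F = 2 then ((tau (out X M) (sp F) u 3 : ℤ) : ℝ) else 0 := ⟨_, rfl⟩
  have hlim : ∀ F ∈ fl (inn X M), Tendsto (fun x : ℝ =>
      TT (out X M) (sp F) (ex u x) / (x : ℂ) ^ 3) (𝓝[>] 0) (𝓝 ((t F : ℝ) : ℂ)) := by
    intro F hF
    have hFA : F ⊆ inn X M := by
      unfold fl at hF
      exact (Finset.mem_filter.1 hF).2.1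
    have hle := Submodule.finrank_mono (hsub F hFA)
    rw [hM] at hle
    have hrk : rk F = Module.finrank (ZMod 2) (sp F) := rfl
    rw [ht]
    by_cases h3 : rk F = 3
    · simp only [if_pos h3]
      have hFM : sp F = M := Submodule.eq_of_le_of_finrank_le (hsub F hFA) (by omega)
      have hl := (hLF2 a b c).2.1 (by
        rw [ha, hb, hc]
        exact_mod_cast h0)
      refine hl.congr fun x => ?_
      rw [hFM, hT2 (out X M) u M hM (fun v hv => by
        simp only [out, Finset.mem_filter] at hv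
        exact hv.2) d₁ d₂ hd x, c3 M M d₁ le_rfl i1, c3 M M d₂ le_rfl i2,
        c3 M M (d₁ + d₂) le_rfl i3, ha, hb, hc]
      simp only [Complex.ofReal_intCast]
    · simp only [if_neg h3]
      by_cases h2 : rk F = 2
      · simp only [if_pos h2]
        have hl := (hLIM (out X M) (sp F) u 3 (by omega)).1
        simpa only [Complex.ofReal_intCast] using hl
      · simp only [if_neg h2]
        obtain ⟨k, hk⟩ : ∃ k, Module.finrank (ZMod 2) (sp F) + k = 5 := ⟨5 - rk F, by omega⟩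
        have hl := (hLIM (out X M) (sp F) u k hk).2 3 (by omega)
        simpa only [Complex.ofReal_zero] using hl
  have ht3 : ∀ F, rk F = 3 → t F = -((a : ℝ) * b * c) / 2 := fun F h3 => by
    rw [ht]
    exact if_pos h3
  have ht2 : ∀ F, rk F = 2 → t F = ((tau (out X M) (sp F) u 3 : ℤ) : ℝ) := fun F h2 => by
    rw [ht]
    have h3 : ¬ rk F = 3 := by omega
    simp only [if_neg h3, if_pos h2]
  have ht0 : ∀ F, rk F ≠ 3 → rk F ≠ 2 → t F = 0 := fun F h3 h2 => by
    rw [ht]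
    simp only [if_neg h3, if_neg h2]
  have hcoh : Coh (inn X M) (Od X u n) t := by
    have hsgn : ∀ F ⊆ inn X M, rk F = 2 →
        0 ≤ ((a : ℝ) * b * c) * ((tau (out X M) (sp F) u 3 : ℤ) : ℝ) := by
      intro F hF h2
      have h5 := M3b_sign hQF hTAU X F u L hC.uni M hM hAM hF h2 d₁ d₂ w₁ w₂ hd hw1 hw2
        hw1' hw2' h0
      rw [← ha, ← hb, ← hc] at h5
      exact_mod_cast h5
    have hne' : (a : ℝ) * b * c ≠ 0 := by
      intro h6
      apply hne
      rw [← ha, ← hb, ← hc]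
      exact_mod_cast h6
    rcases lt_or_gt_of_ne hne' with hp | hp
    · refine ⟨-1, Or.inr rfl, fun F hF _ => ?_⟩
      by_cases h3 : rk F = 3
      · rw [ht3 F h3, h3]
        linarith
      · by_cases h2 : rk F = 2
        · rw [ht2 F h2, h2]
          have h7 := hsgn F hF.1 h2
          have h8 : ((tau (out X M) (sp F) u 3 : ℤ) : ℝ) ≤ 0 := by
            by_contra h9
            push Not at h9
            have := mul_neg_of_neg_of_pos hp h9
            linarith
          linarith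
        · rw [ht0 F h3 h2, mul_zero]
    · refine ⟨1, Or.inl rfl, fun F hF _ => ?_⟩
      by_cases h3 : rk F = 3
      · rw [ht3 F h3, h3]
        linarith
      · by_cases h2 : rk F = 2
        · rw [ht2 F h2, h2]
          have h7 := hsgn F hF.1 h2
          have h8 := nonneg_of_mul_nonneg_right h7 hp
          linarith
        · rw [ht0 F h3 h2, mul_zero]
  have hA : inn X M ∈ fl (inn X M) := by
    have := (c6 M M le_rfl).2
    exact this
  have hfin := hMAS X u L n hC hLev 3 t (by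
    rw [← hMdef]
    exact hlim) (by
    rw [← hMdef]
    exact hcoh) (inn X M) (by
    rw [← hMdef]
    exact hA) (by
    rw [Finset.inter_eq_right.2 hOA, hAM, hMdef])
  have h3 : rk (inn X M) = 3 := by
    unfold rk
    rw [hAM]
    exact hM
  rw [ht3 _ h3] at hfin
  apply hne
  rw [← ha, ← hb, ← hc]
  have h10 : (a : ℝ) * b * c = 0 := by linarith
  exact_mod_cast h10

end Pool.Agent.TRG
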