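import Pool.Agent.TRG.St

/-!
# TRG : M3c, order three, one nonzero sum
-/

set_option autoImplicit false

open Submodule Filter Topology
open Pool.Agent.SPT Pool.Agent.SPT.Rel

namespace Pool.Agent.TRG

private theorem M3c_two (x : ZMod 2) : x = 0 ∨ x = 1 := by
  revert x; decide

/-- coordinates in the basis `b` -/
private theorem M3c_coord (b : Fin 5 → E) (hb : LinearIndependent (ZMod 2) b) :
    ∃ r : E →ₗ[ZMod 2] (Fin 5 → ZMod 2), (∀ i j, r (b i) j = if i = j then 1 else 0) ∧
      ∀ (S : Set (Fin 5)) (v : E), v ∈ span (ZMod 2) (b '' S) ↔ ∀ i, i ∉ S → r v i = 0 := by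
  classical
  have hc : Fintype.card (Fin 5) = Module.finrank (ZMod 2) E := by simp
  let B := basisOfLinearIndependentOfCardEqFinrank hb hc
  have hB : (B : Fin 5 → E) = b := by simp [B]
  refine ⟨B.equivFun.toLinearMap, ?_, ?_⟩
  · intro i j
    have : b i = B i := by rw [hB]
    rw [this]
    simp
  · intro S v
    rw [← hB, Module.Basis.mem_span_image]
    constructor
    · intro h i hi
      by_contra hne
      exact hi (h (by simpa using hne))
    · intro h i hi
      by_contra hne
      have := h i hne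
      simp at hi
      exact hi (by simpa using this)

/-- the situation: a basis adapted to `M ≤ M ⊔ span {d₁}` -/
private theorem M3c_mem (b : Fin 5 → E)
    (M : Submodule (ZMod 2) E) (d₁ : E) (hd : d₁ ∉ M) (h0 : b 0 ∈ M) (h1 : b 1 ∈ M)
    (h2 : b 2 ∈ M) (h3 : b 3 + d₁ ∈ M) (h4 : b 4 ∉ M ⊔ span (ZMod 2) {d₁})
    (r : E →ₗ[ZMod 2] (Fin 5 → ZMod 2)) (hr : ∀ i j, r (b i) j = if i = j then 1 else 0)
    (hs : ∀ (S : Set (Fin 5)) (v : E), v ∈ span (ZMod 2) (b '' S) ↔ ∀ i, i ∉ S → r v i = 0) :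
    (∀ v, v ∈ M ↔ r v 3 = 0 ∧ r v 4 = 0) ∧
    (∀ v, v ∈ M ⊔ span (ZMod 2) {d₁} ↔ r v 4 = 0) := by
  have hdW : d₁ ∈ M ⊔ span (ZMod 2) {d₁} := (le_sup_right : span (ZMod 2) {d₁} ≤ _) (mem_span_singleton_self d₁)
  have hMW : M ≤ M ⊔ span (ZMod 2) {d₁} := le_sup_left
  have h3W : b 3 ∈ M ⊔ span (ZMod 2) {d₁} := by
    have := (M ⊔ span (ZMod 2) {d₁}).sub_mem (hMW h3) hdW
    simpa using this
  have h3M : b 3 ∉ M := by
    intro h
    apply hd
    have := M.sub_mem h3 h
    simpa using this
  have eW : ∀ v, r v 4 = 0 → v ∈ M ⊔ span (ZMod 2) {d₁} := by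
    intro v hv
    have h : v ∈ span (ZMod 2) (b '' {j | j ≠ 4}) := by
      rw [hs]
      intro i hi
      have : i = 4 := by simpa using hi
      rw [this]; exact hv
    refine (span_le.2 ?_ : span (ZMod 2) (b '' {j | j ≠ 4}) ≤ _) h
    rintro _ ⟨j, hj, rfl⟩
    fin_cases j
    · exact hMW h0
    · exact hMW h1
    · exact hMW h2
    · exact h3W
    · simp at hj
  have eM : ∀ v, r v 3 = 0 → r v 4 = 0 → v ∈ M := by
    intro v hv3 hv4
    have h : v ∈ span (ZMod 2) (b '' {j | j ≠ 3 ∧ j ≠ 4}) := by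
      rw [hs]
      intro i hi
      by_cases h3 : i = 3
      · rw [h3]; exact hv3
      · have : i = 4 := by
          by_contra h4
          exact hi ⟨h3, h4⟩
        rw [this]; exact hv4
    refine (span_le.2 ?_ : span (ZMod 2) (b '' {j | j ≠ 3 ∧ j ≠ 4}) ≤ _) h
    rintro _ ⟨j, hj, rfl⟩
    fin_cases j
    · exact h0
    · exact h1
    · exact h2
    · simp at hj
    · simp at hj
  have eW' : ∀ v, v ∈ M ⊔ span (ZMod 2) {d₁} → r v 4 = 0 := by
    intro v hv
    rcases M3c_two (r v 4) with h | h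
    · exact h
    · exfalso
      apply h4
      have h5 : v + b 4 ∈ M ⊔ span (ZMod 2) {d₁} := by
        apply eW
        rw [map_add, Pi.add_apply, h, hr]
        decide
      have := (M ⊔ span (ZMod 2) {d₁}).sub_mem h5 hv
      simpa using this
  refine ⟨fun v => ⟨fun hv => ?_, fun hv => eM v hv.1 hv.2⟩, fun v => ⟨eW' v, eW v⟩⟩
  have hv4 := eW' v (hMW hv)
  refine ⟨?_, hv4⟩
  rcases M3c_two (r v 3) with h | h
  · exact h
  · exfalso
    apply h3M
    have h5 : v + b 3 ∈ M := by
      apply eM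
      · rw [map_add, Pi.add_apply, h, hr]
        decide
      · rw [map_add, Pi.add_apply, hv4, hr]
        decide
    have := M.sub_mem h5 hv
    simpa using this

/-- the entries of the form in an adapted basis -/
private theorem M3c_Q (hCS : St_CS) (hQF : St_QF) (X : Finset E) (u : E → ℤ)
    (L : E → Fin 5 → ℤ) (hU : Uni X L) (b : Fin 5 → E) (hb : Bas X b)
    (M : Submodule (ZMod 2) E) (d₁ : E) (hd : d₁ ∉ M) (h0 : b 0 ∈ M) (h1 : b 1 ∈ M)
    (h2 : b 2 ∈ M) (h3 : b 3 + d₁ ∈ M) (h4 : b 4 ∉ M ⊔ span (ZMod 2) {d₁})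
    (hz : ∀ v, v ∉ M ⊔ span (ZMod 2) {d₁} → cs X u M v = 0) :
    Qf L b (out X M) u 3 3 = cs X u M d₁ ∧ Qf L b (out X M) u 4 4 = 0 ∧
      Qf L b (out X M) u 3 4 = 0 := by
  classical
  obtain ⟨r, hr, hs⟩ := M3c_coord b hb.2
  obtain ⟨hM, hW⟩ := M3c_mem b M d₁ hd h0 h1 h2 h3 h4 r hr hs
  obtain ⟨hQ1, hQ2⟩ := hQF X L hU b hb
  obtain ⟨cs1, -⟩ := hCS X u
  have hsub : out X M ⊆ X := Finset.filter_subset _ _
  have h34 : b 3 + b 4 ∉ M ⊔ span (ZMod 2) {d₁} := by
    rw [hW, map_add, Pi.add_apply, hr, hr]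
    decide
  have z4 : cs X u M (b 4) = 0 := hz _ h4
  have z34 : cs X u M (b 3 + b 4) = 0 := hz _ h34
  have e3 : cs X u M (b 3) = cs X u M d₁ := cs1 M _ _ h3
  have m3 : ∀ w, w + b 3 ∈ M ↔ r w 3 = 1 ∧ r w 4 = 0 := by
    intro w
    rw [hM, map_add, Pi.add_apply, Pi.add_apply, hr, hr]
    rcases M3c_two (r w 3) with h | h <;> rcases M3c_two (r w 4) with h' | h' <;>
      rw [h, h'] <;> decide
  have m4 : ∀ w, w + b 4 ∈ M ↔ r w 3 = 0 ∧ r w 4 = 1 := by
    intro w
    rw [hM, map_add, Pi.add_apply, Pi.add_apply, hr, hr]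
    rcases M3c_two (r w 3) with h | h <;> rcases M3c_two (r w 4) with h' | h' <;>
      rw [h, h'] <;> decide
  have m34 : ∀ w, w + (b 3 + b 4) ∈ M ↔ r w 3 = 1 ∧ r w 4 = 1 := by
    intro w
    rw [hM, map_add, map_add, Pi.add_apply, Pi.add_apply, Pi.add_apply, Pi.add_apply, hr, hr,
      hr, hr]
    rcases M3c_two (r w 3) with h | h <;> rcases M3c_two (r w 4) with h' | h' <;>
      rw [h, h'] <;> decide
  have s3 : ∀ w, w ∈ span (ZMod 2) (b '' {j | j ≠ 3}) ↔ r w 3 = 0 := by
    intro w
    rw [hs]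
    constructor
    · intro h
      exact h 3 (by simp)
    · intro h i hi
      have : i = 3 := by simpa using hi
      rw [this]; exact h
  have s4 : ∀ w, w ∈ span (ZMod 2) (b '' {j | j ≠ 4}) ↔ r w 4 = 0 := by
    intro w
    rw [hs]
    constructor
    · intro h
      exact h 4 (by simp)
    · intro h i hi
      have : i = 4 := by simpa using hi
      rw [this]; exact h
  refine ⟨?_, ?_, ?_⟩
  · rw [hQ1 3 (out X M) u hsub]
    have hset : out (out X M) (span (ZMod 2) (b '' {j | j ≠ 3})) =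
        X.filter (fun w => w + b 3 ∈ M) ∪ X.filter (fun w => w + (b 3 + b 4) ∈ M) := by
      ext w
      simp only [out, Finset.mem_filter, Finset.mem_union, m3, m34, s3, hM]
      rcases M3c_two (r w 3) with h | h <;> rcases M3c_two (r w 4) with h' | h' <;>
        simp [h, h']
    have hdis : Disjoint (X.filter (fun w => w + b 3 ∈ M))
        (X.filter (fun w => w + (b 3 + b 4) ∈ M)) := by
      rw [Finset.disjoint_left]
      intro w hw hw'
      simp only [Finset.mem_filter, m3, m34] at hw hw'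
      rw [hw.2.2] at hw'
      exact absurd hw'.2.2 (by decide)
    rw [hset, Finset.sum_union hdis]
    have e1 : ∑ v ∈ X.filter (fun w => w + b 3 ∈ M), u v = cs X u M (b 3) := by
      unfold cs; congr
    have e2 : ∑ v ∈ X.filter (fun w => w + (b 3 + b 4) ∈ M), u v = cs X u M (b 3 + b 4) := by
      unfold cs; congr
    rw [e1, e2, e3, z34, add_zero]
  · rw [hQ1 4 (out X M) u hsub]
    have hset : out (out X M) (span (ZMod 2) (b '' {j | j ≠ 4})) =
        X.filter (fun w => w + b 4 ∈ M) ∪ X.filter (fun w => w + (b 3 + b 4) ∈ M) := by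
      ext w
      simp only [out, Finset.mem_filter, Finset.mem_union, m4, m34, s4, hM]
      rcases M3c_two (r w 3) with h | h <;> rcases M3c_two (r w 4) with h' | h' <;>
        simp [h, h']
    have hdis : Disjoint (X.filter (fun w => w + b 4 ∈ M))
        (X.filter (fun w => w + (b 3 + b 4) ∈ M)) := by
      rw [Finset.disjoint_left]
      intro w hw hw'
      simp only [Finset.mem_filter, m4, m34] at hw hw'
      rw [hw.2.1] at hw'
      exact absurd hw'.2.1 (by decide)
    rw [hset, Finset.sum_union hdis]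
    have e1 : ∑ v ∈ X.filter (fun w => w + b 4 ∈ M), u v = cs X u M (b 4) := by
      unfold cs; congr
    have e2 : ∑ v ∈ X.filter (fun w => w + (b 3 + b 4) ∈ M), u v = cs X u M (b 3 + b 4) := by
      unfold cs; congr
    rw [e1, e2, z4, z34, add_zero]
  · obtain ⟨σ, -, hσ⟩ := hQ2 3 4 (by decide)
    rw [hσ (out X M) u hsub]
    have hset : out (out (out X M) (span (ZMod 2) (b '' {k | k ≠ 3})))
        (span (ZMod 2) (b '' {k | k ≠ 4})) = X.filter (fun w => w + (b 3 + b 4) ∈ M) := by
      ext w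
      simp only [out, Finset.mem_filter, m34, s3, s4, hM]
      rcases M3c_two (r w 3) with h | h <;> rcases M3c_two (r w 4) with h' | h' <;>
        simp [h, h']
    rw [hset]
    have e2 : ∑ v ∈ X.filter (fun w => w + (b 3 + b 4) ∈ M), u v = cs X u M (b 3 + b 4) := by
      unfold cs; congr
    rw [e2, z34, mul_zero]

/-- the value of `tau` in an adapted basis -/
private theorem M3c_tau (hCS : St_CS) (hQF : St_QF) (hTAU : St_TAU) (X : Finset E) (u : E → ℤ)
    (L : E → Fin 5 → ℤ) (hU : Uni X L) (b : Fin 5 → E) (hb : Bas X b)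
    (M : Submodule (ZMod 2) E) (d₁ : E) (hd : d₁ ∉ M) (h0 : b 0 ∈ M) (h1 : b 1 ∈ M)
    (h2 : b 2 ∈ M) (h3 : b 3 + d₁ ∈ M) (h4 : b 4 ∉ M ⊔ span (ZMod 2) {d₁})
    (hz : ∀ v, v ∉ M ⊔ span (ZMod 2) {d₁} → cs X u M v = 0) :
    tau (out X M) (span (ZMod 2) {b 0, b 1}) u 3 =
      - (cs X u M d₁ * (Qf L b (out X M) u 2 4) ^ 2) := by
  classical
  obtain ⟨q33, q44, q34⟩ := M3c_Q hCS hQF X u L hU b hb M d₁ hd h0 h1 h2 h3 h4 hz
  have hsub : out X M ⊆ X := Finset.filter_subset _ _
  have hsym : ∀ i j, Qf L b (out X M) u i j = Qf L b (out X M) u j i := by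
    intro i j
    unfold Qf
    exact Finset.sum_congr rfl fun v _ => by ring
  rw [(hTAU X L hU b hb (out X M) hsub u).1]
  change (Matrix.of fun i j : Fin 3 => Qf L b (out X M) u i.succ.succ j.succ.succ).det = _
  rw [Matrix.det_fin_three]
  have f0 : (0 : Fin 3).succ.succ = (2 : Fin 5) := rfl
  have f1 : (1 : Fin 3).succ.succ = (3 : Fin 5) := rfl
  have f2 : (2 : Fin 3).succ.succ = (4 : Fin 5) := rfl
  simp only [Matrix.of_apply, f0, f1, f2]
  rw [hsym 3 2, hsym 4 2, hsym 4 3, q33, q44, q34]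
  ring

private theorem M3c_ext {k : ℕ} (c : Fin k → E) (hc : LinearIndependent (ZMod 2) c)
    (N : Submodule (ZMod 2) E) (hN : ∀ i, c i ∈ N) (x : E) (hx : x ∉ N) :
    LinearIndependent (ZMod 2) (Fin.snoc c x : Fin (k + 1) → E) := by
  refine hc.finSnoc fun h => hx ?_
  refine (span_le.2 ?_ : span (ZMod 2) (Set.range c) ≤ N) h
  rintro _ ⟨i, rfl⟩
  exact hN i

/-- an adapted basis from three independent elements of `M` -/
private theorem M3c_fam (c : Fin 3 → E) (hc : LinearIndependent (ZMod 2) c)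
    (M : Submodule (ZMod 2) E) (hcM : ∀ i, c i ∈ M) (x y d₁ : E) (hd : d₁ ∉ M)
    (hx : x + d₁ ∈ M) (hy : y ∉ M ⊔ span (ZMod 2) {d₁}) :
    LinearIndependent (ZMod 2) (![c 0, c 1, c 2, x, y] : Fin 5 → E) := by
  have hdW : d₁ ∈ M ⊔ span (ZMod 2) {d₁} :=
    (le_sup_right : span (ZMod 2) {d₁} ≤ _) (mem_span_singleton_self d₁)
  have hMW : M ≤ M ⊔ span (ZMod 2) {d₁} := le_sup_left
  have hxW : x ∈ M ⊔ span (ZMod 2) {d₁} := by
    have := (M ⊔ span (ZMod 2) {d₁}).sub_mem (hMW hx) hdW
    simpa using this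
  have hxM : x ∉ M := by
    intro h
    apply hd
    have := M.sub_mem hx h
    simpa using this
  have h4 := M3c_ext c hc M hcM x hxM
  have h5 := M3c_ext (Fin.snoc c x : Fin 4 → E) h4 (M ⊔ span (ZMod 2) {d₁}) (by
    intro i
    fin_cases i
    · exact hMW (hcM 0)
    · exact hMW (hcM 1)
    · exact hMW (hcM 2)
    · exact hxW) y hy
  have e : (![c 0, c 1, c 2, x, y] : Fin 5 → E) = Fin.snoc (Fin.snoc c x : Fin 4 → E) y := by
    funext i
    fin_cases i <;> rfl
  rw [e]
  exact h5

/-- three independent elements, two of them span the flat `F` -/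
private theorem M3c_flat (O F : Finset E) (hO : rk O = 3) (hF : rk F = 2) :
    ∃ c : Fin 3 → E, LinearIndependent (ZMod 2) c ∧ c 0 ∈ F ∧ c 1 ∈ F ∧ c 2 ∈ O ∧
      span (ZMod 2) {c 0, c 1} = sp F := by
  classical
  obtain ⟨f, hf, hspan, hind⟩ := Submodule.exists_fun_fin_finrank_span_eq (ZMod 2) (F : Set E)
  have hF' : Module.finrank (ZMod 2) (span (ZMod 2) (F : Set E)) = 2 := hF
  revert f
  rw [hF']
  intro f hf hspan hind
  obtain ⟨z, hz, hzF⟩ : ∃ z ∈ O, z ∉ sp F := by
    by_contra hcon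
    push Not at hcon
    have hle : sp O ≤ sp F := span_le.2 hcon
    have := Submodule.finrank_mono hle
    unfold rk at hO hF
    omega
  refine ⟨Fin.snoc f z, M3c_ext f hind (sp F) ?_ z hzF, ?_, ?_, ?_, ?_⟩
  · intro i
    exact subset_span (hf i)
  · exact hf 0
  · exact hf 1
  · exact hz
  · rw [show sp F = span (ZMod 2) (F : Set E) from rfl, ← hspan]
    congr 1
    ext w
    simp only [Set.mem_insert_iff, Set.mem_singleton_iff, Set.mem_range]
    constructor
    · rintro (h | h)
      · exact ⟨0, h.symm⟩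
      · exact ⟨1, h.symm⟩
    · rintro ⟨i, rfl⟩
      fin_cases i
      · left; rfl
      · right; rfl

/-- [M3c] Order three, one nonzero sum. -/
theorem M3c_proof (hMAS : St_MAS) (hLIM : St_LIM) (hT2 : St_T2) (hLF2 : St_LF2) (hCS : St_CS)
    (hQF : St_QF) (hTAU : St_TAU) (hCO2 : St_CO2) (hKER : St_KER) : St_M3c := by
  classical
  intro X u L n hCx hLev h3 d₁ ha hd hz
  have _ := hLF2
  obtain ⟨cs1, cs2, cs3, cs4, cs5, cs6⟩ := hCS X u
  have hOX : Od X u n ⊆ X := Finset.filter_subset _ _
  have hMfin : Module.finrank (ZMod 2) (sp (Od X u n)) = 3 := h3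
  have hOM : ∀ v ∈ Od X u n, v ∈ sp (Od X u n) := fun v hv => subset_span hv
  have hMW : sp (Od X u n) ≤ sp (Od X u n) ⊔ span (ZMod 2) {d₁} := le_sup_left
  have hdW : d₁ ∈ sp (Od X u n) ⊔ span (ZMod 2) {d₁} :=
    (le_sup_right : span (ZMod 2) {d₁} ≤ _) (mem_span_singleton_self d₁)
  have hE : Module.finrank (ZMod 2) E = 5 := by simp
  have hWne : sp (Od X u n) ⊔ span (ZMod 2) {d₁} ≠ ⊤ := by
    intro h
    have h5 : Module.finrank (ZMod 2)
        ((sp (Od X u n) ⊔ span (ZMod 2) {d₁} : Submodule (ZMod 2) E)) = 5 := by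
      rw [h, finrank_top, hE]
    have h6 := Submodule.finrank_add_le_finrank_add_finrank (sp (Od X u n))
      (span (ZMod 2) {d₁})
    have h7 : Module.finrank (ZMod 2) (span (ZMod 2) {d₁}) ≤ 1 := by
      have := finrank_span_le_card (R := ZMod 2) ({d₁} : Set E)
      simpa using this
    omega
  obtain ⟨y, hyX, hy⟩ : ∃ y ∈ X, y ∉ sp (Od X u n) ⊔ span (ZMod 2) {d₁} := by
    by_contra hcon
    push Not at hcon
    apply hWne
    rw [eq_top_iff, ← hCx.spn]
    exact span_le.2 hcon
  obtain ⟨x, hxX, hx⟩ := cs4 _ d₁ ha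
  -- the flats of rank two
  have key2 : ∀ F ∈ fl (inn X (sp (Od X u n))), rk F = 2 → ∃ q : ℤ,
      tau (out X (sp (Od X u n))) (sp F) u 3 = -(cs X u (sp (Od X u n)) d₁ * q ^ 2) := by
    intro F hF hF2
    have hFA : F ⊆ inn X (sp (Od X u n)) := by
      unfold fl at hF
      exact Finset.mem_powerset.1 (Finset.mem_filter.1 hF).1
    have hFX : ∀ v ∈ F, v ∈ X ∧ v ∈ sp (Od X u n) := by
      intro v hv
      have := hFA hv
      unfold inn at this
      exact Finset.mem_filter.1 this
    obtain ⟨c, hc, c0, c1, c2, hsp⟩ := M3c_flat (Od X u n) F h3 hF2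
    have hcM : ∀ i, c i ∈ sp (Od X u n) := by
      intro i
      fin_cases i
      · exact (hFX _ c0).2
      · exact (hFX _ c1).2
      · exact hOM _ c2
    have hind := M3c_fam c hc (sp (Od X u n)) hcM x y d₁ hd hx hy
    have hb : Bas X (![c 0, c 1, c 2, x, y] : Fin 5 → E) := by
      refine ⟨?_, hind⟩
      intro i
      fin_cases i
      · exact (hFX _ c0).1
      · exact (hFX _ c1).1
      · exact hOX c2
      · exact hxX
      · exact hyX
    have := M3c_tau hCS hQF hTAU X u L hCx.uni _ hb (sp (Od X u n)) d₁ hd (hcM 0) (hcM 1)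
      (hcM 2) hx hy hz
    refine ⟨Qf L (![c 0, c 1, c 2, x, y] : Fin 5 → E) (out X (sp (Od X u n))) u 2 4, ?_⟩
    rw [← hsp]
    exact this
  -- the master statement with `N = 3`
  have hrk : ∀ F ∈ fl (inn X (sp (Od X u n))), sp F ≤ sp (Od X u n) := by
    intro F hF
    unfold fl at hF
    have hFA := Finset.mem_powerset.1 (Finset.mem_filter.1 hF).1
    refine span_le.2 fun v hv => ?_
    have := hFA hv
    unfold inn at this
    exact (Finset.mem_filter.1 this).2
  have hlim : ∀ F ∈ fl (inn X (sp (Od X u n))), Tendsto (fun t : ℝ =>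
      TT (out X (sp (Od X u n))) (sp F) (ex u t) / (t : ℂ) ^ 3) (𝓝[>] 0)
      (𝓝 (((if rk F = 2 then (tau (out X (sp (Od X u n))) (sp F) u 3 : ℝ) else 0 : ℝ)) : ℂ)) := by
    intro F hF
    have hle := Submodule.finrank_mono (hrk F hF)
    rw [hMfin] at hle
    have hle' : rk F ≤ 3 := hle
    by_cases h2 : rk F = 2
    · rw [if_pos h2]
      have := (hLIM (out X (sp (Od X u n))) (sp F) u 3 (by
        have : Module.finrank (ZMod 2) (sp F) = 2 := h2
        omega)).1
      simpa using this
    · rw [if_neg h2]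
      by_cases hr3 : rk F = 3
      · have hFM : sp F = sp (Od X u n) := by
          apply Submodule.eq_of_le_of_finrank_eq (hrk F hF)
          rw [hMfin]; exact hr3
        have htop : sp (Od X u n) ⊔ span (ZMod 2) {d₁, y} = ⊤ := by
          have hsup : sp (Od X u n) ⊔ span (ZMod 2) {d₁, y} =
              (sp (Od X u n) ⊔ span (ZMod 2) {d₁}) ⊔ span (ZMod 2) {y} := by
            rw [sup_assoc, span_insert]
          have l1 : Module.finrank (ZMod 2) (sp (Od X u n)) < Module.finrank (ZMod 2)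
              ((sp (Od X u n) ⊔ span (ZMod 2) {d₁} : Submodule (ZMod 2) E)) := by
            apply Submodule.finrank_lt_finrank_of_lt
            refine lt_of_le_of_ne le_sup_left fun h => hd ?_
            rw [h]; exact hdW
          have l2 : Module.finrank (ZMod 2)
              ((sp (Od X u n) ⊔ span (ZMod 2) {d₁} : Submodule (ZMod 2) E)) <
              Module.finrank (ZMod 2) (((sp (Od X u n) ⊔ span (ZMod 2) {d₁}) ⊔
                span (ZMod 2) {y} : Submodule (ZMod 2) E)) := by
            apply Submodule.finrank_lt_finrank_of_lt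
            refine lt_of_le_of_ne le_sup_left fun h => hy ?_
            rw [h]
            exact (le_sup_right : span (ZMod 2) {y} ≤ _) (mem_span_singleton_self y)
          rw [hsup]
          apply Submodule.eq_top_of_finrank_eq
          have l3 := Submodule.finrank_le (((sp (Od X u n) ⊔ span (ZMod 2) {d₁}) ⊔
                span (ZMod 2) {y} : Submodule (ZMod 2) E))
          rw [hE] at l3 ⊢
          omega
        have hzero : ∀ t : ℝ, TT (out X (sp (Od X u n))) (sp F) (ex u t) = 0 := by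
          intro t
          rw [hFM, hT2 (out X (sp (Od X u n))) u (sp (Od X u n)) hMfin (by
            intro v hv
            unfold out at hv
            exact (Finset.mem_filter.1 hv).2) d₁ y htop t]
          have hyM : y ∉ sp (Od X u n) := fun h => hy (hMW h)
          have hdy : d₁ + y ∉ sp (Od X u n) ⊔ span (ZMod 2) {d₁} := by
            intro h
            apply hy
            have := (sp (Od X u n) ⊔ span (ZMod 2) {d₁}).sub_mem h hdW
            simpa using this
          have hdyM : d₁ + y ∉ sp (Od X u n) := fun h => hdy (hMW h)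
          rw [cs3 _ _ y le_rfl hyM, cs3 _ _ (d₁ + y) le_rfl hdyM, hz _ hy, hz _ hdy]
          unfold F2
          simp only [Int.cast_zero, mul_zero, add_zero, Complex.exp_zero]
          ring
        have : (fun t : ℝ => TT (out X (sp (Od X u n))) (sp F) (ex u t) / (t : ℂ) ^ 3) =
            fun _ => 0 := by
          funext t
          rw [hzero t, zero_div]
        rw [this]
        simp
      · have hlow : rk F ≤ 1 := by omega
        have := (hLIM (out X (sp (Od X u n))) (sp F) u (5 - rk F) (by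
          have : Module.finrank (ZMod 2) (sp F) = rk F := rfl
          omega)).2 3 (by omega)
        simpa using this
  have hcoh : Coh (inn X (sp (Od X u n))) (Od X u n)
      (fun F => (if rk F = 2 then (tau (out X (sp (Od X u n))) (sp F) u 3 : ℝ) else 0 : ℝ)) := by
    refine ⟨if 0 < cs X u (sp (Od X u n)) d₁ then -1 else 1, ?_, ?_⟩
    · by_cases h : 0 < cs X u (sp (Od X u n)) d₁
      · right; rw [if_pos h]
      · left; rw [if_neg h]
    · intro F hF _
      by_cases h2 : rk F = 2
      · simp only [h2, if_true]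
        obtain ⟨q, hq⟩ := key2 F (by
          unfold fl
          exact Finset.mem_filter.2 ⟨Finset.mem_powerset.2 hF.1, hF⟩) h2
        rw [hq]
        push_cast
        by_cases h : 0 < cs X u (sp (Od X u n)) d₁
        · rw [if_pos h]
          have h' : (0 : ℝ) < (cs X u (sp (Od X u n)) d₁ : ℝ) := by exact_mod_cast h
          nlinarith [mul_nonneg h'.le (sq_nonneg (q : ℝ))]
        · rw [if_neg h]
          have h' : (cs X u (sp (Od X u n)) d₁ : ℝ) ≤ 0 := by
            exact_mod_cast not_lt.1 h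
          nlinarith [mul_nonneg (neg_nonneg.2 h') (sq_nonneg (q : ℝ))]
      · simp only [h2, if_false, mul_zero, le_refl]
  have hmas := hMAS X u L n hCx hLev 3 _ hlim hcoh
  -- the final basis
  obtain ⟨c, hcO, -, hc⟩ := Submodule.exists_fun_fin_finrank_span_eq (ZMod 2)
    ((Od X u n : Finset E) : Set E)
  revert c
  rw [show Module.finrank (ZMod 2) (span (ZMod 2) ((Od X u n : Finset E) : Set E)) = 3 from h3]
  intro c hcO hc
  have hcO' : ∀ i, c i ∈ Od X u n := fun i => hcO i
  have hcM : ∀ i, c i ∈ sp (Od X u n) := fun i => hOM _ (hcO' i)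
  have hind := M3c_fam c hc (sp (Od X u n)) hcM x y d₁ hd hx hy
  set b : Fin 5 → E := ![c 0, c 1, c 2, x, y] with hbdef
  have hb : Bas X b := by
    refine ⟨?_, hind⟩
    intro i
    fin_cases i
    · exact hOX (hcO' 0)
    · exact hOX (hcO' 1)
    · exact hOX (hcO' 2)
    · exact hxX
    · exact hyX
  have hbO : ∀ k : Fin 5, k ≠ 3 → k ≠ 4 → b k ∈ Od X u n := by
    intro k k3 k4
    fin_cases k
    · exact hcO' 0
    · exact hcO' 1
    · exact hcO' 2
    · exact absurd rfl k3
    · exact absurd rfl k4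
  obtain ⟨r, hr, hs⟩ := M3c_coord b hb.2
  obtain ⟨hMr, hWr⟩ := M3c_mem b (sp (Od X u n)) d₁ hd (hcM 0) (hcM 1) (hcM 2) hx hy r hr hs
  obtain ⟨q33, q44, q34⟩ := M3c_Q hCS hQF X u L hCx.uni b hb (sp (Od X u n)) d₁ hd (hcM 0)
    (hcM 1) (hcM 2) hx hy hz
  have hk : ∀ k : Fin 5, k ≠ 3 → k ≠ 4 → Qf L b (out X (sp (Od X u n))) u k 4 = 0 := by
    intro k k3 k4
    have hπ3 : Equiv.swap k 2 3 = 3 := Equiv.swap_apply_of_ne_of_ne (Ne.symm k3) (by decide)
    have hπ4 : Equiv.swap k 2 4 = 4 := Equiv.swap_apply_of_ne_of_ne (Ne.symm k4) (by decide)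
    have hπ2 : Equiv.swap k 2 2 = k := Equiv.swap_apply_right k 2
    have hb' : Bas X (b ∘ Equiv.swap k 2) :=
      ⟨fun i => hb.1 _, hb.2.comp _ (Equiv.injective _)⟩
    have hne : ∀ i : Fin 5, i ≠ 3 → i ≠ 4 → b (Equiv.swap k 2 i) ∈ Od X u n := by
      intro i i3 i4
      apply hbO
      · intro h
        apply i3
        apply (Equiv.swap k 2).injective
        rw [h, hπ3]
      · intro h
        apply i4
        apply (Equiv.swap k 2).injective
        rw [h, hπ4]
    have ht := M3c_tau hCS hQF hTAU X u L hCx.uni (b ∘ Equiv.swap k 2) hb' (sp (Od X u n)) d₁ hd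
      (hOM _ (hne 0 (by decide) (by decide))) (hOM _ (hne 1 (by decide) (by decide)))
      (hOM _ (hne 2 (by decide) (by decide))) (by
        change b (Equiv.swap k 2 3) + d₁ ∈ _
        rw [hπ3]; exact hx) (by
        change b (Equiv.swap k 2 4) ∉ _
        rw [hπ4]; exact hy) hz
    have hQ : Qf L (b ∘ Equiv.swap k 2) (out X (sp (Od X u n))) u 2 4 =
        Qf L b (out X (sp (Od X u n))) u k 4 := by
      unfold Qf
      refine Finset.sum_congr rfl fun v _ => ?_
      rw [(hCO2 X L hCx.uni b hb).2.2.1, (hCO2 X L hCx.uni b hb).2.2.1, hπ2, hπ4]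
    -- the flat
    set G : Submodule (ZMod 2) E :=
      span (ZMod 2) {(b ∘ Equiv.swap k 2) 0, (b ∘ Equiv.swap k 2) 1} with hG
    have hGM : G ≤ sp (Od X u n) := by
      rw [hG, span_le]
      rintro w (rfl | h)
      · exact hOM _ (hne 0 (by decide) (by decide))
      · rw [Set.mem_singleton_iff] at h
        rw [h]
        exact hOM _ (hne 1 (by decide) (by decide))
    have hFfl : inn X G ∈ fl (inn X (sp (Od X u n))) := (cs6 _ _ hGM).2
    have hmemF : ∀ i : Fin 5, (i = 0 ∨ i = 1) →
        (b ∘ Equiv.swap k 2) i ∈ inn X G ∩ Od X u n := by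
      intro i hi
      rw [Finset.mem_inter]
      have hiO : (b ∘ Equiv.swap k 2) i ∈ Od X u n := by
        rcases hi with rfl | rfl
        · exact hne 0 (by decide) (by decide)
        · exact hne 1 (by decide) (by decide)
      refine ⟨?_, hiO⟩
      unfold inn
      rw [Finset.mem_filter]
      refine ⟨hOX hiO, subset_span ?_⟩
      rcases hi with rfl | rfl
      · left; rfl
      · right; rfl
    have hle1 : G ≤ sp (inn X G ∩ Od X u n) := by
      rw [hG, span_le]
      rintro w (rfl | h)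
      · exact subset_span (by exact_mod_cast hmemF 0 (Or.inl rfl))
      · rw [Set.mem_singleton_iff] at h
        rw [h]
        exact subset_span (by exact_mod_cast hmemF 1 (Or.inr rfl))
    have hle2 : sp (inn X G ∩ Od X u n) ≤ sp (inn X G) := by
      apply span_mono
      intro w hw
      have hw' : w ∈ inn X G ∩ Od X u n := hw
      exact (Finset.mem_inter.1 hw').1
    have hle3 : sp (inn X G) ≤ G := by
      rw [span_le]
      intro w hw
      have hw' : w ∈ inn X G := hw
      unfold inn at hw'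
      exact (Finset.mem_filter.1 hw').2
    have hspF : sp (inn X G) = G := le_antisymm hle3 (hle1.trans hle2)
    have hspF' : sp (inn X G ∩ Od X u n) = sp (inn X G) :=
      le_antisymm hle2 (by rw [hspF]; exact hle1)
    have hrkF : rk (inn X G) = 2 := by
      unfold rk
      rw [hspF, hG]
      have h2 : LinearIndependent (ZMod 2)
          (![(b ∘ Equiv.swap k 2) 0, (b ∘ Equiv.swap k 2) 1] : Fin 2 → E) := by
        have h5 := hb'.2.comp (![0, 1] : Fin 2 → Fin 5) (by decide)
        have h6 : (![(b ∘ Equiv.swap k 2) 0, (b ∘ Equiv.swap k 2) 1] : Fin 2 → E) =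
            (b ∘ Equiv.swap k 2) ∘ (![0, 1] : Fin 2 → Fin 5) := by
          funext i
          fin_cases i <;> rfl
        rw [h6]
        exact h5
      have h3 : Module.finrank (ZMod 2) (span (ZMod 2) (Set.range
          (![(b ∘ Equiv.swap k 2) 0, (b ∘ Equiv.swap k 2) 1] : Fin 2 → E))) = 2 := by
        rw [finrank_span_eq_card h2, Fintype.card_fin]
      have hset : ({(b ∘ Equiv.swap k 2) 0, (b ∘ Equiv.swap k 2) 1} : Set E) = Set.range
          (![(b ∘ Equiv.swap k 2) 0, (b ∘ Equiv.swap k 2) 1] : Fin 2 → E) := by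
        ext w
        simp only [Set.mem_insert_iff, Set.mem_singleton_iff, Set.mem_range]
        constructor
        · rintro (h | h)
          · exact ⟨0, h.symm⟩
          · exact ⟨1, h.symm⟩
        · rintro ⟨i, rfl⟩
          fin_cases i
          · left; rfl
          · right; rfl
      rw [hset]
      exact h3
    have h0 := hmas (inn X G) hFfl hspF'
    simp only [hrkF, if_true] at h0
    rw [hspF] at h0
    have h0' : tau (out X (sp (Od X u n))) G u 3 = 0 := by exact_mod_cast h0
    rw [h0', hQ] at ht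
    have hprod : cs X u (sp (Od X u n)) d₁ * Qf L b (out X (sp (Od X u n))) u k 4 ^ 2 = 0 := by
      linarith
    rcases mul_eq_zero.1 hprod with h | h
    · exact absurd h ha
    · exact pow_eq_zero_iff (two_ne_zero) |>.1 h
  have hall : ∀ i : Fin 5, Qf L b (out X (sp (Od X u n))) u i 4 = 0 := by
    intro i
    by_cases i3 : i = 3
    · rw [i3]; exact q34
    · by_cases i4 : i = 4
      · rw [i4]; exact q44
      · exact hk i i3 i4
  refine hKER X u L hCx.uni _ b hb ?_ hy ?_
  · intro i i4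
    by_cases i3 : i = 3
    · rw [i3]
      change x ∈ sp (Od X u n) ⊔ span (ZMod 2) {d₁}
      have := (sp (Od X u n) ⊔ span (ZMod 2) {d₁}).sub_mem (hMW hx) hdW
      simpa using this
    · exact hMW (hOM _ (hbO i i3 i4))
  · intro i
    rw [← hall i]
    unfold Qf
    apply Finset.sum_subset
    · intro v hv
      unfold out at hv ⊢
      rw [Finset.mem_filter] at hv ⊢
      exact ⟨hv.1, fun h => hv.2 (hMW h)⟩
    · intro v hv hv'
      have hvX : v ∈ X := by
        unfold out at hv
        exact (Finset.mem_filter.1 hv).1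
      have hvW : v ∈ sp (Od X u n) ⊔ span (ZMod 2) {d₁} := by
        by_contra h
        apply hv'
        unfold out
        exact Finset.mem_filter.2 ⟨hvX, h⟩
      have hco : co L b v 4 = 0 := by
        rw [(hCO2 X L hCx.uni b hb).1 v hvX 4, hs]
        intro j hj
        have : j = 4 := by simpa using hj
        rw [this]
        exact (hWr v).1 hvW
      rw [hco, mul_zero]

end Pool.Agent.TRG
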