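import Pool.Agent.TRG.St

/-!
# TRG : module M3d, order four, one nonzero sum (helper15)
-/

set_option autoImplicit false

open Submodule Filter Topology
open Pool.Agent.SPT Pool.Agent.SPT.Rel

namespace Pool.Agent.TRG

private theorem M3d_two (v : E) : v + v = 0 := by
  funext i
  exact CharTwo.add_self_eq_zero _

private theorem M3d_add_mem {G : Submodule (ZMod 2) E} {x y : E} (h : x + y ∈ G) (hx : x ∈ G) :
    y ∈ G := by
  have h1 := G.add_mem h hx
  have h2 : x + y + x = y := by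
    rw [add_comm x y, add_assoc, M3d_two, add_zero]
  rwa [h2] at h1

private theorem M3d_fin (G : Submodule (ZMod 2) E) (p : E) (hp : p ∉ G) :
    Module.finrank (ZMod 2) (G ⊔ span (ZMod 2) {p} : Submodule (ZMod 2) E) =
      Module.finrank (ZMod 2) G + 1 := by
  have hp0 : p ≠ 0 := fun h => hp (h ▸ G.zero_mem)
  have h1 := Submodule.finrank_sup_add_finrank_inf_eq G (span (ZMod 2) {p})
  have h2 : G ⊓ span (ZMod 2) {p} = ⊥ :=
    disjoint_iff.1 ((Submodule.disjoint_span_singleton' hp0).2 hp)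
  rw [h2, finrank_bot, finrank_span_singleton hp0, add_zero] at h1
  exact h1

private theorem M3d_ins (F : Finset E) (x : E) :
    sp (insert x F) = sp F ⊔ span (ZMod 2) {x} := by
  unfold sp
  rw [Finset.coe_insert, Submodule.span_insert, sup_comm]

private theorem M3d_top (W : Submodule (ZMod 2) E) (d : E) (hW : Module.finrank (ZMod 2) W = 4)
    (hd : d ∉ W) : W ⊔ span (ZMod 2) {d} = ⊤ := by
  apply Submodule.eq_top_of_finrank_eq
  rw [M3d_fin W d hd, hW]
  simp

theorem M3d_proof (hMAS : St_MAS) (hLIM : St_LIM) (hT2 : St_T2) (hT3 : St_T3) (hLF2 : St_LF2)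
    (hLF3 : St_LF3) (hCS : St_CS) (hBAL : St_BAL) : St_M3d := by
  classical
  intro X u L n hCx hLev hrk d₀ ha hd₀ hout hKer F₀ hF₀ hrkF₀ hsp₀ d₂ hd₂
  obtain ⟨cs1, cs2, cs3, cs4, cs5, cs6⟩ := hCS X u
  have hMas := hMAS X u L n hCx hLev
  have hOdM : ∀ o ∈ Od X u n, o ∈ sp (Od X u n) := fun o ho => subset_span (Finset.mem_coe.2 ho)
  have hOdX : ∀ o ∈ Od X u n, o ∈ X := fun o ho => (Finset.mem_filter.1 ho).1
  have hspan : ∀ G : Submodule (ZMod 2) E, (∀ o ∈ Od X u n, o ∈ G) → sp (Od X u n) ≤ G :=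
    fun G h => span_le.2 fun o ho => h o (Finset.mem_coe.1 ho)
  have hM3 : Module.finrank (ZMod 2) (sp (Od X u n)) = 3 := hrk
  revert ha hd₀ hout hKer hF₀ hd₂ hMas hOdM hspan hM3
  generalize sp (Od X u n) = M
  intro ha hd₀ hout hKer hF₀ hd₂ hMas hOdM hspan hM3
  -- the element of the class of `d₀`
  obtain ⟨d₁, hd₁X, hd₁⟩ := cs4 M d₀ ha
  have hd₁M : d₁ ∉ M := fun h => hd₀ (M3d_add_mem hd₁ h)
  have hWe : M ⊔ span (ZMod 2) {d₀} = M ⊔ span (ZMod 2) {d₁} := by
    apply le_antisymm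
    · refine sup_le le_sup_left ?_
      rw [span_singleton_le_iff_mem]
      have h1 : d₀ = (d₁ + d₀) + d₁ := by
        rw [add_comm d₁ d₀, add_assoc, M3d_two, add_zero]
      rw [h1]
      exact add_mem (mem_sup_left hd₁) (mem_sup_right (mem_span_singleton_self d₁))
    · refine sup_le le_sup_left ?_
      rw [span_singleton_le_iff_mem]
      have h1 : d₁ = (d₁ + d₀) + d₀ := by
        rw [add_assoc, M3d_two, add_zero]
      rw [h1]
      exact add_mem (mem_sup_left hd₁) (mem_sup_right (mem_span_singleton_self d₀))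
  rw [hWe] at hout hKer hd₂
  have hW4 : Module.finrank (ZMod 2) (M ⊔ span (ZMod 2) {d₁} : Submodule (ZMod 2) E) = 4 := by
    rw [M3d_fin M d₁ hd₁M, hM3]
  have hMW : M ≤ M ⊔ span (ZMod 2) {d₁} := le_sup_left
  have hd₁W : d₁ ∈ M ⊔ span (ZMod 2) {d₁} := mem_sup_right (mem_span_singleton_self d₁)
  have htop := M3d_top _ d₂ hW4 hd₂
  have htop2 : M ⊔ span (ZMod 2) {d₁, d₂} = ⊤ := by
    rw [Submodule.span_insert, ← sup_assoc]
    exact htop
  have hspW : sp (inn X (M ⊔ span (ZMod 2) {d₁})) = M ⊔ span (ZMod 2) {d₁} := by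
    apply le_antisymm
    · refine span_le.2 fun v hv => ?_
      exact (Finset.mem_filter.1 (Finset.mem_coe.1 hv)).2
    · refine sup_le ?_ ?_
      · refine hspan _ fun o ho => subset_span (Finset.mem_coe.2 ?_)
        exact Finset.mem_filter.2 ⟨hOdX o ho, hMW (hOdM o ho)⟩
      · rw [span_singleton_le_iff_mem]
        exact subset_span (Finset.mem_coe.2 (Finset.mem_filter.2 ⟨hd₁X, hd₁W⟩))
  obtain ⟨-, b2, b3⟩ := hBAL X u L hCx.uni hCx.spn _ hW4 hspW hKer
  have hd₂M : d₂ ∉ M := fun h => hd₂ (hMW h)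
  have hd₁₂W : d₁ + d₂ ∉ M ⊔ span (ZMod 2) {d₁} := fun h => hd₂ (M3d_add_mem h hd₁W)
  have hd₁₂M : d₁ + d₂ ∉ M := fun h => hd₁₂W (hMW h)
  have hDM : ∀ v ∈ out X M, v ∉ M := fun v hv => (Finset.mem_filter.1 hv).2
  obtain ⟨t, ht⟩ : ∃ t : Finset E → ℝ, t = fun F =>
    if rk F = 2 then -((cs X u (sp F) d₂ : ℤ) : ℝ) ^ 4 else 0 := ⟨_, rfl⟩
  have ht2 : ∀ F, rk F = 2 → t F = -((cs X u (sp F) d₂ : ℤ) : ℝ) ^ 4 := fun F h => by
    rw [ht]; exact if_pos h
  have ht0 : ∀ F, rk F ≠ 2 → t F = 0 := fun F h => by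
    rw [ht]; exact if_neg h
  have hlim : ∀ F ∈ fl (inn X M), Tendsto (fun x : ℝ =>
      TT (out X M) (sp F) (ex u x) / (x : ℂ) ^ 4) (𝓝[>] 0) (𝓝 ((t F : ℝ) : ℂ)) := by
    intro F hF
    have hFsub : F ⊆ inn X M := Finset.mem_powerset.1 (Finset.mem_filter.1 hF).1
    have hFM : ∀ v ∈ F, v ∈ M := fun v hv => (Finset.mem_filter.1 (hFsub hv)).2
    have hFX : ∀ v ∈ F, v ∈ X := fun v hv => (Finset.mem_filter.1 (hFsub hv)).1
    have hGM : sp F ≤ M := span_le.2 fun v hv => hFM v (Finset.mem_coe.1 hv)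
    have hle : rk F ≤ 3 := by
      have := Submodule.finrank_mono hGM
      rw [hM3] at this
      exact this
    have hFW : F ⊆ inn X (M ⊔ span (ZMod 2) {d₁}) := fun v hv =>
      Finset.mem_filter.2 ⟨hFX v hv, hMW (hFM v hv)⟩
    rcases (by omega : rk F = 0 ∨ rk F = 1 ∨ rk F = 2 ∨ rk F = 3) with h | h | h | h
    · rw [ht0 F (by omega), Complex.ofReal_zero]
      exact (hLIM (out X M) (sp F) u 5 (by
        have : Module.finrank (ZMod 2) (sp F) = 0 := h
        omega)).2 4 (by norm_num)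
    · rw [ht0 F (by omega), Complex.ofReal_zero]
      have h1 := (hLIM (out X M) (sp F) u 4 (by
        have : Module.finrank (ZMod 2) (sp F) = 1 := h
        omega)).1
      have h2 := (b3 (out X M) (Finset.filter_subset _ _) (fun v hv =>
        Finset.mem_filter.2 ⟨(Finset.mem_filter.1 hv).1,
          fun hm => (Finset.mem_filter.1 hv).2 (hMW hm)⟩) F hFW).2.1 h
      rw [h2, Int.cast_zero] at h1
      exact h1
    · -- rank two
      rw [ht2 F h]
      have hG2 : Module.finrank (ZMod 2) (sp F) = 2 := h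
      obtain ⟨p, hpX, hpM, hpG⟩ : ∃ p, p ∈ X ∧ p ∈ M ∧ p ∉ sp F := by
        by_contra hcon
        have h1 : M ≤ sp F := hspan _ fun o ho => by
          by_contra h2
          exact hcon ⟨o, hOdX o ho, hOdM o ho, h2⟩
        have h2 := Submodule.finrank_mono h1
        omega
      have hGp : sp F ⊔ span (ZMod 2) {p} = M := by
        apply Submodule.eq_of_le_of_finrank_eq
        · refine sup_le hGM ?_
          rw [span_singleton_le_iff_mem]
          exact hpM
        · rw [M3d_fin _ p hpG, hG2, hM3]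
      have hGtop : sp F ⊔ span (ZMod 2) {p, d₁, d₂} = ⊤ := by
        rw [Submodule.span_insert, ← sup_assoc, hGp]
        exact htop2
      have hDG : ∀ v ∈ out X M, v ∉ sp F ∧ v + p ∉ sp F := fun v hv => by
        refine ⟨fun hm => hDM v hv (hGM hm), fun hm => hDM v hv ?_⟩
        have h1 : p + v ∈ M := by
          rw [add_comm]
          exact hGM hm
        exact M3d_add_mem h1 hpM
      have hadd : ∀ v, v ∉ M → v + p ∉ M := fun v hv hm => hv (by
        rw [add_comm] at hm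
        exact M3d_add_mem hm hpM)
      have hd₁G : d₁ ∉ sp F := fun hm => hd₁M (hGM hm)
      -- the relations of the sums
      have e1 : cs X u (sp F) d₂ + cs X u (sp F) (d₂ + p) = 0 := by
        rw [← cs2 (sp F) d₂ p hpG, hGp]
        exact hout d₂ hd₂
      have e2 : cs X u (sp F) (d₁ + d₂) + cs X u (sp F) (d₁ + d₂ + p) = 0 := by
        rw [← cs2 (sp F) (d₁ + d₂) p hpG, hGp]
        exact hout _ hd₁₂W
      have hins : ∀ x, x ∈ X → x ∈ M ⊔ span (ZMod 2) {d₁} → x ∉ sp F →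
          cs X u (sp F) d₂ + cs X u (sp F) (d₂ + x) = 0 := by
        intro x hxX hxW hxG
        have h1 := b2 (insert x F) (fun v hv => by
          rcases Finset.mem_insert.1 hv with rfl | hv
          · exact Finset.mem_filter.2 ⟨hxX, hxW⟩
          · exact hFW hv) (by
            show Module.finrank (ZMod 2) (sp (insert x F)) = 3
            rw [M3d_ins, M3d_fin _ x hxG, hG2]) d₂ hd₂
        rw [M3d_ins, cs2 (sp F) d₂ x hxG] at h1
        exact h1
      have e3 : cs X u (sp F) d₂ + cs X u (sp F) (d₁ + d₂) = 0 := by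
        have h1 := hins d₁ hd₁X hd₁W hd₁G
        rwa [add_comm d₂ d₁] at h1
      have hT := fun x : ℝ => hT3 (out X M) u (sp F) hG2 p d₁ d₂ hGtop hDG x
      rw [cs3 (sp F) M d₁ hGM hd₁M, cs3 (sp F) M (d₁ + p) hGM (hadd _ hd₁M),
        cs3 (sp F) M d₂ hGM hd₂M, cs3 (sp F) M (d₂ + p) hGM (hadd _ hd₂M),
        cs3 (sp F) M (d₁ + d₂) hGM hd₁₂M, cs3 (sp F) M (d₁ + d₂ + p) hGM (hadd _ hd₁₂M)] at hT
      obtain ⟨β, hβ⟩ : ∃ β, β = cs X u (sp F) d₂ := ⟨_, rfl⟩
      rw [← hβ] at e1 e3 hT ⊢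
      have f1 : cs X u (sp F) (d₂ + p) = -β := by linarith
      have f2 : cs X u (sp F) (d₁ + d₂) = -β := by linarith
      have f3 : cs X u (sp F) (d₁ + d₂ + p) = β := by linarith
      rw [f1, f2, f3] at hT
      by_cases hβ0 : β = 0
      · have h1 : (fun x : ℝ => TT (out X M) (sp F) (ex u x) / (x : ℂ) ^ 4) = fun _ => 0 := by
          funext x
          have h2 := (hLF3 (x * ((cs X u (sp F) d₁ : ℤ) : ℝ))
            (x * ((cs X u (sp F) (d₁ + p) : ℤ) : ℝ)) 0 0 0 0).2.2.1
          rw [hT x, hβ0]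
          push_cast at h2
          simp only [Int.cast_zero, neg_zero, mul_zero]
          rw [h2, zero_div]
        rw [h1, hβ0]
        simp
      · have h2 : cs X u (sp F) (d₁ + p) = 0 := by
          by_contra h3
          obtain ⟨x, hxX, hx⟩ := cs4 (sp F) (d₁ + p) h3
          have hxM : x ∉ M := fun hm => by
            have h4 := M3d_add_mem (hGM hx) hm
            rw [add_comm] at h4
            exact hd₁M (M3d_add_mem h4 hpM)
          have hxW : x ∈ M ⊔ span (ZMod 2) {d₁} := by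
            have h4 : (d₁ + p) + x ∈ M ⊔ span (ZMod 2) {d₁} := by
              rw [add_comm]
              exact hMW (hGM hx)
            exact M3d_add_mem h4 (add_mem hd₁W (hMW hpM))
          have h5 := hins x hxX hxW (fun hm => hxM (hGM hm))
          have h6 : cs X u (sp F) (d₂ + x) = cs X u (sp F) (d₁ + d₂ + p) := by
            apply cs1
            have h7 : d₂ + x + (d₁ + d₂ + p) = x + (d₁ + p) := by
              have h8 := M3d_two d₂
              calc d₂ + x + (d₁ + d₂ + p) = x + (d₁ + p) + (d₂ + d₂) := by abel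
                _ = x + (d₁ + p) := by rw [h8, add_zero]
            rw [h7]
            exact hx
          rw [h6, f3, ← hβ] at h5
          omega
        have h3 := (hLF3 ((cs X u (sp F) d₁ : ℤ) : ℝ) 0 (β : ℝ) 0 0 0).1
        refine h3.congr fun x => ?_
        rw [hT x, h2]
        push_cast
        rw [mul_zero]
    · have hGe : sp F = M := by
        apply Submodule.eq_of_le_of_finrank_eq hGM
        rw [hM3]
        exact h
      rw [ht0 F (by omega), Complex.ofReal_zero, hGe]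
      have h1 : (fun x : ℝ => TT (out X M) M (ex u x) / (x : ℂ) ^ 4) = fun _ => 0 := by
        funext x
        have h2 := (hLF2 (x * ((cs X u M d₁ : ℤ) : ℝ)) 0 0).2.2.1
        rw [hT2 (out X M) u M hM3 hDM d₁ d₂ htop2 x, cs3 M M d₁ le_rfl hd₁M,
          cs3 M M d₂ le_rfl hd₂M, cs3 M M (d₁ + d₂) le_rfl hd₁₂M, hout d₂ hd₂, hout _ hd₁₂W]
        push_cast at h2
        simp only [Int.cast_zero, mul_zero]
        rw [h2, zero_div]
      rw [h1]
      exact tendsto_const_nhds
  have hcoh : Coh (inn X M) (Od X u n) t := by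
    refine ⟨-1, Or.inr rfl, fun F _ _ => ?_⟩
    by_cases h : rk F = 2
    · rw [ht2 F h, h]
      have : (0 : ℝ) ≤ ((cs X u (sp F) d₂ : ℤ) : ℝ) ^ 4 := by positivity
      linarith
    · rw [ht0 F h, mul_zero]
  have hfin := hMas 4 t hlim hcoh F₀ hF₀ hsp₀
  rw [ht2 F₀ hrkF₀, neg_eq_zero] at hfin
  have h1 := pow_eq_zero_iff (by norm_num : (4 : ℕ) ≠ 0) |>.1 hfin
  exact_mod_cast h1

end Pool.Agent.TRG
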