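import Pool.Agent.TRG.St

/-! # M3e: one nonzero sum (MP_42db45_gt; helper42) -/

set_option autoImplicit false

open Submodule

namespace Pool.Agent.TRG

private theorem M3e_basis (S : Finset E) (h : rk S = 3) : ∃ o : Fin 3 → E, (∀ k, o k ∈ S) ∧
    LinearIndependent (ZMod 2) o ∧ span (ZMod 2) (Set.range o) = sp S := by
  classical
  obtain ⟨b, hb1, hb2, hb3⟩ := exists_linearIndependent (ZMod 2) (S : Set E)
  have hbf : b.Finite := (Finset.finite_toSet _).subset hb1
  have : Fintype b := hbf.fintype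
  have hc : Fintype.card b = 3 := by
    have h1 := finrank_span_eq_card hb3
    rw [Subtype.range_coe, hb2] at h1
    rw [← h1]
    exact h
  let e : b ≃ Fin 3 := Fintype.equivFinOfCardEq hc
  refine ⟨fun k => (e.symm k).1, fun k => hb1 (e.symm k).2, hb3.comp e.symm e.symm.injective, ?_⟩
  have hr : Set.range (fun k => (e.symm k).1) = b := by
    ext x
    constructor
    · rintro ⟨k, rfl⟩
      exact (e.symm k).2
    · intro hx
      exact ⟨e ⟨x, hx⟩, by simp⟩
  rw [hr]
  exact hb2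

private theorem M3e_hyp (M : Submodule (ZMod 2) E) (d : E) (hM : Module.finrank (ZMod 2) M = 3)
    (hd : d ∉ M) : Module.finrank (ZMod 2) (M ⊔ span (ZMod 2) {d} : Submodule (ZMod 2) E) = 4 := by
  have hd0 : d ≠ 0 := fun h => hd (h ▸ M.zero_mem)
  have h1 := Submodule.finrank_sup_add_finrank_inf_eq M (span (ZMod 2) {d})
  have h2 : M ⊓ span (ZMod 2) {d} = ⊥ := (Submodule.disjoint_span_singleton' hd0).2 hd |>.eq_bot
  rw [h2, finrank_bot, finrank_span_singleton hd0, hM] at h1
  omega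

/-- [M3e] -/
theorem M3e_proof (hM3c : St_M3c) (hM3d : St_M3d) (hCS : St_CS) : St_M3e := by
  classical
  intro X u L n hC hL hr d hd1 hd2 hz
  have hK := hM3c X u L n hC hL hr d hd1 hd2 hz
  obtain ⟨o, ho, hind, hsp⟩ := M3e_basis (Od X u n) hr
  have hOX : ∀ v, v ∈ Od X u n → v ∈ X := fun v hv => (Finset.mem_filter.1 hv).1
  have hoM : ∀ k, o k ∈ sp (Od X u n) := fun k => subset_span (ho k)
  refine ⟨o, ho, ⟨fun k => hOX _ (ho k), hind, M3e_hyp _ _ hr hd2, fun k => mem_sup_left (hoM k), ?_, ?_⟩⟩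
  · intro v hv
    rw [hsp]
    exact hz v hv
  · intro v hv k
    have hG : span (ZMod 2) (o '' {i | i ≠ k}) ≤ sp (Od X u n) := by
      rw [span_le]
      rintro _ ⟨i, -, rfl⟩
      exact hoM i
    have hF := ((hCS X u).2.2.2.2.2 (sp (Od X u n)) (span (ZMod 2) (o '' {i | i ≠ k})) hG).2
    have hmem : ∀ i, i ≠ k → o i ∈ inn X (span (ZMod 2) (o '' {i | i ≠ k})) := fun i hi =>
      Finset.mem_filter.2 ⟨hOX _ (ho i), subset_span ⟨i, hi, rfl⟩⟩
    have hle : sp (inn X (span (ZMod 2) (o '' {i | i ≠ k}))) ≤ span (ZMod 2) (o '' {i | i ≠ k}) := by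
      refine span_le.2 fun x hx => ?_
      exact (Finset.mem_filter.1 (Finset.mem_coe.1 hx)).2
    have hge : span (ZMod 2) (o '' {i | i ≠ k}) ≤
        sp (inn X (span (ZMod 2) (o '' {i | i ≠ k})) ∩ Od X u n) := by
      refine span_le.2 ?_
      rintro _ ⟨i, hi, rfl⟩
      exact subset_span (Finset.mem_coe.2 (Finset.mem_inter.2 ⟨hmem i hi, ho i⟩))
    have hle2 : sp (inn X (span (ZMod 2) (o '' {i | i ≠ k})) ∩ Od X u n) ≤
        sp (inn X (span (ZMod 2) (o '' {i | i ≠ k}))) :=
      span_mono (Finset.coe_subset.2 Finset.inter_subset_left)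
    have e1 : sp (inn X (span (ZMod 2) (o '' {i | i ≠ k}))) = span (ZMod 2) (o '' {i | i ≠ k}) :=
      le_antisymm hle (hge.trans hle2)
    have e2 : sp (inn X (span (ZMod 2) (o '' {i | i ≠ k})) ∩ Od X u n) =
        sp (inn X (span (ZMod 2) (o '' {i | i ≠ k}))) := le_antisymm hle2 (hle.trans hge)
    have hrk : rk (inn X (span (ZMod 2) (o '' {i | i ≠ k}))) = 2 := by
      unfold rk
      rw [e1]
      have h1 : LinearIndependent (ZMod 2) (fun i : {i : Fin 3 // i ≠ k} => o i.1) :=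
        hind.comp _ Subtype.val_injective
      have h2 := finrank_span_eq_card h1
      have h3 : Set.range (fun i : {i : Fin 3 // i ≠ k} => o i.1) = o '' {i | i ≠ k} := by
        ext x
        constructor
        · rintro ⟨i, rfl⟩
          exact ⟨i.1, i.2, rfl⟩
        · rintro ⟨i, hi, rfl⟩
          exact ⟨⟨i, hi⟩, rfl⟩
      rw [h3] at h2
      rw [h2]
      simp [Fintype.card_subtype_compl]
    have := hM3d X u L n hC hL hr d hd1 hd2 hz hK _ hF hrk e2 v hv
    rwa [e1] at this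

end Pool.Agent.TRG
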