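import Pool.Agent.TRG.St

/-!
# TRG M3f : all three sums zero, order four
-/

set_option autoImplicit false

open Submodule Filter Topology
open Pool.Agent.SPT Pool.Agent.SPT.Rel

namespace Pool.Agent.TRG

private lemma M3f_self (v : E) : v + v = 0 := by
  ext i
  exact CharTwo.add_self_eq_zero (v i)

private lemma M3f_rank (S : Submodule (ZMod 2) E) (x : E) :
    Module.finrank (ZMod 2) ↥(S ⊔ span (ZMod 2) {x}) ≤ Module.finrank (ZMod 2) S + 1 := by
  refine (Submodule.finrank_add_le_finrank_add_finrank S (span (ZMod 2) {x})).trans ?_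
  have h1 : Module.finrank (ZMod 2) (span (ZMod 2) {x}) ≤ 1 := by
    refine (finrank_span_le_card ({x} : Set E)).trans ?_
    simp
  omega

private lemma M3f_top : Module.finrank (ZMod 2) (⊤ : Submodule (ZMod 2) E) = 5 := by
  rw [finrank_top, Module.finrank_fin_fun]

/-- choice of an element outside of a small subspace -/
private lemma M3f_pick {A : Finset E} {S M : Submodule (ZMod 2) E} (hA : sp A = M)
    (h : Module.finrank (ZMod 2) S < Module.finrank (ZMod 2) M) : ∃ x ∈ A, x ∉ S := by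
  by_contra hc
  push Not at hc
  have h1 : sp A ≤ S := span_le.2 fun x hx => hc x hx
  rw [hA] at h1
  exact absurd (Submodule.finrank_mono h1) (not_le.2 h)

private lemma M3f_lt {S : Submodule (ZMod 2) E} {x : E} (hx : x ∉ S) :
    Module.finrank (ZMod 2) S + 1 ≤ Module.finrank (ZMod 2) ↥(S ⊔ span (ZMod 2) {x}) := by
  have h1 : S < S ⊔ span (ZMod 2) {x} := by
    refine lt_of_le_of_ne le_sup_left fun h => hx ?_
    rw [h]
    exact mem_sup_right (mem_span_singleton_self x)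
  exact Submodule.finrank_lt_finrank_of_lt h1

/-- classes modulo `G` -/
private lemma M3f_cls {G : Submodule (ZMod 2) E} {b w : E} (h : b ∈ G ⊔ span (ZMod 2) {w})
    (hb : b ∉ G) : b + w ∈ G := by
  obtain ⟨g, hg, y, hy, rfl⟩ := mem_sup.1 h
  obtain ⟨c, rfl⟩ := mem_span_singleton.1 hy
  have hc : c = 0 ∨ c = 1 := by
    fin_cases c
    · exact Or.inl rfl
    · exact Or.inr rfl
  rcases hc with rfl | rfl
  · rw [zero_smul, add_zero] at hb
    exact absurd hg hb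
  · rw [one_smul, add_assoc, M3f_self, add_zero]
    exact hg

private lemma M3f_notmem {M : Submodule (ZMod 2) E} (hM : Module.finrank (ZMod 2) M = 3) {d₁ d₂ : E}
    (h : M ⊔ span (ZMod 2) {d₁, d₂} = ⊤) : d₁ ∉ M ∧ d₂ ∉ M ∧ d₁ + d₂ ∉ M := by
  have key : ∀ x : E, d₁ ∈ M ⊔ span (ZMod 2) {x} → d₂ ∈ M ⊔ span (ZMod 2) {x} → False := by
    intro x h1 h2
    have h3 : (⊤ : Submodule (ZMod 2) E) ≤ M ⊔ span (ZMod 2) {x} := by
      rw [← h]
      refine sup_le le_sup_left (span_le.2 ?_)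
      rintro y (rfl | rfl)
      · exact h1
      · exact h2
    have h4 := Submodule.finrank_mono h3
    have h5 := M3f_rank M x
    rw [M3f_top] at h4
    omega
  refine ⟨fun h1 => ?_, fun h1 => ?_, fun h1 => ?_⟩
  · exact key d₂ (mem_sup_left h1) (mem_sup_right (mem_span_singleton_self d₂))
  · exact key d₁ (mem_sup_right (mem_span_singleton_self d₁)) (mem_sup_left h1)
  · refine key d₁ (mem_sup_right (mem_span_singleton_self d₁)) ?_
    have h2 : d₂ = (d₁ + d₂) + d₁ := by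
      linear_combination (-1 : E) * M3f_self d₁
    rw [h2]
    exact add_mem (mem_sup_left h1) (mem_sup_right (mem_span_singleton_self d₁))

private lemma M3f_det (q : Fin 5 → Fin 5 → ℤ) (hs : ∀ i j, q i j = q j i) (h33 : q 3 3 = 0)
    (h34 : q 3 4 = 0) (h44 : q 4 4 = 0) :
    Matrix.det (fun i j : Fin 4 => q i.succ j.succ) = (q 1 3 * q 2 4 - q 1 4 * q 2 3) ^ 2 := by
  have h43 : q 4 3 = 0 := by rw [hs, h34]
  have h31 := hs 3 1
  have h32 := hs 3 2
  have h41 := hs 4 1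
  have h42 := hs 4 2
  have e1 : (Fin.succ 0 : Fin 5) = 1 := rfl
  have e2 : (Fin.succ 1 : Fin 5) = 2 := rfl
  have e3 : (Fin.succ 2 : Fin 5) = 3 := rfl
  have e4 : (Fin.succ 3 : Fin 5) = 4 := rfl
  rw [show (fun i j : Fin 4 => q i.succ j.succ) = Matrix.of ![![q 1 1, q 1 2, q 1 3, q 1 4],
    ![q 2 1, q 2 2, q 2 3, q 2 4], ![q 1 3, q 2 3, 0, 0], ![q 1 4, q 2 4, 0, 0]] from ?_]
  · rw [Matrix.det_succ_row_zero]
    simp [Fin.sum_univ_succ, Matrix.det_fin_three, Fin.succAbove]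
    ring
  · ext i j
    fin_cases i <;> fin_cases j <;> simp [e1, e2, e3, e4, h33, h34, h43, h44, h31, h32, h41, h42]

private lemma M3f_li {b : Fin 5 → E} (h : (⊤ : Submodule (ZMod 2) E) ≤ span (ZMod 2) (Set.range b)) :
    LinearIndependent (ZMod 2) b := by
  refine linearIndependent_of_top_le_span_of_card_eq_finrank h ?_
  rw [Module.finrank_fin_fun, Fintype.card_fin]

private lemma M3f_range (x₀ x₁ x₂ x₃ x₄ : E) : span (ZMod 2) (Set.range ![x₀, x₁, x₂, x₃, x₄]) =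
    span (ZMod 2) {x₀} ⊔ span (ZMod 2) {x₁} ⊔ span (ZMod 2) {x₂} ⊔ span (ZMod 2) {x₃} ⊔
      span (ZMod 2) {x₄} := by
  apply le_antisymm
  · rw [span_le]
    rintro _ ⟨i, rfl⟩
    fin_cases i
    · exact mem_sup_left (mem_sup_left (mem_sup_left (mem_sup_left (mem_span_singleton_self _))))
    · exact mem_sup_left (mem_sup_left (mem_sup_left (mem_sup_right (mem_span_singleton_self _))))
    · exact mem_sup_left (mem_sup_left (mem_sup_right (mem_span_singleton_self _)))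
    · exact mem_sup_left (mem_sup_right (mem_span_singleton_self _))
    · exact mem_sup_right (mem_span_singleton_self _)
  · refine sup_le (sup_le (sup_le (sup_le ?_ ?_) ?_) ?_) ?_ <;>
      refine span_mono (Set.singleton_subset_iff.2 ?_)
    · exact ⟨0, rfl⟩
    · exact ⟨1, rfl⟩
    · exact ⟨2, rfl⟩
    · exact ⟨3, rfl⟩
    · exact ⟨4, rfl⟩

private lemma M3f_im3 (x₀ x₁ x₂ x₃ x₄ : E) :
    span (ZMod 2) (![x₀, x₁, x₂, x₃, x₄] '' {j | j ≠ 3}) =
    span (ZMod 2) {x₀} ⊔ span (ZMod 2) {x₁} ⊔ span (ZMod 2) {x₂} ⊔ span (ZMod 2) {x₄} := by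
  apply le_antisymm
  · rw [span_le]
    rintro _ ⟨i, hi, rfl⟩
    fin_cases i
    · exact mem_sup_left (mem_sup_left (mem_sup_left (mem_span_singleton_self _)))
    · exact mem_sup_left (mem_sup_left (mem_sup_right (mem_span_singleton_self _)))
    · exact mem_sup_left (mem_sup_right (mem_span_singleton_self _))
    · exact absurd rfl hi
    · exact mem_sup_right (mem_span_singleton_self _)
  · refine sup_le (sup_le (sup_le ?_ ?_) ?_) ?_ <;>
      refine span_mono (Set.singleton_subset_iff.2 ?_)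
    · exact ⟨0, by decide, rfl⟩
    · exact ⟨1, by decide, rfl⟩
    · exact ⟨2, by decide, rfl⟩
    · exact ⟨4, by decide, rfl⟩

private lemma M3f_im4 (x₀ x₁ x₂ x₃ x₄ : E) :
    span (ZMod 2) (![x₀, x₁, x₂, x₃, x₄] '' {j | j ≠ 4}) =
    span (ZMod 2) {x₀} ⊔ span (ZMod 2) {x₁} ⊔ span (ZMod 2) {x₂} ⊔ span (ZMod 2) {x₃} := by
  apply le_antisymm
  · rw [span_le]
    rintro _ ⟨i, hi, rfl⟩
    fin_cases i
    · exact mem_sup_left (mem_sup_left (mem_sup_left (mem_span_singleton_self _)))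
    · exact mem_sup_left (mem_sup_left (mem_sup_right (mem_span_singleton_self _)))
    · exact mem_sup_left (mem_sup_right (mem_span_singleton_self _))
    · exact mem_sup_right (mem_span_singleton_self _)
    · exact absurd rfl hi
  · refine sup_le (sup_le (sup_le ?_ ?_) ?_) ?_ <;>
      refine span_mono (Set.singleton_subset_iff.2 ?_)
    · exact ⟨0, by decide, rfl⟩
    · exact ⟨1, by decide, rfl⟩
    · exact ⟨2, by decide, rfl⟩
    · exact ⟨3, by decide, rfl⟩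

/-- equality of a subspace with a larger one -/
private lemma M3f_eq {S T : Submodule (ZMod 2) E} (h : S ≤ T)
    (h1 : Module.finrank (ZMod 2) T ≤ Module.finrank (ZMod 2) S) : S = T :=
  Submodule.eq_of_le_of_finrank_le h h1

private lemma M3f_inn {X : Finset E} {M : Submodule (ZMod 2) E} {v : E} :
    v ∈ inn X M ↔ v ∈ X ∧ v ∈ M := by
  simp only [inn, Finset.mem_filter]

private lemma M3f_out {X : Finset E} {M : Submodule (ZMod 2) E} {v : E} :
    v ∈ out X M ↔ v ∈ X ∧ v ∉ M := by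
  simp only [out, Finset.mem_filter]

private lemma M3f_fl {A F : Finset E} (h : F ∈ fl A) : F ⊆ A := by
  simp only [fl, Finset.mem_filter, Finset.mem_powerset] at h
  exact h.1

/-- a flat of rank one, a basis -/
private lemma M3f_basis {X : Finset E} (hX : sp X = ⊤) {M : Submodule (ZMod 2) E}
    (hM : Module.finrank (ZMod 2) M = 3) (hA : sp (inn X M) = M) {F : Finset E} (hF : F ⊆ inn X M)
    (hr : rk F = 1) : ∃ x₀ x₁ x₂ x₃ x₄ : E, x₀ ∈ X ∧ x₁ ∈ X ∧ x₂ ∈ X ∧ x₃ ∈ X ∧ x₄ ∈ X ∧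
      sp F = span (ZMod 2) {x₀} ∧
      M = span (ZMod 2) {x₀} ⊔ span (ZMod 2) {x₁} ⊔ span (ZMod 2) {x₂} ∧
      M ⊔ span (ZMod 2) {x₃} ⊔ span (ZMod 2) {x₄} = ⊤ := by
  have hsub : ∀ v ∈ inn X M, v ∈ X ∧ v ∈ M := fun v hv => M3f_inn.1 hv
  have hb : Module.finrank (ZMod 2) (⊥ : Submodule (ZMod 2) E) = 0 := finrank_bot _ _
  obtain ⟨x₀, h0, h0'⟩ := M3f_pick (A := F) (S := ⊥) rfl (by rw [hb]; rw [rk] at hr; omega)
  have e0 : span (ZMod 2) {x₀} ≤ sp F := span_mono (Set.singleton_subset_iff.2 h0)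
  have r0 : Module.finrank (ZMod 2) (span (ZMod 2) {x₀}) = 1 :=
    finrank_span_singleton fun h => h0' (by rw [h]; exact zero_mem _)
  have f0 : span (ZMod 2) {x₀} = sp F := M3f_eq e0 (by rw [r0]; rw [rk] at hr; omega)
  obtain ⟨x₁, h1, h1'⟩ := M3f_pick hA (S := span (ZMod 2) {x₀}) (by omega)
  have r1 := M3f_lt h1'
  have s1 := M3f_rank (span (ZMod 2) {x₀}) x₁
  obtain ⟨x₂, h2, h2'⟩ := M3f_pick hA (S := span (ZMod 2) {x₀} ⊔ span (ZMod 2) {x₁}) (by omega)
  have r2 := M3f_lt h2'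
  have e2 : span (ZMod 2) {x₀} ⊔ span (ZMod 2) {x₁} ⊔ span (ZMod 2) {x₂} = M := by
    refine M3f_eq ?_ (by omega)
    refine sup_le (sup_le ?_ ?_) ?_
    · exact span_le.2 (Set.singleton_subset_iff.2 (hsub _ (hF h0)).2)
    · exact span_le.2 (Set.singleton_subset_iff.2 (hsub _ h1).2)
    · exact span_le.2 (Set.singleton_subset_iff.2 (hsub _ h2).2)
  have ht := M3f_top
  obtain ⟨x₃, h3, h3'⟩ := M3f_pick hX (S := M) (by omega)
  have r3 := M3f_lt h3'
  have s3 := M3f_rank M x₃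
  obtain ⟨x₄, h4, h4'⟩ := M3f_pick hX (S := M ⊔ span (ZMod 2) {x₃}) (by omega)
  have r4 := M3f_lt h4'
  exact ⟨x₀, x₁, x₂, x₃, x₄, (hsub _ (hF h0)).1, (hsub _ h1).1, (hsub _ h2).1, h3, h4, f0.symm,
    e2.symm, M3f_eq le_top (by omega)⟩

/-- the sum over the elements outside of two subspaces as a sum over a class -/
private lemma M3f_sum1 {X : Finset E} {u : E → ℤ} {M H : Submodule (ZMod 2) E} {b : E} (hMH : M ≤ H)
    (hb : b ∉ H) (hH : H ⊔ span (ZMod 2) {b} = ⊤) :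
    ∑ v ∈ out (out X M) H, u v = cs X u H b := by
  unfold cs
  refine Finset.sum_congr ?_ fun _ _ => rfl
  ext w
  rw [M3f_out, M3f_out]
  simp only [Finset.mem_filter]
  constructor
  · rintro ⟨⟨h1, h2⟩, h3⟩
    exact ⟨h1, M3f_cls (by rw [hH]; exact mem_top) h3⟩
  · rintro ⟨h1, h2⟩
    have h3 : w ∉ H := fun h => hb (by
      have h4 := sub_mem h2 h
      rwa [add_sub_cancel_left] at h4)
    exact ⟨⟨h1, fun h => h3 (hMH h)⟩, h3⟩

private lemma M3f_sum2 {X : Finset E} {u : E → ℤ} {M : Submodule (ZMod 2) E} {b c : E}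
    (hb : b ∉ M ⊔ span (ZMod 2) {c}) (hc : c ∉ M ⊔ span (ZMod 2) {b})
    (hH : M ⊔ span (ZMod 2) {b} ⊔ span (ZMod 2) {c} = ⊤) :
    ∑ v ∈ out (out (out X M) (M ⊔ span (ZMod 2) {c})) (M ⊔ span (ZMod 2) {b}), u v
      = cs X u M (b + c) := by
  unfold cs
  refine Finset.sum_congr ?_ fun _ _ => rfl
  have hH' : M ⊔ span (ZMod 2) {c} ⊔ span (ZMod 2) {b} = ⊤ := by
    rw [← hH, sup_assoc, sup_assoc, sup_comm (span (ZMod 2) {c})]
  ext w
  rw [M3f_out, M3f_out, M3f_out]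
  simp only [Finset.mem_filter]
  constructor
  · rintro ⟨⟨⟨h1, _⟩, h2⟩, h3⟩
    refine ⟨h1, ?_⟩
    have h4 : w + b ∈ M ⊔ span (ZMod 2) {c} := M3f_cls (by rw [hH']; exact mem_top) h2
    have h5 : w + b ∉ M := fun h => h3 (by
      have h6 : w = (w + b) + b := by linear_combination (-1 : E) * M3f_self b
      rw [h6]
      exact add_mem (mem_sup_left h) (mem_sup_right (mem_span_singleton_self b)))
    have h7 := M3f_cls h4 h5
    rwa [add_assoc] at h7
  · rintro ⟨h1, h2⟩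
    have h3 : w ∉ M ⊔ span (ZMod 2) {c} := fun h => hb (by
      have h4 : b = (w + (b + c)) - w - c := by ring
      rw [h4]
      exact sub_mem (sub_mem (mem_sup_left h2) h) (mem_sup_right (mem_span_singleton_self c)))
    have h5 : w ∉ M ⊔ span (ZMod 2) {b} := fun h => hc (by
      have h4 : c = (w + (b + c)) - w - b := by ring
      rw [h4]
      exact sub_mem (sub_mem (mem_sup_left h2) h) (mem_sup_right (mem_span_singleton_self b)))
    exact ⟨⟨⟨h1, fun h => h3 (mem_sup_left h)⟩, h3⟩, h5⟩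

private lemma M3f_tau (hCS : St_CS) (hQF : St_QF) (hTAU : St_TAU) {X : Finset E} {u : E → ℤ}
    {L : E → Fin 5 → ℤ} (hU : Uni X L) (hX : sp X = ⊤) {M : Submodule (ZMod 2) E}
    (hM : Module.finrank (ZMod 2) M = 3) (hA : sp (inn X M) = M)
    (htot : ∀ v, v ∉ M → cs X u M v = 0) {F : Finset E} (hF : F ⊆ inn X M)
    (hr : rk F = 1) : 0 ≤ tau (out X M) (sp F) u 4 := by
  obtain ⟨x₀, x₁, x₂, x₃, x₄, h0, h1, h2, h3, h4, e1, e2, e3⟩ := M3f_basis hX hM hA hF hr
  set b : Fin 5 → E := ![x₀, x₁, x₂, x₃, x₄] with hb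
  have hbas : Bas X b := by
    refine ⟨?_, M3f_li ?_⟩
    · intro i
      fin_cases i
      · exact h0
      · exact h1
      · exact h2
      · exact h3
      · exact h4
    · rw [hb, M3f_range, ← e2, e3]
  have ht := M3f_top
  have e3' : M ⊔ span (ZMod 2) {x₄} ⊔ span (ZMod 2) {x₃} = ⊤ := by
    rw [← e3, sup_assoc, sup_assoc, sup_comm (span (ZMod 2) {x₄})]
  have n3 : x₃ ∉ M ⊔ span (ZMod 2) {x₄} := by
    intro h
    have h5 : (⊤ : Submodule (ZMod 2) E) ≤ M ⊔ span (ZMod 2) {x₄} := by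
      rw [← e3']
      exact sup_le le_rfl (span_le.2 (Set.singleton_subset_iff.2 h))
    have h6 := Submodule.finrank_mono h5
    have h7 := M3f_rank M x₄
    omega
  have n4 : x₄ ∉ M ⊔ span (ZMod 2) {x₃} := by
    intro h
    have h5 : (⊤ : Submodule (ZMod 2) E) ≤ M ⊔ span (ZMod 2) {x₃} := by
      rw [← e3]
      exact sup_le le_rfl (span_le.2 (Set.singleton_subset_iff.2 h))
    have h6 := Submodule.finrank_mono h5
    have h7 := M3f_rank M x₃
    omega
  have m3 : x₃ ∉ M := fun h => n3 (mem_sup_left h)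
  have m4 : x₄ ∉ M := fun h => n4 (mem_sup_left h)
  have m34 : x₃ + x₄ ∉ M := fun h => n3 (by
    have h5 : x₃ = (x₃ + x₄) - x₄ := by ring
    rw [h5]
    exact sub_mem (mem_sup_left h) (mem_sup_right (mem_span_singleton_self x₄)))
  have hD : out X M ⊆ X := fun v hv => (M3f_out.1 hv).1
  obtain ⟨_, hc2, _, _, _, _⟩ := hCS X u
  have i3 : span (ZMod 2) (b '' {j | j ≠ 3}) = M ⊔ span (ZMod 2) {x₄} := by
    rw [hb, M3f_im3, ← e2]
  have i4 : span (ZMod 2) (b '' {j | j ≠ 4}) = M ⊔ span (ZMod 2) {x₃} := by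
    rw [hb, M3f_im4, ← e2]
  obtain ⟨hq1, hq2⟩ := hQF X L hU b hbas
  have q33 : Qf L b (out X M) u 3 3 = 0 := by
    rw [hq1 3 _ u hD, i3, M3f_sum1 le_sup_left n3 e3', hc2 _ _ _ m4, htot _ m3, htot _ m34, add_zero]
  have q44 : Qf L b (out X M) u 4 4 = 0 := by
    rw [hq1 4 _ u hD, i4, M3f_sum1 le_sup_left n4 e3, hc2 _ _ _ m3, htot _ m4, add_comm x₄ x₃,
      htot _ m34, add_zero]
  have q34 : Qf L b (out X M) u 3 4 = 0 := by
    obtain ⟨σ, _, hσ⟩ := hq2 3 4 (by decide)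
    rw [hσ _ u hD, i3, i4, M3f_sum2 n3 n4 e3, htot _ m34, mul_zero]
  have hs : ∀ i j, Qf L b (out X M) u i j = Qf L b (out X M) u j i := by
    intro i j
    unfold Qf
    exact Finset.sum_congr rfl fun v _ => by ring
  have h5 := (hTAU X L hU b hbas (out X M) hD u).2.1
  have h6 : (span (ZMod 2) {b 0} : Submodule (ZMod 2) E) = sp F := by
    rw [e1]; rfl
  rw [h6] at h5
  rw [h5, M3f_det (fun i j => Qf L b (out X M) u i j) hs q33 q34 q44]
  positivity

/-- a flat of rank two -/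
private lemma M3f_two {X : Finset E} {M : Submodule (ZMod 2) E}
    (hM : Module.finrank (ZMod 2) M = 3) (hA : sp (inn X M) = M) {F : Finset E} (hF : F ⊆ inn X M)
    (hr : rk F = 2) : ∃ g₁ g₂ p : E, g₁ ∈ X ∧ g₂ ∈ X ∧ p ∈ X ∧ p ∈ M ∧ p ∉ sp F ∧
      sp F = span (ZMod 2) {g₁} ⊔ span (ZMod 2) {g₂} ∧ sp F ⊔ span (ZMod 2) {p} = M := by
  have hb : Module.finrank (ZMod 2) (⊥ : Submodule (ZMod 2) E) = 0 := finrank_bot _ _
  obtain ⟨g₁, h1, h1'⟩ := M3f_pick (A := F) (S := ⊥) rfl (by rw [hb]; rw [rk] at hr; omega)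
  have r1 : Module.finrank (ZMod 2) (span (ZMod 2) {g₁}) = 1 :=
    finrank_span_singleton fun h => h1' (by rw [h]; exact zero_mem _)
  obtain ⟨g₂, h2, h2'⟩ := M3f_pick (A := F) (S := span (ZMod 2) {g₁}) rfl
    (by rw [r1]; rw [rk] at hr; omega)
  have r2 := M3f_lt h2'
  have e2 : span (ZMod 2) {g₁} ⊔ span (ZMod 2) {g₂} = sp F := by
    refine M3f_eq ?_ (by rw [rk] at hr; omega)
    exact sup_le (span_mono (Set.singleton_subset_iff.2 h1))
      (span_mono (Set.singleton_subset_iff.2 h2))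
  have hFM : sp F ≤ M := span_le.2 fun v hv => (M3f_inn.1 (hF hv)).2
  obtain ⟨p, h3, h3'⟩ := M3f_pick hA (S := sp F) (by rw [rk] at hr; omega)
  have r3 := M3f_lt h3'
  refine ⟨g₁, g₂, p, (M3f_inn.1 (hF h1)).1, (M3f_inn.1 (hF h2)).1, (M3f_inn.1 h3).1,
    (M3f_inn.1 h3).2, h3', e2.symm, M3f_eq ?_ (by rw [rk] at hr; omega)⟩
  exact sup_le hFM (span_le.2 (Set.singleton_subset_iff.2 (M3f_inn.1 h3).2))

private lemma M3f_abc (hCS : St_CS) (hF7 : St_F7) {X : Finset E} {u : E → ℤ}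
    {L : E → Fin 5 → ℤ} (hU : Uni X L) {M G : Submodule (ZMod 2) E} {g₁ g₂ p d₁ d₂ : E}
    (hg1 : g₁ ∈ X) (hg2 : g₂ ∈ X) (hp : p ∈ X)
    (hG : G = span (ZMod 2) {g₁} ⊔ span (ZMod 2) {g₂}) (hGM : G ⊔ span (ZMod 2) {p} = M)
    (hd : M ⊔ span (ZMod 2) {d₁, d₂} = ⊤)
    (e1 : cs X u G (d₁ + p) = - cs X u G d₁) (e2 : cs X u G (d₂ + p) = - cs X u G d₂)
    (e3 : cs X u G (d₁ + d₂ + p) = - cs X u G (d₁ + d₂)) :
    cs X u G d₁ * cs X u G d₂ * cs X u G (d₁ + d₂) = 0 := by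
  by_contra hne
  have n1 : cs X u G d₁ ≠ 0 := fun h => hne (by rw [h]; ring)
  have n2 : cs X u G d₂ ≠ 0 := fun h => hne (by rw [h]; ring)
  have n3 : cs X u G (d₁ + d₂) ≠ 0 := fun h => hne (by rw [h]; ring)
  obtain ⟨_, _, _, hc4, _, _⟩ := hCS X u
  obtain ⟨x₁, hx1, hx1'⟩ := hc4 G _ n1
  obtain ⟨x₂, hx2, hx2'⟩ := hc4 G _ n2
  obtain ⟨x, hx, hx'⟩ := hc4 G (d₁ + p) (by rw [e1]; exact neg_ne_zero.2 n1)
  obtain ⟨y, hy, hy'⟩ := hc4 G (d₂ + p) (by rw [e2]; exact neg_ne_zero.2 n2)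
  obtain ⟨z, hz, hz'⟩ := hc4 G _ n3
  obtain ⟨t, ht, ht'⟩ := hc4 G (d₁ + d₂ + p) (by rw [e3]; exact neg_ne_zero.2 n3)
  have hG' : G = span (ZMod 2) {g₁, g₂} := by rw [hG, ← span_insert]
  have hbas : Bas X ![p, x₁, x₂, g₁, g₂] := by
    refine ⟨?_, M3f_li ?_⟩
    · intro i
      fin_cases i
      · exact hp
      · exact hx1
      · exact hx2
      · exact hg1
      · exact hg2
    · rw [M3f_range]
      have m0 : G ≤ span (ZMod 2) {p} ⊔ span (ZMod 2) {x₁} ⊔ span (ZMod 2) {x₂} ⊔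
          span (ZMod 2) {g₁} ⊔ span (ZMod 2) {g₂} := by
        rw [hG]
        exact sup_le (le_sup_right.trans le_sup_left) le_sup_right
      have m1 : span (ZMod 2) {p} ≤ span (ZMod 2) {p} ⊔ span (ZMod 2) {x₁} ⊔ span (ZMod 2) {x₂} ⊔
          span (ZMod 2) {g₁} ⊔ span (ZMod 2) {g₂} :=
        le_sup_left.trans (le_sup_left.trans (le_sup_left.trans le_sup_left))
      have m2 : x₁ ∈ span (ZMod 2) {p} ⊔ span (ZMod 2) {x₁} ⊔ span (ZMod 2) {x₂} ⊔
          span (ZMod 2) {g₁} ⊔ span (ZMod 2) {g₂} :=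
        mem_sup_left (mem_sup_left (mem_sup_left (mem_sup_right (mem_span_singleton_self _))))
      have m3 : x₂ ∈ span (ZMod 2) {p} ⊔ span (ZMod 2) {x₁} ⊔ span (ZMod 2) {x₂} ⊔
          span (ZMod 2) {g₁} ⊔ span (ZMod 2) {g₂} :=
        mem_sup_left (mem_sup_left (mem_sup_right (mem_span_singleton_self _)))
      rw [← hd, ← hGM]
      refine sup_le (sup_le m0 m1) (span_le.2 ?_)
      rintro v (rfl | rfl)
      · have h1 : v = (x₁ + v) - x₁ := by ring
        rw [h1]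
        exact sub_mem (m0 hx1') m2
      · have h1 : v = (x₂ + v) - x₂ := by ring
        rw [h1]
        exact sub_mem (m0 hx2') m3
  refine hF7 X L hU _ hbas ⟨x, hx, y, hy, z, hz, t, ht, ?_, ?_, ?_, ?_⟩
  · show x + (p + x₁) ∈ span (ZMod 2) {g₁, g₂}
    rw [← hG']
    have h1 : x + (p + x₁) = (x + (d₁ + p)) + (x₁ + d₁) := by
      linear_combination (-1 : E) * M3f_self d₁
    rw [h1]
    exact add_mem hx' hx1'
  · show y + (p + x₂) ∈ span (ZMod 2) {g₁, g₂}
    rw [← hG']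
    have h1 : y + (p + x₂) = (y + (d₂ + p)) + (x₂ + d₂) := by
      linear_combination (-1 : E) * M3f_self d₂
    rw [h1]
    exact add_mem hy' hx2'
  · show z + (x₁ + x₂) ∈ span (ZMod 2) {g₁, g₂}
    rw [← hG']
    have h1 : z + (x₁ + x₂) = (z + (d₁ + d₂)) + (x₁ + d₁) + (x₂ + d₂) := by
      linear_combination (-1 : E) * M3f_self d₁ - M3f_self d₂
    rw [h1]
    exact add_mem (add_mem hz' hx1') hx2'
  · show t + (p + x₁ + x₂) ∈ span (ZMod 2) {g₁, g₂}
    rw [← hG']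
    have h1 : t + (p + x₁ + x₂) = (t + (d₁ + d₂ + p)) + (x₁ + d₁) + (x₂ + d₂) := by
      linear_combination (-1 : E) * M3f_self d₁ - M3f_self d₂
    rw [h1]
    exact add_mem (add_mem ht' hx1') hx2'

/-- the three sums and the three other sums -/
private lemma M3f_neg (hCS : St_CS) {X : Finset E} {u : E → ℤ} {M G : Submodule (ZMod 2) E} {p : E}
    (hp : p ∉ G) (hGM : G ⊔ span (ZMod 2) {p} = M) (htot : ∀ v, v ∉ M → cs X u M v = 0) {v : E}
    (hv : v ∉ M) : cs X u G (v + p) = - cs X u G v := by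
  have h1 := (hCS X u).2.1 G v p hp
  rw [hGM, htot v hv] at h1
  omega

open Classical in
/-- the values of the limits -/
private noncomputable def M3f_t (X : Finset E) (u : E → ℤ) (M : Submodule (ZMod 2) E) (d₁ d₂ : E)
    (F : Finset E) : ℝ :=
  if rk F = 2 then -((cs X u (sp F) d₁ : ℝ) ^ 2 * (cs X u (sp F) d₂ : ℝ) ^ 2 +
    (cs X u (sp F) d₂ : ℝ) ^ 2 * (cs X u (sp F) (d₁ + d₂) : ℝ) ^ 2 +
    (cs X u (sp F) (d₁ + d₂) : ℝ) ^ 2 * (cs X u (sp F) d₁ : ℝ) ^ 2)
  else if rk F = 1 then (tau (out X M) (sp F) u 4 : ℝ) else 0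

theorem M3f_proof (hMAS : St_MAS) (hLIM : St_LIM) (hT2 : St_T2) (hT3 : St_T3) (hLF2 : St_LF2)
    (hLF3 : St_LF3) (hCS : St_CS) (hQF : St_QF) (hTAU : St_TAU) (hF7 : St_F7) : St_M3f := by
  intro X u L n hcx hlev hr htot
  set M : Submodule (ZMod 2) E := sp (Od X u n) with hMdef
  have hM : Module.finrank (ZMod 2) M = 3 := hr
  have hO : Od X u n ⊆ inn X M := fun v hv => M3f_inn.2
    ⟨(Finset.mem_filter.1 hv).1, subset_span hv⟩
  have hA : sp (inn X M) = M :=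
    le_antisymm (span_le.2 fun v hv => (M3f_inn.1 hv).2) (span_mono hO)
  have hDM : ∀ v ∈ out X M, v ∉ M := fun v hv => (M3f_out.1 hv).2
  have main : ∀ d₁ d₂ : E, M ⊔ span (ZMod 2) {d₁, d₂} = ⊤ → ∀ F ∈ fl (inn X M),
      sp (F ∩ Od X u n) = sp F → M3f_t X u M d₁ d₂ F = 0 := by
    intro d₁ d₂ hd
    obtain ⟨m1, m2, m12⟩ := M3f_notmem hM hd
    have hc3 := (hCS X u).2.2.1
    refine hMAS X u L n hcx hlev 4 (M3f_t X u M d₁ d₂) ?_ ⟨-1, Or.inr rfl, ?_⟩
    · intro F hF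
      have hF' : F ⊆ inn X M := M3f_fl hF
      have hFM : sp F ≤ M := span_le.2 fun v hv => (M3f_inn.1 (hF' hv)).2
      have hle : rk F ≤ 3 := by
        rw [← hM]
        exact Submodule.finrank_mono hFM
      have hcase : rk F = 0 ∨ rk F = 1 ∨ rk F = 2 ∨ rk F = 3 := by omega
      rcases hcase with h | h | h | h
      · have h1 : M3f_t X u M d₁ d₂ F = 0 := by
          unfold M3f_t
          rw [if_neg (by omega), if_neg (by omega)]
        rw [h1]
        have h2 := (hLIM (out X M) (sp F) u 5 (by rw [rk] at h; omega)).2 4 (by norm_num)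
        simpa using h2
      · have h1 : M3f_t X u M d₁ d₂ F = (tau (out X M) (sp F) u 4 : ℝ) := by
          unfold M3f_t
          rw [if_neg (by omega), if_pos h]
        rw [h1]
        have h2 := (hLIM (out X M) (sp F) u 4 (by rw [rk] at h; omega)).1
        simpa using h2
      · obtain ⟨g₁, g₂, p, hg1, hg2, hp, hpM, hpG, e1, e2⟩ := M3f_two hM hA hF' h
        have a1 := M3f_neg hCS hpG e2 htot m1
        have a2 := M3f_neg hCS hpG e2 htot m2
        have a3 := M3f_neg hCS hpG e2 htot m12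
        have habc := M3f_abc hCS hF7 hcx.uni hg1 hg2 hp e1 e2 hd a1 a2 a3
        have h1 : M3f_t X u M d₁ d₂ F = -((cs X u (sp F) d₁ : ℝ) ^ 2 * (cs X u (sp F) d₂ : ℝ) ^ 2 +
            (cs X u (sp F) d₂ : ℝ) ^ 2 * (cs X u (sp F) (d₁ + d₂) : ℝ) ^ 2 +
            (cs X u (sp F) (d₁ + d₂) : ℝ) ^ 2 * (cs X u (sp F) d₁ : ℝ) ^ 2) := by
          unfold M3f_t
          rw [if_pos h]
        rw [h1]
        have habc' : (cs X u (sp F) d₁ : ℝ) * (cs X u (sp F) d₂ : ℝ) *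
            (cs X u (sp F) (d₁ + d₂) : ℝ) = 0 := by exact_mod_cast habc
        have hlim := (hLF3 0 0 0 _ _ _).2.2.2 habc'
        refine hlim.congr fun x => ?_
        have hspan : sp F ⊔ span (ZMod 2) {p, d₁, d₂} = ⊤ := by
          rw [span_insert, ← sup_assoc, e2, hd]
        have hT := hT3 (out X M) u (sp F) h p d₁ d₂ hspan
          (fun v hv => ⟨fun hv' => hDM v hv (hFM hv'), fun hv' => hDM v hv (by
            have h2 : v = (v + p) - p := by ring
            rw [h2]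
            exact sub_mem (hFM hv') hpM)⟩) x
        have k1 : d₁ + p ∉ M := fun h2 => m1 (by
          have h3 := sub_mem h2 hpM
          rwa [add_sub_cancel_right] at h3)
        have k2 : d₂ + p ∉ M := fun h2 => m2 (by
          have h3 := sub_mem h2 hpM
          rwa [add_sub_cancel_right] at h3)
        have k12 : d₁ + d₂ + p ∉ M := fun h2 => m12 (by
          have h3 := sub_mem h2 hpM
          rwa [add_sub_cancel_right] at h3)
        rw [hT, hc3 _ _ _ hFM m1, hc3 _ _ _ hFM m2, hc3 _ _ _ hFM m12, hc3 _ _ _ hFM k1,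
          hc3 _ _ _ hFM k2, hc3 _ _ _ hFM k12, a1, a2, a3]
        push_cast
        rfl
      · have h1 : M3f_t X u M d₁ d₂ F = 0 := by
          unfold M3f_t
          rw [if_neg (by omega), if_neg (by omega)]
        rw [h1]
        have hFM' : sp F = M := M3f_eq hFM (by rw [rk] at h; omega)
        have h2 : ∀ x : ℝ, TT (out X M) (sp F) (ex u x) / (x : ℂ) ^ 4 = 0 := by
          intro x
          rw [hFM', hT2 (out X M) u M hM hDM d₁ d₂ hd x, hc3 _ _ _ le_rfl m1,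
            hc3 _ _ _ le_rfl m2, hc3 _ _ _ le_rfl m12, htot _ m1, htot _ m2, htot _ m12]
          have h3 : F2 ((x : ℂ) * ((0 : ℤ) : ℂ)) ((x : ℂ) * ((0 : ℤ) : ℂ))
              ((x : ℂ) * ((0 : ℤ) : ℂ)) = 0 := by
            unfold F2
            simp
            norm_num
          rw [h3, zero_div]
        have h4 : (fun x : ℝ => TT (out X M) (sp F) (ex u x) / (x : ℂ) ^ 4) = fun _ => 0 :=
          funext h2
        rw [h4]
        simp
    · intro F hF hsp
      have hF' : F ⊆ inn X M := hF.1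
      unfold M3f_t
      split_ifs with h2 h1
      · rw [h2]
        have h3 : 0 ≤ (cs X u (sp F) d₁ : ℝ) ^ 2 * (cs X u (sp F) d₂ : ℝ) ^ 2 +
            (cs X u (sp F) d₂ : ℝ) ^ 2 * (cs X u (sp F) (d₁ + d₂) : ℝ) ^ 2 +
            (cs X u (sp F) (d₁ + d₂) : ℝ) ^ 2 * (cs X u (sp F) d₁ : ℝ) ^ 2 := by positivity
        linarith
      · rw [h1]
        have h3 := M3f_tau hCS hQF hTAU hcx.uni hcx.spn hM hA htot hF' h1
        have h4 : (0 : ℝ) ≤ (tau (out X M) (sp F) u 4 : ℝ) := by exact_mod_cast h3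
        linarith
      · simp
  intro F hF hsp
  have hF' : F ⊆ inn X M := M3f_fl hF
  refine ⟨fun h2 d₁ d₂ hd => ?_, fun h1 => ?_⟩
  · have h3 := main d₁ d₂ hd F hF hsp
    unfold M3f_t at h3
    rw [if_pos h2] at h3
    have h4 : 0 ≤ (cs X u (sp F) d₁ : ℝ) ^ 2 * (cs X u (sp F) d₂ : ℝ) ^ 2 := by positivity
    have h5 : 0 ≤ (cs X u (sp F) d₂ : ℝ) ^ 2 * (cs X u (sp F) (d₁ + d₂) : ℝ) ^ 2 := by positivity
    have h6 : 0 ≤ (cs X u (sp F) (d₁ + d₂) : ℝ) ^ 2 * (cs X u (sp F) d₁ : ℝ) ^ 2 := by positivity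
    have h7 : (cs X u (sp F) d₁ : ℝ) ^ 2 * (cs X u (sp F) d₂ : ℝ) ^ 2 = 0 := by linarith
    rcases mul_eq_zero.1 h7 with h8 | h8
    · left
      have h9 := pow_eq_zero_iff (two_ne_zero) |>.1 h8
      exact_mod_cast h9
    · right
      have h9 := pow_eq_zero_iff (two_ne_zero) |>.1 h8
      exact_mod_cast h9
  · obtain ⟨x₀, x₁, x₂, x₃, x₄, _, _, _, _, _, _, _, e3⟩ := M3f_basis hcx.spn hM hA hF' h1
    have hd : M ⊔ span (ZMod 2) {x₃, x₄} = ⊤ := by
      rw [span_insert, ← sup_assoc, e3]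
    have h3 := main x₃ x₄ hd F hF hsp
    unfold M3f_t at h3
    rw [if_neg (by omega), if_pos h1] at h3
    exact_mod_cast h3

end Pool.Agent.TRG
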