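import Pool.Agent.TRG.St

/-!
# TRG : [M3g] All three sums zero: the hyperplane `W`.

MP_42db45_gt, MP_79b4ff_gt (captain: helper62).
-/

set_option autoImplicit false

open Submodule
open Pool.Agent.SPT Pool.Agent.SPT.Rel

namespace Pool.Agent.TRG

/-! ### Elementary facts -/

private lemma M3g_two (v : E) : v + v = 0 := by
  funext k
  exact CharTwo.add_self_eq_zero (v k)

private lemma M3g_zm (a : ZMod 2) : a = 0 ∨ a = 1 := by
  revert a; decide

/-- two submodules, one additional vector -/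
private lemma M3g_line {K : Submodule (ZMod 2) E} {w v : E}
    (hv : v ∈ K ⊔ span (ZMod 2) {w}) : v ∈ K ∨ v + w ∈ K := by
  obtain ⟨k, hk, s, hs, rfl⟩ := mem_sup.mp hv
  obtain ⟨c, rfl⟩ := mem_span_singleton.mp hs
  rcases M3g_zm c with rfl | rfl
  · left; simpa using hk
  · right
    rw [one_smul, add_assoc, M3g_two, add_zero]
    exact hk

/-- two additional vectors -/
private lemma M3g_plane {K : Submodule (ZMod 2) E} {z y v : E}
    (ht : K ⊔ span (ZMod 2) {z, y} = ⊤) (hv : v ∉ K ⊔ span (ZMod 2) {z}) :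
    v + y ∈ K ∨ v + (z + y) ∈ K := by
  have h1 : v ∈ (K ⊔ span (ZMod 2) {z}) ⊔ span (ZMod 2) {y} := by
    rw [sup_assoc, ← span_union, Set.singleton_union, ht]; exact mem_top
  rcases M3g_line h1 with h2 | h2
  · exact absurd h2 hv
  · rcases M3g_line h2 with h3 | h3
    · exact Or.inl h3
    · right
      have : v + (z + y) = v + y + z := by abel
      rw [this]; exact h3

/-- the determinant with a block of zeros -/
private lemma M3g_det (A : Fin 4 → Fin 4 → ℤ) (h20 : A 2 0 = A 0 2) (h21 : A 2 1 = A 1 2)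
    (h30 : A 3 0 = A 0 3) (h31 : A 3 1 = A 1 3) (h22 : A 2 2 = 0) (h23 : A 2 3 = 0)
    (h32 : A 3 2 = 0) (h33 : A 3 3 = 0) :
    Matrix.det (fun i j => A i j) = (A 0 2 * A 1 3 - A 0 3 * A 1 2) ^ 2 := by
  have hm : (fun i j => A i j : Matrix (Fin 4) (Fin 4) ℤ) =
      !![A 0 0, A 0 1, A 0 2, A 0 3; A 1 0, A 1 1, A 1 2, A 1 3;
        A 0 2, A 1 2, 0, 0; A 0 3, A 1 3, 0, 0] := by
    funext i j
    fin_cases i <;> fin_cases j <;> simp [h20, h21, h30, h31, h22, h23, h32, h33]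
  rw [hm]
  simp [Matrix.det_succ_row_zero, Fin.sum_univ_succ, Fin.succAbove]
  ring

/-- the types -/
private lemma M3g_type (α β γ : Fin 3 → ℤ) (p q : Fin 3 → ℤ) (hp : ∀ i, p i ≠ 0)
    (hq : ∀ i, q i ≠ 0) (h1 : ∀ i, α i = 0 ∨ β i = 0) (h2 : ∀ i, α i = 0 ∨ γ i = 0)
    (h3 : ∀ i, β i = 0 ∨ γ i = 0)
    (h : ∀ i j, i ≠ j → (p i * (α i + γ i)) * (q j * (β j + γ j)) =
      (q i * (β i + γ i)) * (p j * (α j + γ j))) :
    (∀ i, β i = 0 ∧ γ i = 0) ∨ (∀ i, α i = 0 ∧ γ i = 0) ∨ (∀ i, α i = 0 ∧ β i = 0) := by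
  by_cases ha : ∃ i, α i ≠ 0
  · obtain ⟨i, hi⟩ := ha
    left
    intro j
    have hbi : β i = 0 := (h1 i).resolve_left hi
    have hci : γ i = 0 := (h2 i).resolve_left hi
    by_cases hij : i = j
    · subst hij; exact ⟨hbi, hci⟩
    · have := h i j hij
      rw [hbi, hci, add_zero, add_zero, mul_zero, zero_mul] at this
      have h4 : β j + γ j = 0 := by
        rcases mul_eq_zero.mp this with h5 | h5
        · exact absurd h5 (mul_ne_zero (hp i) hi)
        · exact (mul_eq_zero.mp h5).resolve_left (hq j)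
      rcases h3 j with h5 | h5
      · exact ⟨h5, by rw [h5, zero_add] at h4; exact h4⟩
      · exact ⟨by rw [h5, add_zero] at h4; exact h4, h5⟩
  · have ha' : ∀ i, α i = 0 := fun i => by by_contra h0; exact ha ⟨i, h0⟩
    right
    by_cases hb : ∃ i, β i ≠ 0
    · obtain ⟨i, hi⟩ := hb
      left
      intro j
      refine ⟨ha' j, ?_⟩
      have hci : γ i = 0 := (h3 i).resolve_left hi
      by_cases hij : i = j
      · subst hij; exact hci
      · have := h i j hij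
        rw [ha' i, hci, ha' j, add_zero, mul_zero, zero_mul, zero_add, add_zero] at this
        rcases mul_eq_zero.mp this.symm with h5 | h5
        · exact absurd h5 (mul_ne_zero (hq i) hi)
        · exact (mul_eq_zero.mp h5).resolve_left (hp j)
    · right
      intro i
      exact ⟨ha' i, by by_contra h0; exact hb ⟨i, h0⟩⟩

/-! ### Sums over classes in coordinates -/

private lemma M3g_ite3 (u : ℤ) (a b c : ZMod 2) :
    (if (¬ (b = 0 ∧ c = 0) ∧ ¬ a = 0) ∧ ¬ b = 0 then u else 0) =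
      -((if a + 0 = 0 ∧ b + 1 = 0 ∧ c + 0 = 0 then u else 0) +
        (if a + (0 + 0) = 0 ∧ b + (1 + 0) = 0 ∧ c + (0 + 1) = 0 then u else 0)) +
      ((if b + 1 = 0 ∧ c + 0 = 0 then u else 0) +
        (if b + (1 + 0) = 0 ∧ c + (0 + 1) = 0 then u else 0)) := by
  rcases M3g_zm a with rfl | rfl <;> rcases M3g_zm b with rfl | rfl <;>
    rcases M3g_zm c with rfl | rfl <;> simp [CharTwo.add_self_eq_zero]

private lemma M3g_ite2 (u : ℤ) (b c : ZMod 2) :
    (if (¬ (b = 0 ∧ c = 0)) ∧ ¬ b = 0 then u else 0) =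
      ((if b + 1 = 0 ∧ c + 0 = 0 then u else 0) +
        (if b + (1 + 0) = 0 ∧ c + (0 + 1) = 0 then u else 0)) := by
  rcases M3g_zm b with rfl | rfl <;>
    rcases M3g_zm c with rfl | rfl <;> simp [CharTwo.add_self_eq_zero]

private lemma M3g_ite1 (u : ℤ) (b c : ZMod 2) :
    (if (¬ (b = 0 ∧ c = 0) ∧ ¬ b = 0) ∧ ¬ c = 0 then u else 0) =
      (if b + (1 + 0) = 0 ∧ c + (0 + 1) = 0 then u else 0) := by
  rcases M3g_zm b with rfl | rfl <;>
    rcases M3g_zm c with rfl | rfl <;> simp [CharTwo.add_self_eq_zero]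

/-- the entries `i, p` -/
private lemma M3g_sum3 (X : Finset E) (u : E → ℤ) (M G Hi Hp : Submodule (ZMod 2) E)
    (f g h : E →ₗ[ZMod 2] ZMod 2) (dp dq : E)
    (hM : ∀ w, w ∈ M ↔ g w = 0 ∧ h w = 0) (hG : ∀ w, w ∈ G ↔ f w = 0 ∧ g w = 0 ∧ h w = 0)
    (hHi : ∀ w, w ∈ Hi ↔ f w = 0) (hHp : ∀ w, w ∈ Hp ↔ g w = 0)
    (fp : f dp = 0) (gp : g dp = 1) (hp : h dp = 0) (fq : f dq = 0) (gq : g dq = 0)
    (hq : h dq = 1) (h1 : cs X u M dp = 0) (h2 : cs X u M (dp + dq) = 0) :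
    ∑ v ∈ out (out (out X M) Hi) Hp, u v = -(cs X u G dp + cs X u G (dp + dq)) := by
  classical
  have key : ∑ v ∈ out (out (out X M) Hi) Hp, u v =
      -(cs X u G dp + cs X u G (dp + dq)) + (cs X u M dp + cs X u M (dp + dq)) := by
    simp only [out, cs, Finset.filter_filter, Finset.sum_filter]
    rw [← Finset.sum_add_distrib, ← Finset.sum_add_distrib, ← Finset.sum_neg_distrib,
      ← Finset.sum_add_distrib]
    refine Finset.sum_congr rfl fun w _ => ?_
    simp only [hM, hG, hHi, hHp, map_add, fp, gp, hp, fq, gq, hq]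
    exact M3g_ite3 (u w) (f w) (g w) (h w)
  rw [key, h1, h2, add_zero, add_zero]

/-- the entry `p, p` -/
private lemma M3g_sum2 (X : Finset E) (u : E → ℤ) (M Hp : Submodule (ZMod 2) E)
    (g h : E →ₗ[ZMod 2] ZMod 2) (dp dq : E)
    (hM : ∀ w, w ∈ M ↔ g w = 0 ∧ h w = 0) (hHp : ∀ w, w ∈ Hp ↔ g w = 0)
    (gp : g dp = 1) (hp : h dp = 0) (gq : g dq = 0)
    (hq : h dq = 1) (h1 : cs X u M dp = 0) (h2 : cs X u M (dp + dq) = 0) :
    ∑ v ∈ out (out X M) Hp, u v = 0 := by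
  classical
  have key : ∑ v ∈ out (out X M) Hp, u v = cs X u M dp + cs X u M (dp + dq) := by
    simp only [out, cs, Finset.filter_filter, Finset.sum_filter]
    rw [← Finset.sum_add_distrib]
    refine Finset.sum_congr rfl fun w _ => ?_
    simp only [hM, hHp, map_add, gp, hp, gq, hq]
    exact M3g_ite2 (u w) (g w) (h w)
  rw [key, h1, h2, add_zero]

/-- the entry `p, q` -/
private lemma M3g_sum1 (X : Finset E) (u : E → ℤ) (M Hp Hq : Submodule (ZMod 2) E)
    (g h : E →ₗ[ZMod 2] ZMod 2) (dp dq : E)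
    (hM : ∀ w, w ∈ M ↔ g w = 0 ∧ h w = 0) (hHp : ∀ w, w ∈ Hp ↔ g w = 0)
    (hHq : ∀ w, w ∈ Hq ↔ h w = 0)
    (gp : g dp = 1) (hp : h dp = 0) (gq : g dq = 0)
    (hq : h dq = 1) (h2 : cs X u M (dp + dq) = 0) :
    ∑ v ∈ out (out (out X M) Hp) Hq, u v = 0 := by
  classical
  have key : ∑ v ∈ out (out (out X M) Hp) Hq, u v = cs X u M (dp + dq) := by
    simp only [out, cs, Finset.filter_filter, Finset.sum_filter]
    refine Finset.sum_congr rfl fun w _ => ?_
    simp only [hM, hHp, hHq, map_add, gp, hp, gq, hq]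
    exact M3g_ite1 (u w) (g w) (h w)
  rw [key, h2]

/-! ### Coordinates -/

private noncomputable def M3g_B (b : Fin 5 → E) (hb : LinearIndependent (ZMod 2) b) :
    Module.Basis (Fin 5) (ZMod 2) E :=
  basisOfLinearIndependentOfCardEqFinrank hb (by simp)

private lemma M3g_Bapp (b : Fin 5 → E) (hb : LinearIndependent (ZMod 2) b) (i : Fin 5) :
    M3g_B b hb i = b i := by
  simp [M3g_B]

private lemma M3g_coord (b : Fin 5 → E) (hb : LinearIndependent (ZMod 2) b) (i j : Fin 5) :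
    (M3g_B b hb).coord i (b j) = if j = i then 1 else 0 := by
  rw [← M3g_Bapp b hb j, Module.Basis.coord_apply, Module.Basis.repr_self,
    Finsupp.single_apply]

private lemma M3g_mem (b : Fin 5 → E) (hb : LinearIndependent (ZMod 2) b) (s : Set (Fin 5))
    (w : E) : w ∈ span (ZMod 2) (b '' s) ↔ ∀ i, i ∉ s → (M3g_B b hb).coord i w = 0 := by
  have h : b '' s = (M3g_B b hb) '' s := by
    ext x
    simp only [Set.mem_image, M3g_Bapp]
  rw [h, Module.Basis.mem_span_image]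
  constructor
  · intro h1 i hi
    by_contra h2
    exact hi (h1 (by simpa using h2))
  · intro h1 i hi
    by_contra h2
    have := h1 i h2
    simp at hi
    exact hi this

private lemma M3g_ne (b : Fin 5 → E) (hb : LinearIndependent (ZMod 2) b) (i : Fin 5) (w : E) :
    w ∈ span (ZMod 2) (b '' {j | j ≠ i}) ↔ (M3g_B b hb).coord i w = 0 := by
  rw [M3g_mem b hb]
  constructor
  · intro h
    exact h i (by simp)
  · intro h j hj
    have : j = i := by simpa using hj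
    rw [this]
    exact h

private lemma M3g_neM (b : Fin 5 → E) (hb : LinearIndependent (ZMod 2) b) (w : E) :
    w ∈ span (ZMod 2) (b '' {j | j ≠ 3 ∧ j ≠ 4}) ↔
      (M3g_B b hb).coord 3 w = 0 ∧ (M3g_B b hb).coord 4 w = 0 := by
  rw [M3g_mem b hb]
  constructor
  · intro h
    exact ⟨h 3 (by simp), h 4 (by simp)⟩
  · rintro ⟨h3, h4⟩ j hj
    by_cases h : j = 3
    · rw [h]; exact h3
    · have : j = 4 := by
        by_contra h'
        exact hj ⟨h, h'⟩
      rw [this]; exact h4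

private lemma M3g_neG (b : Fin 5 → E) (hb : LinearIndependent (ZMod 2) b) (i : Fin 5) (w : E) :
    w ∈ span (ZMod 2) (b '' {j | j ≠ i ∧ j ≠ 3 ∧ j ≠ 4}) ↔
      (M3g_B b hb).coord i w = 0 ∧ (M3g_B b hb).coord 3 w = 0 ∧
        (M3g_B b hb).coord 4 w = 0 := by
  rw [M3g_mem b hb]
  constructor
  · intro h
    exact ⟨h i (by simp), h 3 (by simp), h 4 (by simp)⟩
  · rintro ⟨hi, h3, h4⟩ j hj
    by_cases h : j = i
    · rw [h]; exact hi
    · by_cases h' : j = 3
      · rw [h']; exact h3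
      · have : j = 4 := by
          by_contra h''
          exact hj ⟨h, h', h''⟩
        rw [this]; exact h4

/-- the entries of the form -/
private lemma M3g_Q (hQF : St_QF) {X : Finset E} {u : E → ℤ} {L : E → Fin 5 → ℤ}
    (hU : Uni X L) (b : Fin 5 → E) (hb : Bas X b)
    (hz : ∀ v, v ∉ span (ZMod 2) (b '' {j | j ≠ 3 ∧ j ≠ 4}) →
      cs X u (span (ZMod 2) (b '' {j | j ≠ 3 ∧ j ≠ 4})) v = 0) :
    Qf L b (out X (span (ZMod 2) (b '' {j | j ≠ 3 ∧ j ≠ 4}))) u 3 3 = 0 ∧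
    Qf L b (out X (span (ZMod 2) (b '' {j | j ≠ 3 ∧ j ≠ 4}))) u 3 4 = 0 ∧
    Qf L b (out X (span (ZMod 2) (b '' {j | j ≠ 3 ∧ j ≠ 4}))) u 4 4 = 0 ∧
    ∀ i : Fin 5, i ≠ 3 → i ≠ 4 →
      (∃ s : ℤ, s ≠ 0 ∧ Qf L b (out X (span (ZMod 2) (b '' {j | j ≠ 3 ∧ j ≠ 4}))) u i 3 =
        s * (cs X u (span (ZMod 2) (b '' {j | j ≠ i ∧ j ≠ 3 ∧ j ≠ 4})) (b 3) +
          cs X u (span (ZMod 2) (b '' {j | j ≠ i ∧ j ≠ 3 ∧ j ≠ 4})) (b 3 + b 4))) ∧
      (∃ s : ℤ, s ≠ 0 ∧ Qf L b (out X (span (ZMod 2) (b '' {j | j ≠ 3 ∧ j ≠ 4}))) u i 4 =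
        s * (cs X u (span (ZMod 2) (b '' {j | j ≠ i ∧ j ≠ 3 ∧ j ≠ 4})) (b 4) +
          cs X u (span (ZMod 2) (b '' {j | j ≠ i ∧ j ≠ 3 ∧ j ≠ 4})) (b 3 + b 4))) := by
  classical
  have c := M3g_coord b hb.2
  have c33 : (M3g_B b hb.2).coord 3 (b 3) = 1 := by rw [c]; simp
  have c44 : (M3g_B b hb.2).coord 4 (b 4) = 1 := by rw [c]; simp
  have c34 : (M3g_B b hb.2).coord 3 (b 4) = 0 := by rw [c]; decide
  have c43 : (M3g_B b hb.2).coord 4 (b 3) = 0 := by rw [c]; decide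
  have n3 : b 3 ∉ span (ZMod 2) (b '' {j | j ≠ 3 ∧ j ≠ 4}) := by
    rw [M3g_neM b hb.2, c33]
    intro h
    exact absurd h.1 one_ne_zero
  have n4 : b 4 ∉ span (ZMod 2) (b '' {j | j ≠ 3 ∧ j ≠ 4}) := by
    rw [M3g_neM b hb.2, c44]
    intro h
    exact absurd h.2 one_ne_zero
  have n34 : b 3 + b 4 ∉ span (ZMod 2) (b '' {j | j ≠ 3 ∧ j ≠ 4}) := by
    rw [M3g_neM b hb.2, map_add, c33, c34, add_zero]
    intro h
    exact absurd h.1 one_ne_zero
  have n43 : b 4 + b 3 ∉ span (ZMod 2) (b '' {j | j ≠ 3 ∧ j ≠ 4}) := by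
    rw [add_comm]; exact n34
  have hMc : ∀ w, w ∈ span (ZMod 2) (b '' {j | j ≠ 3 ∧ j ≠ 4}) ↔
      (M3g_B b hb.2).coord 4 w = 0 ∧ (M3g_B b hb.2).coord 3 w = 0 := fun w =>
    (M3g_neM b hb.2 w).trans and_comm
  have hsub : out X (span (ZMod 2) (b '' {j | j ≠ 3 ∧ j ≠ 4})) ⊆ X := Finset.filter_subset _ _
  obtain ⟨q1, q2⟩ := hQF X L hU b hb
  refine ⟨?_, ?_, ?_, ?_⟩
  · rw [q1 3 _ u hsub]
    exact M3g_sum2 X u _ _ _ _ (b 3) (b 4) (M3g_neM b hb.2) (M3g_ne b hb.2 3) c33 c43 c34 c44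
      (hz _ n3) (hz _ n34)
  · obtain ⟨σ, -, hσ⟩ := q2 3 4 (by decide)
    rw [hσ _ u hsub, M3g_sum1 X u _ _ _ _ _ (b 3) (b 4) (M3g_neM b hb.2) (M3g_ne b hb.2 3)
      (M3g_ne b hb.2 4) c33 c43 c34 c44 (hz _ n34), mul_zero]
  · rw [q1 4 _ u hsub]
    exact M3g_sum2 X u _ _ _ _ (b 4) (b 3) hMc (M3g_ne b hb.2 4) c44 c34 c43 c33
      (hz _ n4) (hz _ n43)
  · intro i h3 h4
    have ci3 : (M3g_B b hb.2).coord i (b 3) = 0 := by rw [c]; exact if_neg (Ne.symm h3)
    have ci4 : (M3g_B b hb.2).coord i (b 4) = 0 := by rw [c]; exact if_neg (Ne.symm h4)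
    have hGc : ∀ w, w ∈ span (ZMod 2) (b '' {j | j ≠ i ∧ j ≠ 3 ∧ j ≠ 4}) ↔
        (M3g_B b hb.2).coord i w = 0 ∧ (M3g_B b hb.2).coord 4 w = 0 ∧
          (M3g_B b hb.2).coord 3 w = 0 := fun w =>
      (M3g_neG b hb.2 i w).trans (and_congr_right fun _ => and_comm)
    constructor
    · obtain ⟨σ, hσ1, hσ⟩ := q2 i 3 h3
      refine ⟨-σ, by rcases hσ1 with rfl | rfl <;> decide, ?_⟩
      rw [hσ _ u hsub, M3g_sum3 X u _ _ _ _ _ _ _ (b 3) (b 4) (M3g_neM b hb.2)
        (M3g_neG b hb.2 i) (M3g_ne b hb.2 i) (M3g_ne b hb.2 3) ci3 c33 c43 ci4 c34 c44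
        (hz _ n3) (hz _ n34)]
      ring
    · obtain ⟨σ, hσ1, hσ⟩ := q2 i 4 h4
      refine ⟨-σ, by rcases hσ1 with rfl | rfl <;> decide, ?_⟩
      rw [hσ _ u hsub, M3g_sum3 X u _ _ _ _ _ _ _ (b 4) (b 3) hMc
        hGc (M3g_ne b hb.2 i) (M3g_ne b hb.2 4) ci4 c44 c34 ci3 c43 c33
        (hz _ n4) (hz _ n43), add_comm (b 4) (b 3)]
      ring

/-- the determinant for a permuted basis -/
private lemma M3g_perm (hCO2 : St_CO2) (hTAU : St_TAU) {X : Finset E} {u : E → ℤ}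
    {L : E → Fin 5 → ℤ} (hU : Uni X L) (b : Fin 5 → E) (hb : Bas X b) (D : Finset E)
    (hD : D ⊆ X) (h33 : Qf L b D u 3 3 = 0) (h34 : Qf L b D u 3 4 = 0)
    (h44 : Qf L b D u 4 4 = 0) (π : Equiv.Perm (Fin 5)) (p3 : π 3 = 3) (p4 : π 4 = 4)
    (ht : tau D (span (ZMod 2) {b (π 0)}) u 4 = 0) :
    Qf L b D u (π 1) 3 * Qf L b D u (π 2) 4 = Qf L b D u (π 1) 4 * Qf L b D u (π 2) 3 := by
  have hb' : Bas X (b ∘ π) := ⟨fun i => hb.1 _, hb.2.comp π π.injective⟩
  have h1 := (hTAU X L hU (b ∘ π) hb' D hD u).2.1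
  have h2 := (hCO2 X L hU b hb).2.2.1 π
  have h3 : ∀ i j, Qf L (b ∘ π) D u i j = Qf L b D u (π i) (π j) := by
    intro i j
    simp only [Qf, h2]
  have hs : ∀ i j, Qf L b D u i j = Qf L b D u j i := by
    intro i j
    simp only [Qf]
    refine Finset.sum_congr rfl fun v _ => ?_
    ring
  simp only [h3, Function.comp] at h1
  rw [ht] at h1
  have e0 : π ((0 : Fin 4).succ) = π 1 := rfl
  have e1 : π ((1 : Fin 4).succ) = π 2 := rfl
  have e2 : π ((2 : Fin 4).succ) = 3 := p3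
  have e3 : π ((3 : Fin 4).succ) = 4 := p4
  have h4 := M3g_det (fun i j : Fin 4 => Qf L b D u (π i.succ) (π j.succ)) (hs _ _) (hs _ _)
    (hs _ _) (hs _ _) (by simp only [e2]; exact h33) (by simp only [e2, e3]; exact h34)
    (by simp only [e2, e3]; rw [hs]; exact h34) (by simp only [e3]; exact h44)
  simp only [e0, e1, e2, e3] at h4
  rw [← h1] at h4
  have h5 := (pow_eq_zero_iff (two_ne_zero)).mp h4.symm
  linarith

/-! ### The flats -/

private lemma M3g_flat (hCS : St_CS) {X : Finset E} {u : E → ℤ} {n : ℕ} {o : Fin 3 → E}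
    (ho : ∀ k, o k ∈ Od X u n) (s : Set (Fin 3)) :
    inn X (span (ZMod 2) (o '' s)) ∈ fl (inn X (sp (Od X u n))) ∧
    sp (inn X (span (ZMod 2) (o '' s)) ∩ Od X u n) = sp (inn X (span (ZMod 2) (o '' s))) ∧
    sp (inn X (span (ZMod 2) (o '' s))) = span (ZMod 2) (o '' s) := by
  classical
  have hle : span (ZMod 2) (o '' s) ≤ sp (Od X u n) := by
    refine span_le.mpr ?_
    rintro _ ⟨k, -, rfl⟩
    exact subset_span (ho k)
  have hX : ∀ k, o k ∈ X := fun k => (Finset.mem_filter.mp (ho k)).1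
  have h1 : sp (inn X (span (ZMod 2) (o '' s))) ≤ span (ZMod 2) (o '' s) := by
    refine span_le.mpr ?_
    intro v hv
    exact (Finset.mem_filter.mp hv).2
  have h2 : span (ZMod 2) (o '' s) ≤ sp (inn X (span (ZMod 2) (o '' s)) ∩ Od X u n) := by
    refine span_le.mpr ?_
    rintro _ ⟨k, hk, rfl⟩
    refine subset_span ?_
    rw [Finset.coe_inter]
    refine ⟨?_, ho k⟩
    exact Finset.mem_filter.mpr ⟨hX k, subset_span ⟨k, hk, rfl⟩⟩
  have h3 : sp (inn X (span (ZMod 2) (o '' s)) ∩ Od X u n) ≤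
      sp (inn X (span (ZMod 2) (o '' s))) := by
    refine span_mono ?_
    rw [Finset.coe_inter]
    exact Set.inter_subset_left
  refine ⟨((hCS X u).2.2.2.2.2 _ _ hle).2, le_antisymm h3 (h1.trans h2),
    le_antisymm h1 (h2.trans h3)⟩

private lemma M3g_rone (w : E) : Module.finrank (ZMod 2) (span (ZMod 2) {w}) ≤ 1 := by
  have h := finrank_span_le_card (R := ZMod 2) ({w} : Set E)
  exact h.trans (by simp)

/-- the hyperplane -/
private lemma M3g_fin (hCS : St_CS) {X : Finset E} {u : E → ℤ} {o : Fin 3 → E}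
    (hoX : ∀ k, o k ∈ X) (hi : LinearIndependent (ZMod 2) o) {z y : E}
    (ht : span (ZMod 2) (Set.range o) ⊔ span (ZMod 2) {z, y} = ⊤)
    (hz : ∀ v, v ∉ span (ZMod 2) (Set.range o) →
      cs X u (span (ZMod 2) (Set.range o)) v = 0)
    (h1 : ∀ i, cs X u (span (ZMod 2) (o '' {l | l ≠ i})) y = 0)
    (h2 : ∀ i, cs X u (span (ZMod 2) (o '' {l | l ≠ i})) (z + y) = 0) :
    Rt X u o (span (ZMod 2) (Set.range o) ⊔ span (ZMod 2) {z}) := by
  classical
  obtain ⟨c1, c2, -, -, -, -⟩ := hCS X u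
  have hr3 : Module.finrank (ZMod 2) (span (ZMod 2) (Set.range o)) = 3 := by
    rw [finrank_span_eq_card hi, Fintype.card_fin]
  have hone : ∀ w : E, Module.finrank (ZMod 2) (span (ZMod 2) {w}) ≤ 1 := M3g_rone
  -- the class of an element modulo the two
  have hcl : ∀ i v t, v ∉ span (ZMod 2) (Set.range o) → v + t ∈ span (ZMod 2) (Set.range o) →
      cs X u (span (ZMod 2) (o '' {l | l ≠ i})) t = 0 →
      cs X u (span (ZMod 2) (o '' {l | l ≠ i})) v = 0 := by
    intro i v t hv hvt h0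
    have hM : span (ZMod 2) (Set.range o) =
        span (ZMod 2) (o '' {l | l ≠ i}) ⊔ span (ZMod 2) {o i} := by
      rw [← span_union]
      congr 1
      ext w
      constructor
      · rintro ⟨k, rfl⟩
        by_cases hk : k = i
        · right; rw [hk]; rfl
        · left; exact ⟨k, hk, rfl⟩
      · rintro (⟨k, -, rfl⟩ | h)
        · exact ⟨k, rfl⟩
        · exact ⟨i, h.symm⟩
    have hoi : o i ∉ span (ZMod 2) (o '' {l | l ≠ i}) := by
      exact hi.notMem_span_image (s := {l | l ≠ i}) (by simp)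
    have htM : t ∉ span (ZMod 2) (Set.range o) := by
      intro h
      apply hv
      have : v = v + t + t := by rw [add_assoc, M3g_two, add_zero]
      rw [this]
      exact add_mem hvt h
    have h3 : cs X u (span (ZMod 2) (o '' {l | l ≠ i})) (t + o i) = 0 := by
      have := c2 (span (ZMod 2) (o '' {l | l ≠ i})) t (o i) hoi
      rw [← hM, hz t htM, h0, zero_add] at this
      exact this.symm
    rw [hM] at hvt
    rcases M3g_line hvt with h4 | h4
    · rw [c1 _ v t h4]; exact h0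
    · rw [c1 _ v (t + o i) (by rw [← add_assoc]; exact h4)]; exact h3
  have hout : ∀ v, v ∉ span (ZMod 2) (Set.range o) ⊔ span (ZMod 2) {z} →
      v ∉ span (ZMod 2) (Set.range o) := fun v hv h => hv (mem_sup_left h)
  refine ⟨hoX, hi, ?_, ?_, ?_, ?_⟩
  · apply le_antisymm
    · calc Module.finrank (ZMod 2)
            (span (ZMod 2) (Set.range o) ⊔ span (ZMod 2) {z} : Submodule (ZMod 2) E)
          ≤ Module.finrank (ZMod 2) (span (ZMod 2) (Set.range o)) +
            Module.finrank (ZMod 2) (span (ZMod 2) {z}) :=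
            Submodule.finrank_add_le_finrank_add_finrank _ _
        _ ≤ 4 := by rw [hr3]; have := hone z; omega
    · have h5 : span (ZMod 2) (Set.range o) ⊔ span (ZMod 2) {z} ⊔ span (ZMod 2) {y} = ⊤ := by
        rw [sup_assoc, ← span_union, Set.singleton_union, ht]
      have h6 := Submodule.finrank_add_le_finrank_add_finrank
        (span (ZMod 2) (Set.range o) ⊔ span (ZMod 2) {z}) (span (ZMod 2) {y})
      rw [h5, finrank_top] at h6
      have h7 : Module.finrank (ZMod 2) E = 5 := by simp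
      have := hone y
      omega
  · intro k
    exact mem_sup_left (subset_span ⟨k, rfl⟩)
  · intro v hv
    exact hz v (hout v hv)
  · intro v hv k
    rcases M3g_plane ht hv with h5 | h5
    · exact hcl k v y (hout v hv) h5 (h1 k)
    · exact hcl k v (z + y) (hout v hv) h5 (h2 k)

private lemma M3g_dec1 : ∀ j : Fin 5, (j ≠ 3 ∧ j ≠ 4) ↔
    ∃ k : Fin 3, k.castSucc.castSucc = j := by decide

private lemma M3g_dec2 : ∀ i : Fin 3, ∀ j : Fin 5,
    (j ≠ i.castSucc.castSucc ∧ j ≠ 3 ∧ j ≠ 4) ↔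
      ∃ l : Fin 3, l ≠ i ∧ l.castSucc.castSucc = j := by decide

/-- [M3g] All three sums zero: the hyperplane `W`. -/
theorem M3g_proof (hM3f : St_M3f) (hQF : St_QF) (hCO2 : St_CO2) (hTAU : St_TAU)
    (hCS : St_CS) : St_M3g := by
  classical
  intro X u L n hC hLev hrk hz
  have hU := hC.uni
  -- a basis of the span of the odd elements
  obtain ⟨s, hs1, hs2, hs3⟩ := exists_linearIndependent (ZMod 2) ((Od X u n : Finset E) : Set E)
  have : Fintype s := ((Finset.finite_toSet _).subset hs1).fintype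
  have hcard : Fintype.card s = 3 := by
    have h := finrank_span_set_eq_card hs3
    rw [hs2] at h
    have h' : Module.finrank (ZMod 2) (sp (Od X u n)) = 3 := hrk
    rw [h'] at h
    rw [← Set.toFinset_card]
    exact h.symm
  let e : Fin 3 ≃ s := (Fintype.equivFinOfCardEq hcard).symm
  let o : Fin 3 → E := fun k => (e k : E)
  have ho : ∀ k, o k ∈ Od X u n := fun k => hs1 (e k).2
  have hoX : ∀ k, o k ∈ X := fun k => (Finset.mem_filter.mp (ho k)).1
  have hi : LinearIndependent (ZMod 2) o := hs3.comp e e.injective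
  have hro : Set.range o = s := by
    ext w
    constructor
    · rintro ⟨k, rfl⟩; exact (e k).2
    · intro hw; exact ⟨e.symm ⟨w, hw⟩, by simp [o]⟩
  have hM : sp (Od X u n) = span (ZMod 2) (Set.range o) := by
    rw [hro, hs2]
  have hone : ∀ w : E, Module.finrank (ZMod 2) (span (ZMod 2) {w}) ≤ 1 := M3g_rone
  have h7 : Module.finrank (ZMod 2) E = 5 := by simp
  have hr3 : Module.finrank (ZMod 2) (span (ZMod 2) (Set.range o)) = 3 := by
    rw [finrank_span_eq_card hi, Fintype.card_fin]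
  -- the two other elements
  have hex : ∀ K : Submodule (ZMod 2) E, K ≠ ⊤ → ∃ x ∈ X, x ∉ K := by
    intro K hK
    by_contra hcon
    apply hK
    rw [eq_top_iff, ← hC.spn]
    exact span_le.mpr fun x hx => by
      by_contra hx'
      exact hcon ⟨x, hx, hx'⟩
  obtain ⟨x₁, hx₁, hx₁M⟩ := hex (span (ZMod 2) (Set.range o)) (by
    intro h
    rw [h, finrank_top] at hr3
    omega)
  obtain ⟨x₂, hx₂, hx₂M⟩ := hex (span (ZMod 2) (Set.range o) ⊔ span (ZMod 2) {x₁}) (by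
    intro h
    have h6 := Submodule.finrank_add_le_finrank_add_finrank
      (span (ZMod 2) (Set.range o)) (span (ZMod 2) {x₁})
    rw [h, finrank_top] at h6
    have := hone x₁
    omega)
  obtain ⟨b, hbdef⟩ : ∃ b : Fin 5 → E, b = ![o 0, o 1, o 2, x₁, x₂] := ⟨_, rfl⟩
  have hb3 : b 3 = x₁ := by rw [hbdef]; rfl
  have hb4 : b 4 = x₂ := by rw [hbdef]; rfl
  have hbe : ∀ k : Fin 3, b k.castSucc.castSucc = o k := by
    intro k
    rw [hbdef]
    fin_cases k <;> rfl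
  have hli : LinearIndependent (ZMod 2) b := by
    have h8 : b = Fin.snoc (α := fun _ => E) (Fin.snoc (α := fun _ => E) o x₁) x₂ := by
      rw [hbdef]
      funext i
      fin_cases i <;> rfl
    rw [h8, linearIndependent_finSnoc, linearIndependent_finSnoc]
    refine ⟨⟨hi, hx₁M⟩, ?_⟩
    rw [Fin.range_snoc, Set.insert_eq, span_union, sup_comm]
    exact hx₂M
  have hb : Bas X b := by
    refine ⟨?_, hli⟩
    intro i
    by_cases h3 : i = 3
    · rw [h3, hb3]; exact hx₁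
    · by_cases h4 : i = 4
      · rw [h4, hb4]; exact hx₂
      · obtain ⟨k, rfl⟩ := (M3g_dec1 i).mp ⟨h3, h4⟩
        rw [hbe]; exact hoX k
  have hbM : span (ZMod 2) (b '' {j | j ≠ 3 ∧ j ≠ 4}) = span (ZMod 2) (Set.range o) := by
    congr 1
    ext w
    constructor
    · rintro ⟨j, hj, rfl⟩
      obtain ⟨k, rfl⟩ := (M3g_dec1 j).mp hj
      exact ⟨k, (hbe k).symm⟩
    · rintro ⟨k, rfl⟩
      exact ⟨k.castSucc.castSucc, (M3g_dec1 _).mpr ⟨k, rfl⟩, hbe k⟩
  have hbG : ∀ i : Fin 3, span (ZMod 2) (b '' {j | j ≠ i.castSucc.castSucc ∧ j ≠ 3 ∧ j ≠ 4}) =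
      span (ZMod 2) (o '' {l | l ≠ i}) := by
    intro i
    congr 1
    ext w
    constructor
    · rintro ⟨j, hj, rfl⟩
      obtain ⟨l, hl, rfl⟩ := (M3g_dec2 i j).mp hj
      exact ⟨l, hl, (hbe l).symm⟩
    · rintro ⟨l, hl, rfl⟩
      exact ⟨l.castSucc.castSucc, (M3g_dec2 i _).mpr ⟨l, hl, rfl⟩, hbe l⟩
  rw [hM] at hz
  have htop : span (ZMod 2) (Set.range o) ⊔ span (ZMod 2) {x₁, x₂} = ⊤ := by
    rw [eq_top_iff]
    have h9 : span (ZMod 2) (Set.range b) = ⊤ :=
      hli.span_eq_top_of_card_eq_finrank (by simp)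
    rw [← h9]
    refine span_le.mpr ?_
    rintro _ ⟨i, rfl⟩
    by_cases h3 : i = 3
    · rw [h3, hb3]; exact mem_sup_right (subset_span (by simp))
    · by_cases h4 : i = 4
      · rw [h4, hb4]; exact mem_sup_right (subset_span (by simp))
      · obtain ⟨k, rfl⟩ := (M3g_dec1 i).mp ⟨h3, h4⟩
        rw [hbe]; exact mem_sup_left (subset_span ⟨k, rfl⟩)
  have hadd : ∀ z y : E, span (ZMod 2) (Set.range o) ⊔ span (ZMod 2) {z, y} = ⊤ →
      span (ZMod 2) (Set.range o) ⊔ span (ZMod 2) {z, z + y} = ⊤ := by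
    intro z y h
    rw [eq_top_iff, ← h]
    refine sup_le_sup_left (span_le.mpr ?_) _
    have hz' : z ∈ span (ZMod 2) ({z, z + y} : Set E) := subset_span (by simp)
    have hy' : y ∈ span (ZMod 2) ({z, z + y} : Set E) := by
      have h1 : z + (z + y) ∈ span (ZMod 2) ({z, z + y} : Set E) :=
        add_mem hz' (subset_span (Set.mem_insert_of_mem _ rfl))
      rw [← add_assoc, M3g_two, zero_add] at h1
      exact h1
    rintro w (rfl | hw)
    · exact hz'
    · have hw' : w = y := hw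
      rw [hw']
      exact hy'
  have htop2 := hadd _ _ htop
  have htop3 : span (ZMod 2) (Set.range o) ⊔ span (ZMod 2) {x₂, x₁} = ⊤ := by
    rw [Set.pair_comm]; exact htop
  have htop4 := hadd _ _ htop3
  -- rank two
  have hf := hM3f X u L n hC hLev hrk (by rw [hM]; exact hz)
  have h2 : ∀ i : Fin 3, ∀ d₁ d₂ : E,
      span (ZMod 2) (Set.range o) ⊔ span (ZMod 2) {d₁, d₂} = ⊤ →
      cs X u (span (ZMod 2) (o '' {l | l ≠ i})) d₁ = 0 ∨
      cs X u (span (ZMod 2) (o '' {l | l ≠ i})) d₂ = 0 := by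
    intro i d₁ d₂ hd
    obtain ⟨f1, f2, f3⟩ := M3g_flat hCS ho {l | l ≠ i}
    have hr : rk (inn X (span (ZMod 2) (o '' {l | l ≠ i}))) = 2 := by
      unfold rk
      rw [f3]
      have h10 : o '' {l | l ≠ i} = Set.range (o ∘ i.succAbove) := by
        rw [Set.range_comp, Fin.range_succAbove]
        rfl
      rw [h10, finrank_span_eq_card (hi.comp _ Fin.succAbove_right_injective), Fintype.card_fin]
    have := (hf _ f1 f2).1 hr d₁ d₂ (by rw [hM]; exact hd)
    rw [f3] at this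
    exact this
  -- rank one
  have h1 : ∀ k : Fin 3, tau (out X (span (ZMod 2) (Set.range o))) (span (ZMod 2) {o k}) u 4 = 0 := by
    intro k
    obtain ⟨f1, f2, f3⟩ := M3g_flat hCS ho {k}
    have hr : rk (inn X (span (ZMod 2) (o '' {k}))) = 1 := by
      unfold rk
      rw [f3, Set.image_singleton]
      exact finrank_span_singleton (hi.ne_zero k)
    have := (hf _ f1 f2).2 hr
    rw [f3, hM, Set.image_singleton] at this
    exact this
  obtain ⟨q33, q34, q44, qi⟩ := M3g_Q hQF hU (u := u) b hb (by rw [hbM]; exact hz)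
  have hsub : out X (span (ZMod 2) (b '' {j | j ≠ 3 ∧ j ≠ 4})) ⊆ X := Finset.filter_subset _ _
  have hperm := M3g_perm hCO2 hTAU hU b hb _ hsub q33 q34 q44
  have key : ∀ i j : Fin 3, i ≠ j →
      Qf L b (out X (span (ZMod 2) (b '' {j | j ≠ 3 ∧ j ≠ 4}))) u i.castSucc.castSucc 3 *
      Qf L b (out X (span (ZMod 2) (b '' {j | j ≠ 3 ∧ j ≠ 4}))) u j.castSucc.castSucc 4 =
      Qf L b (out X (span (ZMod 2) (b '' {j | j ≠ 3 ∧ j ≠ 4}))) u i.castSucc.castSucc 4 *
      Qf L b (out X (span (ZMod 2) (b '' {j | j ≠ 3 ∧ j ≠ 4}))) u j.castSucc.castSucc 3 := by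
    have k0 := hperm 1 rfl rfl (by
      have hb0 : b ((1 : Equiv.Perm (Fin 5)) 0) = o 0 := hbe 0
      rw [hbM, hb0]; exact h1 0)
    have k1 := hperm (Equiv.swap 0 1) (by decide) (by decide) (by
      have hb0 : b (Equiv.swap (0 : Fin 5) 1 0) = o 1 := by
        rw [Equiv.swap_apply_left]; exact hbe 1
      rw [hbM, hb0]; exact h1 1)
    have k2 := hperm (Equiv.swap 0 2) (by decide) (by decide) (by
      have hb0 : b (Equiv.swap (0 : Fin 5) 2 0) = o 2 := by
        rw [Equiv.swap_apply_left]; exact hbe 2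
      rw [hbM, hb0]; exact h1 2)
    have a1 : (1 : Equiv.Perm (Fin 5)) 1 = (1 : Fin 3).castSucc.castSucc := rfl
    have a2 : (1 : Equiv.Perm (Fin 5)) 2 = (2 : Fin 3).castSucc.castSucc := rfl
    have a3 : Equiv.swap (0 : Fin 5) 1 1 = (0 : Fin 3).castSucc.castSucc := by decide
    have a4 : Equiv.swap (0 : Fin 5) 1 2 = (2 : Fin 3).castSucc.castSucc := by decide
    have a5 : Equiv.swap (0 : Fin 5) 2 1 = (1 : Fin 3).castSucc.castSucc := by decide
    have a6 : Equiv.swap (0 : Fin 5) 2 2 = (0 : Fin 3).castSucc.castSucc := by decide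
    rw [a1, a2] at k0
    rw [a3, a4] at k1
    rw [a5, a6] at k2
    have aux : ∀ i j : Fin 3, i ≠ j → (i = 0 ∧ j = 1) ∨ (i = 1 ∧ j = 0) ∨ (i = 0 ∧ j = 2) ∨
        (i = 2 ∧ j = 0) ∨ (i = 1 ∧ j = 2) ∨ (i = 2 ∧ j = 1) := by decide
    intro i j hij
    rcases aux i j hij with ⟨rfl, rfl⟩ | ⟨rfl, rfl⟩ | ⟨rfl, rfl⟩ | ⟨rfl, rfl⟩ | ⟨rfl, rfl⟩ |
      ⟨rfl, rfl⟩
    · linarith
    · linarith
    · linarith
    · linarith
    · linarith
    · linarith
  -- the signs
  have hne3 : ∀ i : Fin 3, i.castSucc.castSucc ≠ (3 : Fin 5) := by decide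
  have hne4 : ∀ i : Fin 3, i.castSucc.castSucc ≠ (4 : Fin 5) := by decide
  choose p hp hp' using fun i : Fin 3 => (qi i.castSucc.castSucc (hne3 i) (hne4 i)).1
  choose q hq hq' using fun i : Fin 3 => (qi i.castSucc.castSucc (hne3 i) (hne4 i)).2
  have hT := M3g_type (fun i => cs X u (span (ZMod 2) (o '' {l | l ≠ i})) x₁)
    (fun i => cs X u (span (ZMod 2) (o '' {l | l ≠ i})) x₂)
    (fun i => cs X u (span (ZMod 2) (o '' {l | l ≠ i})) (x₁ + x₂)) p q hp hq
    (fun i => h2 i x₁ x₂ htop) (fun i => h2 i x₁ (x₁ + x₂) htop2)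
    (fun i => by rw [add_comm x₁ x₂]; exact h2 i x₂ (x₂ + x₁) htop4) (by
      intro i j hij
      have k := key i j hij
      rw [hp', hq', hp', hq', hbG, hbG, hb3, hb4] at k
      exact k)
  rcases hT with hT | hT | hT
  · exact ⟨o, _, ho, M3g_fin hCS hoX hi htop hz (fun i => (hT i).1) (fun i => (hT i).2)⟩
  · exact ⟨o, _, ho, M3g_fin hCS hoX hi htop3 hz (fun i => (hT i).1)
      (fun i => by rw [add_comm x₂ x₁]; exact (hT i).2)⟩
  · refine ⟨o, _, ho, M3g_fin hCS (z := x₁ + x₂) (y := x₁) hoX hi ?_ hz (fun i => (hT i).1)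
      (fun i => ?_)⟩
    · rw [Set.pair_comm]; exact htop2
    · have : x₁ + x₂ + x₁ = x₂ := by
        rw [add_comm x₁ x₂, add_assoc, M3g_two, add_zero]
      rw [this]; exact (hT i).2

end Pool.Agent.TRG
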