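import Pool.Agent.TRG.St

/-!
# TRG, module MAS: the master statement (helper59)
-/

set_option autoImplicit false

open Submodule Filter Topology
open Pool.Agent.SPT Pool.Agent.SPT.Rel

namespace Pool.Agent.TRG

private theorem MAS_rk_mono {F G : Finset E} (h : F ⊆ G) : rk F ≤ rk G :=
  Submodule.finrank_mono (span_mono (Finset.coe_subset.2 h))

/-- [MAS] -/
theorem MAS_proof (hSUM : St_SUM) (hCL : St_CL) : St_MAS := by
  classical
  intro X u L n hX hL N t ht hcoh
  obtain ⟨M, hM⟩ : ∃ M, M = sp (Od X u n) := ⟨_, rfl⟩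
  rw [← hM] at ht hcoh ⊢
  have hsub : inn X M ⊆ X := by
    unfold inn
    exact Finset.filter_subset _ _
  have hmemOd : ∀ (k : ℕ) (v : E), v ∈ Od X u k ↔ v ∈ X ∧ ¬ (2 : ℤ) ^ k ∣ u v := by
    intro k v
    unfold Od
    exact Finset.mem_filter
  have hOsub : Od X u n ⊆ inn X M := by
    intro v hv
    unfold inn
    rw [Finset.mem_filter, hM]
    exact ⟨((hmemOd n v).1 hv).1, subset_span (Finset.mem_coe.2 hv)⟩
  have hO : Od (inn X M) u n = Od X u n := by
    ext v
    rw [hmemOd]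
    unfold Od
    rw [Finset.mem_filter]
    constructor
    · exact fun h => ⟨hsub h.1, h.2⟩
    · exact fun h => ⟨hOsub ((hmemOd n v).2 h), h.2⟩
  have hO1 : Od (inn X M) u (n - 1) ⊆ Od X u (n - 1) := by
    intro v hv
    rw [hmemOd]
    unfold Od at hv
    rw [Finset.mem_filter] at hv
    exact ⟨hsub hv.1, hv.2⟩
  have h := hCL (inn X M) u n (fun h0 => hX.zero (hsub h0)) hL.pos
    (le_trans (MAS_rk_mono hO1) hL.low) t (by rw [hO]; exact hcoh) (by
      intro ζ hζ
      have hζ0 : ζ ≠ 0 := hζ.ne_zero (pow_ne_zero n two_ne_zero)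
      refine hSUM X u hX.spn hX.van M ζ hζ0 ?_ N t ht
      intro v hv
      unfold out at hv
      rw [Finset.mem_filter] at hv
      have hdvd : (2 : ℤ) ^ n ∣ u v := by
        by_contra hnd
        apply hv.2
        rw [hM]
        exact subset_span (Finset.mem_coe.2 ((hmemOd n v).2 ⟨hv.1, hnd⟩))
      obtain ⟨k, hk⟩ := hdvd
      rw [hk, zpow_mul]
      have h1 : ζ ^ ((2 : ℤ) ^ n) = 1 := by
        have h2 := hζ.pow_eq_one
        have h3 : ((2 : ℤ) ^ n) = ((2 ^ n : ℕ) : ℤ) := by push_cast; rfl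
        rw [h3, zpow_natCast]
        exact h2
      rw [h1, one_zpow])
  intro F hF hFO
  refine h F hF ?_
  rw [hO]
  exact hFO

end Pool.Agent.TRG
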