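import Pool.Agent.TRG.St

/-!
# TRG : module MOB, Möbius inversion
-/

set_option autoImplicit false

open Submodule
open Pool.Agent.SPT Pool.Agent.SPT.Rel

namespace Pool.Agent.TRG

private theorem MOB_top {c : ℕ} (f : E →ₗ[ZMod 2] (Fin c → ZMod 2)) (hf : Function.Surjective f)
    (W : Finset E) : LinearMap.ker f ⊔ sp W = ⊤ ↔ (sp W).map f = ⊤ := by
  rw [sup_comm, ← Submodule.comap_map_eq]
  constructor
  · intro h
    have h1 := congrArg (Submodule.map f) h
    rw [Submodule.map_comap_eq_of_surjective hf, Submodule.map_top,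
      LinearMap.range_eq_top.2 hf] at h1
    exact h1
  · intro h
    rw [h, Submodule.comap_top]

private theorem MOB_le {c : ℕ} (f : E →ₗ[ZMod 2] (Fin c → ZMod 2)) (W : Finset E)
    (H : Submodule (ZMod 2) (Fin c → ZMod 2)) :
    (sp W).map f ≤ H ↔ ∀ v ∈ W, f v ∈ H := by
  rw [Submodule.map_le_iff_le_comap, Submodule.span_le]
  exact Iff.rfl

open Classical in
private theorem MOB_prod (B : Finset E) (x : E → ℂ) (p : E → Prop) :
    (∑ W ∈ B.powerset, if (∀ v ∈ W, p v) then ∏ v ∈ W, (x v - 1) else 0) =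
      ∏ v ∈ B, if p v then x v else 1 := by
  have h1 : ∀ v, (if p v then x v else 1) = 1 + (if p v then x v - 1 else 0) := by
    intro v
    by_cases h : p v
    · rw [if_pos h, if_pos h]
      ring
    · rw [if_neg h, if_neg h, add_zero]
  rw [Finset.prod_congr rfl fun v _ => h1 v, Finset.prod_one_add]
  refine Finset.sum_congr rfl fun W _ => ?_
  by_cases h : ∀ v ∈ W, p v
  · rw [if_pos h]
    exact Finset.prod_congr rfl fun v hv => (if_pos (h v hv)).symm
  · rw [if_neg h]
    have h2 : ∃ v ∈ W, ¬ p v := by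
      by_contra h3
      apply h
      intro v hv
      by_contra h4
      exact h3 ⟨v, hv, h4⟩
    obtain ⟨v, hv, hpv⟩ := h2
    exact (Finset.prod_eq_zero hv (if_neg hpv)).symm

/-- [MOB] Möbius inversion. -/
theorem MOB_proof : St_MOB := by
  intro c f hf S m _ hm B x
  classical
  have h1 : ∀ W ∈ B.powerset, (if LinearMap.ker f ⊔ sp W = ⊤ then ∏ v ∈ W, (x v - 1) else 0) =
      ∑ H ∈ S, (m H : ℂ) * (if (∀ v ∈ W, f v ∈ H) then ∏ v ∈ W, (x v - 1) else 0) := by
    intro W _
    have h2 := congrArg (fun z : ℤ => (z : ℂ) * ∏ v ∈ W, (x v - 1)) (hm ((sp W).map f))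
    simp only [Int.cast_sum, Finset.sum_mul] at h2
    have h3 : (if LinearMap.ker f ⊔ sp W = ⊤ then ∏ v ∈ W, (x v - 1) else 0) =
        (((if (sp W).map f = ⊤ then 1 else 0 : ℤ)) : ℂ) * ∏ v ∈ W, (x v - 1) := by
      by_cases h : (sp W).map f = ⊤
      · rw [if_pos h, if_pos ((MOB_top f hf W).2 h), Int.cast_one, one_mul]
      · rw [if_neg h, if_neg (fun h' => h ((MOB_top f hf W).1 h')), Int.cast_zero, zero_mul]
    rw [h3, ← h2]
    refine Finset.sum_congr rfl fun H _ => ?_
    by_cases h : (sp W).map f ≤ H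
    · rw [if_pos h, if_pos ((MOB_le f W H).1 h)]
    · rw [if_neg h, if_neg (fun h' => h ((MOB_le f W H).2 h')), Int.cast_zero, zero_mul, mul_zero]
  unfold TT
  rw [Finset.sum_congr rfl h1, Finset.sum_comm]
  refine Finset.sum_congr rfl fun H _ => ?_
  rw [← Finset.mul_sum, MOB_prod B x (fun v => f v ∈ H)]

end Pool.Agent.TRG
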