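import Pool.Agent.TRG.St2

/-!
# TRG, module REDa : transfer to `Fin 5 → ZMod 2` (helper31)
-/

set_option autoImplicit false

open Submodule
open Pool.Agent.SPT Pool.Agent.SPT.Rel

namespace Pool.Agent.TRG

section

variable {V : Type} [AddCommGroup V] [Module (ZMod 2) V] [DecidableEq V]

private theorem REDa_PP_image (e : E →ₗ[ZMod 2] V) (he : Function.Injective e) (X : Finset E)
    (x : V → ℂ) : PP (X.image e) ⊥ x = PP X ⊥ (fun v => x (e v)) := by
  classical
  unfold PP
  symm
  refine Finset.sum_bij (fun W _ => W.image e) ?_ ?_ ?_ ?_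
  · intro W hW
    rw [Finset.mem_powerset] at hW ⊢
    exact Finset.image_subset_image hW
  · intro W _ W' _ h
    exact Finset.image_injective he h
  · intro W hW
    rw [Finset.mem_powerset, Finset.subset_image_iff] at hW
    obtain ⟨W', h1, h2⟩ := hW
    exact ⟨W', Finset.mem_powerset.2 (by exact_mod_cast h1), h2⟩
  · intro W hW
    have h1 : Spans ⊥ (X.image e) (W.image e) ↔ Spans ⊥ X W := by
      unfold Spans
      rw [bot_sup_eq, bot_sup_eq, bot_sup_eq, bot_sup_eq, Finset.coe_image, Finset.coe_image,
        span_image, span_image]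
      exact (map_injective_of_injective he).eq_iff
    rw [Finset.prod_image (fun a _ b _ h => he h)]
    exact if_congr h1.symm rfl rfl

omit [DecidableEq V] in
/-- a map which is injective on the span of a set of rank five has a section -/
private theorem REDa_section (X : Finset V) (φ : V →ₗ[ZMod 2] E)
    (hr : 5 = Module.finrank (ZMod 2) (span (ZMod 2) (X : Set V)))
    (hφ : ∀ v ∈ span (ZMod 2) (X : Set V), φ v = 0 → v = 0) :
    ∃ e : E →ₗ[ZMod 2] V, (∀ y, φ (e y) = y) ∧ (∀ y, e y ∈ span (ZMod 2) (X : Set V)) ∧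
      ∀ v ∈ span (ZMod 2) (X : Set V), e (φ v) = v := by
  have hfd : Module.Finite (ZMod 2) (span (ZMod 2) (X : Set V)) :=
    Module.Finite.span_of_finite _ (Finset.finite_toSet X)
  obtain ⟨ψ, hψ⟩ : ∃ ψ : span (ZMod 2) (X : Set V) →ₗ[ZMod 2] E,
      ψ = φ.domRestrict (span (ZMod 2) (X : Set V)) := ⟨_, rfl⟩
  have hψa : ∀ v, ψ v = φ v := by
    intro v
    rw [hψ]
    rfl
  have hinj : Function.Injective ψ := by
    rw [injective_iff_map_eq_zero]
    intro v hv
    rw [hψa] at hv
    exact Subtype.ext (hφ v v.2 hv)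
  have hfr : Module.finrank (ZMod 2) (span (ZMod 2) (X : Set V)) =
      Module.finrank (ZMod 2) E := by
    rw [← hr]
    simp
  obtain ⟨g, hg⟩ : ∃ g : span (ZMod 2) (X : Set V) ≃ₗ[ZMod 2] E, ∀ v, g v = ψ v :=
    ⟨LinearMap.linearEquivOfInjective ψ hinj hfr, fun v => rfl⟩
  refine ⟨(span (ZMod 2) (X : Set V)).subtype ∘ₗ g.symm.toLinearMap, fun y => ?_, fun y => ?_,
    fun v hv => ?_⟩
  · have h1 : ((span (ZMod 2) (X : Set V)).subtype ∘ₗ g.symm.toLinearMap) y =
        ((g.symm y : span (ZMod 2) (X : Set V)) : V) := rfl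
    rw [h1, ← hψa, ← hg, LinearEquiv.apply_symm_apply]
  · exact (g.symm y).2
  · have h1 : ((span (ZMod 2) (X : Set V)).subtype ∘ₗ g.symm.toLinearMap) (φ v) =
        ((g.symm (φ v) : span (ZMod 2) (X : Set V)) : V) := rfl
    have h2 : φ v = g ⟨v, hv⟩ := by
      rw [hg, hψa]
    rw [h1, h2, LinearEquiv.symm_apply_apply]

/-- the induction step -/
private theorem REDa_step (hall : ∀ (X : Finset E) (u : E → ℤ) (L : E → Fin 5 → ℤ), ¬ MinC X u L)
    (X : Finset V) (hX : TRL.Reg X)
    (hr : Module.finrank (ZMod 2) (span (ZMod 2) (X : Set V)) ≤ 5)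
    (ih : ∀ Y : Finset V, Y ⊂ X → NonV Y) : NonV X := by
  classical
  by_cases h0 : (0 : V) ∈ X
  · intro u hu
    have hne : (0 : V) ∉ X.erase 0 := Finset.notMem_erase 0 X
    obtain ⟨z, hz, hP⟩ := ih (X.erase 0) (Finset.erase_ssubset h0) u
      (fun v hv hv0 => hu v (Finset.mem_of_mem_erase hv) hv0)
    refine ⟨z, hz, ?_⟩
    have hz0 : z ≠ 0 := by
      rintro rfl
      rw [norm_zero] at hz
      exact zero_ne_one hz
    rw [← Finset.insert_erase h0, PP_loop (X.erase 0) ⊥ _ 0 hne (zero_mem _)]
    exact mul_ne_zero (zpow_ne_zero _ hz0) hP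
  · by_cases h4 : Module.finrank (ZMod 2) (span (ZMod 2) (X : Set V)) ≤ 4
    · exact thm_Rank4 V X h4
    · by_contra hcon
      unfold NonV at hcon
      push Not at hcon
      obtain ⟨u, hu, hcir⟩ := hcon
      obtain ⟨r, φ, L, hrr, hred, hinj, hdet⟩ := hX.regular
      have hr5 : r = 5 := by omega
      subst hr5
      obtain ⟨e, hφe, heX, heφ⟩ := REDa_section X φ hrr hinj
      have he : Function.Injective e := by
        intro x y h
        rw [← hφe x, ← hφe y, h]
      obtain ⟨Y, hY⟩ : ∃ Y : Finset E, Y = Finset.univ.filter (fun y => e y ∈ X) := ⟨_, rfl⟩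
      have hmY : ∀ y, y ∈ Y ↔ e y ∈ X := by
        intro y
        rw [hY, Finset.mem_filter]
        exact ⟨fun h => h.2, fun h => ⟨Finset.mem_univ _, h⟩⟩
      have hYX : X = Y.image e := by
        ext w
        rw [Finset.mem_image]
        constructor
        · intro hw
          have h1 : e (φ w) = w := heφ w (subset_span hw)
          exact ⟨φ w, (hmY _).2 (by rw [h1]; exact hw), h1⟩
        · rintro ⟨y, hy, rfl⟩
          exact (hmY y).1 hy
      refine hall Y (fun y => u (e y)) (fun y => L (e y)) ⟨?_, ?_, ?_, ?_, ?_, ?_, ?_⟩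
      · intro h
        rw [hmY, map_zero] at h
        exact h0 h
      · unfold sp
        rw [eq_top_iff]
        intro y _
        have h1 : e y ∈ span (ZMod 2) (X : Set V) := heX y
        rw [hYX, Finset.coe_image, span_image] at h1
        obtain ⟨y', hy', hyy⟩ := mem_map.1 h1
        rw [← he hyy]
        exact hy'
      · intro v hv
        have h1 := (hmY v).1 hv
        exact hu (e v) h1 fun h => h0 (h ▸ h1)
      · intro z hz
        have h1 := hcir z hz
        rw [hYX, REDa_PP_image e he] at h1
        exact h1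
      · intro Z hZ hne w hw
        have hsub : Z.image e ⊂ X := by
          rw [hYX]
          refine (Finset.image_subset_image hZ).ssubset_of_ne fun h => hne ?_
          exact Finset.image_injective he h
        obtain ⟨z, hz, hP⟩ := ih (Z.image e) hsub (fun v => w (φ v)) (fun v hv hv0 => by
          obtain ⟨y, hy, rfl⟩ := Finset.mem_image.1 hv
          rw [hφe]
          exact hw y hy fun h => hv0 (by rw [h, map_zero]))
        refine ⟨z, hz, ?_⟩
        rw [REDa_PP_image e he] at hP
        simp only [hφe] at hP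
        exact hP
      · intro v hv i
        have h1 := hred (e v) ((hmY v).1 hv) i
        rw [hφe] at h1
        exact h1
      · intro x hx
        exact hdet (fun i => e (x i)) fun i => (hmY _).1 (hx i)

end

/-- **REDa**. -/
theorem REDa_proof : St_REDa := by
  intro hall V _ _ _ X hX hr
  induction X using Finset.strongInduction with
  | H X ih =>
    refine REDa_step hall X hX hr fun Y hY => ih Y hY (hX.mono hY.subset) ?_
    have hfd : Module.Finite (ZMod 2) (span (ZMod 2) (X : Set V)) :=
      Module.Finite.span_of_finite _ (Finset.finite_toSet X)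
    exact (finrank_mono (span_mono (Finset.coe_subset.2 hY.subset))).trans hr

end Pool.Agent.TRG
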