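import Pool.Agent.TRG.St2

/-!
# TRG : module REDb : the properties in `Cx` (helper4)
-/

set_option autoImplicit false

open Submodule
open Pool.Agent.SPT Pool.Agent.SPT.Rel

namespace Pool.Agent.TRG

/-- A Laurent polynomial which is zero on the circle is zero. -/
private theorem REDb_circle {g : ℂ → ℂ} (hg : SumNV_LP g) (h : ∀ z : ℂ, ‖z‖ = 1 → g z = 0) :
    ∀ z : ℂ, z ≠ 0 → g z = 0 := by
  obtain ⟨M, P, hP⟩ := hg
  have hP0 : P = 0 := by
    refine Polynomial.eq_zero_of_infinite_isRoot _ (SumNV_circle.mono fun z hz => ?_)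
    have hz1 : ‖z‖ = 1 := by simpa using hz
    have hz0 : z ≠ 0 := by
      intro h0
      rw [h0, norm_zero] at hz1
      exact zero_ne_one hz1
    show P.eval z = 0
    rw [hP z hz0, h z hz1, mul_zero]
  intro z hz
  have h1 := hP z hz
  rw [hP0, Polynomial.eval_zero] at h1
  rcases mul_eq_zero.1 h1.symm with h2 | h2
  · exact absurd h2 (pow_ne_zero _ hz)
  · exact h2

/-- deletion and contraction -/
private theorem REDb_DC (B : Finset E) (K : Submodule (ZMod 2) E) (x : E → ℂ) (e : E)
    (he : e ∉ B) :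
    TT (insert e B) K x = TT B K x + (x e - 1) * TT B (K ⊔ span (ZMod 2) {e}) x := by
  classical
  unfold TT
  rw [Finset.sum_powerset_insert he, Finset.mul_sum]
  congr 1
  refine Finset.sum_congr rfl fun W hW => ?_
  have heW : e ∉ W := fun h => he (Finset.mem_powerset.1 hW h)
  have h1 : K ⊔ sp (insert e W) = K ⊔ span (ZMod 2) {e} ⊔ sp W := by
    unfold sp
    rw [Finset.coe_insert, span_insert, sup_assoc]
  rw [h1]
  by_cases h : K ⊔ span (ZMod 2) {e} ⊔ sp W = ⊤
  · rw [if_pos h, if_pos h, Finset.prod_insert heW]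
  · rw [if_neg h, if_neg h, mul_zero]

private theorem REDb_PP (X : Finset E) (h : sp X = ⊤) (x : E → ℂ) : PP X ⊥ x = TT X ⊥ x := by
  classical
  unfold PP TT
  refine Finset.sum_congr rfl fun W _ => ?_
  have h1 : Spans ⊥ X W ↔ ⊥ ⊔ sp W = ⊤ := by
    unfold Spans
    change ⊥ ⊔ sp W = ⊥ ⊔ sp X ↔ _
    rw [h, bot_sup_eq (⊤ : Submodule (ZMod 2) E)]
  by_cases h2 : ⊥ ⊔ sp W = ⊤
  · rw [if_pos h2, if_pos (h1.2 h2)]
  · rw [if_neg h2, if_neg fun h3 => h2 (h1.1 h3)]

private theorem REDb_zero (B : Finset E) (K S : Submodule (ZMod 2) E) (hK : K ≤ S)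
    (hB : ∀ w ∈ B, w ∈ S) (hS : S ≠ ⊤) (x : E → ℂ) : TT B K x = 0 := by
  classical
  unfold TT
  refine Finset.sum_eq_zero fun W hW => ?_
  rw [if_neg]
  intro h
  apply hS
  rw [eq_top_iff, ← h]
  refine sup_le hK (span_le.2 fun w hw => ?_)
  exact hB w (Finset.mem_powerset.1 hW (Finset.mem_coe.1 hw))

private theorem REDb_two (a : E) : a + a = 0 := CharTwo.add_self_eq_zero a

private theorem REDb_ne {v w : E} (h : v ≠ 0) : w + v ≠ w := by
  intro h1
  exact h (by simpa using h1)

/-- the sum is zero if all pairs outside of `S` have the product one -/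
private theorem REDb_pairs (K S : Submodule (ZMod 2) E) (v : E) (hv0 : v ≠ 0) (hv : v ∈ K)
    (hK : K ≤ S) (hS : S ≠ ⊤) (x : E → ℂ) (n : ℕ) : ∀ B : Finset E, B.card ≤ n →
    (∀ w ∈ B, w ∉ S → w + v ∈ B ∧ x w * x (w + v) = 1) → TT B K x = 0 := by
  classical
  induction n with
  | zero =>
    intro B hB _
    rw [Nat.le_zero, Finset.card_eq_zero] at hB
    refine REDb_zero B K S hK (fun w hw => ?_) hS x
    rw [hB] at hw
    exact absurd hw (Finset.notMem_empty _)
  | succ n ih =>
    intro B hB h
    by_cases hall : ∀ w ∈ B, w ∈ S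
    · exact REDb_zero B K S hK hall hS x
    · push Not at hall
      obtain ⟨w, hw, hwS⟩ := hall
      obtain ⟨hwv, hx⟩ := h w hw hwS
      have hne : w + v ≠ w := REDb_ne hv0
      have hwv1 : w + v ∈ B.erase w := Finset.mem_erase.2 ⟨hne, hwv⟩
      obtain ⟨C, hC⟩ : ∃ C, C = (B.erase w).erase (w + v) := ⟨_, rfl⟩
      have hCw : w + v ∉ C := by
        rw [hC]
        exact Finset.notMem_erase _ _
      have h1 : insert (w + v) C = B.erase w := by
        rw [hC]
        exact Finset.insert_erase hwv1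
      have h2 : insert w (insert (w + v) C) = B := by
        rw [h1]
        exact Finset.insert_erase hw
      have h3 : w ∉ insert (w + v) C := by
        rw [h1]
        exact Finset.notMem_erase _ _
      have hcard : C.card ≤ n := by
        have h4 := Finset.card_erase_of_mem hwv1
        have h5 := Finset.card_erase_of_mem hw
        rw [hC]
        omega
      have hCz : TT C K x = 0 := by
        refine ih C hcard fun w' hw' hwS' => ?_
        rw [hC, Finset.mem_erase, Finset.mem_erase] at hw'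
        obtain ⟨h4, h5⟩ := h w' hw'.2.2 hwS'
        refine ⟨?_, h5⟩
        rw [hC, Finset.mem_erase, Finset.mem_erase]
        refine ⟨fun h6 => hw'.2.1 (add_right_cancel h6), fun h6 => hw'.1 ?_, h4⟩
        rw [← h6, add_assoc, REDb_two, add_zero]
      have hKv : K ⊔ span (ZMod 2) {w + v} = K ⊔ span (ZMod 2) {w} := by
        refine le_antisymm (sup_le le_sup_left ?_) (sup_le le_sup_left ?_)
        · rw [span_singleton_le_iff_mem]
          exact add_mem (mem_sup_right (mem_span_singleton_self w)) (mem_sup_left hv)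
        · rw [span_singleton_le_iff_mem]
          have h4 : w = (w + v) + v := by rw [add_assoc, REDb_two, add_zero]
          rw [h4]
          refine add_mem (mem_sup_right ?_) (mem_sup_left hv)
          rw [← h4]
          exact mem_span_singleton_self _
      have hKw : K ⊔ span (ZMod 2) {w} ⊔ span (ZMod 2) {w + v} = K ⊔ span (ZMod 2) {w} := by
        refine le_antisymm (sup_le le_rfl ?_) le_sup_left
        rw [span_singleton_le_iff_mem]
        exact add_mem (mem_sup_right (mem_span_singleton_self w)) (mem_sup_left hv)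
      rw [← h2, REDb_DC _ K x w h3, REDb_DC C K x (w + v) hCw,
        REDb_DC C (K ⊔ span (ZMod 2) {w}) x (w + v) hCw, hKw, hKv, hCz]
      have h4 : (0 : ℂ) + (x (w + v) - 1) * TT C (K ⊔ span (ZMod 2) {w}) x +
          (x w - 1) * (TT C (K ⊔ span (ZMod 2) {w}) x +
            (x (w + v) - 1) * TT C (K ⊔ span (ZMod 2) {w}) x) =
          (x w * x (w + v) - 1) * TT C (K ⊔ span (ZMod 2) {w}) x := by ring
      rw [h4, hx, sub_self, zero_mul]

private theorem REDb_span {v y : E} (h : y ∈ span (ZMod 2) ({v} : Set E)) : y = 0 ∨ y = v := by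
  obtain ⟨a, rfl⟩ := mem_span_singleton.1 h
  have h1 : ∀ a : ZMod 2, a = 0 ∨ a = 1 := by decide
  rcases h1 a with h2 | h2
  · left
    rw [h2, zero_smul]
  · right
    rw [h2, one_smul]

private theorem REDb_class (X : Finset E) (u : E → ℤ) (v w : E) (hv : v ≠ 0) (hw : w ∈ X)
    (huw : u w ≠ 0) (h : cs X u (span (ZMod 2) {v}) w = 0) :
    w + v ∈ X ∧ u w + u (w + v) = 0 := by
  classical
  have hne : w ≠ w + v := (REDb_ne hv).symm
  have key : ∀ w', w' ∈ X.filter (fun w' => w' + w ∈ span (ZMod 2) ({v} : Set E)) ↔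
      w' ∈ X ∧ (w' = w ∨ w' = w + v) := by
    intro w'
    rw [Finset.mem_filter]
    refine and_congr_right fun _ => ⟨fun h1 => ?_, fun h1 => ?_⟩
    · rcases REDb_span h1 with h2 | h2
      · left
        calc w' = w' + w + w := by rw [add_assoc, REDb_two, add_zero]
          _ = w := by rw [h2, zero_add]
      · right
        calc w' = w' + w + w := by rw [add_assoc, REDb_two, add_zero]
          _ = w + v := by rw [h2, add_comm]
    · rcases h1 with h2 | h2
      · rw [h2, REDb_two]
        exact zero_mem _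
      · rw [h2, add_right_comm, REDb_two, zero_add]
        exact mem_span_singleton_self v
  unfold cs at h
  by_cases hwv : w + v ∈ X
  · refine ⟨hwv, ?_⟩
    have h1 : X.filter (fun w' => w' + w ∈ span (ZMod 2) ({v} : Set E)) = {w, w + v} := by
      ext w'
      rw [key, Finset.mem_insert, Finset.mem_singleton]
      refine ⟨fun h2 => h2.2, fun h2 => ⟨?_, h2⟩⟩
      rcases h2 with h3 | h3
      · rw [h3]
        exact hw
      · rw [h3]
        exact hwv
    rw [h1, Finset.sum_pair hne] at h
    exact h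
  · exfalso
    have h1 : X.filter (fun w' => w' + w ∈ span (ZMod 2) ({v} : Set E)) = {w} := by
      ext w'
      rw [key, Finset.mem_singleton]
      refine ⟨fun h2 => ?_, fun h2 => ⟨?_, Or.inl h2⟩⟩
      · rcases h2.2 with h3 | h3
        · exact h3
        · rw [h3] at h2
          exact absurd h2.1 hwv
      · rw [h2]
        exact hw
    rw [h1, Finset.sum_singleton] at h
    exact huw h

private theorem REDb_norm {z : ℂ} (hz : ‖z‖ = 1) : z ≠ 0 := by
  intro h0
  rw [h0, norm_zero] at hz
  exact zero_ne_one hz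

theorem REDb_proof : St_REDb := by
  classical
  intro X u L hM
  have hv0 : ∀ v ∈ X, v ≠ 0 := by
    intro v hv h0
    rw [h0] at hv
    exact hM.zero hv
  have hnot : ¬ NonV X := by
    intro h
    obtain ⟨z, hz, hz1⟩ := h u fun v hv _ => hM.nz v hv
    exact hz1 (hM.cir z hz)
  have hcol : ∀ v ∈ X, sp (X.erase v) = ⊤ := by
    intro v hv
    by_contra hne
    have hvn : v ∉ sp (X.erase v) := by
      intro hvs
      apply hne
      rw [eq_top_iff, ← hM.spn]
      refine span_le.2 fun w hw => ?_
      by_cases hwv : w = v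
      · rw [hwv]
        exact hvs
      · exact subset_span (Finset.mem_coe.2 (Finset.mem_erase.2 ⟨hwv, Finset.mem_coe.1 hw⟩))
    apply hnot
    have h1 : X.erase v ∪ {v} = X := by
      rw [Finset.union_comm, ← Finset.insert_eq, Finset.insert_erase hv]
    rw [← h1]
    refine thm_Sum E _ _ ?_ (hM.min _ (Finset.erase_subset _ _)
      fun h2 => Finset.notMem_erase v X (h2.symm ▸ hv)) ?_
    · rw [Finset.coe_singleton]
      exact (disjoint_span_singleton' (hv0 v hv)).2 hvn
    · refine thm_Rank4 E _ ?_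
      have h2 := finrank_span_finset_le_card (R := ZMod 2) ({v} : Finset E)
      rw [Finset.card_singleton] at h2
      exact h2.trans (by norm_num)
  refine ⟨hM.zero, hM.spn, hM.nz, ?_, ?_, hcol, hM.uni⟩
  · exact REDb_circle (SumNV_PP X u) hM.cir
  · intro v hv
    by_contra hS
    obtain ⟨S, hSd⟩ : ∃ S, S = span (ZMod 2)
      ({v} ∪ {w | w ∈ X ∧ cs X u (span (ZMod 2) {v}) w ≠ 0}) := ⟨_, rfl⟩
    rw [← hSd] at hS
    have hKS : span (ZMod 2) ({v} : Set E) ≤ S := by
      rw [hSd]
      exact span_mono Set.subset_union_left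
    obtain ⟨z, hz, hz1⟩ := hM.min (X.erase v) (Finset.erase_subset _ _)
      (fun h2 => Finset.notMem_erase v X (h2.symm ▸ hv)) u
      fun w hw _ => hM.nz w (Finset.mem_of_mem_erase hw)
    apply hz1
    have hzn : z ≠ 0 := REDb_norm hz
    have h1 := hM.cir z hz
    rw [REDb_PP X hM.spn, ← Finset.insert_erase hv, REDb_DC _ _ _ v (Finset.notMem_erase v X),
      bot_sup_eq] at h1
    rw [REDb_PP _ (hcol v hv)]
    have h2 : TT (X.erase v) (span (ZMod 2) {v}) (fun w => z ^ u w) = 0 := by
      refine REDb_pairs _ S v (hv0 v hv) (mem_span_singleton_self v) hKS hS _ _ (X.erase v)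
        le_rfl fun w hw hwS => ?_
      have hwX := Finset.mem_of_mem_erase hw
      have h3 : cs X u (span (ZMod 2) {v}) w = 0 := by
        by_contra h4
        apply hwS
        rw [hSd]
        exact subset_span (Or.inr ⟨hwX, h4⟩)
      obtain ⟨h4, h5⟩ := REDb_class X u v w (hv0 v hv) hwX (hM.nz w hwX) h3
      refine ⟨Finset.mem_erase.2 ⟨fun h6 => hv0 w hwX (by simpa using h6), h4⟩, ?_⟩
      rw [← zpow_add₀ hzn, h5, zpow_zero]
    rw [h2, mul_zero, add_zero] at h1
    exact h1

end Pool.Agent.TRG
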