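import Pool.Agent.TRG.St

/-!
# TRG, module SUM : expansion at a root of unity
-/

set_option autoImplicit false

open Submodule Filter Topology
open Pool.Agent.SPT Pool.Agent.SPT.Rel

namespace Pool.Agent.TRG

private theorem SUM_PP_TT (X : Finset E) (h : sp X = ⊤) (y : E → ℂ) : PP X ⊥ y = TT X ⊥ y := by
  classical
  unfold PP TT
  refine Finset.sum_congr rfl fun W _ => ?_
  by_cases h1 : (⊥ : Submodule (ZMod 2) E) ⊔ sp W = ⊤
  · rw [if_pos h1, if_pos]
    show (⊥ : Submodule (ZMod 2) E) ⊔ sp W = ⊥ ⊔ sp X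
    rw [h1, h, bot_sup_eq]
  · rw [if_neg h1, if_neg]
    intro h2
    apply h1
    have h3 : (⊥ : Submodule (ZMod 2) E) ⊔ sp W = ⊥ ⊔ sp X := h2
    rw [h3, h, bot_sup_eq]

private theorem SUM_union (X : Finset E) (M : Submodule (ZMod 2) E) :
    inn X M ∪ out X M = X := by
  classical
  ext v
  unfold inn out
  rw [Finset.mem_union, Finset.mem_filter, Finset.mem_filter]
  tauto

private theorem SUM_disj (X : Finset E) (M : Submodule (ZMod 2) E) :
    Disjoint (inn X M) (out X M) := by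
  classical
  rw [Finset.disjoint_left]
  intro v hv hv'
  unfold inn at hv
  unfold out at hv'
  rw [Finset.mem_filter] at hv hv'
  exact hv'.2 hv.2

private theorem SUM_congr (B : Finset E) (K : Submodule (ZMod 2) E) (x y : E → ℂ)
    (h : ∀ v ∈ B, x v = y v) : TT B K x = TT B K y := by
  classical
  unfold TT
  refine Finset.sum_congr rfl fun W hW => ?_
  rw [Finset.mem_powerset] at hW
  rw [Finset.prod_congr rfl fun v hv => by rw [h v (hW hv)]]

private theorem SUM_lim (F : Finset E) (y : ℝ → E → ℂ) (y₀ : E → ℂ)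
    (h : ∀ v, Tendsto (fun x => y x v) (𝓝[>] 0) (𝓝 (y₀ v))) :
    Tendsto (fun x => PP F ⊥ (y x)) (𝓝[>] 0) (𝓝 (PP F ⊥ y₀)) := by
  classical
  unfold PP
  refine tendsto_finset_sum _ fun W _ => ?_
  by_cases h1 : Spans ⊥ F W
  · simp only [if_pos h1]
    exact tendsto_finset_prod _ fun v _ => (h v).sub tendsto_const_nhds
  · simp only [if_neg h1]
    exact tendsto_const_nhds

theorem SUM_proof (hCMP : St_CMP) : St_SUM := by
  classical
  intro X u hX hz M ζ hζ hout N t ht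
  set y : ℝ → E → ℂ := fun x v => ζ ^ u v * ex u x v with hy
  have hyz : ∀ x : ℝ, (fun v => (ζ * Complex.exp (x : ℂ)) ^ u v) = y x := by
    intro x
    funext v
    rw [hy]
    show (ζ * Complex.exp (x : ℂ)) ^ u v = ζ ^ u v * Complex.exp ((x : ℂ) * (u v : ℂ))
    rw [mul_zpow, ← Complex.exp_int_mul, mul_comm ((u v : ℤ) : ℂ) (x : ℂ)]
  have hsum : ∀ x : ℝ, ∑ F ∈ fl (inn X M), PP F ⊥ (y x) *
      (TT (out X M) (sp F) (ex u x) / (x : ℂ) ^ N) = 0 := by
    intro x
    have h1 := hz (ζ * Complex.exp (x : ℂ)) (mul_ne_zero hζ (Complex.exp_ne_zero _))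
    rw [hyz, SUM_PP_TT X hX] at h1
    have h2 := hCMP (inn X M) (out X M) (SUM_disj X M) (y x)
    rw [SUM_union, h1] at h2
    have h3 : ∀ F ∈ fl (inn X M), PP F ⊥ (y x) *
        (TT (out X M) (sp F) (ex u x) / (x : ℂ) ^ N) =
        (PP F ⊥ (y x) * TT (out X M) (sp F) (y x)) / (x : ℂ) ^ N := by
      intro F _
      rw [SUM_congr (out X M) (sp F) (y x) (ex u x) fun v hv => by
        rw [hy]
        show ζ ^ u v * ex u x v = ex u x v
        rw [hout v hv, one_mul], mul_div_assoc]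
    rw [Finset.sum_congr rfl h3, ← Finset.sum_div, ← h2, zero_div]
  have hlim : Tendsto (fun x : ℝ => ∑ F ∈ fl (inn X M), PP F ⊥ (y x) *
      (TT (out X M) (sp F) (ex u x) / (x : ℂ) ^ N)) (𝓝[>] 0)
      (𝓝 (∑ F ∈ fl (inn X M), PP F ⊥ (fun v => ζ ^ u v) * ((t F : ℝ) : ℂ))) := by
    refine tendsto_finset_sum _ fun F hF => ?_
    refine Tendsto.mul (SUM_lim F y _ fun v => ?_) (ht F hF)
    have h1 : Tendsto (fun x : ℝ => ζ ^ u v * Complex.exp ((x : ℂ) * (u v : ℂ))) (𝓝 0)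
        (𝓝 (ζ ^ u v * Complex.exp (((0 : ℝ) : ℂ) * (u v : ℂ)))) := by
      apply Continuous.tendsto
      fun_prop
    rw [Complex.ofReal_zero, zero_mul, Complex.exp_zero, mul_one] at h1
    exact h1.mono_left nhdsWithin_le_nhds
  have hfun : (fun x : ℝ => ∑ F ∈ fl (inn X M), PP F ⊥ (y x) *
      (TT (out X M) (sp F) (ex u x) / (x : ℂ) ^ N)) = fun _ => 0 := by
    funext x
    exact hsum x
  rw [hfun] at hlim
  exact tendsto_nhds_unique hlim tendsto_const_nhds

end Pool.Agent.TRG
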