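import Pool.Agent.TRG.St

/-!
# TRG, module T1: evaluation of `TT` in corank one
-/

set_option autoImplicit false

open Submodule

namespace Pool.Agent.TRG

private theorem T1_top {M : Submodule (ZMod 2) E} (hM : Module.finrank (ZMod 2) M = 4)
    {W : Finset E} {v : E} (hv : v ∈ W) (hvM : v ∉ M) : M ⊔ sp W = ⊤ := by
  have h1 : M < M ⊔ sp W := by
    refine lt_of_le_of_ne le_sup_left fun h => hvM ?_
    rw [h]
    exact Submodule.mem_sup_right (Submodule.subset_span (by exact_mod_cast hv))
  have h2 := Submodule.finrank_lt_finrank_of_lt h1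
  have h3 : Module.finrank (ZMod 2) E = 5 := by simp [E]
  have h4 := Submodule.finrank_le (M ⊔ sp W)
  apply Submodule.eq_top_of_finrank_eq
  omega

private theorem T1_bot {M : Submodule (ZMod 2) E} (hM : Module.finrank (ZMod 2) M = 4) :
    ¬ M ⊔ sp (∅ : Finset E) = ⊤ := by
  intro h
  have h3 : Module.finrank (ZMod 2) E = 5 := by simp [E]
  have h1 : sp (∅ : Finset E) = ⊥ := by
    unfold sp
    rw [Finset.coe_empty, Submodule.span_empty]
  rw [h1, sup_bot_eq] at h
  rw [h, finrank_top] at hM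
  omega

theorem T1_proof : St_T1 := by
  intro D u M hM hD x
  classical
  unfold TT
  have h1 : ∀ W ∈ D.powerset, (if M ⊔ sp W = ⊤ then ∏ v ∈ W, (ex u x v - 1) else 0) =
      ∏ v ∈ W, (ex u x v - 1) - if W = ∅ then 1 else 0 := by
    intro W hW
    rcases W.eq_empty_or_nonempty with h | ⟨v, hv⟩
    · rw [h, if_neg (T1_bot hM), if_pos rfl, Finset.prod_empty, sub_self]
    · have h2 : W ≠ ∅ := Finset.ne_empty_of_mem hv
      rw [if_pos (T1_top hM hv (hD v (Finset.mem_powerset.1 hW hv))), if_neg h2, sub_zero]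
  rw [Finset.sum_congr rfl h1, Finset.sum_sub_distrib, Finset.sum_ite_eq' D.powerset ∅,
    if_pos (Finset.empty_mem_powerset D)]
  congr 1
  have h2 : ∏ v ∈ D, ex u x v = ∑ W ∈ D.powerset, ∏ v ∈ W, (ex u x v - 1) := by
    rw [← Finset.prod_add_one]
    exact Finset.prod_congr rfl fun v _ => by ring
  rw [← h2]
  unfold ex
  rw [← Complex.exp_sum]
  congr 1
  push_cast
  rw [Finset.mul_sum]

end Pool.Agent.TRG
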