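import Pool.Agent.TRG.St

/-! # TRG, module T2 (helper45): corank two -/

set_option autoImplicit false

open Submodule Filter Topology
open Pool.Agent.SPT Pool.Agent.SPT.Rel

namespace Pool.Agent.TRG

private theorem T2_add_self (v : E) : v + v = 0 := CharTwo.add_self_eq_zero v

/-- `M ⊔ span {d}` is not everything -/
private theorem T2_ne_top {M : Submodule (ZMod 2) E} (hM : Module.finrank (ZMod 2) M = 3)
    (d : E) : M ⊔ span (ZMod 2) {d} ≠ ⊤ := by
  intro h
  have h1 : Module.finrank (ZMod 2) (M ⊔ span (ZMod 2) {d} : Submodule (ZMod 2) E) ≤ 3 + 1 := by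
    refine (Submodule.finrank_add_le_finrank_add_finrank M (span (ZMod 2) {d})).trans ?_
    rw [hM]
    have h2 : Module.finrank (ZMod 2) (span (ZMod 2) ({d} : Set E)) ≤ 1 := by
      have := finrank_span_le_card (R := ZMod 2) ({d} : Set E)
      simpa using this
    omega
  rw [h, finrank_top] at h1
  simp [E] at h1

private theorem T2_cls {M : Submodule (ZMod 2) E} {d₁ d₂ : E}
    (hd : M ⊔ span (ZMod 2) {d₁, d₂} = ⊤) {v : E} (hv : v ∉ M) :
    v + d₁ ∈ M ∨ v + d₂ ∈ M ∨ v + (d₁ + d₂) ∈ M := by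
  have h0 : v ∈ M ⊔ span (ZMod 2) {d₁, d₂} := by
    rw [hd]
    trivial
  obtain ⟨m, hm, w, hw, rfl⟩ := Submodule.mem_sup.1 h0
  obtain ⟨a, b, rfl⟩ := Submodule.mem_span_pair.1 hw
  have hz : ∀ z : ZMod 2, z = 0 ∨ z = 1 := by decide
  have ha : a = 0 ∨ a = 1 := hz a
  have hb : b = 0 ∨ b = 1 := hz b
  rcases ha with rfl | rfl <;> rcases hb with rfl | rfl
  · exfalso
    apply hv
    simpa using hm
  · right
    left
    have : m + ((0 : ZMod 2) • d₁ + (1 : ZMod 2) • d₂) + d₂ = m := by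
      rw [zero_smul, one_smul, zero_add, add_assoc, T2_add_self, add_zero]
    rw [this]
    exact hm
  · left
    have : m + ((1 : ZMod 2) • d₁ + (0 : ZMod 2) • d₂) + d₁ = m := by
      rw [zero_smul, one_smul, add_zero, add_assoc, T2_add_self, add_zero]
    rw [this]
    exact hm
  · right
    right
    have : m + ((1 : ZMod 2) • d₁ + (1 : ZMod 2) • d₂) + (d₁ + d₂) = m := by
      rw [one_smul, one_smul, add_assoc, T2_add_self, add_zero]
    rw [this]
    exact hm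

/-- two elements of one class -/
private theorem T2_two {M : Submodule (ZMod 2) E} {w a b : E} (h1 : w + a ∈ M) (h2 : w + b ∈ M) :
    a + b ∈ M := by
  have h3 := M.add_mem h1 h2
  have h4 : w + a + (w + b) = a + b + (w + w) := by abel
  rw [h4, T2_add_self, add_zero] at h3
  exact h3

private theorem T2_d12 {M : Submodule (ZMod 2) E} (hM : Module.finrank (ZMod 2) M = 3) {d₁ d₂ : E}
    (hd : M ⊔ span (ZMod 2) {d₁, d₂} = ⊤) : d₁ + d₂ ∉ M := by
  intro h
  apply T2_ne_top hM d₁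
  rw [eq_top_iff, ← hd]
  refine sup_le le_sup_left (Submodule.span_le.2 ?_)
  intro z hz
  have hd1 : d₁ ∈ M ⊔ span (ZMod 2) {d₁} := (le_sup_right : _ ≤ M ⊔ span (ZMod 2) {d₁})
    (Submodule.mem_span_singleton_self d₁)
  rcases hz with rfl | hz
  · exact hd1
  · rw [Set.mem_singleton_iff] at hz
    subst hz
    have h2 := Submodule.add_mem _ ((le_sup_left : M ≤ M ⊔ span (ZMod 2) {d₁}) h) hd1
    have h3 : d₁ + z + d₁ = z := by
      rw [add_comm d₁ z, add_assoc, T2_add_self, add_zero]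
    rw [h3] at h2
    exact h2

private theorem T2_d1 {M : Submodule (ZMod 2) E} (hM : Module.finrank (ZMod 2) M = 3) {d₁ d₂ : E}
    (hd : M ⊔ span (ZMod 2) {d₁, d₂} = ⊤) : d₁ ∉ M := by
  intro h
  apply T2_ne_top hM d₂
  rw [eq_top_iff, ← hd]
  refine sup_le le_sup_left (Submodule.span_le.2 ?_)
  intro z hz
  rcases hz with rfl | hz
  · exact (le_sup_left : M ≤ M ⊔ span (ZMod 2) {d₂}) h
  · rw [Set.mem_singleton_iff] at hz
    subst hz
    exact (le_sup_right : _ ≤ M ⊔ span (ZMod 2) {z}) (Submodule.mem_span_singleton_self z)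

private theorem T2_d2 {M : Submodule (ZMod 2) E} (hM : Module.finrank (ZMod 2) M = 3) {d₁ d₂ : E}
    (hd : M ⊔ span (ZMod 2) {d₁, d₂} = ⊤) : d₂ ∉ M := by
  refine T2_d1 hM (d₁ := d₂) (d₂ := d₁) ?_
  rw [Set.pair_comm]
  exact hd

/-- a set inside one class does not span -/
private theorem T2_no {M : Submodule (ZMod 2) E} (hM : Module.finrank (ZMod 2) M = 3) {d : E}
    {W : Finset E} (h : ∀ w ∈ W, w + d ∈ M) : M ⊔ sp W ≠ ⊤ := by
  intro h1
  apply T2_ne_top hM d
  rw [eq_top_iff, ← h1]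
  refine sup_le le_sup_left (Submodule.span_le.2 ?_)
  intro w hw
  have h2 : w + d ∈ M ⊔ span (ZMod 2) {d} :=
    (le_sup_left : M ≤ M ⊔ span (ZMod 2) {d}) (h w (Finset.mem_coe.1 hw))
  have h3 : d ∈ M ⊔ span (ZMod 2) {d} := (le_sup_right : _ ≤ M ⊔ span (ZMod 2) {d})
    (Submodule.mem_span_singleton_self d)
  have h4 := Submodule.add_mem _ h2 h3
  rw [add_assoc, T2_add_self, add_zero] at h4
  exact h4

/-- elements of two classes span -/
private theorem T2_yes {M : Submodule (ZMod 2) E} {d₁ d₂ a b : E}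
    (hd : M ⊔ span (ZMod 2) {d₁, d₂} = ⊤) {W : Finset E} {w w' : E} (hw : w ∈ W) (hw' : w' ∈ W)
    (ha : w + a ∈ M) (hb : w' + b ∈ M)
    (hab : ∀ N : Submodule (ZMod 2) E, a ∈ N → b ∈ N → d₁ ∈ N ∧ d₂ ∈ N) : M ⊔ sp W = ⊤ := by
  have key : ∀ {w a : E}, w ∈ W → w + a ∈ M → a ∈ M ⊔ sp W := by
    intro w a hw ha
    have h1 : w ∈ M ⊔ sp W := (le_sup_right : _ ≤ M ⊔ sp W)
      (Submodule.subset_span (Finset.mem_coe.2 hw))
    have h2 := Submodule.add_mem _ h1 ((le_sup_left : M ≤ M ⊔ sp W) ha)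
    rw [← add_assoc, T2_add_self, zero_add] at h2
    exact h2
  obtain ⟨h1, h2⟩ := hab _ (key hw ha) (key hw' hb)
  rw [eq_top_iff, ← hd]
  refine sup_le le_sup_left (Submodule.span_le.2 ?_)
  intro z hz
  rcases hz with rfl | hz
  · exact h1
  · rw [Set.mem_singleton_iff] at hz
    subst hz
    exact h2

private theorem T2_sum (C : Finset E) (x : E → ℂ) :
    ∑ W ∈ C.powerset, ∏ v ∈ W, (x v - 1) = ∏ v ∈ C, x v := by
  rw [← Finset.prod_add_one]
  exact Finset.prod_congr rfl fun v _ => by ring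

private theorem T2_sub {C D : Finset E} (hC : C ⊆ D) (f : Finset E → ℂ) [DecidableEq E] :
    ∑ W ∈ D.powerset, (if W ⊆ C then f W else 0) = ∑ W ∈ C.powerset, f W := by
  rw [← Finset.sum_filter]
  refine Finset.sum_congr ?_ fun _ _ => rfl
  ext W
  rw [Finset.mem_filter, Finset.mem_powerset, Finset.mem_powerset]
  exact ⟨fun h => h.2, fun h => ⟨h.trans hC, h⟩⟩

private theorem T2_exp (C : Finset E) (u : E → ℤ) (x : ℝ) :
    ∏ v ∈ C, ex u x v = Complex.exp ((x : ℂ) * ((∑ v ∈ C, u v : ℤ) : ℂ)) := by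
  unfold ex
  rw [← Complex.exp_sum, Int.cast_sum, Finset.mul_sum]

/-- **T2** -/
theorem T2_proof (_hMOB : St_MOB) : St_T2 := by
  classical
  intro D u M hM hD d₁ d₂ hd x
  have n1 := T2_d1 hM hd
  have n2 := T2_d2 hM hd
  have n12 := T2_d12 hM hd
  set C₁ := D.filter (fun w => w + d₁ ∈ M) with hC₁
  set C₂ := D.filter (fun w => w + d₂ ∈ M) with hC₂
  set C₃ := D.filter (fun w => w + (d₁ + d₂) ∈ M) with hC₃
  have m1 : ∀ w, w ∈ C₁ ↔ w ∈ D ∧ w + d₁ ∈ M := fun w => by rw [hC₁, Finset.mem_filter]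
  have m2 : ∀ w, w ∈ C₂ ↔ w ∈ D ∧ w + d₂ ∈ M := fun w => by rw [hC₂, Finset.mem_filter]
  have m3 : ∀ w, w ∈ C₃ ↔ w ∈ D ∧ w + (d₁ + d₂) ∈ M := fun w => by rw [hC₃, Finset.mem_filter]
  have e1 : cs D u M d₁ = ∑ v ∈ C₁, u v := by
    unfold cs
    rw [hC₁]
  have e2 : cs D u M d₂ = ∑ v ∈ C₂, u v := by
    unfold cs
    rw [hC₂]
  have e3 : cs D u M (d₁ + d₂) = ∑ v ∈ C₃, u v := by
    unfold cs
    rw [hC₃]
  have x12 : ∀ w, w + d₁ ∈ M → w + d₂ ∈ M → False := fun w h h' => n12 (T2_two h h')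
  have x13 : ∀ w, w + d₁ ∈ M → w + (d₁ + d₂) ∈ M → False := by
    intro w h h'
    have h3 := T2_two h h'
    rw [← add_assoc, T2_add_self, zero_add] at h3
    exact n2 h3
  have x23 : ∀ w, w + d₂ ∈ M → w + (d₁ + d₂) ∈ M → False := by
    intro w h h'
    have h3 := T2_two h h'
    have h4 : d₂ + (d₁ + d₂) = d₁ := by
      rw [add_comm d₁ d₂, ← add_assoc, T2_add_self, zero_add]
    rw [h4] at h3
    exact n1 h3
  -- the indicator
  have hind : ∀ W ∈ D.powerset, ∀ c : ℂ, (if M ⊔ sp W = ⊤ then c else 0) =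
      c - (if W ⊆ C₁ then c else 0) - (if W ⊆ C₂ then c else 0) - (if W ⊆ C₃ then c else 0) +
        2 * (if W = ∅ then c else 0) := by
    intro W hW c
    rw [Finset.mem_powerset] at hW
    by_cases h0 : W = ∅
    · subst h0
      have : M ⊔ sp (∅ : Finset E) ≠ ⊤ := T2_no hM (d := d₁) (by simp)
      rw [if_neg this, if_pos (Finset.empty_subset _), if_pos (Finset.empty_subset _),
        if_pos (Finset.empty_subset _), if_pos rfl]
      ring
    · obtain ⟨w, hw⟩ := Finset.nonempty_iff_ne_empty.2 h0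
      rw [if_neg h0]
      by_cases s1 : W ⊆ C₁
      · have s2 : ¬ W ⊆ C₂ := fun h => x12 w ((m1 w).1 (s1 hw)).2 ((m2 w).1 (h hw)).2
        have s3 : ¬ W ⊆ C₃ := fun h => x13 w ((m1 w).1 (s1 hw)).2 ((m3 w).1 (h hw)).2
        rw [if_neg (T2_no hM fun z hz => ((m1 z).1 (s1 hz)).2), if_pos s1, if_neg s2, if_neg s3]
        ring
      by_cases s2 : W ⊆ C₂
      · have s3 : ¬ W ⊆ C₃ := fun h => x23 w ((m2 w).1 (s2 hw)).2 ((m3 w).1 (h hw)).2
        rw [if_neg (T2_no hM fun z hz => ((m2 z).1 (s2 hz)).2), if_neg s1, if_pos s2, if_neg s3]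
        ring
      by_cases s3 : W ⊆ C₃
      · rw [if_neg (T2_no hM fun z hz => ((m3 z).1 (s3 hz)).2), if_neg s1, if_neg s2, if_pos s3]
        ring
      · rw [if_neg s1, if_neg s2, if_neg s3]
        have hsp : M ⊔ sp W = ⊤ := by
          obtain ⟨a, haW, ha⟩ := Finset.not_subset.1 s1
          obtain ⟨b, hbW, hb⟩ := Finset.not_subset.1 s2
          obtain ⟨c', hcW, hc⟩ := Finset.not_subset.1 s3
          have cl : ∀ {v : E}, v ∈ W → v + d₁ ∈ M ∨ v + d₂ ∈ M ∨ v + (d₁ + d₂) ∈ M :=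
            fun hv => T2_cls hd (hD _ (hW hv))
          have p12 : ∀ N : Submodule (ZMod 2) E, d₁ ∈ N → d₂ ∈ N → d₁ ∈ N ∧ d₂ ∈ N :=
            fun N h h' => ⟨h, h'⟩
          have p13 : ∀ N : Submodule (ZMod 2) E, d₁ ∈ N → d₁ + d₂ ∈ N → d₁ ∈ N ∧ d₂ ∈ N := by
            intro N h h'
            have h3 := N.add_mem h h'
            rw [← add_assoc, T2_add_self, zero_add] at h3
            exact ⟨h, h3⟩
          have p23 : ∀ N : Submodule (ZMod 2) E, d₂ ∈ N → d₁ + d₂ ∈ N → d₁ ∈ N ∧ d₂ ∈ N := by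
            intro N h h'
            have h3 := N.add_mem h' h
            rw [add_assoc, T2_add_self, add_zero] at h3
            exact ⟨h3, h⟩
          rcases cl haW with ha1 | ha2 | ha3
          · exact absurd ((m1 a).2 ⟨hW haW, ha1⟩) ha
          · rcases cl hbW with hb1 | hb2 | hb3
            · exact T2_yes hd hbW haW hb1 ha2 p12
            · exact absurd ((m2 b).2 ⟨hW hbW, hb2⟩) hb
            · exact T2_yes hd haW hbW ha2 hb3 p23
          · rcases cl hcW with hc1 | hc2 | hc3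
            · exact T2_yes hd hcW haW hc1 ha3 p13
            · exact T2_yes hd hcW haW hc2 ha3 p23
            · exact absurd ((m3 c').2 ⟨hW hcW, hc3⟩) hc
        rw [if_pos hsp]
        ring
  have hsub1 : C₁ ⊆ D := Finset.filter_subset _ _
  have hsub2 : C₂ ⊆ D := Finset.filter_subset _ _
  have hsub3 : C₃ ⊆ D := Finset.filter_subset _ _
  have hTT : TT D M (ex u x) = ∏ v ∈ D, ex u x v - ∏ v ∈ C₁, ex u x v - ∏ v ∈ C₂, ex u x v -
      ∏ v ∈ C₃, ex u x v + 2 := by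
    have h1 : TT D M (ex u x) = ∑ W ∈ D.powerset, (∏ v ∈ W, (ex u x v - 1) -
        (if W ⊆ C₁ then ∏ v ∈ W, (ex u x v - 1) else 0) -
        (if W ⊆ C₂ then ∏ v ∈ W, (ex u x v - 1) else 0) -
        (if W ⊆ C₃ then ∏ v ∈ W, (ex u x v - 1) else 0) +
          2 * (if W = ∅ then ∏ v ∈ W, (ex u x v - 1) else 0)) := by
      unfold TT
      refine Finset.sum_congr rfl fun W hW => ?_
      rw [← hind W hW]
    rw [h1, Finset.sum_add_distrib, Finset.sum_sub_distrib, Finset.sum_sub_distrib,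
      Finset.sum_sub_distrib, T2_sub hsub1, T2_sub hsub2, T2_sub hsub3, T2_sum, T2_sum, T2_sum,
      T2_sum, ← Finset.mul_sum, Finset.sum_ite_eq' D.powerset ∅,
      if_pos (Finset.empty_mem_powerset D), Finset.prod_empty, mul_one]
  have hDu : D = C₁ ∪ (C₂ ∪ C₃) := by
    ext w
    rw [Finset.mem_union, Finset.mem_union, m1, m2, m3]
    constructor
    · intro hw
      rcases T2_cls hd (hD w hw) with h | h | h
      · exact Or.inl ⟨hw, h⟩
      · exact Or.inr (Or.inl ⟨hw, h⟩)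
      · exact Or.inr (Or.inr ⟨hw, h⟩)
    · rintro (h | h | h) <;> exact h.1
  have hdj1 : Disjoint C₂ C₃ := by
    rw [Finset.disjoint_left]
    intro w h h'
    exact x23 w ((m2 w).1 h).2 ((m3 w).1 h').2
  have hdj2 : Disjoint C₁ (C₂ ∪ C₃) := by
    rw [Finset.disjoint_left]
    intro w h h'
    rcases Finset.mem_union.1 h' with h' | h'
    · exact x12 w ((m1 w).1 h).2 ((m2 w).1 h').2
    · exact x13 w ((m1 w).1 h).2 ((m3 w).1 h').2
  have hprod : ∏ v ∈ D, ex u x v =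
      (∏ v ∈ C₁, ex u x v) * ((∏ v ∈ C₂, ex u x v) * ∏ v ∈ C₃, ex u x v) := by
    conv_lhs => rw [hDu]
    rw [Finset.prod_union hdj2, Finset.prod_union hdj1]
  rw [hTT, hprod, e1, e2, e3, T2_exp, T2_exp, T2_exp, F2, Complex.exp_add, Complex.exp_add]
  ring

end Pool.Agent.TRG
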