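import Pool.Agent.TRG.St

/-!
# TRG : module T3, corank three, one empty class
-/

set_option autoImplicit false

open Submodule
open Pool.Agent.SPT Pool.Agent.SPT.Rel

namespace Pool.Agent.TRG

/-- three dimensional space -/
private abbrev T3Q : Type := Fin 3 → ZMod 2

/-- the seven nonzero vectors -/
private def T3w : Fin 7 → T3Q :=
  ![![1, 0, 0], ![0, 1, 0], ![0, 0, 1], ![1, 1, 0], ![1, 0, 1], ![0, 1, 1], ![1, 1, 1]]

/-- scalar product -/
private def T3dot (a : T3Q) : T3Q →ₗ[ZMod 2] ZMod 2 :=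
  a 0 • LinearMap.proj 0 + a 1 • LinearMap.proj 1 + a 2 • LinearMap.proj 2

private theorem T3dot_apply (a v : T3Q) : T3dot a v = a 0 * v 0 + a 1 * v 1 + a 2 * v 2 := rfl

/-- the table of the scalar products -/
private def T3t : Fin 7 → Fin 7 → Bool :=
  ![![false, true, true, false, false, true, false],
    ![true, false, true, false, true, false, false],
    ![true, true, false, true, false, false, false],
    ![false, false, true, true, false, false, true],
    ![false, true, false, false, true, false, true],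
    ![true, false, false, false, false, true, true],
    ![false, false, false, true, true, true, false]]

private theorem T3t_spec : ∀ i j : Fin 7,
    (T3w i 0 * T3w j 0 + T3w i 1 * T3w j 1 + T3w i 2 * T3w j 2 = 0) ↔ T3t i j = true := by
  decide

private theorem T3w_inj : ∀ i j : Fin 7, T3w i = T3w j → i = j := by decide

private theorem T3w_ne : ∀ i : Fin 7, T3w i ≠ 0 := by decide

private theorem T3w_surj : ∀ v : T3Q, v ≠ 0 → ∃ i, T3w i = v := by decide

/-- planes -/
private def T3K (j : Fin 7) : Submodule (ZMod 2) T3Q := LinearMap.ker (T3dot (T3w j))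

/-- lines -/
private def T3L (j : Fin 7) : Submodule (ZMod 2) T3Q := span (ZMod 2) {T3w j}

private theorem T3_memK (i j : Fin 7) : T3w i ∈ T3K j ↔ T3t j i = true := by
  unfold T3K
  rw [LinearMap.mem_ker, T3dot_apply]
  exact T3t_spec j i

private theorem T3_memL (i j : Fin 7) : T3w i ∈ T3L j ↔ i = j := by
  unfold T3L
  rw [Submodule.mem_span_singleton]
  constructor
  · rintro ⟨a, ha⟩
    have h2 : ∀ a : ZMod 2, a = 0 ∨ a = 1 := by decide
    rcases h2 a with h | h
    · rw [h, zero_smul] at ha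
      exact absurd ha.symm (T3w_ne i)
    · rw [h, one_smul] at ha
      exact (T3w_inj _ _ ha).symm
  · rintro rfl
    exact ⟨1, one_smul _ _⟩

private theorem T3_le (T H : Submodule (ZMod 2) T3Q) :
    T ≤ H ↔ ∀ i, T3w i ∈ T → T3w i ∈ H := by
  constructor
  · intro h i hi
    exact h hi
  · intro h v hv
    by_cases h0 : v = 0
    · rw [h0]
      exact zero_mem H
    · obtain ⟨i, rfl⟩ := T3w_surj v h0
      exact h i hv

open Classical in
/-- the Möbius function -/
private noncomputable def T3m (H : Submodule (ZMod 2) T3Q) : ℤ :=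
  (if H = ⊤ then 1 else 0) - (∑ j, if H = T3K j then 1 else 0) +
    2 * (∑ j, if H = T3L j then 1 else 0) - 8 * (if H = ⊥ then 1 else 0)

open Classical in
private theorem T3_sum {R : Type} [CommRing R] (S : Finset (Submodule (ZMod 2) T3Q))
    (hS : ∀ T, T ∈ S) (g : Submodule (ZMod 2) T3Q → R) :
    ∑ H ∈ S, ((T3m H : ℤ) : R) * g H =
      g ⊤ - ∑ j, g (T3K j) + 2 * ∑ j, g (T3L j) - 8 * g ⊥ := by
  have e : ∀ A, ∑ H ∈ S, (if H = A then (1 : R) else 0) * g H = g A := by
    intro A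
    rw [Finset.sum_eq_single A]
    · rw [if_pos rfl, one_mul]
    · intro b _ hb
      rw [if_neg hb, zero_mul]
    · intro h
      exact absurd (hS A) h
  have h1 : ∀ H, ((T3m H : ℤ) : R) * g H = (if H = ⊤ then (1 : R) else 0) * g H -
      (∑ j, (if H = T3K j then (1 : R) else 0) * g H) +
      2 * (∑ j, (if H = T3L j then (1 : R) else 0) * g H) -
      8 * ((if H = ⊥ then (1 : R) else 0) * g H) := by
    intro H
    unfold T3m
    push_cast
    rw [← Finset.sum_mul, ← Finset.sum_mul]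
    ring
  rw [Finset.sum_congr rfl fun H _ => h1 H, Finset.sum_sub_distrib, Finset.sum_add_distrib,
    Finset.sum_sub_distrib, e, ← Finset.mul_sum, ← Finset.mul_sum, e, Finset.sum_comm,
    Finset.sum_congr rfl fun j _ => e (T3K j),
    Finset.sum_comm (s := S), Finset.sum_congr rfl fun j _ => e (T3L j)]

/-- the truth value of an inclusion -/
private def T3c (b h : Fin 7 → Bool) : ℤ :=
  cond ((!b 0 || h 0) && (!b 1 || h 1) && (!b 2 || h 2) && (!b 3 || h 3) && (!b 4 || h 4) &&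
    (!b 5 || h 5) && (!b 6 || h 6)) 1 0

/-- closed under addition -/
private def T3clo (b : Fin 7 → Bool) : Bool :=
  (!(b 0 && b 1) || b 3) && (!(b 0 && b 3) || b 1) && (!(b 1 && b 3) || b 0) &&
  (!(b 0 && b 2) || b 4) && (!(b 0 && b 4) || b 2) && (!(b 2 && b 4) || b 0) &&
  (!(b 1 && b 2) || b 5) && (!(b 1 && b 5) || b 2) && (!(b 2 && b 5) || b 1) &&
  (!(b 0 && b 5) || b 6) && (!(b 0 && b 6) || b 5) && (!(b 5 && b 6) || b 0) &&
  (!(b 1 && b 4) || b 6) && (!(b 1 && b 6) || b 4) && (!(b 4 && b 6) || b 1) &&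
  (!(b 2 && b 3) || b 6) && (!(b 2 && b 6) || b 3) && (!(b 3 && b 6) || b 2) &&
  (!(b 3 && b 4) || b 5) && (!(b 3 && b 5) || b 4) && (!(b 4 && b 5) || b 3)

/-- the count -/
private def T3id (b : Fin 7 → Bool) : Bool :=
  decide (T3c b (fun _ => true) - ∑ j, T3c b (fun i => T3t j i) +
      2 * ∑ j, T3c b (fun i => decide (i = j)) - 8 * T3c b (fun _ => false) =
      cond (b 0 && b 1 && b 2 && b 3 && b 4 && b 5 && b 6) 1 0)

private theorem T3_count : ∀ b0 b1 b2 b3 b4 b5 b6 : Bool,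
    (!(T3clo ![b0, b1, b2, b3, b4, b5, b6]) || T3id ![b0, b1, b2, b3, b4, b5, b6]) = true := by
  decide

private theorem T3_count' (b : Fin 7 → Bool) (h : T3clo b = true) : T3id b = true := by
  have hb : b = ![b 0, b 1, b 2, b 3, b 4, b 5, b 6] := by
    funext i
    fin_cases i <;> rfl
  have h1 := T3_count (b 0) (b 1) (b 2) (b 3) (b 4) (b 5) (b 6)
  rw [← hb, h] at h1
  exact h1

open Classical in
/-- the elements of a subspace -/
private noncomputable def T3b (T : Submodule (ZMod 2) T3Q) (i : Fin 7) : Bool :=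
  decide (T3w i ∈ T)

open Classical in
private theorem T3b_iff (T : Submodule (ZMod 2) T3Q) (i : Fin 7) :
    T3b T i = true ↔ T3w i ∈ T := by
  unfold T3b
  exact decide_eq_true_iff

private theorem T3_or (T : Submodule (ZMod 2) T3Q) (i j k : Fin 7)
    (h : T3w i + T3w j = T3w k) : (!(T3b T i && T3b T j) || T3b T k) = true := by
  by_cases h1 : T3w i ∈ T
  · by_cases h2 : T3w j ∈ T
    · have h3 : T3w k ∈ T := by
        rw [← h]
        exact add_mem h1 h2
      rw [(T3b_iff T k).2 h3, Bool.or_true]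
    · have h3 : T3b T j = false := by
        rw [← Bool.not_eq_true, T3b_iff]
        exact h2
      rw [h3, Bool.and_false, Bool.not_false, Bool.true_or]
  · have h3 : T3b T i = false := by
      rw [← Bool.not_eq_true, T3b_iff]
      exact h1
    rw [h3, Bool.false_and, Bool.not_false, Bool.true_or]

private theorem T3_clo (T : Submodule (ZMod 2) T3Q) : T3clo (T3b T) = true := by
  unfold T3clo
  rw [T3_or T 0 1 3 (by decide), T3_or T 0 3 1 (by decide), T3_or T 1 3 0 (by decide),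
    T3_or T 0 2 4 (by decide), T3_or T 0 4 2 (by decide), T3_or T 2 4 0 (by decide),
    T3_or T 1 2 5 (by decide), T3_or T 1 5 2 (by decide), T3_or T 2 5 1 (by decide),
    T3_or T 0 5 6 (by decide), T3_or T 0 6 5 (by decide), T3_or T 5 6 0 (by decide),
    T3_or T 1 4 6 (by decide), T3_or T 1 6 4 (by decide), T3_or T 4 6 1 (by decide),
    T3_or T 2 3 6 (by decide), T3_or T 2 6 3 (by decide), T3_or T 3 6 2 (by decide),
    T3_or T 3 4 5 (by decide), T3_or T 3 5 4 (by decide), T3_or T 4 5 3 (by decide)]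
  rfl

private theorem T3X_iff (b : Fin 7 → Bool) :
    (b 0 && b 1 && b 2 && b 3 && b 4 && b 5 && b 6) = true ↔ ∀ i, b i = true := by
  simp only [Bool.and_eq_true]
  constructor
  · rintro ⟨⟨⟨⟨⟨⟨h0, h1⟩, h2⟩, h3⟩, h4⟩, h5⟩, h6⟩ i
    fin_cases i
    · exact h0
    · exact h1
    · exact h2
    · exact h3
    · exact h4
    · exact h5
    · exact h6
  · intro h
    exact ⟨⟨⟨⟨⟨⟨h 0, h 1⟩, h 2⟩, h 3⟩, h 4⟩, h 5⟩, h 6⟩

open Classical in
private theorem T3_if (p : Prop) (c : Bool) (h : c = true ↔ p) :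
    (if p then (1 : ℤ) else 0) = cond c 1 0 := by
  by_cases hp : p
  · rw [if_pos hp, h.2 hp]
    rfl
  · have hc : c = false := by
      rw [← Bool.not_eq_true]
      exact fun h' => hp (h.1 h')
    rw [if_neg hp, hc]
    rfl

open Classical in
private theorem T3_cond (T H : Submodule (ZMod 2) T3Q) (h : Fin 7 → Bool)
    (hh : ∀ i, T3w i ∈ H ↔ h i = true) :
    (if T ≤ H then (1 : ℤ) else 0) = T3c (T3b T) h := by
  unfold T3c
  refine T3_if _ _ ?_
  rw [T3_le]
  refine Iff.trans (T3X_iff (fun i => !T3b T i || h i)) ?_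
  refine forall_congr' fun i => ?_
  rw [Bool.or_eq_true, hh i]
  constructor
  · rintro (h1 | h1) h2
    · rw [(T3b_iff T i).2 h2] at h1
      exact absurd h1 (by decide)
    · exact h1
  · intro h1
    by_cases h2 : T3w i ∈ T
    · exact Or.inr (h1 h2)
    · left
      have h3 : T3b T i = false := by
        rw [← Bool.not_eq_true, T3b_iff]
        exact h2
      rw [h3, Bool.not_false]

open Classical in
private theorem T3_moeb (S : Finset (Submodule (ZMod 2) T3Q)) (hS : ∀ T, T ∈ S)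
    (T : Submodule (ZMod 2) T3Q) :
    (∑ H ∈ S, if T ≤ H then T3m H else 0) = if T = ⊤ then 1 else 0 := by
  have h1 : (∑ H ∈ S, if T ≤ H then T3m H else 0) =
      ∑ H ∈ S, T3m H * (if T ≤ H then 1 else 0) := by
    refine Finset.sum_congr rfl fun H _ => ?_
    by_cases h : T ≤ H
    · rw [if_pos h, if_pos h, mul_one]
    · rw [if_neg h, if_neg h, mul_zero]
  have h0 := T3_sum S hS (fun H => if T ≤ H then (1 : ℤ) else 0)
  simp only [Int.cast_id] at h0
  have h2 := of_decide_eq_true (T3_count' (T3b T) (T3_clo T))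
  rw [h1, h0]
  rw [T3_cond T ⊤ (fun _ => true) (fun i => ⟨fun _ => rfl, fun _ => Submodule.mem_top⟩),
    T3_cond T ⊥ (fun _ => false) (fun i => ⟨fun h => absurd ((Submodule.mem_bot _).1 h) (T3w_ne i),
      fun h => absurd h (by decide)⟩),
    Finset.sum_congr rfl fun j _ => T3_cond T (T3K j) (fun i => T3t j i) (fun i => T3_memK i j),
    Finset.sum_congr rfl fun j _ => T3_cond T (T3L j) (fun i => decide (i = j))
      (fun i => (T3_memL i j).trans decide_eq_true_iff.symm), h2]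
  refine (T3_if _ _ ?_).symm
  rw [T3X_iff, eq_top_iff, T3_le]
  refine forall_congr' fun i => ?_
  rw [T3b_iff]
  exact ⟨fun h _ => h, fun h => h Submodule.mem_top⟩

private theorem T3_map (G : Submodule (ZMod 2) E) (hG : Module.finrank (ZMod 2) G = 2)
    (p d₁ d₂ : E) (h : G ⊔ span (ZMod 2) {p, d₁, d₂} = ⊤) :
    ∃ f : E →ₗ[ZMod 2] T3Q, Function.Surjective f ∧ LinearMap.ker f = G ∧ f p = T3w 0 ∧
      f d₁ = T3w 1 ∧ f d₂ = T3w 2 := by
  have h5 : Module.finrank (ZMod 2) E = 5 := by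
    rw [Module.finrank_fin_fun]
  have h3 : Module.finrank (ZMod 2) (E ⧸ G) = 3 := by
    have h6 := Submodule.finrank_quotient_add_finrank G
    rw [hG, h5] at h6
    omega
  have hsp : ⊤ ≤ span (ZMod 2) (Set.range (![G.mkQ p, G.mkQ d₁, G.mkQ d₂] : Fin 3 → E ⧸ G)) := by
    have h7 := congrArg (Submodule.map G.mkQ) h
    rw [Submodule.map_sup, Submodule.map_top, Submodule.range_mkQ, Submodule.mkQ_map_self,
      bot_sup_eq, Submodule.map_span] at h7
    rw [← h7]
    refine Submodule.span_mono ?_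
    rintro _ ⟨v, hv, rfl⟩
    rcases hv with hv | hv | hv
    · exact ⟨0, by rw [hv]; rfl⟩
    · exact ⟨1, by rw [hv]; rfl⟩
    · exact ⟨2, by rw [Set.mem_singleton_iff.1 hv]; rfl⟩
  obtain ⟨b, hb⟩ : ∃ b : Module.Basis (Fin 3) (ZMod 2) (E ⧸ G),
      ⇑b = (![G.mkQ p, G.mkQ d₁, G.mkQ d₂] : Fin 3 → E ⧸ G) :=
    ⟨basisOfTopLeSpanOfCardEqFinrank _ hsp (by rw [h3, Fintype.card_fin]),
      coe_basisOfTopLeSpanOfCardEqFinrank _ _ _⟩
  refine ⟨b.equivFun.toLinearMap ∘ₗ G.mkQ, ?_, ?_, ?_, ?_, ?_⟩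
  · exact b.equivFun.surjective.comp (Submodule.mkQ_surjective G)
  · rw [LinearMap.ker_comp, LinearEquiv.ker, Submodule.comap_bot, Submodule.ker_mkQ]
  · have h8 : G.mkQ p = b 0 := by rw [hb]; rfl
    show b.equivFun (G.mkQ p) = T3w 0
    rw [h8]
    funext i
    rw [Module.Basis.equivFun_self]
    fin_cases i <;> rfl
  · have h8 : G.mkQ d₁ = b 1 := by rw [hb]; rfl
    show b.equivFun (G.mkQ d₁) = T3w 1
    rw [h8]
    funext i
    rw [Module.Basis.equivFun_self]
    fin_cases i <;> rfl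
  · have h8 : G.mkQ d₂ = b 2 := by rw [hb]; rfl
    show b.equivFun (G.mkQ d₂) = T3w 2
    rw [h8]
    funext i
    rw [Module.Basis.equivFun_self]
    fin_cases i <;> rfl

open Classical in
private theorem T3_prod (D : Finset E) (f : E → T3Q) (hf : ∀ v ∈ D, f v ≠ 0) (X : E → ℂ)
    (H : Submodule (ZMod 2) T3Q) (h : Fin 7 → Bool) (hh : ∀ i, T3w i ∈ H ↔ h i = true) :
    (∏ v ∈ D, if f v ∈ H then X v else 1) =
      ∏ i : Fin 7, cond (h i) (∏ v ∈ D, if f v = T3w i then X v else 1) 1 := by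
  have h1 : ∀ i : Fin 7, cond (h i) (∏ v ∈ D, if f v = T3w i then X v else 1) 1 =
      ∏ v ∈ D, cond (h i) (if f v = T3w i then X v else 1) 1 := by
    intro i
    cases h i
    · show (1 : ℂ) = ∏ v ∈ D, (1 : ℂ)
      rw [Finset.prod_const_one]
    · rfl
  rw [Finset.prod_congr rfl fun i _ => h1 i, Finset.prod_comm]
  refine Finset.prod_congr rfl fun v hv => ?_
  obtain ⟨i₀, hi₀⟩ := T3w_surj (f v) (hf v hv)
  rw [Finset.prod_eq_single i₀]
  · rw [if_pos hi₀.symm]
    by_cases h2 : f v ∈ H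
    · rw [if_pos h2]
      rw [← hi₀, hh] at h2
      rw [h2]
      rfl
    · rw [if_neg h2]
      rw [← hi₀, hh, Bool.not_eq_true] at h2
      rw [h2]
      rfl
  · intro i _ hi
    rw [if_neg (fun h2 => hi (T3w_inj _ _ (h2.symm.trans hi₀.symm)))]
    cases h i <;> rfl
  · intro h2
    exact absurd (Finset.mem_univ i₀) h2

open Classical in
private theorem T3_y (D : Finset E) (u : E → ℤ) (G : Submodule (ZMod 2) E)
    (f : E →ₗ[ZMod 2] T3Q) (hk : LinearMap.ker f = G) (d : E) (i : Fin 7) (hd : f d = T3w i)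
    (x : ℝ) : (∏ v ∈ D, if f v = T3w i then ex u x v else 1) =
      Complex.exp ((x : ℂ) * (cs D u G d : ℂ)) := by
  unfold cs
  rw [Finset.prod_ite, Finset.prod_const_one, mul_one, Int.cast_sum, Finset.mul_sum,
    Complex.exp_sum]
  refine Finset.prod_congr ?_ fun v _ => rfl
  ext v
  simp only [Finset.mem_filter]
  refine and_congr_right fun _ => ?_
  rw [← hk, LinearMap.mem_ker, map_add, hd]
  have h2 : -T3w i = T3w i := by
    funext k
    exact ZModModule.neg_eq_self _
  rw [add_eq_zero_iff_eq_neg, h2]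

/-- [T3] Corank three, one empty class. -/
theorem T3_proof (hMOB : St_MOB) : St_T3 := by
  intro D u G hG p d₁ d₂ hsp hD x
  classical
  obtain ⟨f, hf, hk, hp, h1, h2⟩ := T3_map G hG p d₁ d₂ hsp
  have : Finite (Submodule (ZMod 2) T3Q) :=
    Finite.of_injective (fun T => (T : Set T3Q)) SetLike.coe_injective
  obtain ⟨S, hS⟩ : ∃ S : Finset (Submodule (ZMod 2) T3Q), ∀ T, T ∈ S := by
    have := Fintype.ofFinite (Submodule (ZMod 2) T3Q)
    exact ⟨Finset.univ, fun T => Finset.mem_univ T⟩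
  have hfD : ∀ v ∈ D, f v ≠ 0 := by
    intro v hv h0
    apply (hD v hv).1
    rw [← hk]
    exact h0
  have e1 := hMOB 3 f hf S T3m hS (T3_moeb S hS) D (ex u x)
  rw [hk, T3_sum S hS (fun H => ∏ v ∈ D, if f v ∈ H then ex u x v else 1)] at e1
  rw [e1]
  obtain ⟨y, hy⟩ : ∃ y : Fin 7 → ℂ, ∀ i, y i = ∏ v ∈ D, if f v = T3w i then ex u x v else 1 :=
    ⟨_, fun i => rfl⟩
  have g1 : ∀ (H : Submodule (ZMod 2) T3Q) (h : Fin 7 → Bool)
      (_ : ∀ i, T3w i ∈ H ↔ h i = true),
      (∏ v ∈ D, if f v ∈ H then ex u x v else 1) = ∏ i : Fin 7, cond (h i) (y i) 1 := by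
    intro H h hh
    rw [T3_prod D f hfD (ex u x) H h hh]
    exact Finset.prod_congr rfl fun i _ => by rw [hy i]
  have y0 : y 0 = 1 := by
    rw [hy 0]
    refine Finset.prod_eq_one fun v hv => ?_
    rw [if_neg]
    intro h3
    apply (hD v hv).2
    rw [← hk, LinearMap.mem_ker, map_add, hp, h3]
    decide
  have y1 : y 1 = Complex.exp ((x : ℂ) * (cs D u G d₁ : ℂ)) := by
    rw [hy 1]
    exact T3_y D u G f hk d₁ 1 h1 x
  have y2 : y 2 = Complex.exp ((x : ℂ) * (cs D u G d₂ : ℂ)) := by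
    rw [hy 2]
    exact T3_y D u G f hk d₂ 2 h2 x
  have y3 : y 3 = Complex.exp ((x : ℂ) * (cs D u G (d₁ + p) : ℂ)) := by
    rw [hy 3]
    refine T3_y D u G f hk (d₁ + p) 3 ?_ x
    rw [map_add, h1, hp]
    decide
  have y4 : y 4 = Complex.exp ((x : ℂ) * (cs D u G (d₂ + p) : ℂ)) := by
    rw [hy 4]
    refine T3_y D u G f hk (d₂ + p) 4 ?_ x
    rw [map_add, h2, hp]
    decide
  have y5 : y 5 = Complex.exp ((x : ℂ) * (cs D u G (d₁ + d₂) : ℂ)) := by
    rw [hy 5]
    refine T3_y D u G f hk (d₁ + d₂) 5 ?_ x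
    rw [map_add, h1, h2]
    decide
  have y6 : y 6 = Complex.exp ((x : ℂ) * (cs D u G (d₁ + d₂ + p) : ℂ)) := by
    rw [hy 6]
    refine T3_y D u G f hk (d₁ + d₂ + p) 6 ?_ x
    rw [map_add, map_add, h1, h2, hp]
    decide
  have gt := g1 ⊤ (fun _ => true) (fun i => ⟨fun _ => rfl, fun _ => Submodule.mem_top⟩)
  have gb := g1 ⊥ (fun _ => false) (fun i => ⟨fun h => absurd ((Submodule.mem_bot _).1 h)
    (T3w_ne i), fun h => absurd h (by decide)⟩)
  rw [gt, gb, Finset.sum_congr rfl fun j _ => g1 (T3K j) (fun i => T3t j i) (fun i => T3_memK i j),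
    Finset.sum_congr rfl fun j _ => g1 (T3L j) (fun i => decide (i = j))
      (fun i => (T3_memL i j).trans decide_eq_true_iff.symm)]
  have e2 : ∏ i : Fin 7, cond ((fun _ => true) i) (y i) 1 =
      y 0 * y 1 * y 2 * y 3 * y 4 * y 5 * y 6 := Fin.prod_univ_seven _
  have e3 : ∑ j : Fin 7, ∏ i : Fin 7, cond (T3t j i) (y i) 1 =
      y 1 * y 2 * y 5 + y 0 * y 2 * y 4 + y 0 * y 1 * y 3 + y 2 * y 3 * y 6 + y 1 * y 4 * y 6 +
        y 0 * y 5 * y 6 + y 3 * y 4 * y 5 := by
    simp [Fin.sum_univ_seven, Fin.prod_univ_seven, T3t]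
  have e4 : ∑ j : Fin 7, ∏ i : Fin 7, cond (decide (i = j)) (y i) 1 =
      y 0 + y 1 + y 2 + y 3 + y 4 + y 5 + y 6 := by
    simp [Fin.sum_univ_seven, Fin.prod_univ_seven]
  have e5 : ∏ i : Fin 7, cond ((fun _ => false) i) (y i) 1 = 1 := by
    simp
  rw [e2, e3, e4, e5, y0, y1, y2, y3, y4, y5, y6]
  unfold F3
  simp only [Complex.exp_add]
  ring

end Pool.Agent.TRG
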