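import Pool.Agent.TRG.St

/-!
# TRG, module TAU : the sum over the bases is a determinant
-/

set_option autoImplicit false

open Submodule

namespace Pool.Agent.TRG

/-- the determinant of the coordinates of `y` is odd iff `y` spans -/
private theorem TAU_par (b y : Fin 5 → E) (A : Matrix (Fin 5) (Fin 5) ℤ)
    (hb : LinearIndependent (ZMod 2) b)
    (hA : ∀ i, y i = ∑ j, ((A i j : ℤ) : ZMod 2) • b j) :
    span (ZMod 2) (Set.range y) = ⊤ ↔ ((A.det : ℤ) : ZMod 2) ≠ 0 := by
  have hB : IsUnit (Matrix.of b : Matrix (Fin 5) (Fin 5) (ZMod 2)) :=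
    Matrix.linearIndependent_rows_iff_isUnit.1 hb
  have hY : (Matrix.of y : Matrix (Fin 5) (Fin 5) (ZMod 2)) =
      (A.map fun t => ((t : ℤ) : ZMod 2)) * Matrix.of b := by
    ext i j
    rw [Matrix.mul_apply]
    have := congrFun (hA i) j
    rw [Finset.sum_apply] at this
    exact this
  have hdet : (Matrix.of y : Matrix (Fin 5) (Fin 5) (ZMod 2)).det =
      ((A.det : ℤ) : ZMod 2) * (Matrix.of b : Matrix (Fin 5) (Fin 5) (ZMod 2)).det := by
    rw [hY, Matrix.det_mul, ← Int.cast_det]
  have hb0 : (Matrix.of b : Matrix (Fin 5) (Fin 5) (ZMod 2)).det ≠ 0 :=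
    ((Matrix.isUnit_iff_isUnit_det _).1 hB).ne_zero
  have hli : LinearIndependent (ZMod 2) y ↔
      (Matrix.of y : Matrix (Fin 5) (Fin 5) (ZMod 2)).det ≠ 0 := by
    rw [← isUnit_iff_ne_zero, ← Matrix.isUnit_iff_isUnit_det]
    exact Matrix.linearIndependent_rows_iff_isUnit
  have hcard : Fintype.card (Fin 5) = Module.finrank (ZMod 2) E := by
    rw [Module.finrank_fin_fun, Fintype.card_fin]
  have h3 : span (ZMod 2) (Set.range y) = ⊤ ↔ LinearIndependent (ZMod 2) y :=
    ⟨fun h => linearIndependent_of_top_le_span_of_card_eq_finrank h.ge hcard,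
      fun h => h.span_eq_top_of_card_eq_finrank' hcard⟩
  rw [h3, hli, hdet]
  constructor
  · intro h h0
    exact h (by rw [h0, zero_mul])
  · exact fun h => mul_ne_zero h hb0

/-- the determinant of a block triangular matrix -/
private theorem TAU_blk {k c : ℕ} (e : Fin k ⊕ Fin c ≃ Fin 5) (A : Matrix (Fin 5) (Fin 5) ℤ)
    (M : Matrix (Fin c) (Fin c) ℤ)
    (h1 : ∀ i j, A (e (Sum.inl i)) (e (Sum.inl j)) = if i = j then 1 else 0)
    (h2 : ∀ i j, A (e (Sum.inl i)) (e (Sum.inr j)) = 0)
    (h3 : ∀ i j, A (e (Sum.inr i)) (e (Sum.inr j)) = M i j) : A.det = M.det := by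
  have e1 : A.submatrix e e = Matrix.fromBlocks (1 : Matrix (Fin k) (Fin k) ℤ) 0
      (Matrix.of fun i j => A (e (Sum.inr i)) (e (Sum.inl j))) M := by
    ext i j
    rcases i with i | i <;> rcases j with j | j
    · rw [Matrix.fromBlocks_apply₁₁, Matrix.one_apply, Matrix.submatrix_apply, h1]
    · rw [Matrix.fromBlocks_apply₁₂, Matrix.submatrix_apply, h2]
      rfl
    · rw [Matrix.fromBlocks_apply₂₁, Matrix.submatrix_apply]
      rfl
    · rw [Matrix.fromBlocks_apply₂₂, Matrix.submatrix_apply, h3]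
  rw [← Matrix.det_submatrix_equiv_self e A, e1, Matrix.det_fromBlocks_zero₁₂, Matrix.det_one,
    one_mul]

open Classical in
private theorem TAU_gen (hCB : St_CB) (hCO : St_CO) (k c : ℕ) (e : Fin k ⊕ Fin c ≃ Fin 5)
    (X : Finset E) (L : E → Fin 5 → ℤ) (hU : Uni X L) (b : Fin 5 → E) (hb : Bas X b)
    (D : Finset E) (hD : D ⊆ X) (u : E → ℤ) :
    tau D (span (ZMod 2) (Set.range fun i => b (e (Sum.inl i)))) u c =
      Matrix.det (fun i j : Fin c => Qf L b D u (e (Sum.inr i)) (e (Sum.inr j))) := by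
  obtain ⟨h1, h2, -, -, h5, -⟩ := hCO X L hU b hb
  obtain ⟨K, hK⟩ : ∃ K, K = span (ZMod 2) (Set.range fun i => b (e (Sum.inl i))) := ⟨_, rfl⟩
  rw [← hK]
  have key : ∀ x : Fin c → E, Function.Injective x → (∀ i, x i ∈ D) →
      (if K ⊔ sp (Finset.univ.image x) = ⊤ then (1 : ℤ) else 0) =
        Matrix.det (fun i j => co L b (x i) (e (Sum.inr j))) ^ 2 := by
    intro x _ hx
    obtain ⟨y, hy⟩ : ∃ y : Fin 5 → E,
      y = fun i => Sum.elim (fun i => b (e (Sum.inl i))) x (e.symm i) := ⟨_, rfl⟩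
    have hyl : ∀ i, y (e (Sum.inl i)) = b (e (Sum.inl i)) := fun i => by
      rw [hy]
      simp
    have hyr : ∀ i, y (e (Sum.inr i)) = x i := fun i => by
      rw [hy]
      simp
    have hyX : ∀ i, y i ∈ X := by
      intro i
      obtain ⟨j, rfl⟩ := e.surjective i
      rcases j with j | j
      · rw [hyl]
        exact hb.1 _
      · rw [hyr]
        exact hD (hx j)
    have hdet : Matrix.det (fun i j => co L b (y i) j) =
        Matrix.det (fun i j => co L b (x i) (e (Sum.inr j))) := by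
      refine TAU_blk e _ _ (fun i j => ?_) (fun i j => ?_) fun i j => ?_
      · rw [hyl, h1]
        simp
      · rw [hyl, h1]
        simp
      · rw [hyr]
    have hpar := TAU_par b y (fun i j => co L b (y i) j) hb.2 (fun i => h2 (y i) (hyX i))
    have hspan : span (ZMod 2) (Set.range y) = K ⊔ sp (Finset.univ.image x) := by
      have e2 : Set.range y = (Set.range fun i => b (e (Sum.inl i))) ∪ Set.range x := by
        rw [hy]
        have e3 : (fun i => Sum.elim (fun i => b (e (Sum.inl i))) x (e.symm i)) =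
          Sum.elim (fun i => b (e (Sum.inl i))) x ∘ e.symm := rfl
        rw [e3, e.symm.surjective.range_comp, Set.Sum.elim_range]
      rw [e2, span_union, hK]
      unfold sp
      rw [Finset.coe_image, Finset.coe_univ, Set.image_univ]
    rw [hspan, hdet] at hpar
    have h6 := h5 y hyX
    rw [hdet] at h6
    obtain ⟨d, hd⟩ : ∃ d, d = Matrix.det (fun i j => co L b (x i) (e (Sum.inr j))) := ⟨_, rfl⟩
    rw [← hd] at hpar h6 ⊢
    rw [abs_le] at h6
    have hd3 : d = -1 ∨ d = 0 ∨ d = 1 := by omega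
    rcases hd3 with rfl | rfl | rfl
    · rw [if_pos (hpar.2 (by decide))]
      norm_num
    · rw [if_neg fun h => hpar.1 h (by decide)]
      norm_num
    · rw [if_pos (hpar.2 (by decide))]
      norm_num
  have h7 := hCB c D (fun v i => co L b v (e (Sum.inr i))) u
    (fun W => if K ⊔ sp W = ⊤ then (1 : ℤ) else 0) key
  refine Eq.trans ?_ h7
  unfold tau
  refine Finset.sum_congr rfl fun W _ => ?_
  split_ifs <;> simp

theorem TAU_proof (hCB : St_CB) (hCO : St_CO) : St_TAU := by
  intro X L hU b hb D hD u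
  refine ⟨?_, ?_, ?_⟩
  · have h := TAU_gen hCB hCO 2 3 finSumFinEquiv X L hU b hb D hD u
    have e1 : (Set.range fun i : Fin 2 => b (finSumFinEquiv (Sum.inl i : Fin 2 ⊕ Fin 3))) =
        {b 0, b 1} := by
      ext v
      simp only [Set.mem_range, Fin.exists_fin_two, Set.mem_insert_iff, Set.mem_singleton_iff]
      constructor
      · rintro (h | h)
        · exact Or.inl h.symm
        · exact Or.inr h.symm
      · rintro (h | h)
        · exact Or.inl h.symm
        · exact Or.inr h.symm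
    have e2 : ∀ i : Fin 3, (finSumFinEquiv (Sum.inr i : Fin 2 ⊕ Fin 3) : Fin 5) = i.succ.succ := by
      decide
    rw [e1] at h
    rw [h]
    congr 1
    funext i j
    exact congrArg₂ (Qf L b D u) (e2 i) (e2 j)
  · have h := TAU_gen hCB hCO 1 4 finSumFinEquiv X L hU b hb D hD u
    have e1 : (Set.range fun i : Fin 1 => b (finSumFinEquiv (Sum.inl i : Fin 1 ⊕ Fin 4))) =
        {b 0} := by
      rw [Set.range_unique]
      rfl
    have e2 : ∀ i : Fin 4, (finSumFinEquiv (Sum.inr i : Fin 1 ⊕ Fin 4) : Fin 5) = i.succ := by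
      decide
    rw [e1] at h
    rw [h]
    congr 1
    funext i j
    exact congrArg₂ (Qf L b D u) (e2 i) (e2 j)
  · have h := TAU_gen hCB hCO 0 5 finSumFinEquiv X L hU b hb D hD u
    have e1 : (Set.range fun i : Fin 0 => b (finSumFinEquiv (Sum.inl i : Fin 0 ⊕ Fin 5))) =
        ∅ := Set.range_eq_empty _
    have e2 : ∀ i : Fin 5, (finSumFinEquiv (Sum.inr i : Fin 0 ⊕ Fin 5) : Fin 5) = i := by
      decide
    rw [e1, span_empty] at h
    rw [h]
    congr 1
    funext i j
    exact congrArg₂ (Qf L b D u) (e2 i) (e2 j)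

end Pool.Agent.TRG
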