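import Pool.Agent.TRG.St

/-!
# TRG, module TOP: there is no minimal counterexample
-/

set_option autoImplicit false

open Submodule Filter Topology
open Pool.Agent.SPT Pool.Agent.SPT.Rel

namespace Pool.Agent.TRG

private lemma TOP_rk_le (F : Finset E) : rk F ≤ 5 := by
  unfold rk
  have h := Submodule.finrank_le (sp F)
  have h5 : Module.finrank (ZMod 2) E = 5 := by simp [E]
  omega

private lemma TOP_rk_top (F : Finset E) (h : sp F = ⊤) : rk F = 5 := by
  unfold rk
  rw [h, finrank_top]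
  simp [E]

private lemma TOP_zero (X : Finset E) (u : E → ℤ) : rk (Od X u 0) = 0 := by
  have h : Od X u 0 = ∅ := by
    unfold Od
    apply Finset.filter_false_of_mem
    intro v _
    simp
  rw [h]
  unfold rk
  simp

private lemma TOP_large (X : Finset E) (u : E → ℤ) (hu : ∀ v ∈ X, u v ≠ 0) :
    Od X u (∑ v ∈ X, (u v).natAbs) = X := by
  unfold Od
  apply Finset.filter_true_of_mem
  intro v hv hd
  have h1 : (2 : ℕ) ^ (∑ v ∈ X, (u v).natAbs) ∣ (u v).natAbs := by
    have h := Int.natAbs_dvd_natAbs.mpr hd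
    rwa [Int.natAbs_pow] at h
  have h2 : 0 < (u v).natAbs := Int.natAbs_pos.mpr (hu v hv)
  have h3 := Nat.le_of_dvd h2 h1
  have h4 : (u v).natAbs ≤ ∑ v ∈ X, (u v).natAbs :=
    Finset.single_le_sum (f := fun v => (u v).natAbs) (fun _ _ => Nat.zero_le _) hv
  have h5 : (∑ v ∈ X, (u v).natAbs) < 2 ^ (∑ v ∈ X, (u v).natAbs) := Nat.lt_two_pow_self
  omega

theorem TOP_proof (hM1 : St_M1) (hM2 : St_M2) (hM3 : St_M3) : St_TOP := by
  intro X u L hC
  have hex : ∃ n, 3 ≤ rk (Od X u n) := by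
    refine ⟨∑ v ∈ X, (u v).natAbs, ?_⟩
    rw [TOP_large X u hC.nz, TOP_rk_top X hC.spn]
    norm_num
  classical
  obtain ⟨n, h1, h2⟩ : ∃ n, 3 ≤ rk (Od X u n) ∧ ∀ m < n, ¬ 3 ≤ rk (Od X u m) :=
    ⟨Nat.find hex, Nat.find_spec hex, fun m hm => Nat.find_min hex hm⟩
  have hn : 1 ≤ n := by
    rcases Nat.eq_zero_or_pos n with h0 | h0
    · rw [h0, TOP_zero] at h1
      omega
    · exact h0
  have hL : Lev X u n := ⟨hn, by
    have h := h2 (n - 1) (by omega)
    omega⟩
  have h5 := TOP_rk_le (Od X u n)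
  have hc : rk (Od X u n) = 3 ∨ rk (Od X u n) = 4 ∨ rk (Od X u n) = 5 := by omega
  rcases hc with hc | hc | hc
  · exact hM3 X u L n hC hL hc
  · exact hM2 X u L n hC hL hc
  · exact hM1 X u L n hC hL hc

end Pool.Agent.TRG
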