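import Pool.Agent.TRG.CMP
import Pool.Agent.TRG.LIM
import Pool.Agent.TRG.CS
import Pool.Agent.TRG.DC
import Pool.Agent.TRG.MOB
import Pool.Agent.TRG.T1
import Pool.Agent.TRG.LF2
import Pool.Agent.TRG.LF3
import Pool.Agent.TRG.CO
import Pool.Agent.TRG.CO2
import Pool.Agent.TRG.QF
import Pool.Agent.TRG.F7
import Pool.Agent.TRG.F7s
import Pool.Agent.TRG.CB
import Pool.Agent.TRG.TAU
import Pool.Agent.TRG.KER
import Pool.Agent.TRG.BAL
import Pool.Agent.TRG.SUM
import Pool.Agent.TRG.CL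
import Pool.Agent.TRG.MAS
import Pool.Agent.TRG.T2
import Pool.Agent.TRG.T3
import Pool.Agent.TRG.M1
import Pool.Agent.TRG.M2a
import Pool.Agent.TRG.M2b
import Pool.Agent.TRG.M2c
import Pool.Agent.TRG.M2
import Pool.Agent.TRG.M3a
import Pool.Agent.TRG.M3b
import Pool.Agent.TRG.M3c
import Pool.Agent.TRG.M3d
import Pool.Agent.TRG.M3f
import Pool.Agent.TRG.M3g
import Pool.Agent.TRG.M3e
import Pool.Agent.TRG.E0
import Pool.Agent.TRG.E2
import Pool.Agent.TRG.E1
import Pool.Agent.TRG.E3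
import Pool.Agent.TRG.E5
import Pool.Agent.TRG.E6
import Pool.Agent.TRG.M3C
import Pool.Agent.TRG.FT
import Pool.Agent.TRG.FIN
import Pool.Agent.TRG.M3
import Pool.Agent.TRG.TOP
import Pool.Agent.TRG.REDa
import Pool.Agent.TRG.REDb

/-!
# TRG : assembly (captain: helper62)

Nonvanishing for all regular sets of rank at most five.
-/

set_option autoImplicit false

namespace Pool.Agent.TRG

theorem is_CMP : St_CMP := CMP_proof

theorem is_LIM : St_LIM := LIM_proof

theorem is_CS : St_CS := CS_proof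

theorem is_DC : St_DC := DC_proof

theorem is_MOB : St_MOB := MOB_proof

theorem is_T1 : St_T1 := T1_proof

theorem is_LF2 : St_LF2 := LF2_proof

theorem is_LF3 : St_LF3 := LF3_proof

theorem is_CO : St_CO := CO_proof

theorem is_CO2 : St_CO2 := CO2_proof is_CO

theorem is_QF : St_QF := QF_proof is_CO is_CO2

theorem is_F7 : St_F7 := F7_proof is_CO is_CO2

theorem is_F7s : St_F7s := F7s_proof is_CO is_CO2

theorem is_CB : St_CB := CB_proof

theorem is_TAU : St_TAU := TAU_proof is_CB is_CO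

theorem is_KER : St_KER := KER_proof is_CO is_CO2

theorem is_BAL : St_BAL := BAL_proof is_CO2 is_QF is_TAU is_CS

theorem is_SUM : St_SUM := SUM_proof is_CMP

theorem is_CL : St_CL := thm_CL

theorem is_MAS : St_MAS := MAS_proof is_SUM is_CL

theorem is_T2 : St_T2 := T2_proof is_MOB

theorem is_T3 : St_T3 := T3_proof is_MOB

theorem is_M1 : St_M1 := M1_proof is_MAS

theorem is_M2a : St_M2a := M2a_proof is_MAS is_LIM is_T1 is_T2 is_LF2 is_CS

theorem is_M2b : St_M2b := M2b_proof is_M2a is_QF is_KER is_CS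

theorem is_M2c : St_M2c := M2c_proof is_MAS is_BAL is_T1 is_T2 is_T3 is_LF2 is_LF3 is_LIM is_CS is_M2b

theorem is_M2 : St_M2 := M2_proof is_M2c is_F7s is_CS

theorem is_M3a : St_M3a := M3a_proof is_MAS is_LIM is_T2 is_LF2 is_CS

theorem is_M3b : St_M3b := M3b_proof is_M3a is_MAS is_LIM is_T2 is_LF2 is_CS is_QF is_TAU

theorem is_M3c : St_M3c := M3c_proof is_MAS is_LIM is_T2 is_LF2 is_CS is_QF is_TAU is_CO2 is_KER

theorem is_M3d : St_M3d := M3d_proof is_MAS is_LIM is_T2 is_T3 is_LF2 is_LF3 is_CS is_BAL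

theorem is_M3f : St_M3f := M3f_proof is_MAS is_LIM is_T2 is_T3 is_LF2 is_LF3 is_CS is_QF is_TAU is_F7

theorem is_M3g : St_M3g := M3g_proof is_M3f is_QF is_CO2 is_TAU is_CS

theorem is_M3e : St_M3e := M3e_proof is_M3c is_M3d is_CS

theorem is_E0 : St_E0 := E0_proof is_CS

theorem is_E2 : St_E2 := E2_proof is_E0 is_F7 is_CS

theorem is_E1 : St_E1 := E1_proof is_E2 is_CS

theorem is_E3 : St_E3 := E3_proof is_E0 is_E1 is_F7 is_CS

theorem is_E5 : St_E5 := E5_proof is_E0 is_E1 is_E2 is_F7s is_CS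

theorem is_E6 : St_E6 := E6_proof is_E0 is_E1 is_E3 is_E5 is_F7 is_F7s is_CS

theorem is_M3C : St_M3C := M3C_proof is_M3g is_E6

theorem is_FT : St_FT := FT_proof is_DC is_T2 is_T3 is_LF3 is_CS

theorem is_FIN : St_FIN := FIN_proof is_MAS is_LIM is_T2 is_T3 is_LF2 is_LF3 is_CS is_E3 is_E6 is_FT is_KER is_BAL

theorem is_M3 : St_M3 := M3_proof is_M3a is_M3b is_M3e is_M3C is_FIN is_CS

theorem is_TOP : St_TOP := TOP_proof is_M1 is_M2 is_M3

theorem is_REDa : St_REDa := REDa_proof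

theorem is_REDb : St_REDb := REDb_proof

/-- there is no minimal counterexample -/
theorem no_minC (X : Finset E) (u : E → ℤ) (L : E → Fin 5 → ℤ) : ¬ MinC X u L :=
  fun h => is_TOP X u L (is_REDb X u L h)

/-- **nonvanishing for all regular sets of rank at most five** -/
theorem rankReg5 : TRA.RankReg 5 := is_REDa no_minC

end Pool.Agent.TRG
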