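import Pool.Agent.TRG.StCL
import Pool.Agent.SPT.Odd

/-!
# TRG, module CL: coherence (helper19)
-/

set_option autoImplicit false

open Submodule
open Pool.Agent.SPT Pool.Agent.SPT.Rel Pool.Agent.SPT.Odd

namespace Pool.Agent.TRG

section gen

variable {V : Type} [AddCommGroup V] [Module (ZMod 2) V]

open Classical in
private noncomputable def CL_S (X : Finset V) (K V' : Submodule (ZMod 2) V) (x : V → ℂ) : ℂ :=
  ∑ W ∈ X.powerset, if K ⊔ span (ZMod 2) (W : Set V) = V' then ∏ v ∈ W, (x v - 1) else 0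

private theorem CL_S_insert [DecidableEq V] (X : Finset V) (K V' : Submodule (ZMod 2) V)
    (x : V → ℂ) (e : V) (he : e ∉ X) : CL_S (insert e X) K V' x =
      CL_S X K V' x + (x e - 1) * CL_S X (K ⊔ span (ZMod 2) {e}) V' x := by
  classical
  unfold CL_S
  rw [Finset.sum_powerset_insert he, Finset.mul_sum]
  congr 1
  refine Finset.sum_congr rfl fun W hW => ?_
  have heW : e ∉ W := fun h => he (Finset.mem_powerset.mp hW h)
  have h1 : K ⊔ span (ZMod 2) ((insert e W : Finset V) : Set V) =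
      K ⊔ span (ZMod 2) {e} ⊔ span (ZMod 2) (W : Set V) := by
    rw [Finset.coe_insert, span_insert, sup_assoc]
  rw [h1]
  by_cases h : K ⊔ span (ZMod 2) {e} ⊔ span (ZMod 2) (W : Set V) = V'
  · rw [if_pos h, if_pos h, Finset.prod_insert heW]
  · rw [if_neg h, if_neg h, mul_zero]

private theorem CL_S_union [DecidableEq V] (B C : Finset V) (V' : Submodule (ZMod 2) V)
    (x : V → ℂ) : ∀ K : Submodule (ZMod 2) V, Disjoint B C → CL_S (B ∪ C) K V' x =
      ∑ T ∈ B.powerset, (∏ v ∈ T, (x v - 1)) * CL_S C (K ⊔ span (ZMod 2) (T : Set V)) V' x := by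
  classical
  induction B using Finset.induction_on with
  | empty =>
    intro K _
    rw [Finset.empty_union, Finset.powerset_empty, Finset.sum_singleton, Finset.prod_empty,
      Finset.coe_empty, span_empty, sup_bot_eq, one_mul]
  | insert e B he ih =>
    intro K hd
    rw [Finset.disjoint_insert_left] at hd
    have he' : e ∉ B ∪ C := by
      rw [Finset.mem_union]
      push Not
      exact ⟨he, hd.1⟩
    rw [Finset.insert_union, CL_S_insert _ _ _ _ e he', ih K hd.2, ih _ hd.2,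
      Finset.sum_powerset_insert he, Finset.mul_sum]
    congr 1
    refine Finset.sum_congr rfl fun T hT => ?_
    have heT : e ∉ T := fun h => he (Finset.mem_powerset.mp hT h)
    rw [Finset.prod_insert heT, Finset.coe_insert, span_insert, ← sup_assoc, mul_assoc]

private theorem CL_S_one (X Y : Finset V) (hYX : Y ⊆ X) (K V' : Submodule (ZMod 2) V) (x : V → ℂ)
    (h : ∀ v ∈ X, v ∉ Y → x v = 1) : CL_S X K V' x = CL_S Y K V' x := by
  classical
  unfold CL_S
  refine (Finset.sum_subset (Finset.powerset_mono.mpr hYX) ?_).symm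
  intro W hW hWY
  rw [Finset.mem_powerset] at hW hWY
  obtain ⟨v, hv, hvY⟩ := Finset.not_subset.mp hWY
  rw [Finset.prod_eq_zero hv (by rw [h v (hW hv) hvY, sub_self]), ite_self]

private theorem CL_S_neg (X : Finset V) (K V' : Submodule (ZMod 2) V) (x : V → ℂ)
    (h : ∀ v ∈ X, x v = -1) : CL_S X K V' x = (RR X K V' (fun _ => -1) : ℝ) := by
  classical
  unfold CL_S RR
  rw [Complex.ofReal_sum]
  refine Finset.sum_congr rfl fun W hW => ?_
  rw [Finset.mem_powerset] at hW
  by_cases hc : K ⊔ span (ZMod 2) (W : Set V) = V'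
  · rw [if_pos hc, if_pos hc, Complex.ofReal_prod]
    refine Finset.prod_congr rfl fun v hv => ?_
    rw [h v (hW hv)]
    push_cast
    ring
  · rw [if_neg hc, if_neg hc, Complex.ofReal_zero]

private theorem CL_PP (X : Finset V) (x : V → ℂ) :
    PP X ⊥ x = CL_S X ⊥ (span (ZMod 2) (X : Set V)) x := by
  classical
  unfold PP CL_S
  refine Finset.sum_congr rfl fun W _ => ?_
  unfold Spans
  rw [bot_sup_eq (span (ZMod 2) (X : Set V))]
  by_cases hc : ⊥ ⊔ span (ZMod 2) (W : Set V) = span (ZMod 2) (X : Set V)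
  · rw [if_pos hc, if_pos hc]
  · rw [if_neg hc, if_neg hc]

private theorem CL_RR_zero (X : Finset V) (K V' : Submodule (ZMod 2) V) (x : V → ℝ)
    (h : K ⊔ span (ZMod 2) (X : Set V) < V') : RR X K V' x = 0 := by
  classical
  unfold RR
  refine Finset.sum_eq_zero fun W hW => ?_
  rw [Finset.mem_powerset] at hW
  rw [if_neg]
  intro h1
  have h2 : K ⊔ span (ZMod 2) (W : Set V) ≤ K ⊔ span (ZMod 2) (X : Set V) :=
    sup_le_sup_left (span_mono (Finset.coe_subset.2 hW)) K
  rw [h1] at h2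
  exact absurd (lt_of_lt_of_le h h2) (lt_irrefl _)

end gen

/-! ### sums over roots of unity -/

private theorem CL_prim {ζ : ℂ} {n : ℕ} (hζ : IsPrimitiveRoot ζ (2 ^ n)) (k : ℕ) :
    IsPrimitiveRoot (ζ ^ (2 * k + 1)) (2 ^ n) := by
  refine hζ.pow_of_coprime _ ?_
  refine Nat.Coprime.pow_right n ?_
  rw [Nat.coprime_two_right]
  exact ⟨k, rfl⟩

private theorem CL_norm {ζ : ℂ} {n : ℕ} (hζ : IsPrimitiveRoot ζ (2 ^ n)) (m : ℤ) :
    ‖ζ ^ m‖ = 1 := by
  rw [norm_zpow, hζ.norm'_eq_one (by positivity), one_zpow]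

/-- the sum over the odd powers of `ζ` -/
private noncomputable def CL_av (ζ : ℂ) (N : ℕ) (m : ℤ) : ℂ :=
  ∑ k ∈ Finset.range N, (ζ ^ (2 * k + 1)) ^ m

private theorem CL_av_le {ζ : ℂ} {n : ℕ} (hζ : IsPrimitiveRoot ζ (2 ^ n)) (N : ℕ) (m : ℤ) :
    |(CL_av ζ N m).re| ≤ N := by
  refine (Complex.abs_re_le_norm _).trans ?_
  unfold CL_av
  refine (norm_sum_le _ _).trans ?_
  have h1 : ∀ k ∈ Finset.range N, ‖(ζ ^ (2 * k + 1)) ^ m‖ = 1 := by
    intro k _
    rw [norm_zpow, norm_pow, hζ.norm'_eq_one (by positivity), one_pow, one_zpow]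
  rw [Finset.sum_congr rfl h1, Finset.sum_const, Finset.card_range, nsmul_eq_mul, mul_one]

private theorem CL_av_nonpos {ζ : ℂ} {n : ℕ} (hn : 1 ≤ n) (hζ : IsPrimitiveRoot ζ (2 ^ n)) (m : ℤ)
    (hm : ¬ (2 : ℤ) ^ n ∣ m) : (CL_av ζ (2 ^ (n - 1)) m).re ≤ 0 := by
  have hζ0 : ζ ≠ 0 := hζ.ne_zero (by positivity)
  have h1 : ∀ k : ℕ, (ζ ^ (2 * k + 1)) ^ m = ζ ^ m * ((ζ ^ m) ^ 2) ^ k := by
    intro k
    rw [← zpow_natCast ζ, ← zpow_mul, ← zpow_natCast (ζ ^ m) 2, ← zpow_mul, ← zpow_natCast,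
      ← zpow_mul, ← zpow_add₀ hζ0]
    congr 1
    push_cast
    ring
  have h2 : CL_av ζ (2 ^ (n - 1)) m = ζ ^ m * ∑ k ∈ Finset.range (2 ^ (n - 1)), ((ζ ^ m) ^ 2) ^ k := by
    unfold CL_av
    rw [Finset.mul_sum]
    exact Finset.sum_congr rfl fun k _ => h1 k
  have h3 : ζ ^ m ≠ 1 := by
    intro h
    rw [hζ.zpow_eq_one_iff_dvd] at h
    apply hm
    exact_mod_cast h
  have h4 : (ζ ^ m) ^ 2 ^ n = 1 := by
    rw [← zpow_natCast, ← zpow_mul, mul_comm, zpow_mul, zpow_natCast, hζ.pow_eq_one, one_zpow]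
  by_cases h5 : (ζ ^ m) ^ 2 = 1
  · have h6 : ζ ^ m = -1 := by
      have h7 : (ζ ^ m - 1) * (ζ ^ m + 1) = 0 := by linear_combination h5
      rcases mul_eq_zero.1 h7 with h | h
      · exact absurd (sub_eq_zero.1 h) h3
      · exact eq_neg_of_add_eq_zero_left h
    rw [h2, h5, h6, Finset.sum_congr rfl (fun k _ => one_pow k), Finset.sum_const,
      Finset.card_range, nsmul_eq_mul, mul_one, neg_one_mul, Complex.neg_re, Complex.natCast_re]
    exact neg_nonpos.2 (Nat.cast_nonneg _)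
  · have h7 : ((ζ ^ m) ^ 2) ^ 2 ^ (n - 1) = 1 := by
      rw [← pow_mul, ← pow_succ', Nat.sub_add_cancel hn]
      exact h4
    have h8 : ∑ k ∈ Finset.range (2 ^ (n - 1)), ((ζ ^ m) ^ 2) ^ k = 0 := by
      have h9 := geom_sum_mul ((ζ ^ m) ^ 2) (2 ^ (n - 1))
      rw [h7, sub_self] at h9
      rcases mul_eq_zero.1 h9 with h | h
      · exact h
      · exact absurd (sub_eq_zero.1 h) h5
    rw [h2, h8, mul_zero, Complex.zero_re]

/-! ### positive combinations of the generators -/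

private theorem CL_num {ζ : ℂ} {n : ℕ} (hn : 1 ≤ n) (hζ : IsPrimitiveRoot ζ (2 ^ n))
    (e f g : ℤ) (he : ¬ (2 : ℤ) ^ n ∣ e) (hf : ¬ (2 : ℤ) ^ n ∣ f) (hg : ¬ (2 : ℤ) ^ n ∣ g)
    (b0 b1 b2 b3 b4 b5 : ℝ) (h0 : 0 ≤ b0) (h1 : 0 ≤ b1) (h2 : 0 ≤ b2) (h3 : 0 ≤ b3)
    (h4 : 0 ≤ b4) (h5 : 0 ≤ b5)
    (h : ∀ k : ℕ, (b0 : ℂ) + (1 - (ζ ^ (2 * k + 1)) ^ e) * b1 + (1 - (ζ ^ (2 * k + 1)) ^ f) * b2 +
      (1 - (ζ ^ (2 * k + 1)) ^ g) * b3 +
      (1 - (ζ ^ (2 * k + 1)) ^ e - (ζ ^ (2 * k + 1)) ^ f + (ζ ^ (2 * k + 1)) ^ (e + f)) * b4 +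
      (2 - (ζ ^ (2 * k + 1)) ^ e - (ζ ^ (2 * k + 1)) ^ f - (ζ ^ (2 * k + 1)) ^ g +
        (ζ ^ (2 * k + 1)) ^ (e + f + g)) * b5 = 0) :
    b0 = 0 ∧ b1 = 0 ∧ b2 = 0 ∧ b3 = 0 ∧ b5 = 0 := by
  obtain ⟨N, hN⟩ : ∃ N, N = 2 ^ (n - 1) := ⟨_, rfl⟩
  obtain ⟨R, hR⟩ : ∃ R : ℤ → ℕ → ℝ, R = fun m k => ((ζ ^ (2 * k + 1)) ^ m).re := ⟨_, rfl⟩
  have hsum : ∀ m, ∑ k ∈ Finset.range N, R m k = (CL_av ζ N m).re := by
    intro m
    rw [hR]
    unfold CL_av
    rw [Complex.re_sum]
  have hk : ∀ k : ℕ, b0 + (1 - R e k) * b1 + (1 - R f k) * b2 + (1 - R g k) * b3 +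
      (1 - R e k - R f k + R (e + f) k) * b4 +
      (2 - R e k - R f k - R g k + R (e + f + g) k) * b5 = 0 := by
    intro k
    have h6 := congrArg Complex.re (h k)
    simp only [Complex.add_re, Complex.mul_re, Complex.sub_re, Complex.ofReal_re,
      Complex.ofReal_im, Complex.one_re, mul_zero, sub_zero, Complex.zero_re,
      Complex.re_ofNat] at h6
    rw [hR]
    exact h6
  have hs : ∑ k ∈ Finset.range N, (b0 + (1 - R e k) * b1 + (1 - R f k) * b2 + (1 - R g k) * b3 +
      (1 - R e k - R f k + R (e + f) k) * b4 +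
      (2 - R e k - R f k - R g k + R (e + f + g) k) * b5) = 0 :=
    Finset.sum_eq_zero fun k _ => hk k
  simp only [Finset.sum_add_distrib, ← Finset.sum_mul, Finset.sum_sub_distrib, Finset.sum_const,
    Finset.card_range, nsmul_eq_mul, hsum, mul_one] at hs
  have e1 := CL_av_nonpos hn hζ e he
  have e2 := CL_av_nonpos hn hζ f hf
  have e3 := CL_av_nonpos hn hζ g hg
  have e4 := (abs_le.1 (CL_av_le hζ N (e + f))).1
  have e5 := (abs_le.1 (CL_av_le hζ N (e + f + g))).1
  rw [← hN] at e1 e2 e3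
  have hN0 : (0 : ℝ) < N := by
    rw [hN]
    positivity
  obtain ⟨c0, hc0⟩ : ∃ c, c = (N : ℝ) * b0 := ⟨_, rfl⟩
  have k0 : 0 ≤ (N : ℝ) * b0 := mul_nonneg hN0.le h0
  have k1 : (N : ℝ) * b1 ≤ (N - (CL_av ζ N e).re) * b1 :=
    mul_le_mul_of_nonneg_right (by linarith) h1
  have k2 : (N : ℝ) * b2 ≤ (N - (CL_av ζ N f).re) * b2 :=
    mul_le_mul_of_nonneg_right (by linarith) h2
  have k3 : (N : ℝ) * b3 ≤ (N - (CL_av ζ N g).re) * b3 :=
    mul_le_mul_of_nonneg_right (by linarith) h3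
  have k4 : 0 ≤ (N - (CL_av ζ N e).re - (CL_av ζ N f).re + (CL_av ζ N (e + f)).re) * b4 :=
    mul_nonneg (by linarith) h4
  have k5 : (N : ℝ) * b5 ≤ (N * 2 - (CL_av ζ N e).re - (CL_av ζ N f).re - (CL_av ζ N g).re +
      (CL_av ζ N (e + f + g)).re) * b5 :=
    mul_le_mul_of_nonneg_right (by linarith) h5
  have l1 : 0 ≤ (N : ℝ) * b1 := mul_nonneg hN0.le h1
  have l2 : 0 ≤ (N : ℝ) * b2 := mul_nonneg hN0.le h2
  have l3 : 0 ≤ (N : ℝ) * b3 := mul_nonneg hN0.le h3
  have l5 : 0 ≤ (N : ℝ) * b5 := mul_nonneg hN0.le h5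
  have hz : ∀ b : ℝ, (N : ℝ) * b = 0 → b = 0 := fun b hb => by
    rcases mul_eq_zero.1 hb with h7 | h7
    · exact absurd h7 hN0.ne'
    · exact h7
  exact ⟨hz _ (by linarith), hz _ (by linarith), hz _ (by linarith), hz _ (by linarith),
    hz _ (by linarith)⟩

/-! ### the expansion -/

section main

variable (A : Finset E) (u : E → ℤ) (n : ℕ)

/-- elements of `O` outside the span of `O'` -/
private noncomputable def CL_R : Finset E := out (Od A u n) (sp (Od A u (n - 1)))

/-- elements of `O` in the span of `O'` -/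
private noncomputable def CL_I : Finset E := inn (Od A u n) (sp (Od A u (n - 1)))

private noncomputable def CL_q (F T : Finset E) : ℝ :=
  RR (F ∩ CL_R A u n) (sp T) (sp F) (fun _ => -1)

private theorem CL_mem_Od {v : E} : v ∈ Od A u n ↔ v ∈ A ∧ ¬ (2 : ℤ) ^ n ∣ u v := by
  unfold Od
  rw [Finset.mem_filter]

private theorem CL_mem_R {v : E} : v ∈ CL_R A u n ↔ v ∈ Od A u n ∧ v ∉ sp (Od A u (n - 1)) := by
  classical
  unfold CL_R out
  rw [Finset.mem_filter]

private theorem CL_mem_I {v : E} : v ∈ CL_I A u n ↔ v ∈ Od A u n ∧ v ∈ sp (Od A u (n - 1)) := by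
  classical
  unfold CL_I inn
  rw [Finset.mem_filter]

private theorem CL_disj (F : Finset E) : Disjoint (F ∩ CL_I A u n) (F ∩ CL_R A u n) := by
  rw [Finset.disjoint_left]
  intro v h1 h2
  rw [Finset.mem_inter, CL_mem_I] at h1
  rw [Finset.mem_inter, CL_mem_R] at h2
  exact h2.2.2 h1.2.2

private theorem CL_union (F : Finset E) :
    (F ∩ CL_I A u n) ∪ (F ∩ CL_R A u n) = F ∩ Od A u n := by
  ext v
  rw [Finset.mem_union, Finset.mem_inter, Finset.mem_inter, Finset.mem_inter, CL_mem_I, CL_mem_R]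
  tauto

private theorem CL_exp (hn : 1 ≤ n) {ζ : ℂ} (hζ : IsPrimitiveRoot ζ (2 ^ n)) (F : Finset E)
    (hF : F ⊆ A) : PP F ⊥ (fun v => ζ ^ u v) =
      ∑ T ∈ (F ∩ CL_I A u n).powerset, (∏ v ∈ T, (ζ ^ u v - 1)) * ((CL_q A u n F T : ℝ) : ℂ) := by
  rw [CL_PP, CL_S_one F (F ∩ Od A u n) Finset.inter_subset_left ⊥ _ _ ?_, ← CL_union,
    CL_S_union _ _ _ _ _ (CL_disj A u n F)]
  · refine Finset.sum_congr rfl fun T _ => ?_
    congr 1
    rw [bot_sup_eq]
    refine CL_S_neg _ _ _ _ fun v hv => ?_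
    rw [Finset.mem_inter, CL_mem_R, CL_mem_Od] at hv
    have h1 : ζ ^ u v ≠ 1 := by
      intro h
      rw [hζ.zpow_eq_one_iff_dvd] at h
      apply hv.2.1.2
      exact_mod_cast h
    have h2 : (2 : ℤ) ^ (n - 1) ∣ u v := by
      by_contra hc
      refine hv.2.2 (subset_span ?_)
      rw [Finset.mem_coe, CL_mem_Od]
      exact ⟨hv.2.1.1, hc⟩
    have h3 : (ζ ^ u v) ^ 2 = 1 := by
      rw [← zpow_natCast, ← zpow_mul, hζ.zpow_eq_one_iff_dvd]
      obtain ⟨c, hc⟩ := h2
      refine ⟨c, ?_⟩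
      rw [hc]
      push_cast
      have h4 : (2 : ℤ) ^ n = 2 ^ (n - 1) * 2 := by
        rw [← pow_succ, Nat.sub_add_cancel hn]
      rw [h4]
      ring
    have h7 : (ζ ^ u v - 1) * (ζ ^ u v + 1) = 0 := by linear_combination h3
    rcases mul_eq_zero.1 h7 with h | h
    · exact absurd (sub_eq_zero.1 h) h1
    · exact eq_neg_of_add_eq_zero_left h
  · intro v hv hv2
    show ζ ^ u v = 1
    rw [hζ.zpow_eq_one_iff_dvd]
    by_contra hc
    apply hv2
    rw [Finset.mem_inter, CL_mem_Od]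
    refine ⟨hv, hF hv, fun h => hc ?_⟩
    exact_mod_cast h

/-- the coefficient -/
private noncomputable def CL_B (t : Finset E → ℝ) (T : Finset E) : ℝ :=
  ∑ F ∈ fl A, if T ⊆ F then CL_q A u n F T * t F else 0

private theorem CL_fl {F : Finset E} (hF : F ∈ fl A) : Flat A F := by
  classical
  unfold fl at hF
  exact (Finset.mem_filter.1 hF).2

private theorem CL_main_eq (hn : 1 ≤ n) {ζ : ℂ} (hζ : IsPrimitiveRoot ζ (2 ^ n))
    (t : Finset E → ℝ) (h : ∑ F ∈ fl A, PP F ⊥ (fun v => ζ ^ u v) * ((t F : ℝ) : ℂ) = 0) :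
    ∑ T ∈ (CL_I A u n).powerset, (∏ v ∈ T, (ζ ^ u v - 1)) * ((CL_B A u n t T : ℝ) : ℂ) = 0 := by
  rw [← h]
  have h1 : ∀ F ∈ fl A, PP F ⊥ (fun v => ζ ^ u v) * ((t F : ℝ) : ℂ) =
      ∑ T ∈ (CL_I A u n).powerset, (∏ v ∈ T, (ζ ^ u v - 1)) *
        (((if T ⊆ F then CL_q A u n F T * t F else 0 : ℝ)) : ℂ) := by
    intro F hF
    rw [CL_exp A u n hn hζ F (CL_fl A hF).1, Finset.sum_mul]
    have h2 : (F ∩ CL_I A u n).powerset = (CL_I A u n).powerset.filter (fun T => T ⊆ F) := by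
      ext T
      rw [Finset.mem_filter, Finset.mem_powerset, Finset.mem_powerset, Finset.subset_inter_iff,
        and_comm]
    rw [h2, Finset.sum_filter]
    refine Finset.sum_congr rfl fun T _ => ?_
    by_cases h3 : T ⊆ F
    · rw [if_pos h3, if_pos h3]
      push_cast
      ring
    · rw [if_neg h3, if_neg h3, Complex.ofReal_zero, mul_zero]
  rw [Finset.sum_congr rfl h1, Finset.sum_comm]
  refine Finset.sum_congr rfl fun T _ => ?_
  rw [← Finset.mul_sum]
  unfold CL_B
  rw [Complex.ofReal_sum]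

private theorem CL_B_span (t : Finset E → ℝ) {T T' : Finset E} (hT : T ⊆ A) (hT' : T' ⊆ A)
    (h : sp T = sp T') : CL_B A u n t T = CL_B A u n t T' := by
  unfold CL_B
  refine Finset.sum_congr rfl fun F hF => ?_
  have h1 : ∀ S S' : Finset E, S' ⊆ A → sp S = sp S' → S ⊆ F → S' ⊆ F := by
    intro S S' hS' hs hSF v hv
    refine (CL_fl A hF).2 v (hS' hv) ?_
    have h2 : v ∈ sp S' := subset_span (Finset.mem_coe.2 hv)
    rw [← hs] at h2
    exact span_mono (Finset.coe_subset.2 hSF) h2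
  have h2 : T ⊆ F ↔ T' ⊆ F := ⟨h1 T T' hT' h, h1 T' T hT h.symm⟩
  have h3 : CL_q A u n F T = CL_q A u n F T' := by
    unfold CL_q
    rw [h]
  rw [h3]
  by_cases h4 : T ⊆ F
  · rw [if_pos h4, if_pos (h2.1 h4)]
  · rw [if_neg h4, if_neg (fun h5 => h4 (h2.2 h5))]

private theorem CL_term (t : Finset E → ℝ) (ε : ℝ)
    (hε : ∀ F, Flat A F → sp (F ∩ Od A u n) = sp F → 0 ≤ ε * (-1) ^ rk F * t F)
    {F T : Finset E} (hF : F ∈ fl A) (hT : T ⊆ CL_I A u n) (hTF : T ⊆ F) :
    0 ≤ ε * (-1) ^ rk T * (CL_q A u n F T * t F) := by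
  by_cases hs : sp (F ∩ Od A u n) = sp F
  · have h1 := hε F (CL_fl A hF) hs
    have h2 := sign_RR (F ∩ CL_R A u n).card (F ∩ CL_R A u n) rfl (sp T) (sp F) (fun _ => -1)
      inferInstance (fun v hv hvT => by
        rw [Finset.mem_inter, CL_mem_R] at hv
        refine hv.2.2 ?_
        refine (span_le.2 fun w hw => ?_) hvT
        exact ((CL_mem_I A u n).1 (hT (Finset.mem_coe.1 hw))).2) (fun v _ => by norm_num)
    have h3 := mul_nonneg h1 h2
    have h4 : ε * (-1) ^ rk F * t F *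
        ((-1 : ℝ) ^ (Module.finrank (ZMod 2) (sp T) + Module.finrank (ZMod 2) (sp F)) *
          RR (F ∩ CL_R A u n) (sp T) (sp F) (fun _ => -1)) =
        ε * (-1) ^ rk T * (CL_q A u n F T * t F) := by
      have h5 : (-1 : ℝ) ^ rk F * (-1 : ℝ) ^ rk F = 1 := by
        rw [← mul_pow]
        norm_num
      unfold CL_q
      rw [pow_add]
      change ε * (-1) ^ rk F * t F * ((-1 : ℝ) ^ rk T * (-1 : ℝ) ^ rk F *
          RR (F ∩ CL_R A u n) (sp T) (sp F) (fun _ => -1)) = _
      linear_combination (ε * t F * (-1 : ℝ) ^ rk T *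
        RR (F ∩ CL_R A u n) (sp T) (sp F) (fun _ => -1)) * h5
    rw [h4] at h3
    exact h3
  · have h1 : CL_q A u n F T = 0 := by
      refine CL_RR_zero _ _ _ _ (lt_of_le_of_lt ?_ (lt_of_le_of_ne ?_ hs))
      · refine sup_le (span_mono ?_) (span_mono ?_)
        · intro v hv
          have hv' := Finset.mem_coe.1 hv
          rw [Finset.mem_coe, Finset.mem_inter]
          exact ⟨hTF hv', ((CL_mem_I A u n).1 (hT hv')).1⟩
        · intro v hv
          rw [Finset.mem_coe, Finset.mem_inter, CL_mem_R] at hv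
          rw [Finset.mem_coe, Finset.mem_inter]
          exact ⟨hv.1, hv.2.1⟩
      · exact span_mono (Finset.coe_subset.2 Finset.inter_subset_left)
    rw [h1]
    simp

end main

/-! ### the cases -/

private theorem CL_pow1 {M : Type} [AddCommMonoid M] (φ : Finset E → M) (e : E) :
    ∑ T ∈ ({e} : Finset E).powerset, φ T = φ ∅ + φ {e} := by
  have h1 : ({e} : Finset E) = insert e ∅ := rfl
  rw [h1, Finset.sum_powerset_insert (Finset.notMem_empty e), Finset.powerset_empty,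
    Finset.sum_singleton, Finset.sum_singleton]

private theorem CL_pow2 {M : Type} [AddCommMonoid M] (φ : Finset E → M) {e f : E} (h : e ≠ f) :
    ∑ T ∈ ({e, f} : Finset E).powerset, φ T = φ ∅ + φ {f} + (φ {e} + φ {e, f}) := by
  have h1 : e ∉ ({f} : Finset E) := by
    rw [Finset.mem_singleton]
    exact h
  rw [Finset.sum_powerset_insert h1, CL_pow1, CL_pow1 (fun T => φ (insert e T))]
  rfl

private theorem CL_pow3 {M : Type} [AddCommMonoid M] (φ : Finset E → M) {e f g : E} (h1 : e ≠ f)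
    (h2 : e ≠ g) (h3 : f ≠ g) :
    ∑ T ∈ ({e, f, g} : Finset E).powerset, φ T = φ ∅ + φ {g} + (φ {f} + φ {f, g}) +
      (φ {e} + φ {e, g} + (φ {e, f} + φ {e, f, g})) := by
  have h4 : e ∉ ({f, g} : Finset E) := by
    rw [Finset.mem_insert, Finset.mem_singleton]
    push Not
    exact ⟨h1, h2⟩
  rw [Finset.sum_powerset_insert h4, CL_pow2 _ h3, CL_pow2 (fun T => φ (insert e T)) h3]
  rfl

private theorem CL_rk0 : rk ∅ = 0 := by
  unfold rk sp
  rw [Finset.coe_empty, span_empty, finrank_bot]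

private theorem CL_rk1 {e : E} (he : e ≠ 0) : rk {e} = 1 := by
  unfold rk sp
  rw [Finset.coe_singleton]
  exact finrank_span_singleton he

private theorem CL_rk2 {e f : E} (he : e ≠ 0) (hf : f ≠ 0) (h : e ≠ f) : rk {e, f} = 2 := by
  have h1 : f ∉ span (ZMod 2) ({e} : Set E) := by
    intro hc
    rw [mem_span_singleton] at hc
    obtain ⟨c, hc⟩ := hc
    rcases zmod2_cases c with rfl | rfl
    · rw [zero_smul] at hc
      exact hf hc.symm
    · rw [one_smul] at hc
      exact h hc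
  have h2 := finrank_sup_one (span (ZMod 2) ({e} : Set E)) f h1
  rw [finrank_span_singleton he] at h2
  unfold rk sp
  rw [Finset.coe_insert, Finset.coe_singleton, span_insert]
  exact h2

private theorem CL_card (I : Finset E) (Λ : Submodule (ZMod 2) E)
    (h : Module.finrank (ZMod 2) Λ ≤ 2) (hI : ∀ v ∈ I, v ∈ Λ) (h0 : ∀ v ∈ I, v ≠ 0) :
    I.card ≤ 3 := by
  have h1 : (insert 0 I).card ≤ 4 := by
    have h2 : ((insert 0 I : Finset E) : Set E) ⊆ (Λ : Set E) := by
      intro v hv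
      rw [Finset.mem_coe, Finset.mem_insert] at hv
      rcases hv with rfl | hv
      · exact Λ.zero_mem
      · exact hI v hv
    have h3 := Set.ncard_le_ncard h2 (Set.toFinite _)
    rw [Set.ncard_coe_finset] at h3
    have h4 : (Λ : Set E).ncard = Nat.card Λ := rfl
    have h5 : Nat.card Λ = 2 ^ Module.finrank (ZMod 2) Λ := by
      rw [Module.natCard_eq_pow_finrank (K := ZMod 2), Nat.card_zmod]
    have h6 : 2 ^ Module.finrank (ZMod 2) Λ ≤ 2 ^ 2 := Nat.pow_le_pow_right (by norm_num) h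
    omega
  rw [Finset.card_insert_of_notMem (fun h2 => h0 0 h2 rfl)] at h1
  omega

theorem thm_CL : St_CL := by
  intro A u n h0 hn hr t ht hsum
  obtain ⟨ε, hε, hcoh⟩ := ht
  have hε0 : ε ≠ 0 := by
    rcases hε with h | h
    · rw [h]
      norm_num
    · rw [h]
      norm_num
  obtain ⟨ζ, hζ⟩ : ∃ ζ : ℂ, IsPrimitiveRoot ζ (2 ^ n) :=
    ⟨_, Complex.isPrimitiveRoot_exp _ (by positivity)⟩
  obtain ⟨I, hI⟩ : ∃ I, I = CL_I A u n := ⟨_, rfl⟩
  obtain ⟨B, hB⟩ : ∃ B, B = CL_B A u n t := ⟨_, rfl⟩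
  have hs : ∀ T ⊆ I, 0 ≤ ε * (-1) ^ rk T * B T := by
    intro T hT
    rw [hB]
    unfold CL_B
    rw [Finset.mul_sum]
    refine Finset.sum_nonneg fun F hF => ?_
    by_cases h1 : T ⊆ F
    · rw [if_pos h1]
      exact CL_term A u n t ε hcoh hF (hI ▸ hT) h1
    · rw [if_neg h1, mul_zero]
  have hIA : I ⊆ A := by
    intro v hv
    rw [hI, CL_mem_I, CL_mem_Od] at hv
    exact hv.1.1
  have hI0 : ∀ v ∈ I, v ≠ 0 := fun v hv h => h0 (h ▸ hIA hv)
  have hIO : ∀ v ∈ I, ¬ (2 : ℤ) ^ n ∣ u v := by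
    intro v hv
    rw [hI, CL_mem_I, CL_mem_Od] at hv
    exact hv.1.2
  have hIΛ : ∀ v ∈ I, v ∈ sp (Od A u (n - 1)) := by
    intro v hv
    rw [hI, CL_mem_I] at hv
    exact hv.2
  have heq : ∀ k : ℕ, ∑ T ∈ I.powerset, (∏ v ∈ T, ((ζ ^ (2 * k + 1)) ^ u v - 1)) *
      ((B T : ℝ) : ℂ) = 0 := by
    intro k
    rw [hI, hB]
    exact CL_main_eq A u n hn (CL_prim hζ k) t (hsum _ (CL_prim hζ k))
  have hone : ∀ v ∈ I, ζ ^ u v ≠ 1 := by
    intro v hv h
    rw [hζ.zpow_eq_one_iff_dvd] at h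
    apply hIO v hv
    exact_mod_cast h
  have key : ∀ T ⊆ I, B T = 0 := by
    have hcard := CL_card I _ hr hIΛ hI0
    have hz : ∀ b : ℝ, ε * b = 0 → b = 0 := fun b hb => by
      rcases mul_eq_zero.1 hb with h7 | h7
      · exact absurd h7 hε0
      · exact h7
    have hz' : ∀ b : ℝ, -(ε * b) = 0 → b = 0 := fun b hb => hz b (neg_eq_zero.1 hb)
    have hsub0 : 0 ≤ ε * B ∅ := by
      have h1 := hs ∅ (Finset.empty_subset _)
      rw [CL_rk0, pow_zero, mul_one] at h1
      exact h1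
    have hsub1 : ∀ e ∈ I, 0 ≤ -(ε * B {e}) := by
      intro e he
      have h1 := hs {e} (Finset.singleton_subset_iff.2 he)
      rw [CL_rk1 (hI0 e he), pow_one] at h1
      linarith
    have hsub2 : ∀ e ∈ I, ∀ f ∈ I, e ≠ f → 0 ≤ ε * B {e, f} := by
      intro e he f hf hef
      have h1 := hs {e, f} (Finset.insert_subset he (Finset.singleton_subset_iff.2 hf))
      rw [CL_rk2 (hI0 e he) (hI0 f hf) hef] at h1
      norm_num at h1
      exact h1
    have hpos : ∀ k : ℕ, (ζ ^ (2 * k + 1)) ≠ 0 := fun k =>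
      pow_ne_zero _ (hζ.ne_zero (by positivity))
    have hspan1 : ∀ T ⊆ I, 2 ≤ T.card → sp T = sp (Od A u (n - 1)) := by
      intro T hT hc
      obtain ⟨x, hx, y, hy, hxy⟩ := Finset.one_lt_card.1 hc
      refine Submodule.eq_of_le_of_finrank_le (span_le.2 fun v hv =>
        hIΛ v (hT (Finset.mem_coe.1 hv))) ?_
      have h1 := CL_rk2 (hI0 x (hT hx)) (hI0 y (hT hy)) hxy
      have h2 : rk {x, y} ≤ rk T := Submodule.finrank_mono (span_mono (Finset.coe_subset.2
        (Finset.insert_subset hx (Finset.singleton_subset_iff.2 hy))))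
      have h3 : rk (Od A u (n - 1)) ≤ rk T := by omega
      exact h3
    have hspan2 : ∀ T T' : Finset E, T ⊆ I → T' ⊆ I → 2 ≤ T.card → 2 ≤ T'.card → B T = B T' := by
      intro T T' hT hT' hc hc'
      rw [hB]
      exact CL_B_span A u n t (hT.trans hIA) (hT'.trans hIA)
        ((hspan1 T hT hc).trans (hspan1 T' hT' hc').symm)
    have hclose : B ∅ = 0 → (∀ x ∈ I, B {x} = 0) → ∀ e ∈ I, ∀ f ∈ I, e ≠ f → B {e, f} = 0 →
        ∀ T ⊆ I, B T = 0 := by
      intro h1 h2 e he f hf hef h3 T hT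
      obtain hc | hc | hc : T.card = 0 ∨ T.card = 1 ∨ 2 ≤ T.card := by omega
      · rw [Finset.card_eq_zero] at hc
        rw [hc]
        exact h1
      · rw [Finset.card_eq_one] at hc
        obtain ⟨x, rfl⟩ := hc
        exact h2 x (Finset.singleton_subset_iff.1 hT)
      · rw [← h3]
        exact hspan2 _ _ hT (Finset.insert_subset he (Finset.singleton_subset_iff.2 hf)) hc
          (Finset.card_pair hef).ge
    obtain hc | hc | hc | hc : I.card = 0 ∨ I.card = 1 ∨ I.card = 2 ∨ I.card = 3 := by omega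
    · rw [Finset.card_eq_zero] at hc
      intro T hT
      rw [hc, Finset.subset_empty] at hT
      have h1 := heq 0
      rw [hc, Finset.powerset_empty, Finset.sum_singleton, Finset.prod_empty, one_mul] at h1
      rw [hT]
      exact_mod_cast h1
    · rw [Finset.card_eq_one] at hc
      obtain ⟨e, he⟩ := hc
      have heI : e ∈ I := by
        rw [he]
        exact Finset.mem_singleton_self e
      obtain ⟨k0, k1, -, -, -⟩ := CL_num hn hζ (u e) (u e) (u e) (hIO e heI) (hIO e heI)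
        (hIO e heI) (ε * B ∅) (-(ε * B {e})) 0 0 0 0 hsub0 (hsub1 e heI) le_rfl le_rfl le_rfl le_rfl
        (by
          intro k
          have h1 := heq k
          rw [he, CL_pow1, Finset.prod_empty, Finset.prod_singleton] at h1
          push_cast
          linear_combination (ε : ℂ) * h1)
      intro T hT
      rw [he, Finset.subset_singleton_iff] at hT
      rcases hT with rfl | rfl
      · exact hz _ k0
      · exact hz' _ k1
    · rw [Finset.card_eq_two] at hc
      obtain ⟨e, f, hef, he⟩ := hc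
      have heI : e ∈ I := by
        rw [he]
        exact Finset.mem_insert_self e _
      have hfI : f ∈ I := by
        rw [he]
        exact Finset.mem_insert_of_mem (Finset.mem_singleton_self f)
      obtain ⟨k0, k1, k2, -, -⟩ := CL_num hn hζ (u e) (u f) (u f) (hIO e heI) (hIO f hfI)
        (hIO f hfI) (ε * B ∅) (-(ε * B {e})) (-(ε * B {f})) 0 (ε * B {e, f}) 0 hsub0
        (hsub1 e heI) (hsub1 f hfI) le_rfl (hsub2 e heI f hfI hef) le_rfl
        (by
          intro k
          have h1 := heq k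
          rw [he, CL_pow2 _ hef, Finset.prod_empty, Finset.prod_singleton, Finset.prod_singleton,
            Finset.prod_pair hef] at h1
          rw [zpow_add₀ (hpos k)]
          push_cast
          linear_combination (ε : ℂ) * h1)
      have l0 := hz _ k0
      have l1 := hz' _ k1
      have l2 := hz' _ k2
      have l3 : B {e, f} = 0 := by
        have h1 := heq 0
        rw [he, CL_pow2 _ hef, Finset.prod_empty, Finset.prod_singleton, Finset.prod_singleton,
          Finset.prod_pair hef, l0, l1, l2] at h1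
        simp only [mul_zero, zero_add, pow_one, Complex.ofReal_zero] at h1
        rcases mul_eq_zero.1 h1 with h2 | h2
        · rcases mul_eq_zero.1 h2 with h3 | h3
          · exact absurd (sub_eq_zero.1 h3) (hone e heI)
          · exact absurd (sub_eq_zero.1 h3) (hone f hfI)
        · exact_mod_cast h2
      refine hclose l0 (fun x hx => ?_) e heI f hfI hef l3
      rw [he, Finset.mem_insert, Finset.mem_singleton] at hx
      rcases hx with rfl | rfl
      · exact l1
      · exact l2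
    · rw [Finset.card_eq_three] at hc
      obtain ⟨e, f, g, hef, heg, hfg, he⟩ := hc
      have heI : e ∈ I := by
        rw [he]
        exact Finset.mem_insert_self e _
      have hfI : f ∈ I := by
        rw [he]
        exact Finset.mem_insert_of_mem (Finset.mem_insert_self f _)
      have hgI : g ∈ I := by
        rw [he]
        exact Finset.mem_insert_of_mem (Finset.mem_insert_of_mem (Finset.mem_singleton_self g))
      have m1 : B {f, g} = B {e, f} := hspan2 _ _ (Finset.insert_subset hfI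
        (Finset.singleton_subset_iff.2 hgI)) (Finset.insert_subset heI
        (Finset.singleton_subset_iff.2 hfI)) (Finset.card_pair hfg).ge (Finset.card_pair hef).ge
      have m2 : B {e, g} = B {e, f} := hspan2 _ _ (Finset.insert_subset heI
        (Finset.singleton_subset_iff.2 hgI)) (Finset.insert_subset heI
        (Finset.singleton_subset_iff.2 hfI)) (Finset.card_pair heg).ge (Finset.card_pair hef).ge
      have m3 : B {e, f, g} = B {e, f} := hspan2 _ _ (he ▸ Finset.Subset.refl I)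
        (Finset.insert_subset heI (Finset.singleton_subset_iff.2 hfI)) (by
          rw [Finset.card_eq_three.2 ⟨e, f, g, hef, heg, hfg, rfl⟩]
          norm_num) (Finset.card_pair hef).ge
      obtain ⟨k0, k1, k2, k3, k5⟩ := CL_num hn hζ (u e) (u f) (u g) (hIO e heI) (hIO f hfI)
        (hIO g hgI) (ε * B ∅) (-(ε * B {e})) (-(ε * B {f})) (-(ε * B {g})) 0 (ε * B {e, f}) hsub0
        (hsub1 e heI) (hsub1 f hfI) (hsub1 g hgI) le_rfl (hsub2 e heI f hfI hef)
        (by
          intro k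
          have h1 := heq k
          have h2 : e ∉ ({f, g} : Finset E) := by
            rw [Finset.mem_insert, Finset.mem_singleton]
            push Not
            exact ⟨hef, heg⟩
          rw [he, CL_pow3 _ hef heg hfg, Finset.prod_empty, Finset.prod_singleton,
            Finset.prod_singleton, Finset.prod_singleton, Finset.prod_insert h2,
            Finset.prod_pair hef, Finset.prod_pair heg, Finset.prod_pair hfg, m1, m2, m3] at h1
          rw [zpow_add₀ (hpos k) (u e + u f) (u g), zpow_add₀ (hpos k) (u e) (u f)]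
          push_cast
          linear_combination (ε : ℂ) * h1)
      refine hclose (hz _ k0) (fun x hx => ?_) e heI f hfI hef (hz _ k5)
      rw [he, Finset.mem_insert, Finset.mem_insert, Finset.mem_singleton] at hx
      rcases hx with rfl | rfl | rfl
      · exact hz' _ k1
      · exact hz' _ k2
      · exact hz' _ k3
  intro F hF hspan
  have hq : ∀ T ⊆ F ∩ I, CL_q A u n F T * t F = 0 := by
    intro T hT
    rw [Finset.subset_inter_iff] at hT
    have h1 := key T hT.2
    have h2 : ∑ F ∈ fl A, (ε * (-1) ^ rk T * if T ⊆ F then CL_q A u n F T * t F else 0) = 0 := by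
      rw [← Finset.mul_sum]
      rw [hB] at h1
      unfold CL_B at h1
      rw [h1, mul_zero]
    rw [Finset.sum_eq_zero_iff_of_nonneg] at h2
    · have h3 := h2 F hF
      rw [if_pos hT.1] at h3
      rcases mul_eq_zero.1 h3 with h4 | h4
      · rcases mul_eq_zero.1 h4 with h5 | h5
        · exact absurd h5 hε0
        · exact absurd h5 (pow_ne_zero _ (by norm_num))
      · exact h4
    · intro F' hF'
      by_cases h3 : T ⊆ F'
      · rw [if_pos h3]
        exact CL_term A u n t ε hcoh hF' (hI ▸ hT.2) h3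
      · rw [if_neg h3, mul_zero]
  have h1 : ((RR (F ∩ Od A u n) ⊥ (sp F) (fun _ => -1) : ℝ) : ℂ) * ((t F : ℝ) : ℂ) = 0 := by
    rw [← CL_S_neg (F ∩ Od A u n) ⊥ (sp F) (fun _ => -1) (fun _ _ => rfl), ← CL_union,
      CL_S_union _ _ _ _ _ (CL_disj A u n F), Finset.sum_mul]
    refine Finset.sum_eq_zero fun T hT => ?_
    rw [Finset.mem_powerset] at hT
    rw [bot_sup_eq, CL_S_neg _ _ _ _ (fun _ _ => rfl), mul_assoc, ← Complex.ofReal_mul]
    have h2 := hq T (hI ▸ hT)
    unfold CL_q at h2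
    rw [h2, Complex.ofReal_zero, mul_zero]
  have h2 := one_le_RR' (F ∩ Od A u n)
  rw [show span (ZMod 2) ((F ∩ Od A u n : Finset E) : Set E) = sp F from hspan] at h2
  rcases mul_eq_zero.1 h1 with h3 | h3
  · have h4 : RR (F ∩ Od A u n) ⊥ (sp F) (fun _ => -1) = 0 := by exact_mod_cast h3
    rw [h4, abs_zero] at h2
    exact absurd h2 (by norm_num)
  · exact_mod_cast h3

end Pool.Agent.TRG
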