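import Pool.Agent.TRG.St

/-! TRG CMP (helper9): composition of the polynomial. -/

set_option autoImplicit false

open Submodule Filter Topology
open Pool.Agent.SPT Pool.Agent.SPT.Rel

namespace Pool.Agent.TRG

private theorem CMP_union (A B : Finset E) (h : Disjoint A B) (f : Finset E → ℂ) :
    ∑ W ∈ (A ∪ B).powerset, f W = ∑ W ∈ A.powerset, ∑ V ∈ B.powerset, f (W ∪ V) := by
  rw [← Finset.sum_product' (s := A.powerset) (t := B.powerset) (f := fun W V => f (W ∪ V))]
  symm
  refine Finset.sum_nbij' (fun p => p.1 ∪ p.2) (fun W => (W ∩ A, W ∩ B)) ?_ ?_ ?_ ?_ ?_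
  · intro p hp
    rw [Finset.mem_product, Finset.mem_powerset, Finset.mem_powerset] at hp
    rw [Finset.mem_powerset]
    exact Finset.union_subset_union hp.1 hp.2
  · intro W _
    rw [Finset.mem_product, Finset.mem_powerset, Finset.mem_powerset]
    exact ⟨Finset.inter_subset_right, Finset.inter_subset_right⟩
  · intro p hp
    rw [Finset.mem_product, Finset.mem_powerset, Finset.mem_powerset] at hp
    have h1 : p.2 ∩ A = ∅ := by
      rw [← Finset.disjoint_iff_inter_eq_empty]
      exact (Finset.disjoint_of_subset_right hp.2 h).symm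
    have h2 : p.1 ∩ B = ∅ := by
      rw [← Finset.disjoint_iff_inter_eq_empty]
      exact Finset.disjoint_of_subset_left hp.1 h
    apply Prod.ext
    · show (p.1 ∪ p.2) ∩ A = p.1
      rw [Finset.union_inter_distrib_right, h1, Finset.union_empty,
        Finset.inter_eq_left.2 hp.1]
    · show (p.1 ∪ p.2) ∩ B = p.2
      rw [Finset.union_inter_distrib_right, h2, Finset.empty_union,
        Finset.inter_eq_left.2 hp.2]
  · intro W hW
    rw [Finset.mem_powerset] at hW
    show W ∩ A ∪ W ∩ B = W
    rw [← Finset.inter_union_distrib_left, Finset.inter_eq_left.2 hW]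
  · intro p _
    rfl

open Classical in
theorem CMP_proof : St_CMP := by
  intro A B hAB x
  have hL : TT (A ∪ B) ⊥ x = ∑ W ∈ A.powerset, (∏ v ∈ W, (x v - 1)) * TT B (sp W) x := by
    unfold TT
    rw [CMP_union A B hAB]
    refine Finset.sum_congr rfl fun W hW => ?_
    rw [Finset.mul_sum]
    refine Finset.sum_congr rfl fun V hV => ?_
    rw [Finset.mem_powerset] at hW hV
    have hd : Disjoint W V := Finset.disjoint_of_subset_left hW (Finset.disjoint_of_subset_right hV hAB)
    have hs : ⊥ ⊔ sp (W ∪ V) = sp W ⊔ sp V := by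
      rw [bot_sup_eq]
      unfold sp
      rw [Finset.coe_union, span_union]
    rw [hs]
    split_ifs with h1
    · rw [Finset.prod_union hd]
    · rw [mul_zero]
  have hR : ∀ F ∈ fl A, PP F ⊥ x * TT B (sp F) x = ∑ W ∈ A.powerset,
      if W ⊆ F ∧ sp W = sp F then (∏ v ∈ W, (x v - 1)) * TT B (sp W) x else 0 := by
    intro F hF
    have hFA : F ⊆ A := (Finset.mem_filter.1 hF).2.1
    have e : F.powerset = A.powerset.filter (fun W => W ⊆ F) := by
      ext W
      rw [Finset.mem_filter, Finset.mem_powerset, Finset.mem_powerset]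
      exact ⟨fun h => ⟨h.trans hFA, h⟩, fun h => h.2⟩
    unfold PP
    rw [e, Finset.sum_filter, Finset.sum_mul]
    refine Finset.sum_congr rfl fun W _ => ?_
    have hsp : Spans ⊥ F W ↔ sp W = sp F := by
      unfold Spans
      rw [bot_sup_eq, bot_sup_eq]
    by_cases h1 : W ⊆ F
    · by_cases h2 : sp W = sp F
      · rw [if_pos h1, if_pos (hsp.2 h2), if_pos ⟨h1, h2⟩, h2]
      · rw [if_pos h1, if_neg (fun h => h2 (hsp.1 h)), if_neg (fun h => h2 h.2), zero_mul]
    · rw [if_neg h1, if_neg (fun h => h1 h.1), zero_mul]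
  rw [hL, Finset.sum_congr rfl hR, Finset.sum_comm]
  refine Finset.sum_congr rfl fun W hW => ?_
  rw [Finset.mem_powerset] at hW
  have hW0 : W ⊆ A.filter (fun v => v ∈ sp W) := fun v hv =>
    Finset.mem_filter.2 ⟨hW hv, subset_span hv⟩
  have hle : sp (A.filter (fun v => v ∈ sp W)) ≤ sp W := by
    unfold sp
    rw [span_le]
    intro v hv
    exact (Finset.mem_filter.1 (Finset.mem_coe.1 hv)).2
  have hsp0 : sp W = sp (A.filter (fun v => v ∈ sp W)) :=
    le_antisymm (span_mono (Finset.coe_subset.2 hW0)) hle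
  symm
  rw [Finset.sum_eq_single (A.filter (fun v => v ∈ sp W))]
  · rw [if_pos ⟨hW0, hsp0⟩]
  · intro F hF hne
    rw [if_neg]
    rintro ⟨h1, h2⟩
    apply hne
    have hF' := (Finset.mem_filter.1 hF).2
    ext v
    rw [Finset.mem_filter]
    constructor
    · intro hv
      refine ⟨hF'.1 hv, ?_⟩
      rw [h2]
      exact subset_span hv
    · rintro ⟨hv, hv2⟩
      refine hF'.2 v hv ?_
      rw [h2] at hv2
      exact hv2
  · intro h
    exfalso
    apply h
    refine Finset.mem_filter.2 ⟨Finset.mem_powerset.2 (Finset.filter_subset _ _),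
      Finset.filter_subset _ _, ?_⟩
    intro v hv hv2
    exact Finset.mem_filter.2 ⟨hv, hle hv2⟩

end Pool.Agent.TRG
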