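import Pool.Agent.SPT.Rel
import Pool.Agent.TRA.Defs

/-!
# TRG : regular sets of rank five, definitions (captain: helper62)

`E` is the space of dimension five over the field with two elements, `X` a finite set of vectors.
-/

set_option autoImplicit false

open Submodule
open Pool.Agent.SPT Pool.Agent.SPT.Rel

namespace Pool.Agent.TRG

/-- the vector space of dimension five -/
abbrev E : Type := Fin 5 → ZMod 2

/-- the span of a finite set -/
abbrev sp (F : Finset E) : Submodule (ZMod 2) E := span (ZMod 2) (F : Set E)

/-- the rank of a finite set -/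
noncomputable def rk (F : Finset E) : ℕ := Module.finrank (ZMod 2) (sp F)

open Classical in
/-- the sum over the subsets of `B` which span everything together with `K` -/
noncomputable def TT (B : Finset E) (K : Submodule (ZMod 2) E) (x : E → ℂ) : ℂ :=
  ∑ W ∈ B.powerset, if K ⊔ sp W = ⊤ then ∏ v ∈ W, (x v - 1) else 0

open Classical in
/-- the sum over the subsets of `B` with `c` elements which span everything together with `K` -/
noncomputable def tau (B : Finset E) (K : Submodule (ZMod 2) E) (u : E → ℤ) (c : ℕ) : ℤ :=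
  ∑ W ∈ B.powersetCard c, if K ⊔ sp W = ⊤ then ∏ v ∈ W, u v else 0

open Classical in
/-- the sum of `u` over the elements of `X` in the class of `v` modulo `G` -/
noncomputable def cs (X : Finset E) (u : E → ℤ) (G : Submodule (ZMod 2) E) (v : E) : ℤ :=
  ∑ w ∈ X.filter (fun w => w + v ∈ G), u w

/-- the weights `exp (x u)` -/
noncomputable def ex (u : E → ℤ) (x : ℝ) : E → ℂ := fun v => Complex.exp ((x : ℂ) * (u v : ℂ))

open Classical in
/-- the elements of `X` in the subspace `M` -/
noncomputable def inn (X : Finset E) (M : Submodule (ZMod 2) E) : Finset E :=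
  X.filter (fun v => v ∈ M)

open Classical in
/-- the elements of `X` outside of the subspace `M` -/
noncomputable def out (X : Finset E) (M : Submodule (ZMod 2) E) : Finset E :=
  X.filter (fun v => v ∉ M)

/-- the elements with a weight not divisible by `2 ^ n` -/
def Od (X : Finset E) (u : E → ℤ) (n : ℕ) : Finset E := X.filter (fun v => ¬ (2 : ℤ) ^ n ∣ u v)

open Classical in
/-- the flats of `A` -/
noncomputable def fl (A : Finset E) : Finset (Finset E) := A.powerset.filter (fun F => Flat A F)

/-- `L v` is an integral vector which reduces to `v`, and these vectors are unimodular. -/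
structure Uni (X : Finset E) (L : E → Fin 5 → ℤ) : Prop where
  /-- reduction -/
  red : ∀ v ∈ X, ∀ i, ((L v i : ℤ) : ZMod 2) = v i
  /-- determinants -/
  det : ∀ x : Fin 5 → E, (∀ i, x i ∈ X) → Matrix.det (fun i j => L (x i) j) = 0 ∨
    Matrix.det (fun i j => L (x i) j) = 1 ∨ Matrix.det (fun i j => L (x i) j) = -1

/-- five elements of `X` which form a basis -/
def Bas (X : Finset E) (b : Fin 5 → E) : Prop := (∀ i, b i ∈ X) ∧ LinearIndependent (ZMod 2) b

/-- the integral coordinates of `v` in the basis `b` (rule of Cramer) -/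
def co (L : E → Fin 5 → ℤ) (b : Fin 5 → E) (v : E) (i : Fin 5) : ℤ :=
  Matrix.det (fun j k => L (b j) k) * Matrix.det (fun j k => L (Function.update b i v j) k)

/-- the quadratic form of the weights in the coordinates of the basis `b` -/
def Qf (L : E → Fin 5 → ℤ) (b : Fin 5 → E) (D : Finset E) (u : E → ℤ) (i j : Fin 5) : ℤ :=
  ∑ v ∈ D, u v * co L b v i * co L b v j

/-- In the coordinates of every basis, four elements of which are in `W`, the last column of the form
is zero. -/
def Ker (X : Finset E) (u : E → ℤ) (L : E → Fin 5 → ℤ) (W : Submodule (ZMod 2) E) : Prop :=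
  ∀ b, Bas X b → (∀ i, i ≠ 4 → b i ∈ W) → b 4 ∉ W → ∀ i, Qf L b (out X W) u i 4 = 0

/-- A minimal counterexample. `con` : after the contraction of an element the classes with a nonzero
weight span; `col` : there is no coloop. -/
structure Cx (X : Finset E) (u : E → ℤ) (L : E → Fin 5 → ℤ) : Prop where
  zero : (0 : E) ∉ X
  spn : sp X = ⊤
  nz : ∀ v ∈ X, u v ≠ 0
  van : ∀ z : ℂ, z ≠ 0 → PP X ⊥ (fun v => z ^ u v) = 0
  con : ∀ v ∈ X, span (ZMod 2) ({v} ∪ {w | w ∈ X ∧ cs X u (span (ZMod 2) {v}) w ≠ 0}) = ⊤
  col : ∀ v ∈ X, sp (X.erase v) = ⊤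
  uni : Uni X L

/-- the level `n` -/
structure Lev (X : Finset E) (u : E → ℤ) (n : ℕ) : Prop where
  pos : 1 ≤ n
  low : rk (Od X u (n - 1)) ≤ 2

/-- The numbers `t F` of the flats which are spanned by `O` have the sign of `(-1) ^ rank`, or all of
them have the opposite sign. -/
def Coh (A O : Finset E) (t : Finset E → ℝ) : Prop :=
  ∃ ε : ℝ, (ε = 1 ∨ ε = -1) ∧ ∀ F, Flat A F → sp (F ∩ O) = sp F → 0 ≤ ε * (-1) ^ rk F * t F

/-- Three elements `o k`, a hyperplane `W` which contains them; outside of `W` the sums over the classes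
modulo the span of the three and modulo the spans of two of them are zero. -/
structure Rt (X : Finset E) (u : E → ℤ) (o : Fin 3 → E) (W : Submodule (ZMod 2) E) : Prop where
  mem : ∀ k, o k ∈ X
  ind : LinearIndependent (ZMod 2) o
  hyp : Module.finrank (ZMod 2) W = 4
  le : ∀ k, o k ∈ W
  tot : ∀ v, v ∉ W → cs X u (span (ZMod 2) (Set.range o)) v = 0
  two : ∀ v, v ∉ W → ∀ k, cs X u (span (ZMod 2) (o '' {i | i ≠ k})) v = 0

/-- the polynomial of three classes, rank two -/
noncomputable def F2 (a b c : ℂ) : ℂ :=
  Complex.exp (a + b + c) - Complex.exp a - Complex.exp b - Complex.exp c + 2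

/-- the polynomial of six classes, rank three; the classes are `d₁, d₁ + p, d₂, d₂ + p, d₁ + d₂,
d₁ + d₂ + p`, the class `p` is empty -/
noncomputable def F3 (a a' b b' c c' : ℂ) : ℂ :=
  Complex.exp (a + a' + b + b' + c + c') - (Complex.exp (a + a') + Complex.exp (b + b') +
    Complex.exp (c + c') + Complex.exp (a + b + c) + Complex.exp (a' + b' + c) +
    Complex.exp (a + b' + c') + Complex.exp (a' + b + c')) + 2 * (1 + Complex.exp a +
    Complex.exp a' + Complex.exp b + Complex.exp b' + Complex.exp c + Complex.exp c') - 8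

end Pool.Agent.TRG
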