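import Pool.Agent.TRG.St

/-!
# TRG, module E3 (helper38)
-/

set_option autoImplicit false
set_option linter.unusedSectionVars false

open Submodule
open Pool.Agent.SPT Pool.Agent.SPT.Rel

namespace Pool.Agent.TRG

private theorem E3_zmod (a : ZMod 2) : a = 0 ∨ a = 1 := by
  revert a
  decide

/-- five independent vectors -/
private theorem E3_ind {o : Fin 3 → E} (ho : LinearIndependent (ZMod 2) o) {i j k : Fin 3}
    (hij : i ≠ j) (hik : i ≠ k) (hjk : j ≠ k) {d f : E}
    (hd : d ∉ span (ZMod 2) (Set.range o))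
    (hf : f ∉ span (ZMod 2) (Set.range o) ⊔ span (ZMod 2) {d}) :
    LinearIndependent (ZMod 2) ![o i, o j, d, o k, f] := by
  rw [Fintype.linearIndependent_iff]
  intro g hg
  have hg' : g 0 • o i + g 1 • o j + g 2 • d + g 3 • o k + g 4 • f = 0 := by
    rw [Fin.sum_univ_five] at hg
    exact hg
  have hmem : ∀ l, o l ∈ span (ZMod 2) (Set.range o) := fun l => subset_span ⟨l, rfl⟩
  have h4 : g 4 = 0 := by
    rcases E3_zmod (g 4) with h | h
    · exact h
    · exfalso
      apply hf
      rw [h, one_smul] at hg'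
      have h1 : f = g 0 • o i + g 1 • o j + g 2 • d + g 3 • o k := by
        have h2 : f = (g 0 • o i + g 1 • o j + g 2 • d + g 3 • o k + f) -
            (g 0 • o i + g 1 • o j + g 2 • d + g 3 • o k) := by abel
        rw [hg', zero_sub] at h2
        rw [h2]
        exact ZModModule.neg_eq_self _
      rw [h1]
      refine add_mem (add_mem (add_mem ?_ ?_) ?_) ?_
      · exact mem_sup_left (smul_mem _ _ (hmem i))
      · exact mem_sup_left (smul_mem _ _ (hmem j))
      · exact mem_sup_right (smul_mem _ _ (mem_span_singleton_self d))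
      · exact mem_sup_left (smul_mem _ _ (hmem k))
  have h2 : g 2 = 0 := by
    rcases E3_zmod (g 2) with h | h
    · exact h
    · exfalso
      apply hd
      rw [h4, zero_smul, add_zero, h, one_smul] at hg'
      have h1 : d = g 0 • o i + g 1 • o j + g 3 • o k := by
        have h3 : d = (g 0 • o i + g 1 • o j + d + g 3 • o k) -
            (g 0 • o i + g 1 • o j + g 3 • o k) := by abel
        rw [hg', zero_sub] at h3
        rw [h3]
        exact ZModModule.neg_eq_self _
      rw [h1]
      exact add_mem (add_mem (smul_mem _ _ (hmem i)) (smul_mem _ _ (hmem j)))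
        (smul_mem _ _ (hmem k))
  rw [h4, zero_smul, add_zero, h2, zero_smul, add_zero] at hg'
  have h5 := (Fintype.linearIndependent_iff.1 ho)
    (Pi.single i (g 0) + Pi.single j (g 1) + Pi.single k (g 3)) (by
      have key : ∀ (l : Fin 3) (a : ZMod 2),
          ∑ m, (Pi.single l a : Fin 3 → ZMod 2) m • o m = a • o l := by
        intro l a
        rw [Finset.sum_eq_single l]
        · rw [Pi.single_eq_same]
        · intro m _ hm
          rw [Pi.single_eq_of_ne hm, zero_smul]
        · intro h
          exact absurd (Finset.mem_univ _) h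
      simp only [Pi.add_apply, add_smul, Finset.sum_add_distrib]
      rw [key, key, key]
      exact hg')
  have h0 : g 0 = 0 := by
    have h6 := h5 i
    rw [Pi.add_apply, Pi.add_apply, Pi.single_eq_same, Pi.single_eq_of_ne hij,
      Pi.single_eq_of_ne hik, add_zero, add_zero] at h6
    exact h6
  have h1 : g 1 = 0 := by
    have h6 := h5 j
    rw [Pi.add_apply, Pi.add_apply, Pi.single_eq_same, Pi.single_eq_of_ne hij.symm,
      Pi.single_eq_of_ne hjk, add_zero, zero_add] at h6
    exact h6
  have h3 : g 3 = 0 := by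
    have h6 := h5 k
    rw [Pi.add_apply, Pi.add_apply, Pi.single_eq_same, Pi.single_eq_of_ne hik.symm,
      Pi.single_eq_of_ne hjk.symm, zero_add, zero_add] at h6
    exact h6
  intro l
  fin_cases l
  · exact h0
  · exact h1
  · exact h2
  · exact h3
  · exact h4

/-- an element of `X` outside of a subspace of dimension at most four -/
private theorem E3_out {X : Finset E} (hX : sp X = ⊤) {o : Fin 3 → E} (d : E) :
    ∃ f ∈ X, f ∉ span (ZMod 2) (Set.range o) ⊔ span (ZMod 2) {d} := by
  by_contra hcon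
  push Not at hcon
  have h1 : sp X ≤ span (ZMod 2) (Set.range o) ⊔ span (ZMod 2) {d} := span_le.2 hcon
  rw [hX, top_le_iff] at h1
  have h2 : Module.finrank (ZMod 2)
      (span (ZMod 2) (Set.range o) ⊔ span (ZMod 2) {d} : Submodule (ZMod 2) E) ≤ 4 := by
    refine (Submodule.finrank_add_le_finrank_add_finrank _ _).trans ?_
    have h3 : Module.finrank (ZMod 2) (span (ZMod 2) (Set.range o)) ≤ 3 := by
      have h5 : (Set.range o).finrank (ZMod 2) ≤ Fintype.card (Fin 3) := finrank_range_le_card o
      rw [Fintype.card_fin] at h5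
      exact h5
    have h4 : Module.finrank (ZMod 2) (span (ZMod 2) {d}) ≤ 1 := by
      have := finrank_span_le_card (R := ZMod 2) ({d} : Set E)
      simpa using this
    omega
  rw [h1, finrank_top, Module.finrank_fin_fun] at h2
  omega

private theorem E3_core (hE0 : St_E0) (hE1 : St_E1) (hF7 : St_F7) (hCS : St_CS) {X : Finset E}
    {u : E → ℤ} {L : E → Fin 5 → ℤ} {o : Fin 3 → E} {W : Submodule (ZMod 2) E}
    (hC : Cx X u L) (hR : Rt X u o W) {v : E} (hv : v ∈ X) {i j k : Fin 3} (hij : i ≠ j)
    (hik : i ≠ k) (hjk : j ≠ k) (h : v + (o i + o j) ∈ span (ZMod 2) {o k}) : False := by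
  obtain ⟨⟨d, hdX, hdW, hd0⟩, -⟩ := hE1 X u L o W hC hR k
  have hMW : span (ZMod 2) (Set.range o) ≤ W := by
    rw [span_le]
    rintro _ ⟨l, rfl⟩
    exact hR.le l
  have hdi : d + o i ∉ W := by
    intro h1
    apply hdW
    have h2 : d = (d + o i) - o i := by abel
    rw [h2]
    exact W.sub_mem h1 (hR.le i)
  have h1 : cs X u (span (ZMod 2) {o k}) (d + o i) ≠ 0 := by
    rw [(hE0 X u o W hR d hdW k).1 i hik]
    exact neg_ne_zero.2 hd0
  have h2 : cs X u (span (ZMod 2) {o k}) (d + o j) ≠ 0 := by
    rw [(hE0 X u o W hR d hdW k).1 j hjk]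
    exact neg_ne_zero.2 hd0
  have h3 : cs X u (span (ZMod 2) {o k}) (d + o i + o j) ≠ 0 := by
    rw [(hE0 X u o W hR (d + o i) hdi k).1 j hjk]
    exact neg_ne_zero.2 h1
  obtain ⟨-, -, -, h4, -⟩ := hCS X u
  obtain ⟨x, hxX, hx⟩ := h4 _ _ h1
  obtain ⟨y, hyX, hy⟩ := h4 _ _ h2
  obtain ⟨t, htX, ht⟩ := h4 _ _ h3
  obtain ⟨f, hfX, hf⟩ := E3_out hC.spn (o := o) d
  have hle : span (ZMod 2) {o k} ≤ span (ZMod 2) {o k, f} := span_mono (by
    intro z hz
    rw [Set.mem_singleton_iff] at hz
    rw [hz]
    exact Set.mem_insert _ _)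
  refine hF7 X L hC.uni ![o i, o j, d, o k, f] ⟨fun l => ?_,
    E3_ind hR.ind hij hik hjk (fun h => hdW (hMW h)) hf⟩ ⟨v, hv, x, hxX, y, hyX, t, htX, ?_, ?_,
    ?_, ?_⟩
  · fin_cases l
    · exact hR.mem i
    · exact hR.mem j
    · exact hdX
    · exact hR.mem k
    · exact hfX
  · exact hle h
  · have e : x + (o i + d) = x + (d + o i) := by abel
    show x + (o i + d) ∈ span (ZMod 2) {o k, f}
    rw [e]
    exact hle hx
  · have e : y + (o j + d) = y + (d + o j) := by abel
    show y + (o j + d) ∈ span (ZMod 2) {o k, f}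
    rw [e]
    exact hle hy
  · have e : t + (o i + o j + d) = t + (d + o i + o j) := by abel
    show t + (o i + o j + d) ∈ span (ZMod 2) {o k, f}
    rw [e]
    exact hle ht

theorem E3_proof (hE0 : St_E0) (hE1 : St_E1) (hF7 : St_F7) (hCS : St_CS) : St_E3 := by
  intro X u L o W hC hR v hv hvM
  obtain ⟨y, hy⟩ := (mem_span_range_iff_exists_fun (ZMod 2)).1 hvM
  rw [Fin.sum_univ_three] at hy
  have h2 : ∀ w : E, w + w = 0 := fun w => ZModModule.add_self w
  rcases E3_zmod (y 0) with h0 | h0 <;> rcases E3_zmod (y 1) with h1 | h1 <;>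
    rcases E3_zmod (y 2) with h3 | h3 <;> rw [h0, h1, h3] at hy
  · exfalso
    apply hC.zero
    have : v = 0 := by rw [← hy]; simp
    rw [← this]
    exact hv
  · exact ⟨2, by rw [← hy]; simp⟩
  · exact ⟨1, by rw [← hy]; simp⟩
  · exfalso
    refine E3_core hE0 hE1 hF7 hCS hC hR hv (i := 1) (j := 2) (k := 0) (by decide) (by decide)
      (by decide) ?_
    have : v + (o 1 + o 2) = 0 := by
      rw [← hy, zero_smul, zero_add, one_smul, one_smul]
      exact h2 _
    rw [this]
    exact zero_mem _
  · exact ⟨0, by rw [← hy]; simp⟩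
  · exfalso
    refine E3_core hE0 hE1 hF7 hCS hC hR hv (i := 0) (j := 2) (k := 1) (by decide) (by decide)
      (by decide) ?_
    have : v + (o 0 + o 2) = 0 := by
      rw [← hy, zero_smul, add_zero, one_smul, one_smul]
      exact h2 _
    rw [this]
    exact zero_mem _
  · exfalso
    refine E3_core hE0 hE1 hF7 hCS hC hR hv (i := 0) (j := 1) (k := 2) (by decide) (by decide)
      (by decide) ?_
    have : v + (o 0 + o 1) = 0 := by
      rw [← hy, zero_smul, add_zero, one_smul, one_smul]
      exact h2 _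
    rw [this]
    exact zero_mem _
  · exfalso
    refine E3_core hE0 hE1 hF7 hCS hC hR hv (i := 0) (j := 1) (k := 2) (by decide) (by decide)
      (by decide) ?_
    have : v + (o 0 + o 1) = o 2 := by
      rw [← hy, one_smul, one_smul, one_smul]
      have e : o 0 + o 1 + o 2 + (o 0 + o 1) = o 2 + ((o 0 + o 1) + (o 0 + o 1)) := by abel
      rw [e, h2, add_zero]
    rw [this]
    exact mem_span_singleton_self _

end Pool.Agent.TRG
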