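import Pool.Agent.TRG.Defs

/-!
# TRG : regular sets of rank five : statements with complete proofs (captain: helper62)

MP_42db45_gt, MP_79b4ff_gt. GOAL (`St_TOP`): the spanning-set polynomial of a regular set of vectors of
rank five, with weights `z ^ u v`, `u v ≠ 0` integers, is not identically zero. Let `X, u` be a minimal
counterexample (`Cx`). `n` is the least number such that `O = Od X u n` has rank at least three (then
`Od X u (n - 1)` has rank at most two), `M = sp O`. Expand at `z = ζ e ^ x`, `ζ` a primitive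
`2 ^ n`-th root of unity, `x → 0`: the lowest order terms cannot cancel (`MAS`). Here `i j` denote
indices of the basis; a class is a class modulo a subspace; the sum of a class is `cs`.
-/

set_option autoImplicit false

open Submodule Filter Topology
open Pool.Agent.SPT Pool.Agent.SPT.Rel

namespace Pool.Agent.TRG

/-! ## 1. General facts -/

/-- [CMP] Composition of the polynomial.
Proof. Write `W ⊆ A ∪ B` as `W₁ ∪ W₂`, `W₁ = W ∩ A`, `W₂ = W ∩ B` (`Finset.sum_powerset` of a disjoint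
union, or induction). Group by `F = {v ∈ A | v ∈ sp W₁}`, a flat of `A` with `sp F = sp W₁`, `W₁ ⊆ F`;
`W₁` is a spanning set of `F` (`Spans ⊥ F W₁`). `⊥ ⊔ sp W = sp F ⊔ sp W₂`. Conversely for a flat `F` and
`W₁ ⊆ F` with `sp W₁ = sp F` the flat of `W₁` is `F`. -/
def St_CMP : Prop := ∀ (A B : Finset E), Disjoint A B → ∀ x : E → ℂ,
  TT (A ∪ B) ⊥ x = ∑ F ∈ fl A, PP F ⊥ x * TT B (sp F) x

/-- [LIM] The lowest order.
Proof. Term by term in the definition of `TT` (a finite sum). `W` with `W.card < c` cannot span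
everything with `K` (`finrank`). `W.card = c`: `∏ (exp (x u) - 1) / x ^ c → ∏ u` (product of
`(exp (x u) - 1) / x → u`, a derivative). `W.card > c`: the limit is `0`. (2) multiply by `x ^ (c - n)`. -/
def St_LIM : Prop := ∀ (B : Finset E) (K : Submodule (ZMod 2) E) (u : E → ℤ) (c : ℕ),
  Module.finrank (ZMod 2) K + c = 5 →
  Tendsto (fun x : ℝ => TT B K (ex u x) / (x : ℂ) ^ c) (𝓝[>] 0) (𝓝 ((tau B K u c : ℤ) : ℂ)) ∧
  ∀ n < c, Tendsto (fun x : ℝ => TT B K (ex u x) / (x : ℂ) ^ n) (𝓝[>] 0) (𝓝 0)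

/-- [SUM] (uses CMP) Expansion at `ζ`.
Proof. `z = ζ * exp x ≠ 0`, `z ^ u v = ζ ^ u v * exp (x u v)`. `PP X ⊥ = TT X ⊥` since `sp X = ⊤`;
`X = inn X M ∪ out X M`, disjoint. CMP: `0 = ∑ F, PP F ⊥ (ζ ^ u * ex u x) * TT (out X M) (sp F) (ex u x)`
(the factor `ζ ^ u v` is `1` on `out X M`; `TT` depends only on the weights of `out X M`). Divide by
`x ^ N`; `PP F ⊥ (ζ ^ u * ex u x) → PP F ⊥ (ζ ^ u)` (a finite sum of products, continuous). -/
def St_SUM : Prop := ∀ (X : Finset E) (u : E → ℤ), sp X = ⊤ →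
  (∀ z : ℂ, z ≠ 0 → PP X ⊥ (fun v => z ^ u v) = 0) → ∀ (M : Submodule (ZMod 2) E) (ζ : ℂ),
  ζ ≠ 0 → (∀ v ∈ out X M, ζ ^ u v = 1) → ∀ (N : ℕ) (t : Finset E → ℝ),
  (∀ F ∈ fl (inn X M), Tendsto (fun x : ℝ => TT (out X M) (sp F) (ex u x) / (x : ℂ) ^ N)
    (𝓝[>] 0) (𝓝 ((t F : ℝ) : ℂ))) →
  ∑ F ∈ fl (inn X M), PP F ⊥ (fun v => ζ ^ u v) * ((t F : ℝ) : ℂ) = 0

/-- [CL] Coherence (helper19, see `StCL.lean`). -/
def St_CL : Prop := ∀ (A : Finset E) (u : E → ℤ) (n : ℕ), (0 : E) ∉ A → 1 ≤ n →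
  rk (Od A u (n - 1)) ≤ 2 → ∀ t : Finset E → ℝ, Coh A (Od A u n) t →
  (∀ ζ : ℂ, IsPrimitiveRoot ζ (2 ^ n) →
    ∑ F ∈ fl A, PP F ⊥ (fun v => ζ ^ u v) * ((t F : ℝ) : ℂ) = 0) →
  ∀ F ∈ fl A, sp (F ∩ Od A u n) = sp F → t F = 0

/-- [MAS] (uses SUM, CL) The master statement.
Proof. `M = sp (Od X u n)`, `A = inn X M`. `Od A u n = Od X u n` and `Od A u (n - 1) ⊆ Od X u (n - 1)`
(`2 ^ (n-1) ∣ 2 ^ n`; monotonicity of `rk`). For `ζ` primitive of order `2 ^ n` and `v ∈ out X M`: `v ∉ Od X u n`, so `2 ^ n ∣ u v` and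
`ζ ^ u v = 1`. SUM for all such `ζ`, then CL. -/
def St_MAS : Prop := ∀ (X : Finset E) (u : E → ℤ) (L : E → Fin 5 → ℤ) (n : ℕ), Cx X u L →
  Lev X u n → ∀ (N : ℕ) (t : Finset E → ℝ),
  (∀ F ∈ fl (inn X (sp (Od X u n))), Tendsto (fun x : ℝ =>
    TT (out X (sp (Od X u n))) (sp F) (ex u x) / (x : ℂ) ^ N) (𝓝[>] 0) (𝓝 ((t F : ℝ) : ℂ))) →
  Coh (inn X (sp (Od X u n))) (Od X u n) t →
  ∀ F ∈ fl (inn X (sp (Od X u n))), sp (F ∩ Od X u n) = sp F → t F = 0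

/-- [CS] Sums over classes.
Proof. (1) same class. (2) the class modulo `G ⊔ span {w}` is the disjoint union of two classes modulo
`G`. (3) `w + v ∈ G ≤ M` and `v ∉ M` imply `w ∉ M`. (4) A nonzero sum has a term. (5) for `F = inn X G`. -/
def St_CS : Prop := ∀ (X : Finset E) (u : E → ℤ),
  (∀ (G : Submodule (ZMod 2) E) (v w : E), v + w ∈ G → cs X u G v = cs X u G w) ∧
  (∀ (G : Submodule (ZMod 2) E) (v w : E), w ∉ G →
    cs X u (G ⊔ span (ZMod 2) {w}) v = cs X u G v + cs X u G (v + w)) ∧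
  (∀ (G M : Submodule (ZMod 2) E) (v : E), G ≤ M → v ∉ M → cs (out X M) u G v = cs X u G v) ∧
  (∀ (G : Submodule (ZMod 2) E) (v : E), cs X u G v ≠ 0 → ∃ w ∈ X, w + v ∈ G) ∧
  (∀ (G : Submodule (ZMod 2) E), Flat X (inn X G)) ∧
  (∀ (M G : Submodule (ZMod 2) E), G ≤ M → inn (inn X M) G = inn X G ∧ inn X G ∈ fl (inn X M))

/-! ## 2. Evaluation of `TT` in low corank -/

/-- [DC] Deletion and contraction.
Proof. `Finset.sum_powerset_insert`; `K ⊔ sp (insert e W) = (K ⊔ span {e}) ⊔ sp W`. -/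
def St_DC : Prop := ∀ (B : Finset E) (K : Submodule (ZMod 2) E) (x : E → ℂ) (e : E), e ∉ B →
  TT (insert e B) K x = TT B K x + (x e - 1) * TT B (K ⊔ span (ZMod 2) {e}) x

open Classical in
/-- [MOB] Möbius inversion, used for the three following statements.
Proof. For a surjective linear `f : E → Q` with kernel `K`, `Q = Fin c → ZMod 2` (`c = 1, 2, 3`): for every
subset `W` of `B`, `K ⊔ sp W = ⊤` iff `f '' W` spans `Q`. Let `m : Submodule Q → ℤ` be a function with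
`∑ H with S ≤ H, m H = if S = ⊤ then 1 else 0` for all subspaces `S` (the sum over all `H ≥ S`; `m H =
(-1)^k 2^(k(k-1)/2)`, `k` the codimension of `H`; for `c ≤ 3` by counting). Then
`TT B K x = ∑ H, m H * ∏ v ∈ B with f v ∈ H, x v`, because `∏ v ∈ B', x v = ∑ W ⊆ B', ∏ v ∈ W, (x v - 1)`
(`Finset.prod_add` for `x v = (x v - 1) + 1`). -/
def St_MOB : Prop := ∀ (c : ℕ) (f : E →ₗ[ZMod 2] (Fin c → ZMod 2)), Function.Surjective f →
  ∀ (S : Finset (Submodule (ZMod 2) (Fin c → ZMod 2))) (m : Submodule (ZMod 2) (Fin c → ZMod 2) → ℤ),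
  (∀ T : Submodule (ZMod 2) (Fin c → ZMod 2), T ∈ S) →
  (∀ T : Submodule (ZMod 2) (Fin c → ZMod 2),
    (∑ H ∈ S, if T ≤ H then m H else 0) = if T = ⊤ then 1 else 0) →
  ∀ (B : Finset E) (x : E → ℂ), TT B (LinearMap.ker f) x =
    ∑ H ∈ S, (m H : ℂ) * ∏ v ∈ B, if f v ∈ H then x v else 1

/-- [T1] Corank one.
Proof. MOB for `c = 1`, or directly: every nonempty `W ⊆ D` spans with `M`, so `TT = ∏ x v - 1`. -/
def St_T1 : Prop := ∀ (D : Finset E) (u : E → ℤ) (M : Submodule (ZMod 2) E),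
  Module.finrank (ZMod 2) M = 4 → (∀ v ∈ D, v ∉ M) → ∀ x : ℝ,
  TT D M (ex u x) = Complex.exp ((x : ℂ) * ((∑ v ∈ D, u v : ℤ) : ℂ)) - 1

/-- [T2] (uses MOB) Corank two.
Proof. MOB for `c = 2`, `f` with kernel `M`, `f d₁ = (1,0)`, `f d₂ = (0,1)`. `H = ⊤`: all; `H` of dimension
one: the class of `d₁`, `d₂` or `d₁ + d₂` (coefficient `-1`); `H = ⊥`: the empty product, coefficient `2`. The
product of `exp (x u v)` over a class is `exp (x * sum)`, the sum over `D` is the sum of the three. -/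
def St_T2 : Prop := ∀ (D : Finset E) (u : E → ℤ) (M : Submodule (ZMod 2) E),
  Module.finrank (ZMod 2) M = 3 → (∀ v ∈ D, v ∉ M) → ∀ d₁ d₂ : E,
  M ⊔ span (ZMod 2) {d₁, d₂} = ⊤ → ∀ x : ℝ,
  TT D M (ex u x) = F2 ((x : ℂ) * (cs D u M d₁ : ℂ)) ((x : ℂ) * (cs D u M d₂ : ℂ))
    ((x : ℂ) * (cs D u M (d₁ + d₂) : ℂ))

/-- [T3] (uses MOB) Corank three, one empty class.
Proof. MOB for `c = 3`, `f p = e₀`, `f d₁ = e₁`, `f d₂ = e₂`, kernel `G`. `H = ⊤` coefficient `1`; seven planes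
(dimension two), coefficient `-1`: three contain `p` (classes `v, v + p`), the other four are
`{d₁, d₂, d₁+d₂}`, `{d₁+p, d₂+p, d₁+d₂}`, `{d₁, d₂+p, d₁+d₂+p}`, `{d₁+p, d₂, d₁+d₂+p}`; seven lines,
coefficient `2`; `⊥`, coefficient `-8`. No element of `D` is in `G` or `p + G`. (Alternative to MOB: DC
and T2, merging classes.) The formula has been checked numerically. -/
def St_T3 : Prop := ∀ (D : Finset E) (u : E → ℤ) (G : Submodule (ZMod 2) E),
  Module.finrank (ZMod 2) G = 2 → ∀ p d₁ d₂ : E, G ⊔ span (ZMod 2) {p, d₁, d₂} = ⊤ →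
  (∀ v ∈ D, v ∉ G ∧ v + p ∉ G) → ∀ x : ℝ,
  TT D G (ex u x) = F3 ((x : ℂ) * (cs D u G d₁ : ℂ)) ((x : ℂ) * (cs D u G (d₁ + p) : ℂ))
    ((x : ℂ) * (cs D u G d₂ : ℂ)) ((x : ℂ) * (cs D u G (d₂ + p) : ℂ))
    ((x : ℂ) * (cs D u G (d₁ + d₂) : ℂ)) ((x : ℂ) * (cs D u G (d₁ + d₂ + p) : ℂ))

/-- [LF2] Limits of `F2`.
Proof. `F2` is entire in `x`; Taylor expansion of `exp` to the order three (for instance
`Complex.exp z = 1 + z + z²/2 + z³/6 + O(z⁴)`): coefficient of `x²`: `ab + bc + ca`; of `x³`: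
`((a+b+c)³ - a³ - b³ - c³)/6 = (a+b)(b+c)(c+a)/2 = ((a+b+c)(ab+bc+ca) - abc)/2`. -/
def St_LF2 : Prop := ∀ a b c : ℝ,
  Tendsto (fun x : ℝ => F2 ((x : ℂ) * a) ((x : ℂ) * b) ((x : ℂ) * c) / (x : ℂ) ^ 2) (𝓝[>] 0)
    (𝓝 ((a * b + b * c + c * a : ℝ) : ℂ)) ∧
  (a * b + b * c + c * a = 0 →
    Tendsto (fun x : ℝ => F2 ((x : ℂ) * a) ((x : ℂ) * b) ((x : ℂ) * c) / (x : ℂ) ^ 3) (𝓝[>] 0)
      (𝓝 ((-(a * b * c) / 2 : ℝ) : ℂ))) ∧
  F2 a 0 0 = 0 ∧ F2 0 a 0 = 0 ∧ F2 0 0 a = 0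

/-- [LF3] Limits of `F3`.
Proof. With `w = exp s`: `F3 (0,0,s,-s,-s,s) = -(w-1)^4/w^2` (limit `-s⁴` for `x s`). `F3 (a,a',0,0,0,0) = 0`.
`F3 (a,0,s,-s,-s,s) = F3 (0,a,s,-s,s,-s) = F3 (0,0,s,-s,-s,s)`. If `αβγ = 0`, say `γ = 0`:
`F3 (α,-α,β,-β,0,0) = -(e^α-1)(e^-α-1)(e^β-1)(e^-β-1)`, limit `-α²β²`; the same for the other two
cases. All are identities in `exp`, `Complex.exp_add`, `Complex.exp_neg`, `field_simp`, `ring`. -/
def St_LF3 : Prop := ∀ a a' s α β γ : ℝ,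
  Tendsto (fun x : ℝ => F3 ((x : ℂ) * a) 0 ((x : ℂ) * s) ((x : ℂ) * (-s)) ((x : ℂ) * (-s))
    ((x : ℂ) * s) / (x : ℂ) ^ 4) (𝓝[>] 0) (𝓝 ((-s ^ 4 : ℝ) : ℂ)) ∧
  Tendsto (fun x : ℝ => F3 0 ((x : ℂ) * a) ((x : ℂ) * s) ((x : ℂ) * (-s)) ((x : ℂ) * s)
    ((x : ℂ) * (-s)) / (x : ℂ) ^ 4) (𝓝[>] 0) (𝓝 ((-s ^ 4 : ℝ) : ℂ)) ∧
  F3 a a' 0 0 0 0 = 0 ∧
  (α * β * γ = 0 → Tendsto (fun x : ℝ => F3 ((x : ℂ) * α) ((x : ℂ) * (-α)) ((x : ℂ) * β)
    ((x : ℂ) * (-β)) ((x : ℂ) * γ) ((x : ℂ) * (-γ)) / (x : ℂ) ^ 4) (𝓝[>] 0)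
    (𝓝 ((-(α ^ 2 * β ^ 2 + β ^ 2 * γ ^ 2 + γ ^ 2 * α ^ 2) : ℝ) : ℂ)))

/-! ## 3. Unimodularity -/

/-- [CO] The integral coordinates.
Proof. `b` is a basis (five independent vectors of `E`), so `det (L ∘ b)` is odd (its reduction is the
determinant of `b`), so it is `1` or `-1` by `Uni.det`. (1), (6): rule of Cramer
(`Matrix.cramer`, `Matrix.mulVec_cramer` for the transpose): `∑ i, co v i • L (b i) = det² • L v = L v`.
(2) reduce (6) modulo 2. (3) `Uni.det` for `update b i v`. (5) `L ∘ x = co ∘ x * L ∘ b` (matrices), so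
`det (L ∘ x) = det (co ∘ x) * det (L ∘ b)`. (4) The matrix of `co` for the family `update (update b i v) j w`:
its determinant is the minor (`i ≠ j`; the other rows are unit vectors), then (5).
(7) all minors: for `b, b'` as in (5). -/
def St_CO : Prop := ∀ (X : Finset E) (L : E → Fin 5 → ℤ), Uni X L → ∀ b, Bas X b →
  (∀ i j, co L b (b i) j = if i = j then 1 else 0) ∧
  (∀ v ∈ X, v = ∑ i, ((co L b v i : ℤ) : ZMod 2) • b i) ∧
  (∀ v ∈ X, ∀ i, co L b v i = 0 ∨ co L b v i = 1 ∨ co L b v i = -1) ∧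
  (∀ v ∈ X, ∀ w ∈ X, ∀ i j, i ≠ j → |co L b v i * co L b w j - co L b v j * co L b w i| ≤ 1) ∧
  (∀ x : Fin 5 → E, (∀ i, x i ∈ X) → |Matrix.det (fun i j => co L b (x i) j)| ≤ 1) ∧
  (∀ v k, L v k = ∑ i, co L b v i * L (b i) k)

/-- [CO2] (uses CO) Coordinates and spans; linearity; permutations of the basis.
Proof. (1) by CO (2) and (3): `co v i` is even iff it is `0`; `b` is independent. (2) `co` is a linear
function of `L v` (a determinant with one variable row). (3) `L (b (π j))` is the same family in another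
order: both determinants change by the same sign. (4) from (2) applied to CO (6) for `b'`. -/
def St_CO2 : Prop := ∀ (X : Finset E) (L : E → Fin 5 → ℤ), Uni X L → ∀ b, Bas X b →
  (∀ v ∈ X, ∀ i, co L b v i = 0 ↔ v ∈ span (ZMod 2) (b '' {j | j ≠ i})) ∧
  (∀ (D : Finset E) (m : E → ℤ), (∀ k, ∑ v ∈ D, m v * L v k = 0) → ∀ i, ∑ v ∈ D, m v * co L b v i = 0) ∧
  (∀ π : Equiv.Perm (Fin 5), ∀ v i, co L (b ∘ π) v i = co L b v (π i)) ∧
  (∀ b', Bas X b' → ∀ v j, co L b v j = ∑ i, co L b' v i * co L b (b' i) j)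

/-- [QF] (uses CO, CO2) The entries of the form.
Proof. `co v i ^ 2 = 1` if `co v i ≠ 0`. For `i ≠ j` and `v, w ∈ X` with all four coordinates nonzero: CO (4)
times `co v j * co w j = ± 1` gives `|co v i * co v j - co w i * co w j| ≤ 1`, both are `± 1`, so they are equal:
a common sign `σ`. `out X G` for `G = span (b '' {j | j ≠ i})` are the elements with `co v i ≠ 0`. -/
def St_QF : Prop := ∀ (X : Finset E) (L : E → Fin 5 → ℤ), Uni X L → ∀ b, Bas X b →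
  (∀ (i : Fin 5) (D : Finset E) (u : E → ℤ), D ⊆ X → Qf L b D u i i =
    ∑ v ∈ out D (span (ZMod 2) (b '' {j | j ≠ i})), u v) ∧
  (∀ i j : Fin 5, i ≠ j → ∃ σ : ℤ, (σ = 1 ∨ σ = -1) ∧ ∀ (D : Finset E) (u : E → ℤ), D ⊆ X →
    Qf L b D u i j = σ * ∑ v ∈ out (out D (span (ZMod 2) (b '' {k | k ≠ i})))
      (span (ZMod 2) (b '' {k | k ≠ j})), u v)

/-- [F7] (uses CO, CO2) There is no contraction to the plane with seven points.
Proof. Coordinates in the basis `b`; modulo `K = span {b 3, b 4}` only the coordinates `0, 1, 2` count: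
`x = (α, β, 0)`, `y = (γ, 0, δ)`, `z = (0, ε, ζ)`, `t = (λ, μ, ν)`, all Greek letters `± 1`. The minors (CO (4)) of
`x, t` in the rows `0, 1`: `|α μ - β λ| ≤ 1`, so `α μ = β λ`; `γ ν = δ λ`; `ε ν = ζ μ`. The determinant of
`x, y, z, b 3, b 4` (CO (5)) is `± (α δ ε + β γ ζ)`; multiply by `λ μ ν`: `α μ * (δ λ) * ... ` gives that the two
summands are equal up to the same sign, so it is `± 2`, a contradiction. -/
def St_F7 : Prop := ∀ (X : Finset E) (L : E → Fin 5 → ℤ), Uni X L → ∀ b, Bas X b →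
  ¬ ∃ x ∈ X, ∃ y ∈ X, ∃ z ∈ X, ∃ t ∈ X, x + (b 0 + b 1) ∈ span (ZMod 2) {b 3, b 4} ∧
    y + (b 0 + b 2) ∈ span (ZMod 2) {b 3, b 4} ∧ z + (b 1 + b 2) ∈ span (ZMod 2) {b 3, b 4} ∧
    t + (b 0 + b 1 + b 2) ∈ span (ZMod 2) {b 3, b 4}

/-- [F7s] (uses CO, CO2) There is no contraction to the dual of the plane with seven points.
Proof. Coordinates `0, 1, 2, 3` in the basis `b`: `x = (α, β, 0, δ)`, `y = (α', 0, γ', δ')`,
`z = (0, β'', γ'', δ'')`, all `± 1`. Minors of `x, y` in the rows `0, 3`: `α δ' = α' δ`; of `x, z` in the rows `1, 3`: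
`β δ'' = β'' δ`; of `y, z` in the rows `2, 3`: `γ' δ'' = γ'' δ'`. The determinant of `x, y, z, b 3, b 4` is
`± (α γ' β'' + β α' γ'')`; by the three equations the two summands are equal, so it is `± 2`, in
contradiction with CO (5). -/
def St_F7s : Prop := ∀ (X : Finset E) (L : E → Fin 5 → ℤ), Uni X L → ∀ b, Bas X b →
  ¬ ∃ x ∈ X, ∃ y ∈ X, ∃ z ∈ X, x + (b 3 + b 0 + b 1) ∈ span (ZMod 2) {b 4} ∧
    y + (b 3 + b 0 + b 2) ∈ span (ZMod 2) {b 4} ∧ z + (b 3 + b 1 + b 2) ∈ span (ZMod 2) {b 4}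

/-- [CB] Cauchy and Binet.
Proof. `det (∑ v, u v * l v i * l v j) = ∑ over x : Fin c → D, ∏ i, (u (x i) * l (x i) i) * det (l (x i) j)`
(multilinearity in the rows, `Matrix.det` with `Finset.prod_univ_sum` or `MultilinearMap.map_sum`). The
terms with `x` not injective are zero. Group the injective `x` by the image `W`; for a fixed enumeration
`x₀` of `W` the `x` are `x₀ ∘ π`, and `∑ π, ∏ i, l (x₀ (π i)) i * sign π * det (l ∘ x₀) = det (l ∘ x₀) ^ 2`. -/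
def St_CB : Prop := ∀ (c : ℕ) (D : Finset E) (l : E → Fin c → ℤ) (u : E → ℤ) (f : Finset E → ℤ),
  (∀ x : Fin c → E, Function.Injective x → (∀ i, x i ∈ D) →
    f (Finset.univ.image x) = Matrix.det (fun i j => l (x i) j) ^ 2) →
  ∑ W ∈ D.powersetCard c, (∏ v ∈ W, u v) * f W =
    Matrix.det (fun i j => ∑ v ∈ D, u v * l v i * l v j)

/-- [TAU] (uses CB, CO) The sum over the bases is a determinant.
Proof. CB with `l v` the last `c` coordinates `co v i`, `f W = 1` if `W` spans everything together with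
`span {b 0, ...}` and `0` otherwise. For `x : Fin c → X`: the determinant of the last `c` coordinates is
that of `co` for the family `b 0, .., x 0, .., x (c-1)`, so it is `0, 1, -1` by CO (5); it is odd iff this family
is a basis of `E` (CO (2): the reduction of `co` gives the coordinates in the basis `b`). -/
def St_TAU : Prop := ∀ (X : Finset E) (L : E → Fin 5 → ℤ), Uni X L → ∀ b, Bas X b →
  ∀ D ⊆ X, ∀ u : E → ℤ,
  tau D (span (ZMod 2) {b 0, b 1}) u 3 =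
    Matrix.det (fun i j : Fin 3 => Qf L b D u i.succ.succ j.succ.succ) ∧
  tau D (span (ZMod 2) {b 0}) u 4 = Matrix.det (fun i j : Fin 4 => Qf L b D u i.succ j.succ) ∧
  tau D ⊥ u 5 = Matrix.det (fun i j : Fin 5 => Qf L b D u i j)

/-- [KER] (uses CO, CO2) One basis is enough.
Proof. `W` is the span of `b 0, .., b 3` and also of `b' 0, .., b' 3` (`b 4 ∉ W`, dimensions). For `i < 4`:
`b' i ∈ W`, so `co L b (b' i) 4 = 0` (CO2 (1)); CO2 (4): `co L b v 4 = co L b' v 4 * s`, `s = co L b (b' 4) 4 = ± 1`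
(`≠ 0` since `b' 4 ∉ W`). `∑ v ∈ out X W, u v * co L b v 4 * L v k = ∑ i, Qf L b (out X W) u i 4 * L (b i) k = 0` by
CO (6). Multiply by `s`, CO2 (2) for `b'`. -/
def St_KER : Prop := ∀ (X : Finset E) (u : E → ℤ) (L : E → Fin 5 → ℤ), Uni X L →
  ∀ (W : Submodule (ZMod 2) E) (b : Fin 5 → E), Bas X b → (∀ i, i ≠ 4 → b i ∈ W) → b 4 ∉ W →
  (∀ i, Qf L b (out X W) u i 4 = 0) → Ker X u L W

/-- [BAL] (uses CO2, QF, TAU, CS) Consequences of `Ker`.
Proof. Let `b` be a basis of elements of `X`, `b 0, .., b 3 ∈ W` (`inn X W` spans `W`), `b 4 ∉ W` (`X` spans).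
(1) `Qf 4 4 = 0` is the sum over `out X W`, one class modulo `W`. (2) choose `b 0, b 1, b 2 ∈ F` (basis of
`sp F`): `Qf 3 4 = 0` is, up to sign, the sum over the `v ∉ W` with `co v 3 ≠ 0`, the class of `b 3 + b 4` modulo
`sp F`; by (1) the sum of the other class of `W`-outer elements is zero as well. (3) choose `b 0, b 1 ∈ F`
(or `b 0 ∈ F`): `Qf L b D u i 4 = Qf L b (out X W) u i 4 = 0` (terms with `co v 4 = 0` vanish), the determinant in
TAU has a zero column. -/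
def St_BAL : Prop := ∀ (X : Finset E) (u : E → ℤ) (L : E → Fin 5 → ℤ), Uni X L → sp X = ⊤ →
  ∀ W : Submodule (ZMod 2) E, Module.finrank (ZMod 2) W = 4 → sp (inn X W) = W → Ker X u L W →
  (∀ v, v ∉ W → cs X u W v = 0) ∧
  (∀ F ⊆ inn X W, rk F = 3 → ∀ v, v ∉ W → cs X u (sp F) v = 0) ∧
  (∀ D ⊆ X, out X W ⊆ D → ∀ F ⊆ inn X W, (rk F = 2 → tau D (sp F) u 3 = 0) ∧
    (rk F = 1 → tau D (sp F) u 4 = 0) ∧ (rk F = 0 → tau D (sp F) u 5 = 0))

/-! ## 4. Rank of `O` five or four -/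

/-- [M1] (uses MAS) Rank five.
Proof. `M = ⊤`, `out X ⊤ = ∅`, `inn X ⊤ = X`. MAS with `N = 0`, `t F = 1` if `sp F = ⊤`, else `0`
(`TT ∅ K = 1` if `K = ⊤`, else `0`). `Coh` with `ε = -1` (`rk F = 5` if `t F ≠ 0`). `F = X`: `sp (X ∩ Od X u n) = ⊤`, `t X = 1`. -/
def St_M1 : Prop := ∀ (X : Finset E) (u : E → ℤ) (L : E → Fin 5 → ℤ) (n : ℕ), Cx X u L →
  Lev X u n → rk (Od X u n) = 5 → False

/-- [M2a] (uses MAS, LIM, T1, T2, LF2, CS) Rank four, orders one and two.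
Proof. `M = sp (Od X u n)`, `D = out X M` (not empty), `A = inn X M`, `d ∈ D`. (1) MAS with `N = 1`, `t F` = sum of `D`
if `rk F = 4`, else `0` (T1; LIM for `rk F ≤ 3`, `n = 1 < c`). `Coh`: a single value, `ε` = its opposite sign.
`F = A`. `cs X u M v` is the sum of `D` for every `v ∉ M`. (2) MAS with `N = 2`, `t F = -(cs X u (sp F) d)^2` if
`rk F = 3`, else `0`. `rk F = 4`: T1 and (1), `exp 0 - 1 = 0`. `rk F = 3`: T2 with `d₁ ∈ M \ sp F`, `d₂ = d`: the sums are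
`0`, `s`, `s'` with `s + s' = 0` by (1) (CS (2)); LF2 (1): `s s' = -s²`. `Coh` with `ε = 1`: `(-1)^3 * (-s²) ≥ 0`.
For `v ∉ M` other than `d`: its class modulo `sp F` is that of `d` or the other one. -/
def St_M2a : Prop := ∀ (X : Finset E) (u : E → ℤ) (L : E → Fin 5 → ℤ) (n : ℕ), Cx X u L →
  Lev X u n → rk (Od X u n) = 4 →
  (∀ v, v ∉ sp (Od X u n) → cs X u (sp (Od X u n)) v = 0) ∧
  ∀ F ∈ fl (inn X (sp (Od X u n))), rk F = 3 → sp (F ∩ Od X u n) = sp F →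
    ∀ v, v ∉ sp (Od X u n) → cs X u (sp F) v = 0

/-- [M2b] (uses M2a, QF, KER, CS) Rank four: the kernel.
Proof. `b 0, .., b 3 ∈ Od X u n` independent, `b 4 ∈ X \ M`. `i = 4`: QF (1), the sum of `out X M` is zero. `i < 4`: QF (2):
up to sign the sum of the class of `b i + b 4` modulo `G = span {b j | j < 4, j ≠ i}`, and `F = inn X G` is in
`fl (inn X M)` with `rk F = 3` and `sp (F ∩ Od X u n) = G`. KER. -/
def St_M2b : Prop := ∀ (X : Finset E) (u : E → ℤ) (L : E → Fin 5 → ℤ) (n : ℕ), Cx X u L →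
  Lev X u n → rk (Od X u n) = 4 → Ker X u L (sp (Od X u n))

/-- [M2c] (uses MAS, BAL, T1, T2, T3, LF2, LF3, LIM, CS, M2b) Rank four, order four.
Proof. `W = M` in BAL. MAS with `N = 4`, `t F = -(cs X u (sp F) d)^4` if `rk F = 2`, else `0`. `rk F = 4`: T1, total
zero. `rk F = 3`: T2 with `d₁ ∈ M`: the three sums are `0` (BAL (2)), `F2 0 0 0 = 0`. `rk F = 2`: `G = sp F`; choose
`p ∈ X ∩ M`, `p ∉ G`, `d₁ ∈ X ∩ M`, `d₁ ∉ G ⊔ span {p}`, `d₂ = d`. T3: the sums of `d₁, d₁ + p` are `0`; `s = cs d`; BAL (2) for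
`F ∪ {p}` and `F ∪ {d₁}` with CS (2): `cs (d+p) = -s`, `cs (d+d₁) = -s`, `cs (d+d₁+p) = s`. LF3 (1) with `a = 0`.
`rk F = 1`: LIM and `tau = 0` (BAL (3), `D = out X M`). `rk F = 0`: LIM, `4 < 5`. `Coh` with `ε = -1`. So the sum of
the class of `d` is `0`, hence the sums of the four classes outside of `M` are `± 0`. -/
def St_M2c : Prop := ∀ (X : Finset E) (u : E → ℤ) (L : E → Fin 5 → ℤ) (n : ℕ), Cx X u L →
  Lev X u n → rk (Od X u n) = 4 →
  ∀ F ∈ fl (inn X (sp (Od X u n))), rk F = 2 → sp (F ∩ Od X u n) = sp F →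
    ∀ v, v ∉ sp (Od X u n) → cs X u (sp F) v = 0

/-- [M2] (uses M2c, F7s, CS) Rank four is impossible.
Proof. `b 0, .., b 3 ∈ Od X u n` independent, spanning `M`. Let `δ v = cs X u (span {b 0}) v`. For `v ∉ M` and
`i = 1, 2, 3`: `δ v + δ (v + b i) = cs X u (span {b 0, b i}) v = 0` (CS (2), M2c for `F = inn X (span {b 0, b i})`). If
`δ v ≠ 0` for some `v ∉ M`, there is `d ∈ X`, `d ∉ M` with `δ d ≠ 0` (CS (4), (1)), and `δ` is not zero at
`d + b 1 + b 2`, `d + b 1 + b 3`, `d + b 2 + b 3`: CS (4) and F7s for the basis `b 1, b 2, b 3, d, b 0`: contradiction. So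
`δ = 0` outside of `M`; `Cx.con` for `b 0`: the span is contained in `M ≠ ⊤`. -/
def St_M2 : Prop := ∀ (X : Finset E) (u : E → ℤ) (L : E → Fin 5 → ℤ) (n : ℕ), Cx X u L →
  Lev X u n → rk (Od X u n) = 4 → False

/-! ## 5. Rank of `O` three -/

/-- [M3a] (uses MAS, LIM, T2, LF2, CS) Order two.
Proof. `M = sp (Od X u n)`. MAS with `N = 2`, `t F = ab + bc + ca` if `rk F = 3`, else `0`. (`rk F ≤ 2`: LIM, `2 < c`.) `Coh`: a
single value. `F = inn X M`. -/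
def St_M3a : Prop := ∀ (X : Finset E) (u : E → ℤ) (L : E → Fin 5 → ℤ) (n : ℕ), Cx X u L →
  Lev X u n → rk (Od X u n) = 3 → ∀ d₁ d₂ : E, sp (Od X u n) ⊔ span (ZMod 2) {d₁, d₂} = ⊤ →
  cs X u (sp (Od X u n)) d₁ * cs X u (sp (Od X u n)) d₂ +
    cs X u (sp (Od X u n)) d₂ * cs X u (sp (Od X u n)) (d₁ + d₂) +
    cs X u (sp (Od X u n)) (d₁ + d₂) * cs X u (sp (Od X u n)) d₁ = 0

/-- [M3b] (uses M3a, MAS, LIM, T2, LF2, CS, QF, TAU) Order three: one of the three sums is zero.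
Proof. Let `a, b, c` be the three sums, `abc ≠ 0`. MAS with `N = 3`: `t F = -abc/2` if `rk F = 3` (T2, LF2 (2)),
`t F = tau D (sp F) u 3` if `rk F = 2` (`D = out X M`; LIM), else `0`. Sign for `rk F = 2`: basis `b 0, b 1 ∈ F`,
`b 2 ∈ X ∩ M` outside of `sp F`, `b 3, b 4 ∈ X` in the classes of `d₁, d₂` (not empty). TAU: the determinant of
`Q = (Q_ij)`, `i, j = 2, 3, 4`. QF: `Q_33 = a + c`, `Q_44 = b + c`, `Q_34 = ± c`, so `Q_33 Q_44 = Q_34²` by M3a, and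
`Q_33 det Q = -(Q_34 Q_23 - Q_33 Q_24)²` (`ring`). `(a + c) b = -ac`, so `abc * tau = -(a+c) b² tau ≥ 0`. `Coh` with `ε` = sign of
`abc`: `rk F = 3`: `ε (-1)^3 (-abc/2) ≥ 0`; `rk F = 2`: `ε tau ≥ 0`. So `-abc/2 = 0` (`F = inn X M`), a
contradiction. -/
def St_M3b : Prop := ∀ (X : Finset E) (u : E → ℤ) (L : E → Fin 5 → ℤ) (n : ℕ), Cx X u L →
  Lev X u n → rk (Od X u n) = 3 → ∀ d₁ d₂ : E, sp (Od X u n) ⊔ span (ZMod 2) {d₁, d₂} = ⊤ →
  cs X u (sp (Od X u n)) d₁ * cs X u (sp (Od X u n)) d₂ *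
    cs X u (sp (Od X u n)) (d₁ + d₂) = 0

/-- [M3c] (uses MAS, LIM, T2, LF2, CS, QF, TAU, CO2, KER) Order three, one nonzero sum `a`.
Proof. `M = sp (Od X u n)`, `D = out X M`, `W = M ⊔ span {d₁}`. MAS with `N = 3`, `t F = tau D (sp F) u 3` if `rk F = 2`, else
`0` (`rk F = 3`: T2, `F2 a 0 0 = 0`). Sign: basis `b 0, b 1 ∈ F`, `b 2 ∈ X ∩ M`, `b 3 ∈ X` in the class of `d₁` modulo `M`
(not empty, `a ≠ 0`), `b 4 ∈ X \ W`. `Q_33 = a` (classes `b 3`, `b 3 + b 4`: `a + 0`), `Q_44 = 0`, `Q_34 = 0`, so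
`tau = -a Q_24²`. `Coh` with `ε` = opposite sign of `a`. So `Q_24 = 0` for all flats `F` of rank two with
`sp (F ∩ Od X u n) = sp F`. Now let `b 0, b 1, b 2 ∈ Od X u n` be independent, `b 3, b 4` as before. For `k ≤ 2` take
`F = inn X (span {b i | i ≤ 2, i ≠ k})` and the permuted basis (CO2 (3)): `Qf L b D u k 4 = 0`. `Qf 3 4 = 0`,
`Qf 4 4 = 0`. `Qf L b D u i 4 = Qf L b (out X W) u i 4` (`co v 4 = 0` on `W`). KER. -/
def St_M3c : Prop := ∀ (X : Finset E) (u : E → ℤ) (L : E → Fin 5 → ℤ) (n : ℕ), Cx X u L →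
  Lev X u n → rk (Od X u n) = 3 → ∀ d₁ : E, cs X u (sp (Od X u n)) d₁ ≠ 0 → d₁ ∉ sp (Od X u n) →
  (∀ v, v ∉ sp (Od X u n) ⊔ span (ZMod 2) {d₁} → cs X u (sp (Od X u n)) v = 0) →
  Ker X u L (sp (Od X u n) ⊔ span (ZMod 2) {d₁})

/-- [M3d] (uses MAS, LIM, T2, T3, LF2, LF3, CS, BAL) Order four, one nonzero sum `a`.
Proof. `W = M ⊔ span {d₁}`, we may take `d₁ ∈ X` (same class, CS (1), (4)), `d₂ ∉ W`. `inn X W` spans `W`. MAS with `N = 4`,
`t F = -(cs X u (sp F) d₂)^4` if `rk F = 2`, else `0`. `rk F = 3`: T2, `F2 a 0 0 = 0`. `rk F = 1`: LIM, BAL (3).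
`rk F = 0`: LIM. `rk F = 2`: `G = sp F`, `p ∈ X ∩ M`, `p ∉ G`. T3: the sums are `a₁, a₂` (classes `d₁, d₁ + p`, `a₁ + a₂ = a`),
`β, -β` (`d₂, d₂ + p`), `γ, -γ` (`d₁ + d₂`, `d₁ + d₂ + p`). BAL (2) for `F ∪ {d₁}`: `β + γ = 0`. If `β = 0`: `F3 a₁ a₂ 0 0 0 0 = 0`.
If `β ≠ 0`: there is no `x ∈ X` with `x + d₁ + p ∈ G` (otherwise BAL (2) for `F ∪ {x}`: `β + (-γ) = 2β = 0`), so `a₂ = 0`
and LF3 (1). `Coh` with `ε = -1`. So `β = 0` for `F` with `sp (F ∩ Od X u n) = sp F`, and the sums of the four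
classes outside of `W` are `± β`. -/
def St_M3d : Prop := ∀ (X : Finset E) (u : E → ℤ) (L : E → Fin 5 → ℤ) (n : ℕ), Cx X u L →
  Lev X u n → rk (Od X u n) = 3 → ∀ d₁ : E, cs X u (sp (Od X u n)) d₁ ≠ 0 → d₁ ∉ sp (Od X u n) →
  (∀ v, v ∉ sp (Od X u n) ⊔ span (ZMod 2) {d₁} → cs X u (sp (Od X u n)) v = 0) →
  Ker X u L (sp (Od X u n) ⊔ span (ZMod 2) {d₁}) →
  ∀ F ∈ fl (inn X (sp (Od X u n))), rk F = 2 → sp (F ∩ Od X u n) = sp F →
    ∀ v, v ∉ sp (Od X u n) ⊔ span (ZMod 2) {d₁} → cs X u (sp F) v = 0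

/-- [M3f] (uses MAS, LIM, T2, T3, LF2, LF3, CS, QF, TAU, F7) All three sums zero, order four.
Proof. `M = sp (Od X u n)`, `D = out X M`. MAS with `N = 4`: `rk F = 3`: `t F = 0` (`F2 0 0 0 = 0`). `rk F = 2`: `G = sp F`, `α, β, γ` =
`cs X u G` of `d₁, d₂, d₁ + d₂`; `p ∈ X ∩ M \ G`; the sums of `d₁ + p, d₂ + p, d₁ + d₂ + p` are `-α, -β, -γ` (totals zero). If
`αβγ ≠ 0` all six classes contain elements of `X` (CS (4)): F7 for the basis `p, x₁, x₂, g₁, g₂` (`x₁, x₂ ∈ X` in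
the classes of `d₁, d₂`; `g₁, g₂ ∈ F`), contradiction. So `αβγ = 0`, T3 and LF3 (4): `t F = -(α²β²+β²γ²+γ²α²)`. `rk F = 1`:
`t F = tau D (sp F) u 4`. `rk F = 0`: `0`. `Coh` with `ε = -1`: for `rk F = 1` we need `tau ≥ 0`: basis `b 0 ∈ F`, `b 1, b 2 ∈ X ∩ M`,
`b 3, b 4 ∈ X \ M`. QF: `Q_33 = Q_34 = Q_44 = 0` (sums of classes modulo `M`), so `tau = (Q_13 Q_24 - Q_14 Q_23)²`
(TAU, `Matrix.det_succ_row_zero`, `ring`). -/
def St_M3f : Prop := ∀ (X : Finset E) (u : E → ℤ) (L : E → Fin 5 → ℤ) (n : ℕ), Cx X u L →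
  Lev X u n → rk (Od X u n) = 3 → (∀ v, v ∉ sp (Od X u n) → cs X u (sp (Od X u n)) v = 0) →
  ∀ F ∈ fl (inn X (sp (Od X u n))), sp (F ∩ Od X u n) = sp F →
    (rk F = 2 → ∀ d₁ d₂ : E, sp (Od X u n) ⊔ span (ZMod 2) {d₁, d₂} = ⊤ →
      cs X u (sp F) d₁ = 0 ∨ cs X u (sp F) d₂ = 0) ∧
    (rk F = 1 → tau (out X (sp (Od X u n))) (sp F) u 4 = 0)

/-- [M3g] (uses M3f, QF, CO2, TAU, CS) All three sums zero: the hyperplane `W`.
Proof. Let `o k ∈ Od X u n` be a basis of `M`, `x₁, x₂ ∈ X` with `M ⊔ span {x₁, x₂} = ⊤`, `b = (o 0, o 1, o 2, x₁, x₂)`,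
`D = out X M`. For `i ≤ 2` let `G_i` be the span of the two others, and `α_i, β_i, γ_i` the sums `cs X u G_i` of `x₁, x₂,
x₁ + x₂`. All `v ∈ D`: in the class of `x₁` `co v 4 = 0`, `co v 3 = ±1`; of `x₂`: `co v 3 = 0`; of `x₁ + x₂`: both nonzero,
`co v 3 * co v 4 = σ` (the sign of QF (2)), so `co v 4 = σ co v 3`. `Q_i3 = A_i + C_i`, `Q_i4 = B_i + σ C_i`, where `A_i` is the part
of the class of `x₁`, `C_i = ∑ u co_i co_3` over the class of `x₁ + x₂`, `B_i = ∑ u co_i co_4` over the class of `x₂`. By QF (2)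
(for subsets `D'` of `D`) `A_i = ± (sum of the x₁-class with co_i ≠ 0) = ± α_i` (total zero), `B_i = ± β_i`, `C_i = ± γ_i`. M3f
(rank two, for the three pairs of classes; `F = inn X G_i`): at most one of `A_i, B_i, C_i` is not zero. M3f (rank
one) for `F = inn X (span {o k})`, TAU with the permuted basis (`o k` first): `Q_i3 Q_j4 = Q_i4 Q_j3` for `{i, j, k} = {0, 1, 2}`.
If two different types occur for `i ≠ j` this is wrong (`A_i B_j`, `σ A_i C_j`, `- B_i C_j` are not zero). So there is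
one type such that the two other sums vanish for all `i`; `W = M ⊔ span {x₁}` if the other two are `B` and `C`
(type `A`), `M ⊔ span {x₂}` for type `B`, `M ⊔ span {x₁ + x₂}` for type `C`. Outside of `W` the classes modulo
`G_i` are `x₂, x₂ + o i, x₁ + x₂, x₁ + x₂ + o i` (type `A`), all sums are zero. -/
def St_M3g : Prop := ∀ (X : Finset E) (u : E → ℤ) (L : E → Fin 5 → ℤ) (n : ℕ), Cx X u L →
  Lev X u n → rk (Od X u n) = 3 → (∀ v, v ∉ sp (Od X u n) → cs X u (sp (Od X u n)) v = 0) →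
  ∃ (o : Fin 3 → E) (W : Submodule (ZMod 2) E), (∀ k, o k ∈ Od X u n) ∧ Rt X u o W

/-- [M3e] (uses M3c, M3d, CS) One nonzero sum: `Rt`.
Proof. `o k ∈ Od X u n` a basis of `M`, `W = M ⊔ span {d₁}`. `tot` is the hypothesis, `two` is M3d for
`F = inn X (span (o '' {i | i ≠ k}))`. -/
def St_M3e : Prop := ∀ (X : Finset E) (u : E → ℤ) (L : E → Fin 5 → ℤ) (n : ℕ), Cx X u L →
  Lev X u n → rk (Od X u n) = 3 → ∀ d₁ : E, cs X u (sp (Od X u n)) d₁ ≠ 0 → d₁ ∉ sp (Od X u n) →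
  (∀ v, v ∉ sp (Od X u n) ⊔ span (ZMod 2) {d₁} → cs X u (sp (Od X u n)) v = 0) →
  ∃ o : Fin 3 → E, (∀ k, o k ∈ Od X u n) ∧ Rt X u o (sp (Od X u n) ⊔ span (ZMod 2) {d₁})

/-! ## 6. The remaining structure -/

/-- [E0] (uses CS) Signs.
Proof. For `i ≠ k`: `cs (span {o k}) v + cs (span {o k}) (v + o i) = cs (span {o k, o i}) v = 0` by `two` for the third
index. -/
def St_E0 : Prop := ∀ (X : Finset E) (u : E → ℤ) (o : Fin 3 → E) (W : Submodule (ZMod 2) E),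
  Rt X u o W → ∀ v, v ∉ W → ∀ k,
  (∀ i, i ≠ k → cs X u (span (ZMod 2) {o k}) (v + o i) = - cs X u (span (ZMod 2) {o k}) v) ∧
  cs X u (span (ZMod 2) {o k}) (v + o k) = cs X u (span (ZMod 2) {o k}) v

/-- [E2] (uses E0, F7, CS) Not both outer cosets.
Proof. Assume both sums are not zero. `{i, j, k} = {0, 1, 2}`. By E0 and CS (4) every class modulo `o k` in the cosets
`v + M`, `v' + M` (`M = span (range o)`) contains an element of `X`. Choose `d, f ∈ X` in the classes of `v, v'`. F7 for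
the basis `o i, o j, d, o k, f` (independent: `v ∉ M`, `v' ∉ M ⊔ span {v}` since `v, v' ∉ W`, `v + v' ∈ W \ M`): the class of
`o i + o j` contains `f + x`.. : there is `x ∈ X` with `x + f + o i + o j ∈ span {o k}`, so `x + (o i + o j) ∈ span {o k, f}`; the
others are in `d + M`. Contradiction. -/
def St_E2 : Prop := ∀ (X : Finset E) (u : E → ℤ) (L : E → Fin 5 → ℤ) (o : Fin 3 → E)
  (W : Submodule (ZMod 2) E), Cx X u L → Rt X u o W → ∀ k v v', v ∉ W → v' ∉ W →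
  v + v' ∉ span (ZMod 2) (Set.range o) → cs X u (span (ZMod 2) {o k}) v ≠ 0 →
  cs X u (span (ZMod 2) {o k}) v' = 0

/-- [E1] (uses E2, CS) One outer coset and the inner coset.
Proof. `Cx.con` for `o k`: the elements `w ∈ X` with `cs X u (span {o k}) w ≠ 0` span `E` together with `o k`. Not all
of them are in `W`: this gives `v`. If all those in `W` were in `M = span (range o)`, then by E2 all of them were in
`M ⊔ span {v}`, of dimension four. -/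
def St_E1 : Prop := ∀ (X : Finset E) (u : E → ℤ) (L : E → Fin 5 → ℤ) (o : Fin 3 → E)
  (W : Submodule (ZMod 2) E), Cx X u L → Rt X u o W → ∀ k,
  (∃ v ∈ X, v ∉ W ∧ cs X u (span (ZMod 2) {o k}) v ≠ 0) ∧
  ∃ e ∈ X, e ∈ W ∧ e ∉ span (ZMod 2) (Set.range o) ∧ cs X u (span (ZMod 2) {o k}) e ≠ 0

/-- [E3] (uses E0, E1, F7, CS) `X` contains no other element of `M`.
Proof. Let `v ∈ X`, `v ∈ M`, `v ≠ o k` for all `k`; `v ≠ 0`. `v` has at least two nonzero coordinates `i, j` in the basis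
`o` of `M`; `k` the third, `v + o i + o j ∈ span {o k}`. Let `d ∈ X`, `d ∉ W` with a nonzero sum modulo `o k` (E1); all classes
modulo `o k` in `d + M` contain elements of `X` (E0, CS (4)). `f ∈ X` not in `M ⊔ span {d}`. F7 for `o i, o j, d, o k, f`. -/
def St_E3 : Prop := ∀ (X : Finset E) (u : E → ℤ) (L : E → Fin 5 → ℤ) (o : Fin 3 → E)
  (W : Submodule (ZMod 2) E), Cx X u L → Rt X u o W → ∀ v ∈ X,
  v ∈ span (ZMod 2) (Set.range o) → ∃ k, v = o k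

/-- [E5] (uses E0, E1, E2, F7s, CS) The outer coset is the same for all `k`.
Proof. `M = span (range o)`. For every `k` there is by E1, E2 exactly one outer coset of `M` on which the sums modulo `o k`
are not zero (E0: then all of them are not zero), on the other one they are all zero. If it is not the same
coset for all `k`, then one coset `C₂` belongs to one index only, say `k₁`, and the other one, `C₁`, to `k₂` and `k₃`.
Let `o₁, o₂, o₃` be `o k₁, o k₂, o k₃`; put `u = 0` outside of `X`. On `C₂`: `u v + u (v + o₂) = 0 = u v + u (v + o₃)`; so `X ∩ C₂` is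
invariant under `o₂, o₃`; it is not empty; `f₀ ∈ X ∩ C₂`. On `C₁`: `u v + u (v + o₂) ≠ 0`, `u v + u (v + o₃) ≠ 0` for all `v ∈ C₁`.
`e ∈ X`, `e ∈ W \ M` (E1). `z = f₀ + e + o₁ ∈ C₁`. Either `z` and `z + o₂ + o₃` are in `X`, or `z + o₂` and `z + o₃` are in `X` (if
`z ∉ X` then `z + o₂, z + o₃ ∈ X`; if `z + o₂ + o₃ ∉ X` then also). First case: F7s for the basis
`o₁, o₂, o₃, f₀ + o₂, e` with `x = z`, `y = z + o₂ + o₃`, third element `f₀ + o₃` (sums: `e`, `e`, `0`). Second case: F7s for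
the basis `o₁, o₂, o₃, f₀, e` with `z + o₂`, `z + o₃`, `f₀ + o₂ + o₃`. -/
def St_E5 : Prop := ∀ (X : Finset E) (u : E → ℤ) (L : E → Fin 5 → ℤ) (o : Fin 3 → E)
  (W : Submodule (ZMod 2) E), Cx X u L → Rt X u o W → ∀ k k' v v', v ∉ W → v' ∉ W →
  cs X u (span (ZMod 2) {o k}) v ≠ 0 → cs X u (span (ZMod 2) {o k'}) v' ≠ 0 →
  v + v' ∈ span (ZMod 2) (Set.range o)

/-- [E6] (uses E0, E1, E3, E5, F7, F7s, CS) The final structure.
Proof. `M = span (range o)`. By E1, E5, E0 there is `d ∈ X`, `d ∉ W` with nonzero sums modulo every `o k` on all of `d + M`,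
and on the other outer coset `C₂` all the sums modulo `o k` are zero. (1) `X ∩ C₂ = ∅`: otherwise (`u v = -u (v + o k)`
for `v ∈ C₂`) all eight elements of `C₂` are in `X`; `e ∈ X ∩ W \ M` from E1; F7s for `o 0, o 1, o 2, f, e`, `f ∈ C₂`. (2) For
`e ≠ e'` in `X ∩ W \ M`: `m = e + e' ∈ M` is some `o k`: otherwise `m + o i + o j ∈ span {o k}` for some `{i, j, k}`, F7 for
`o i, o j, d, o k, e` (`e' + (o i + o j) ∈ span {o k, e}`; the other three classes are in `d + M`). (3) Three different elements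
`e, e', e''` would give `o k + o l = o m`, impossible. One element `e` only: `sp (X.erase e) ≤ M ⊔ span {d}`, against
`Cx.col`. So there are exactly two, `e` and `e + o k`. (4) By E1 for this `k` there is `e'' ∈ {e, e + o k}` with a nonzero sum
modulo `o k`, and this sum is `u e + u (e + o k)`. -/
def St_E6 : Prop := ∀ (X : Finset E) (u : E → ℤ) (L : E → Fin 5 → ℤ) (o : Fin 3 → E)
  (W : Submodule (ZMod 2) E), Cx X u L → Rt X u o W →
  ∃ d ∈ X, d ∉ W ∧ (∀ k, cs X u (span (ZMod 2) {o k}) d ≠ 0) ∧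
    (∀ v ∈ X, v ∉ W → v + d ∈ span (ZMod 2) (Set.range o)) ∧
    ∃ e ∈ X, ∃ k, e ∈ W ∧ e ∉ span (ZMod 2) (Set.range o) ∧ e + o k ∈ X ∧
      (∀ w ∈ X, w ∈ W → w ∉ span (ZMod 2) (Set.range o) → w = e ∨ w = e + o k) ∧
      u e + u (e + o k) ≠ 0

/-- [M3C] (uses M3g, E6) All three sums zero is impossible.
Proof. `M = sp (Od X u n) = span (range o)` (dimensions). `cs X u M e = u e + u (e + o k)` (the elements of `X` in
`e + M` are `e` and `e + o k`; `e + M ⊆ W \ M`), it is zero by hypothesis. -/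
def St_M3C : Prop := ∀ (X : Finset E) (u : E → ℤ) (L : E → Fin 5 → ℤ) (n : ℕ), Cx X u L →
  Lev X u n → rk (Od X u n) = 3 →
  (∀ v, v ∉ sp (Od X u n) → cs X u (sp (Od X u n)) v = 0) → False

/-- [FT] (uses DC, T2, T3, LF3, CS) The limit of order five.
Proof. `K = span {o k}`, `D = D' ∪ {e, e'}`, `e' = e + o l`, `D' = X ∩ (d + M)`. DC twice: `TT D K = TT D' K + (x_e - 1) TT D' (K ⊔ e) +
(x_e' - 1) (TT D' (K ⊔ e') + (x_e - 1) TT D' (K ⊔ e' ⊔ e))`. `TT D' K = 0` (`D'` and `K` are in `M ⊔ span {d}`). T3 for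
`G = K ⊔ span {e}`, `p = o i`, `d₁ = o j`, `d₂ = d` (`{i, j, k} = {0,1,2}`): the sums of `D'` are `0, 0, s, -s, -s, s` with
`s = cs X u K d` (E0; `v + d ∈ G` and `v ∈ d + M` imply `v + d ∈ K`), so `TT D' G = S := F3 0 0 (x s) (-x s) (-x s) (x s)`; the same
for `K ⊔ span {e'}`. If `l = k`: `K ⊔ e' ⊔ e = K ⊔ e`, `TT D K = S (x_e x_e' - 1)`. If `l ≠ k`: `TT D' (K ⊔ e' ⊔ e) = 0` by T2 (the sums
modulo `span {o k, o l, e}` are zero), `TT D K = S ((x_e - 1) + (x_e' - 1))`. In both cases divide by `x⁵`: LF3 (1) with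
`a = 0` and `(x_e x_e' - 1)/x → u e + u e'`, resp. `((x_e - 1) + (x_e' - 1))/x →` the same. -/
def St_FT : Prop := ∀ (X : Finset E) (u : E → ℤ) (o : Fin 3 → E) (W : Submodule (ZMod 2) E),
  Rt X u o W → ∀ d ∈ X, d ∉ W → (∀ v ∈ X, v ∉ W → v + d ∈ span (ZMod 2) (Set.range o)) →
  ∀ e ∈ X, ∀ l, e ∈ W → e ∉ span (ZMod 2) (Set.range o) → e + o l ∈ X →
  (∀ w ∈ X, w ∈ W → w ∉ span (ZMod 2) (Set.range o) → w = e ∨ w = e + o l) → ∀ k,
  Tendsto (fun x : ℝ => TT (out X (span (ZMod 2) (Set.range o))) (span (ZMod 2) {o k}) (ex u x) /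
    (x : ℂ) ^ 5) (𝓝[>] 0) (𝓝 ((-((u e + u (e + o l) : ℤ) : ℝ) *
      ((cs X u (span (ZMod 2) {o k}) d : ℤ) : ℝ) ^ 4 : ℝ) : ℂ))

/-- [FIN] (uses MAS, LIM, T2, T3, LF2, LF3, CS, E3, E6, FT, KER, BAL) The last case.
Proof. `o k ∈ Od X u n`, `M = sp (Od X u n) = span (range o)`, `A = inn X M = {o 0, o 1, o 2}` (E3), `D = out X M`, data `d, e, l` from
E6, `a = u e + u (e + o l) ≠ 0`. MAS with `N = 5`: `t F = -a * (cs X u (sp F) d)^4` if `rk F = 1`, else `0`. `rk F = 3`: T2 with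
`d₁ = e`, `d₂ = d`: the sums are `a, 0, 0`, `F2 a 0 0 = 0`. `rk F = 2`: `F = {o i, o j}`, T3 with `p = o k`, `d₁ = e`, `d₂ = d`: the
outer sums are zero (`two`), `F3 a₁ a₂ 0 0 0 0 = 0`. `rk F = 1`: FT. `rk F = 0`: `F = ∅`, LIM and `tau D ⊥ u 5 = 0`: by KER (basis
`o 0, o 1, o 2, e, d`: `Qf i 4 = 0` for `i ≤ 2` by QF and `two`, `i = 3`: the elements outside of `W` have the coordinate
`3` equal to zero, `i = 4`: total zero) and BAL (3) (or TAU directly). `Coh` with `ε` = sign of `a`. So `t {o 0} = 0`, a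
contradiction. -/
def St_FIN : Prop := ∀ (X : Finset E) (u : E → ℤ) (L : E → Fin 5 → ℤ) (n : ℕ), Cx X u L →
  Lev X u n → rk (Od X u n) = 3 → ∀ (o : Fin 3 → E) (W : Submodule (ZMod 2) E),
  (∀ k, o k ∈ Od X u n) → Rt X u o W → False

/-- [M3] (uses M3a, M3b, M3e, M3C, FIN, CS) Rank three is impossible.
Proof. `M = sp (Od X u n)` of dimension three; three cosets outside. Let `a, b, c` be the sums. M3b: one of them is zero; M3a:
two of them are zero (for `c = 0`: `ab = 0`). If all are zero: M3C. If `a = cs X u M d₁ ≠ 0` only: M3e and FIN. -/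
def St_M3 : Prop := ∀ (X : Finset E) (u : E → ℤ) (L : E → Fin 5 → ℤ) (n : ℕ), Cx X u L →
  Lev X u n → rk (Od X u n) = 3 → False

/-- [TOP] (uses M1, M2, M3) There is no minimal counterexample.
Proof. Let `n` be the least number with `rk (Od X u n) ≥ 3` (it exists: for large `n` no `u v ≠ 0` is divisible by
`2 ^ n`, `Od X u n = X`, rank five). `Od X u 0 = ∅`, so `n ≥ 1` and `Lev X u n`. -/
def St_TOP : Prop := ∀ (X : Finset E) (u : E → ℤ) (L : E → Fin 5 → ℤ), ¬ Cx X u L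

end Pool.Agent.TRG
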