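import Pool.Agent.TRG.St
import Pool.Agent.TRA.Reg

/-!
# TRG : the reduction to `Cx` (captain: helper62)
-/

set_option autoImplicit false

open Submodule
open Pool.Agent.SPT Pool.Agent.SPT.Rel

namespace Pool.Agent.TRG

/-- a counterexample in `E`, all proper subsets of which satisfy `NonV` -/
structure MinC (X : Finset E) (u : E → ℤ) (L : E → Fin 5 → ℤ) : Prop where
  zero : (0 : E) ∉ X
  spn : sp X = ⊤
  nz : ∀ v ∈ X, u v ≠ 0
  cir : ∀ z : ℂ, ‖z‖ = 1 → PP X ⊥ (fun v => z ^ u v) = 0
  min : ∀ Y : Finset E, Y ⊆ X → Y ≠ X → NonV Y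
  uni : Uni X L

/-- [REDa] Transfer.
Proof. Assume that `RankReg 5` is wrong. Choose `V`, `X`, `TRL.Reg X`, rank at most five, `¬ NonV X`, with the
least number of elements. `0 ∉ X` (as in `thm_Rank4`, `PP_loop`: otherwise `X.erase 0` is smaller; `TRL.Reg.mono`).
The rank is five (`thm_Rank4`). `TRL.Reg.regular` gives `r = 5`, `φ`, `L`. `φ` is injective on `span X`, so bijective
from `span X` to `E` (dimensions); `e : E → V` its inverse, a linear injective map with image `span X` and
`φ (e y) = y`. `X' = {y | e y ∈ X}`, `X'.image e = X`, `u' = u ∘ e`, `L' = L ∘ e`; `R4.PP_image` (there for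
`Fin 4 → ZMod 2`, the same proof for `E`). A proper subset `Y` of `X'`: `Y.image e` is a proper subset of `X`, so it
satisfies `NonV` (minimality), and then `Y` satisfies `NonV` (weights `u (φ v)`; `PP_image`). -/
def St_REDa : Prop := (∀ (X : Finset E) (u : E → ℤ) (L : E → Fin 5 → ℤ), ¬ MinC X u L) → TRA.RankReg 5

/-- [REDb] The properties in `Cx`.
Proof. `van`: `SumNV_PP`: a Laurent polynomial which is zero on the circle (`SumNV_circle`) is zero for all
`z ≠ 0`. `col`: let `v ∉ sp (X.erase v)`; `thm_Sum` for `X.erase v` and `{v}` (both `NonV` by `thm_Rank4`, rank at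
most four: `sp (X.erase v) ≠ ⊤`) gives `NonV X`, against `cir`. `con`: by `col`, `PP X ⊥ x = PP (X.erase v) ⊥ x +
(x v - 1) * TT (X.erase v) (span {v}) x` (split the subsets `W` of `X` according to `v ∈ W`; `Spans ⊥ X W` iff
`sp W = ⊤`, the same for `X.erase v`). Let `S = span ({v} ∪ {w | w ∈ X ∧ cs X u (span {v}) w ≠ 0}) ≠ ⊤`. Claim:
`TT (X.erase v) (span {v}) (z ^ u) = 0`. Then `PP (X.erase v) ⊥ (z ^ u) = 0` for all `z` of norm one, against `min`.
Proof of the claim: the elements of `X.erase v` not in `S` fall into classes `{w, w + v}` modulo `v` (`w + v ∉ S`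
as well; `w + v` in `X` or not) with `cs X u (span {v}) w = 0`, so `∏ (1 + (x - 1)) = z ^ 0 = 1` over the class.
Fix `W₀ = W ∩ S` and a class: the condition `span {v} ⊔ sp W = ⊤` depends only on whether `W` meets the class. Let
`c` be one such class (there is one: `sp X = ⊤`, `S ≠ ⊤`); for instance by induction over the number of these
classes: `TT B K x` does not change if a class `c` (elements which are equal modulo `K`, not in `K`) with
`∏ x = 1` is removed from `B`: the sum over `W ∩ c` nonempty of `∏ (x - 1)` is `∏ x - 1 = 0`. At the end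
`B ⊆ S`, and `K ⊔ sp W ≤ S ≠ ⊤`. -/
def St_REDb : Prop := ∀ (X : Finset E) (u : E → ℤ) (L : E → Fin 5 → ℤ), MinC X u L → Cx X u L

end Pool.Agent.TRG
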