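import Pool.Agent.TRG.St

/-!
# TRG: the coherence statement (helper19)

The definition `St_CL` is in the file `St`: `O = Od A u n`, `O' = Od A u (n - 1)` has rank at most two; the
numbers `t F` are coherent. If the sum over the flats of `A` of `t F` times the value at the weights
`ζ ^ u` vanishes for all primitive roots `ζ` of order `2 ^ n`, then `t F = 0` for all flats spanned by
elements of `O`.
-/
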